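import Mathlib

/-! A two-dimensional Selberg sieve in diagonal form and the additive energy of the primes. The
one-dimensional part is adapted from the sieve file of problem d0fd9b. -/

namespace Pool.Agent.MP_f0209c_nt.Ch
open Finset Filter

lemma sum_periodic_le {Φ : ℕ → ℝ} {L : ℕ} (hL : 0 < L) (hp : Function.Periodic Φ L)
    (h1 : ∀ k, Φ k ≤ 1) {μ : ℝ} (hμ : 0 ≤ μ) (h : ∑ k ∈ range L, Φ k ≤ L * μ) (K : ℕ) :
    ∑ k ∈ range K, Φ k ≤ K * μ + L := by
  induction K using Nat.strong_induction_on with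
  | _ K ih =>
    rcases Nat.lt_or_ge K L with hK | hK
    · have h2 : ∑ k ∈ range K, Φ k ≤ K := by simpa using sum_le_sum (s := range K) fun k _ => h1 k
      have h3 : (K : ℝ) ≤ L := by exact_mod_cast hK.le
      have : 0 ≤ (K : ℝ) * μ := by positivity
      linarith
    · obtain ⟨K', rfl⟩ := Nat.exists_eq_add_of_le hK
      have h2 := ih K' (by omega)
      rw [sum_range_add]
      simp_rw [add_comm L, hp _]
      push_cast
      linarith

lemma sum_mul_coprime {f g : ℕ → ℝ} {r s : ℕ} (hr : r ≠ 0) (hs : s ≠ 0) (hc : r.Coprime s)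
    (hf : Function.Periodic f r) (hg : Function.Periodic g s) :
    ∑ k ∈ range (r * s), f k * g k = (∑ k ∈ range r, f k) * ∑ k ∈ range s, g k := by
  rw [sum_mul_sum, ← sum_product']
  refine sum_nbij (fun k => (k % r, k % s)) (fun k _ => ?_) (fun k hk k' hk' h => ?_)
    (fun x hx => ?_) fun k _ => by rw [hf.map_mod_nat, hg.map_mod_nat]
  · simp [Nat.mod_lt _ (Nat.pos_of_ne_zero hr), Nat.mod_lt _ (Nat.pos_of_ne_zero hs)]
  · simp only [Prod.mk.injEq] at h
    simp only [coe_range, Set.mem_Iio] at hk hk'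
    exact Nat.ModEq.eq_of_lt_of_lt ((Nat.modEq_and_modEq_iff_modEq_mul hc).1 h) hk hk'
  · simp only [coe_product, coe_range, Set.mem_prod, Set.mem_Iio] at hx
    refine ⟨Nat.chineseRemainder hc x.1 x.2, by
      simpa using Nat.chineseRemainder_lt_mul hc _ _ hr hs, ?_⟩
    have := (Nat.chineseRemainder hc x.1 x.2).2
    exact Prod.ext (Eq.trans this.1 (Nat.mod_eq_of_lt hx.1))
      (Eq.trans this.2 (Nat.mod_eq_of_lt hx.2))

lemma periodic_prod {φ : ℕ → ℕ → ℝ} (hφ : ∀ l, Function.Periodic (φ l) l) (U : Finset ℕ) :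
    Function.Periodic (fun k => ∏ l ∈ U, φ l k) (∏ l ∈ U, l) := fun k =>
  prod_congr rfl fun l hl => by
    obtain ⟨c, hc⟩ := dvd_prod_of_mem (fun l => l) hl
    rw [hc, mul_comm]
    exact (hφ l).nat_mul c k

lemma sum_prod_primes {φ : ℕ → ℕ → ℝ} (hφ : ∀ l, Function.Periodic (φ l) l) (U : Finset ℕ)
    (hU : ∀ l ∈ U, l.Prime) :
    ∑ k ∈ range (∏ l ∈ U, l), ∏ l ∈ U, φ l k = ∏ l ∈ U, ∑ k ∈ range l, φ l k := by
  induction U using Finset.induction_on with
  | empty => simp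
  | insert l U hl ih =>
    have h1 : ∀ l' ∈ U, l'.Prime := fun l' h => hU l' (mem_insert_of_mem h)
    have h2 := hU l (mem_insert_self _ _)
    simp_rw [prod_insert hl]
    rw [sum_mul_coprime h2.ne_zero (prod_ne_zero_iff.2 fun l' h => (h1 l' h).ne_zero)
      (Nat.Coprime.prod_right fun l' h => (Nat.coprime_primes h2 (h1 l' h)).2 (by
        rintro rfl; exact hl h)) (hφ l) (periodic_prod hφ U), ih h1]

/-- sets of primes with small product -/
def sets (P : Finset ℕ) (z : ℕ) : Finset (Finset ℕ) := P.powerset.filter fun S => ∏ l ∈ S, l ≤ z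

/-- the main sum of the sieve -/
noncomputable def GG (ρ : ℕ → ℝ) (P : Finset ℕ) (z : ℕ) : ℝ := ∑ S ∈ sets P z, ∏ l ∈ S, ρ l

lemma one_le_GG {ρ : ℕ → ℝ} (h0 : ∀ l, 0 ≤ ρ l) (P : Finset ℕ) {z : ℕ} (hz : 1 ≤ z) :
    1 ≤ GG ρ P z := by
  have := single_le_sum (s := sets P z) (f := fun S : Finset ℕ => ∏ l ∈ S, ρ l)
    (fun S _ => prod_nonneg fun l _ => h0 l) (a := ∅) (by simp [sets, hz])
  simpa [GG] using this

lemma selberg {z : ℕ} (hz : 1 ≤ z) {P : Finset ℕ} {B : ℕ → ℕ → Prop} [∀ l, DecidablePred (B l)]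
    {ρ : ℕ → ℝ} (hB : ∀ l k, B l (k + l) ↔ B l k) (h0 : ∀ l, 0 ≤ ρ l)
    (hP : ∀ l ∈ P, l.Prime ∧ ρ l ≤ 1 ∧ ∀ x y : ℝ,
      ∑ k ∈ range l, (if B l k then x else y) = l * (ρ l * x + (1 - ρ l) * y)) (K : ℕ) :
    (((range K).filter fun k => ∀ l ∈ P, ¬ B l k).card : ℝ) ≤ K / GG ρ P z + z ^ 4 := by
  let φ : ℕ → ℕ → ℝ := fun l k => if B l k then ρ l - 1 else ρ l
  have hφ : ∀ l, Function.Periodic (φ l) l := fun l k => by simp only [φ, hB]
  have hφ1 : ∀ l ∈ P, ∀ k, |φ l k| ≤ 1 := fun l hl k => by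
    have h2 := (hP l hl).2.1
    have h3 := h0 l
    simp only [φ]
    split_ifs <;> rw [abs_le] <;> constructor <;> linarith
  have hmem : ∀ S ∈ sets P z, S ⊆ P ∧ ∏ l ∈ S, l ≤ z := fun S hS => by
    simpa [sets] using hS
  have hcard : ((sets P z).card : ℝ) ≤ z := by
    have := card_le_card_of_injOn (s := sets P z) (t := Icc 1 z) (fun S => ∏ l ∈ S, l)
      (fun S hS => by
        simp only [coe_Icc, Set.mem_Icc]
        exact ⟨prod_pos fun l hl => (hP l ((hmem S hS).1 hl)).1.pos, (hmem S hS).2⟩)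
      fun S hS T hT h => by
        rw [← Nat.primeFactors_prod fun l hl => (hP l ((hmem S hS).1 hl)).1,
          ← Nat.primeFactors_prod fun l hl => (hP l ((hmem T hT).1 hl)).1]
        exact congrArg _ h
    exact_mod_cast this.trans (by simp)
  have hpair : ∀ S ∈ sets P z, ∀ T ∈ sets P z,
      ∑ k ∈ range K, (∏ l ∈ S, φ l k) * ∏ l ∈ T, φ l k ≤
        (if S = T then K * ∏ l ∈ S, ρ l else 0) + z ^ 2 := fun S hS T hT => by
    obtain ⟨s1, s2⟩ := hmem S hS
    obtain ⟨t1, t2⟩ := hmem T hT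
    have u1 : S ∪ T ⊆ P := union_subset s1 t1
    let ψ : ℕ → ℕ → ℝ := fun l k => (if l ∈ S then φ l k else 1) * if l ∈ T then φ l k else 1
    have hψ : ∀ l, Function.Periodic (ψ l) l := fun l k => by simp only [ψ, hφ l k]
    have e : ∀ k, (∏ l ∈ S, φ l k) * ∏ l ∈ T, φ l k = ∏ l ∈ S ∪ T, ψ l k := fun k => by
      simp only [ψ, prod_mul_distrib, prod_ite_mem, union_inter_cancel_left,
        union_inter_cancel_right]
    have hL : ((∏ l ∈ S ∪ T, l : ℕ) : ℝ) ≤ z ^ 2 := by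
      have h1 : ∏ l ∈ S ∪ T, l ≤ (∏ l ∈ S, l) * ∏ l ∈ T, l := by
        rw [← prod_union_inter]
        exact Nat.le_mul_of_pos_right _ (prod_pos fun l hl =>
          (hP l (s1 (mem_inter.1 hl).1)).1.pos)
      exact_mod_cast h1.trans (by rw [sq]; exact Nat.mul_le_mul s2 t2)
    have := sum_periodic_le (L := ∏ l ∈ S ∪ T, l) (prod_pos fun l hl => (hP l (u1 hl)).1.pos)
      (periodic_prod hψ (S ∪ T)) (fun k => by
        rw [← e]
        refine (le_abs_self _).trans ?_
        rw [abs_mul, abs_prod, abs_prod]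
        exact mul_le_one₀ (prod_le_one (fun _ _ => abs_nonneg _) fun l hl => hφ1 l (s1 hl) k)
          (by positivity) (prod_le_one (fun _ _ => abs_nonneg _) fun l hl => hφ1 l (t1 hl) k))
      (μ := if S = T then ∏ l ∈ S, ρ l else 0) (by
        split_ifs
        exacts [prod_nonneg fun l _ => h0 l, le_rfl]) (by
        rw [sum_prod_primes hψ _ fun l hl => (hP l (u1 hl)).1]
        split_ifs with h
        · subst h
          rw [union_self, Nat.cast_prod, ← prod_mul_distrib]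
          refine prod_le_prod (fun l hl => sum_nonneg fun k _ => by
            simp only [ψ, if_pos hl]; exact mul_self_nonneg _) fun l hl => ?_
          have h1 : (0 : ℝ) < l := by exact_mod_cast (hP l (s1 hl)).1.pos
          simp only [ψ, φ, if_pos hl, ite_mul_ite]
          rw [(hP l (s1 hl)).2.2]
          exact mul_le_mul_of_nonneg_left (by nlinarith [sq_nonneg (ρ l)]) h1.le
        · rw [mul_zero]
          obtain ⟨l, hl⟩ : ∃ l, ¬ (l ∈ S ↔ l ∈ T) := by
            by_contra hc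
            exact h (Finset.ext fun l => not_not.1 fun h' => hc ⟨l, h'⟩)
          have h1 : l ∈ S ∪ T := by rw [mem_union]; tauto
          have h3 : ∀ k, ψ l k = φ l k := fun k => by
            by_cases h4 : l ∈ S <;> by_cases h5 : l ∈ T <;> simp_all [ψ]
          refine (prod_eq_zero h1 ?_).le
          simp only [h3, φ]
          rw [(hP l (u1 h1)).2.2]
          ring) K
    simp_rw [e]
    refine this.trans (add_le_add (le_of_eq ?_) hL)
    split_ifs <;> simp
  have hG := one_le_GG h0 P hz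
  have main : (((range K).filter fun k => ∀ l ∈ P, ¬ B l k).card : ℝ) * GG ρ P z ^ 2 ≤
      K * GG ρ P z + z ^ 4 := by
    calc _ = ∑ k ∈ (range K).filter fun k => ∀ l ∈ P, ¬ B l k,
          (∑ S ∈ sets P z, ∏ l ∈ S, φ l k) ^ 2 := by
          rw [← nsmul_eq_mul, ← sum_const]
          refine sum_congr rfl fun k hk => ?_
          congr 1
          refine sum_congr rfl fun S hS => prod_congr rfl fun l hl => ?_
          simp only [φ, if_neg ((mem_filter.1 hk).2 l ((hmem S hS).1 hl))]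
      _ ≤ ∑ k ∈ range K, (∑ S ∈ sets P z, ∏ l ∈ S, φ l k) ^ 2 :=
          sum_le_sum_of_subset_of_nonneg (filter_subset _ _) fun _ _ _ => sq_nonneg _
      _ = ∑ S ∈ sets P z, ∑ T ∈ sets P z,
          ∑ k ∈ range K, (∏ l ∈ S, φ l k) * ∏ l ∈ T, φ l k := by
          simp_rw [sq, sum_mul_sum]
          rw [sum_comm]
          exact sum_congr rfl fun S _ => sum_comm
      _ ≤ ∑ S ∈ sets P z, ∑ T ∈ sets P z,
          ((if S = T then K * ∏ l ∈ S, ρ l else 0) + z ^ 2) :=
          sum_le_sum fun S hS => sum_le_sum fun T hT => hpair S hS T hT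
      _ = K * GG ρ P z + (sets P z).card * ((sets P z).card * z ^ 2) := by
          simp only [sum_add_distrib, sum_const, nsmul_eq_mul, GG, mul_sum]
          congr 1
          exact sum_congr rfl fun S hS => by rw [sum_ite_eq, if_pos hS]
      _ ≤ K * GG ρ P z + z * (z * z ^ 2) := by gcongr
      _ = _ := by ring
  have h1 : (z : ℝ) ^ 4 ≤ z ^ 4 * GG ρ P z ^ 2 :=
    le_mul_of_one_le_right (by positivity) (one_le_pow₀ hG)
  have h2 : (K / GG ρ P z + z ^ 4) * GG ρ P z ^ 2 = K * GG ρ P z + z ^ 4 * GG ρ P z ^ 2 := by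
    field_simp
  exact le_of_mul_le_mul_right (by rw [h2]; linarith) (by positivity : 0 < GG ρ P z ^ 2)

lemma sum_le_of_injOn {α β : Type} [DecidableEq β] {s : Finset α} {t : Finset β} {f : α → ℝ}
    {g : β → ℝ} (e : α → β) (h1 : ∀ x ∈ s, e x ∈ t) (h2 : Set.InjOn e s)
    (h3 : ∀ x ∈ s, f x = g (e x)) (h4 : ∀ y, 0 ≤ g y) : ∑ x ∈ s, f x ≤ ∑ y ∈ t, g y := by
  rw [sum_congr rfl h3, ← sum_image h2]
  exact sum_le_sum_of_subset_of_nonneg (image_subset_iff.2 h1) fun _ _ _ => h4 _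

lemma log_le_GG (z : ℕ) : Real.log z ≤ 2 * GG (fun l => 1 / l) ((Icc 1 z).filter Nat.Prime) z := by
  have h1 : Real.log z ≤ ∑ n ∈ Icc 1 z, (1 / n : ℝ) := by
    have := log_le_harmonic_floor z (Nat.cast_nonneg z)
    rw [Nat.floor_natCast, harmonic_eq_sum_Icc] at this
    simpa using this
  have h2 : ∑ n ∈ Icc 1 z, (1 / n ^ 2 : ℝ) ≤ 2 := by
    have := sum_Ioo_inv_sq_le (α := ℝ) 0 (z + 1)
    have e : Ioo 0 (z + 1) = Icc 1 z := by ext; simp; omega
    rw [e] at this
    simpa using this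
  choose d s hds hd using Nat.sq_mul_squarefree
  have h3 : ∀ n ∈ Icc 1 z, s n ∈ Icc 1 z ∧ d n ≤ z := fun n hn => by
    rw [mem_Icc] at hn ⊢
    have h4 := hds n
    have h5 : 0 < s n := Nat.pos_of_ne_zero fun h => by rw [h] at h4; omega
    have h6 : 0 < d n := Nat.pos_of_ne_zero (hd n).ne_zero
    refine ⟨⟨h5, ?_⟩, ?_⟩ <;> nlinarith [Nat.mul_pos h5 h5, Nat.mul_pos h5 h6]
  calc _ ≤ ∑ n ∈ Icc 1 z, (1 / n : ℝ) := h1
    _ ≤ ∑ x ∈ Icc 1 z ×ˢ sets ((Icc 1 z).filter Nat.Prime) z,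
        (1 / (x.1 : ℝ) ^ 2) * ∏ l ∈ x.2, (1 / l : ℝ) := by
        refine sum_le_of_injOn (fun n => (s n, (d n).primeFactors)) (fun n hn => ?_)
          (fun n _ n' _ h => ?_) (fun n _ => ?_) fun _ => by positivity
        · simp only [sets, mem_product, mem_filter, mem_powerset,
            Nat.prod_primeFactors_of_squarefree (hd n)]
          refine ⟨(h3 n hn).1, fun l hl => ?_, (h3 n hn).2⟩
          have := Nat.prime_of_mem_primeFactors hl
          exact mem_filter.2 ⟨mem_Icc.2 ⟨this.pos, (Nat.le_of_mem_primeFactors hl).trans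
            (h3 n hn).2⟩, this⟩
        · simp only [Prod.mk.injEq] at h
          rw [← hds n, ← hds n', h.1, ← Nat.prod_primeFactors_of_squarefree (hd n), h.2,
            Nat.prod_primeFactors_of_squarefree (hd n')]
        · simp only [prod_div_distrib, prod_const_one]
          rw [← Nat.cast_prod, Nat.prod_primeFactors_of_squarefree (hd n), div_mul_div_comm,
            one_mul]
          congr 1
          exact_mod_cast (hds n).symm
    _ = (∑ n ∈ Icc 1 z, (1 / n ^ 2 : ℝ)) * GG (fun l => 1 / l) ((Icc 1 z).filter Nat.Prime) z := by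
        rw [GG, sum_mul_sum, sum_product]
    _ ≤ _ := mul_le_mul_of_nonneg_right h2 (sum_nonneg fun _ _ => by positivity)

lemma GG_le {P : Finset ℕ} (hP : ∀ l ∈ P, l.Prime) {q : ℕ} (hq : q ≠ 0) (z : ℕ) :
    GG (fun l => 1 / l) P z ≤ (∏ l ∈ q.primeFactors, (1 + 1 / l : ℝ)) *
      GG (fun l => 1 / l) (P.filter fun l => ¬ l ∣ q) z := by
  rw [prod_one_add, GG, GG, sum_mul_sum, ← sum_product']
  refine sum_le_of_injOn (fun S => (S.filter (· ∣ q), S.filter fun l => ¬ l ∣ q))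
    (fun S hS => ?_) (fun S _ T _ h => ?_) (fun S _ => ?_) fun _ => by positivity
  · simp only [sets, mem_product, mem_filter, mem_powerset] at hS ⊢
    refine ⟨fun l hl => ?_, filter_subset_filter _ hS.1, le_trans ?_ hS.2⟩
    · rw [mem_filter] at hl
      exact Nat.mem_primeFactors.2 ⟨hP l (hS.1 hl.1), hl.2, hq⟩
    · exact prod_le_prod_of_subset_of_one_le' (filter_subset _ _) fun l hl _ =>
        (hP l (hS.1 hl)).one_le
  · simp only [Prod.mk.injEq] at h
    rw [← filter_union_filter_not_eq (· ∣ q) S, ← filter_union_filter_not_eq (· ∣ q) T,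
      h.1, h.2]
  · exact (prod_filter_mul_prod_filter_not S (· ∣ q) _).symm

lemma sum_inv_sq_le {P : Finset ℕ} (hP : ∀ l ∈ P, 0 < l) : ∑ l ∈ P, (1 / l ^ 2 : ℝ) ≤ 2 := by
  have := sum_Ioo_inv_sq_le (α := ℝ) 0 (P.sup id + 1)
  simp only [Nat.cast_zero, zero_add, div_one] at this
  refine le_trans ?_ this
  simp only [one_div]
  exact sum_le_sum_of_subset_of_nonneg (fun l hl => mem_Ioo.2 ⟨hP l hl,
    Nat.lt_succ_of_le (le_sup (f := id) hl)⟩) fun _ _ _ => by positivity

lemma prod_one_add_le {P : Finset ℕ} (hP : ∀ l ∈ P, 0 < l) {c : ℝ} (hc : 0 ≤ c) :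
    ∑ S ∈ P.powerset, ∏ l ∈ S, (c / l ^ 2 : ℝ) ≤ Real.exp (2 * c) := by
  rw [← prod_one_add]
  refine (prod_le_prod (g := fun l : ℕ => Real.exp (c / l ^ 2)) (fun _ _ => by positivity)
    fun l _ => by linarith [Real.add_one_le_exp (c / l ^ 2)]).trans ?_
  rw [← Real.exp_sum, Real.exp_le_exp]
  have := mul_le_mul_of_nonneg_left (sum_inv_sq_le hP) hc
  simpa [mul_sum, div_eq_mul_inv, mul_comm] using this

lemma GG_sq {P : Finset ℕ} (hP : ∀ l ∈ P, 0 < l) (w : ℕ) :
    GG (fun l => 1 / l) P w ^ 2 ≤ Real.exp 2 * GG (fun l => 2 / l) P (w ^ 2) := by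
  have e : GG (fun l => 2 / l) P (w ^ 2) =
      ∑ x ∈ (sets P (w ^ 2)).sigma fun U => U.powerset, ∏ l ∈ x.1, (1 / l : ℝ) := by
    rw [sum_sigma, GG]
    refine sum_congr rfl fun U _ => ?_
    simp [div_eq_mul_inv, prod_mul_distrib]
  have := prod_one_add_le hP zero_le_one
  rw [mul_one] at this
  refine le_trans ?_ (mul_le_mul_of_nonneg_right this (sum_nonneg fun _ _ => by positivity))
  rw [e, sq, GG, sum_mul_sum, sum_mul_sum, ← sum_product', ← sum_product']
  refine sum_le_of_injOn (fun x => (x.1 ∩ x.2, ⟨x.1 \ x.2 ∪ x.2 \ x.1, x.1 \ x.2⟩))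
    (fun x hx => ?_) (fun x _ y _ h => ?_) (fun x _ => ?_) fun _ => by positivity
  · simp only [sets, mem_product, mem_filter, mem_powerset, mem_sigma] at hx ⊢
    obtain ⟨⟨a, b⟩, c, d⟩ := hx
    refine ⟨inter_subset_left.trans a, ⟨union_subset (sdiff_subset.trans a) (sdiff_subset.trans c),
      ?_⟩, subset_union_left⟩
    rw [prod_union disjoint_sdiff_sdiff, sq]
    exact Nat.mul_le_mul
      ((prod_le_prod_of_subset_of_one_le' sdiff_subset fun l hl _ => hP l (a hl)).trans b)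
      ((prod_le_prod_of_subset_of_one_le' sdiff_subset fun l hl _ => hP l (c hl)).trans d)
  · simp only [Prod.mk.injEq, Sigma.mk.injEq, heq_eq_eq] at h
    obtain ⟨a, b, c⟩ := h
    simp only [Finset.ext_iff, mem_inter, mem_union, Finset.mem_sdiff] at a b c
    refine Prod.ext (Finset.ext fun l => ?_) (Finset.ext fun l => ?_) <;>
      have := a l <;> have := b l <;> have := c l <;> tauto
  · dsimp only
    rw [prod_union disjoint_sdiff_sdiff, ← prod_inter_mul_prod_sdiff x.1 x.2,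
      ← prod_inter_mul_prod_sdiff x.2 x.1, inter_comm x.2 x.1]
    simp only [one_div, ← inv_pow, prod_pow]
    ring

lemma two_classes {l j : ℕ} (hl : l.Prime) (hj : ¬ l ∣ j) (x y : ℝ) :
    ∑ k ∈ range l, (if l ∣ k ∨ l ∣ k + j then x else y) = l * (2 / l * x + (1 - 2 / l) * y) := by
  have l0 : (l : ℝ) ≠ 0 := by exact_mod_cast hl.ne_zero
  have c : ∀ a : ℕ, ∑ k ∈ range l, (if l ∣ k + a then 1 else 0 : ℝ) = 1 := fun a => by
    have := Nat.count_modEq_card l hl.pos (l - a % l)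
    rw [sum_boole]
    have e : (range l).filter (fun k => l ∣ k + a) =
        (range l).filter fun k => k ≡ l - a % l [MOD l] := filter_congr fun k _ => by
      rw [← Nat.modEq_zero_iff_dvd]
      have a1 : l - a % l + a ≡ 0 [MOD l] := by
        rw [Nat.modEq_zero_iff_dvd]
        refine ⟨1 + a / l, ?_⟩
        have := Nat.mod_add_div a l
        have := Nat.mod_lt a hl.pos
        rw [mul_add]; omega
      exact ⟨fun h => Nat.ModEq.add_right_cancel' a (h.trans a1.symm),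
        fun h => (h.add_right a).trans a1⟩
    rw [e, ← Nat.count_eq_card_filter_range, this]
    simp [hl.pos]
  have e : ∀ k, (if l ∣ k ∨ l ∣ k + j then x else y) = y + (x - y) * (if l ∣ k + 0 then 1 else 0) +
      (x - y) * (if l ∣ k + j then 1 else 0) := fun k => by
    by_cases a : l ∣ k <;> by_cases b : l ∣ k + j
    · exact absurd ((Nat.dvd_add_right a).1 b) hj
    all_goals simp [a, b]
  simp only [e, sum_add_distrib, ← mul_sum, c, sum_const, card_range, nsmul_eq_mul]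
  field_simp; ring

/-- the number of prime pairs with difference `j` -/
def rr (N j : ℕ) : ℕ := ((Nat.primesLE N).filter fun p => (p + j).Prime).card

lemma rr_le {N j w : ℕ} (hj : j ≠ 0) (hw : 2 ≤ w) (hN : 1 ≤ N) : (rr N j : ℝ) ≤
    8 * Real.exp 2 * N / Real.log w ^ 2 * (∏ l ∈ j.primeFactors, (1 + 1 / l : ℝ)) ^ 2 +
      2 * w ^ 8 := by
  set P := ((Icc 1 w).filter Nat.Prime).filter fun l => ¬ l ∣ j with hP
  have pr : ∀ l ∈ P, l.Prime ∧ ¬ l ∣ j ∧ l ≤ w := fun l hl => by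
    simp only [hP, mem_filter, mem_Icc] at hl; exact ⟨hl.1.2, hl.2, hl.1.1.2⟩
  have h1 := selberg (z := w ^ 2) (P := P) (B := fun l k => l ∣ k ∨ l ∣ k + j)
    (ρ := fun l => 2 / l) (by nlinarith) (fun l k => by
      rw [add_right_comm, Nat.dvd_add_self_right, Nat.dvd_add_self_right])
    (fun l => by positivity) (fun l hl => ⟨(pr l hl).1, by
      have : (2 : ℝ) ≤ l := by exact_mod_cast (pr l hl).1.two_le
      exact (div_le_one (by linarith)).2 this, two_classes (pr l hl).1 (pr l hl).2.1⟩) (N + 1)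
  have h2 : rr N j ≤ ((range (N + 1)).filter fun k => ∀ l ∈ P, ¬ (l ∣ k ∨ l ∣ k + j)).card + w := by
    have : ((Nat.primesLE N).filter fun p => (p + j).Prime) ⊆
        ((range (N + 1)).filter fun k => ∀ l ∈ P, ¬ (l ∣ k ∨ l ∣ k + j)) ∪ Icc 1 w := fun p hp => by
      simp only [mem_filter, mem_Icc, mem_union, mem_range, Nat.mem_primesLE] at hp ⊢
      obtain ⟨⟨p1, p2⟩, p3⟩ := hp
      rcases le_or_gt p w with h | h
      · exact Or.inr ⟨p2.pos, h⟩
      · refine Or.inl ⟨by omega, fun l hl hd => ?_⟩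
        obtain ⟨a, -, c⟩ := pr l (by simpa [hP] using hl)
        rw [Nat.prime_dvd_prime_iff_eq a p2, Nat.prime_dvd_prime_iff_eq a p3] at hd
        omega
    exact (card_le_card this).trans ((card_union_le _ _).trans (add_le_add le_rfl (by simp)))
  have h3 := GG_le (P := (Icc 1 w).filter Nat.Prime) (fun l hl => (mem_filter.1 hl).2) hj w
  have h4 := log_le_GG w
  have h5 : 0 < Real.log w := Real.log_pos (by exact_mod_cast hw)
  have h6 := GG_sq (P := P) (fun l hl => (pr l hl).1.pos) w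
  have h7 := one_le_GG (ρ := fun l => 2 / l) (fun l => by positivity) P (z := w ^ 2) (by nlinarith)
  set s := ∏ l ∈ j.primeFactors, (1 + 1 / l : ℝ)
  have h8 : Real.log w ^ 2 ≤ 4 * s ^ 2 * (Real.exp 2 * GG (fun l => 2 / l) P (w ^ 2)) := by
    have := pow_le_pow_left₀ h5.le (h4.trans (mul_le_mul_of_nonneg_left h3 (by norm_num))) 2
    nlinarith [sq_nonneg s]
  have n1 : (1 : ℝ) ≤ N := by exact_mod_cast hN
  have h9 : ((N + 1 : ℕ) : ℝ) / GG (fun l => 2 / l) P (w ^ 2) ≤
      8 * Real.exp 2 * N / Real.log w ^ 2 * s ^ 2 := by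
    rw [div_mul_eq_mul_div, div_le_div_iff₀ (by linarith) (by positivity)]
    push_cast
    nlinarith [sq_nonneg (Real.log w)]
  have w1 : (1 : ℝ) ≤ w := by exact_mod_cast (by omega : 1 ≤ w)
  have w2 : (w : ℝ) ≤ w ^ 8 := le_self_pow₀ w1 (by norm_num)
  have h2' : (rr N j : ℝ) ≤ _ := Nat.cast_le.2 h2
  push_cast at h1 h2' h9
  have : ((w : ℝ) ^ 2) ^ 4 = w ^ 8 := by ring
  linarith

lemma sing_moment (N : ℕ) :
    ∑ j ∈ Icc 1 N, (∏ l ∈ j.primeFactors, (1 + 1 / l : ℝ)) ^ 4 ≤ N * Real.exp 30 := by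
  have h1 : ∀ j ∈ Icc 1 N, (∏ l ∈ j.primeFactors, (1 + 1 / l : ℝ)) ^ 4 ≤
      ∑ S ∈ (Nat.primesLE N).powerset, if (∏ l ∈ S, l) ∣ j then ∏ l ∈ S, (15 / l : ℝ) else 0 := by
    intro j hj
    obtain ⟨j1, j2⟩ := mem_Icc.1 hj
    rw [← prod_pow]
    refine (prod_le_prod (g := fun l : ℕ => 1 + (15 / l : ℝ)) (fun _ _ => by positivity)
      fun l hl => ?_).trans ?_
    · have a : (1 : ℝ) ≤ l := by exact_mod_cast (Nat.prime_of_mem_primeFactors hl).one_le
      have b : (1 : ℝ) / l ≤ 1 := (div_le_one (by linarith)).2 a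
      have c : (0 : ℝ) ≤ 1 / l := by positivity
      rw [show (15 / l : ℝ) = 15 * (1 / l) by ring]
      generalize (1 / l : ℝ) = x at *
      nlinarith [mul_nonneg c c, mul_nonneg (mul_nonneg c c) c, mul_nonneg c (sub_nonneg.2 b),
        mul_nonneg (mul_nonneg c c) (sub_nonneg.2 b),
        mul_nonneg (mul_nonneg (mul_nonneg c c) c) (sub_nonneg.2 b)]
    · rw [prod_one_add, ← sum_filter]
      refine sum_le_sum_of_subset_of_nonneg (fun S hS => ?_) fun _ _ _ => by positivity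
      rw [mem_powerset] at hS
      refine mem_filter.2 ⟨mem_powerset.2 fun l hl => Nat.mem_primesLE.2
        ⟨(Nat.le_of_mem_primeFactors (hS hl)).trans j2, Nat.prime_of_mem_primeFactors (hS hl)⟩,
        (prod_dvd_prod_of_subset _ _ _ hS).trans (Nat.prod_primeFactors_dvd j)⟩
  refine (sum_le_sum h1).trans ?_
  have h2 := prod_one_add_le (P := Nat.primesLE N) (c := 15)
    (fun l hl => (Nat.prime_of_mem_primesLE hl).pos) (by norm_num)
  rw [show (2 * 15 : ℝ) = 30 by norm_num] at h2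
  refine le_trans ?_ (mul_le_mul_of_nonneg_left h2 (Nat.cast_nonneg N))
  rw [sum_comm, mul_sum]
  refine sum_le_sum fun S _ => ?_
  rw [← sum_filter, sum_const, nsmul_eq_mul,
    show Icc 1 N = Ioc 0 N from rfl, Nat.Ioc_filter_dvd_card_eq_div]
  refine (mul_le_mul_of_nonneg_right Nat.cast_div_le (by positivity)).trans (le_of_eq ?_)
  simp only [Nat.cast_prod, prod_div_distrib, prod_pow]
  ring

theorem energy : ∃ C : ℝ, 0 < C ∧ ∀ᶠ N : ℕ in atTop,
    ∑ j ∈ Icc 1 N, (rr N j : ℝ) ^ 2 ≤ C * (N ^ 3 / Real.log N ^ 4) := by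
  refine ⟨2 * (3200 * Real.exp 2) ^ 2 * Real.exp 30 + 80000, by positivity, ?_⟩
  have t : Tendsto (fun N : ℕ => (N : ℝ) ^ (1 / 10 : ℝ)) atTop atTop :=
    (tendsto_rpow_atTop (by norm_num)).comp tendsto_natCast_atTop_atTop
  filter_upwards [t.eventually_ge_atTop 4, eventually_ge_atTop 2] with N hx hN
  set x := (N : ℝ) ^ (1 / 10 : ℝ) with hx'
  have n0 : (0 : ℝ) < N := by positivity
  have e1 : x ^ 10 = N := by
    rw [hx', ← Real.rpow_natCast, ← Real.rpow_mul n0.le]; norm_num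
  have e2 : Real.log N = 10 * Real.log x := by rw [← e1, Real.log_pow]; norm_num
  have w1 : (⌊x⌋₊ : ℝ) ≤ x := Nat.floor_le (by linarith)
  have w2 : x < ⌊x⌋₊ + 1 := Nat.lt_floor_add_one x
  set w := ⌊x⌋₊
  have w3 : 2 ≤ w := by
    have : (2 : ℝ) ≤ w := by linarith
    exact_mod_cast this
  have l0 : 0 < Real.log x := Real.log_pos (by linarith)
  have l1 : Real.log x ≤ 2 * Real.log w := by
    have := Real.log_le_log (by linarith) (show x ≤ (w : ℝ) ^ 2 by nlinarith)
    rwa [Real.log_pow] at this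
  have l2 : Real.log x ≤ x := (Real.log_le_sub_one_of_pos (by linarith)).trans (by linarith)
  have a1 : 8 * Real.exp 2 * N / Real.log w ^ 2 ≤ 3200 * Real.exp 2 * (N / Real.log N ^ 2) := by
    rw [e2, ← mul_div_assoc, div_le_div_iff₀ (pow_pos (by linarith) 2) (by positivity)]
    have : Real.log x ^ 2 ≤ (2 * Real.log w) ^ 2 := pow_le_pow_left₀ l0.le l1 2
    have : 0 < Real.exp 2 * N := by positivity
    nlinarith
  have a2 : ∀ j ∈ Icc 1 N, (rr N j : ℝ) ^ 2 ≤ 2 * (3200 * Real.exp 2 * (N / Real.log N ^ 2)) ^ 2 *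
      (∏ l ∈ j.primeFactors, (1 + 1 / l : ℝ)) ^ 4 + 8 * x ^ 16 := fun j hj => by
    have b := rr_le (N := N) (j := j) (by have := (mem_Icc.1 hj).1; omega) w3 (by omega)
    set s := ∏ l ∈ j.primeFactors, (1 + 1 / l : ℝ)
    have c : (rr N j : ℝ) ≤ 3200 * Real.exp 2 * (N / Real.log N ^ 2) * s ^ 2 + 2 * x ^ 8 :=
      b.trans (by gcongr)
    have d := pow_le_pow_left₀ (by positivity) c 2
    nlinarith [sq_nonneg (3200 * Real.exp 2 * (N / Real.log N ^ 2) * s ^ 2 - 2 * x ^ 8)]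
  refine (sum_le_sum a2).trans ?_
  rw [sum_add_distrib, ← mul_sum, add_mul]
  refine add_le_add ((mul_le_mul_of_nonneg_left (sing_moment N) (by positivity)).trans
    (le_of_eq (by ring))) ?_
  rw [sum_const, Nat.card_Icc, add_tsub_cancel_right, nsmul_eq_mul, ← mul_div_assoc, e2,
    le_div_iff₀ (by positivity), ← e1]
  have : Real.log x ^ 4 ≤ x ^ 4 := pow_le_pow_left₀ l0.le l2 4
  have : 0 < x ^ 26 := by positivity
  nlinarith

end Pool.Agent.MP_f0209c_nt.Ch
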