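import Pool.Agent.MP_f0209c_nt.Ch.Null
import Pool.Agent.MP_f0209c_nt.Ch.Sieve

/-! From cancellation in short intervals to vanishing of logarithmic correlations. -/

namespace Pool.Agent.MP_f0209c_nt.Ch
open Filter Topology Finset ComplexConjugate

lemma orth {ι κ : Type} {M : ℕ} {ω : ℂ} (hω : IsPrimitiveRoot ω M) (h1 : ‖ω‖ = 1) (s : Finset ι)
    (t : Finset κ) (u : ι → ℂ) (v : κ → ℂ) {e : ι → ℕ} {e' : κ → ℕ} (he : ∀ i ∈ s, e i < M)
    (he' : ∀ j ∈ t, e' j < M) :
    ∑ a ∈ range M, (∑ i ∈ s, u i * (ω ^ a) ^ e i) * conj (∑ j ∈ t, v j * (ω ^ a) ^ e' j) =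
      M * ∑ i ∈ s, ∑ j ∈ t, if e i = e' j then u i * conj (v j) else 0 := by
  simp only [map_sum, sum_mul_sum, mul_sum (a := (M : ℂ))]
  rw [sum_comm]
  refine sum_congr rfl fun i hi => ?_
  rw [sum_comm]
  refine sum_congr rfl fun j hj => ?_
  have c : ∀ k, ω ^ k * conj (ω ^ k) = 1 := fun k => by
    rw [Complex.mul_conj, Complex.normSq_eq_norm_sq]; simp [h1]
  rw [sum_congr rfl (g := fun a => u i * conj (v j) * (ω ^ e i * conj (ω ^ e' j)) ^ a) fun a _ => by
    simp only [map_mul, map_pow, mul_pow, ← pow_mul, mul_comm a]; ring, ← mul_sum]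
  split_ifs with h
  · simp only [h, c, one_pow, sum_const, card_range, nsmul_eq_mul]; ring
  · rw [geom_sum_eq fun x => h (hω.pow_inj (he i hi) (he' j hj) ?_), mul_pow, ← map_pow,
      ← pow_mul, ← pow_mul, mul_comm _ M, mul_comm _ M, pow_mul, pow_mul, hω.pow_eq_one]
    · simp
    · have := congrArg (· * ω ^ e' j) x
      simpa only [mul_assoc, mul_comm (conj (ω ^ e' j)), c, mul_one, one_mul] using this

/-- twisted short sum -/
noncomputable def WW (f : ℕ → ℝ) (H : ℕ) (z : ℂ) (n : ℕ) : ℂ := ∑ j ∈ range H, f (n + j) * z ^ j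

section
variable {f : ℕ → ℝ} (h1 : ∀ n, |f n| ≤ 1)
include h1

lemma bdd_WW (H : ℕ) (z : ℂ) : Bdd (WW f H z) :=
  Bdd.sum fun _ _ => (Bdd.ofReal (Bdd.comp ⟨1, h1⟩ _)).mul (Bdd.const _)

omit h1 in
lemma en_WW (H : ℕ) {z : ℂ} (h : ‖z‖ = 1) :
    en (fun n => f n * z ^ n) H = Ex fun n => ‖WW f H z n‖ ^ 2 :=
  congrArg Ex (funext fun n => by
    have : win (fun n => f n * z ^ n) H n = z ^ n * WW f H z n := by
      simp only [win, WW, mul_sum, pow_add]
      exact sum_congr rfl fun _ _ => by ring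
    rw [this, norm_mul, norm_pow, h, one_pow, one_mul])

lemma cont_WW (H : ℕ) : Continuous fun z : ℂ => Ex fun n => ‖WW f H z n‖ ^ 2 := by
  have bf : Bdd f := ⟨1, h1⟩
  have b : ∀ i j, Bdd fun n => f (n + i) * f (n + j) := fun i j => (bf.comp _).mul (bf.comp _)
  have : (fun z : ℂ => Ex fun n => ‖WW f H z n‖ ^ 2) = fun z => ∑ i ∈ range H, ∑ j ∈ range H,
      (z ^ i * conj (z ^ j)).re * Ex fun n => f (n + i) * f (n + j) := funext fun z => by
    simp only [← Ex_mul (b _ _)]
    rw [sum_congr rfl fun i _ => (Ex_sum fun j _ => (Bdd.const _).mul (b i j)).symm,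
      ← Ex_sum fun i _ => Bdd.sum fun j _ => (Bdd.const _).mul (b i j)]
    refine congrArg Ex (funext fun n => ?_)
    rw [← Complex.normSq_eq_norm_sq, ← Complex.ofReal_re (Complex.normSq _), ← Complex.mul_conj,
      WW, map_sum, sum_mul_sum]
    simp only [Complex.re_sum]
    refine sum_congr rfl fun i _ => sum_congr rfl fun j _ => ?_
    rw [← Complex.re_mul_ofReal, map_mul, Complex.conj_ofReal]
    refine congrArg Complex.re ?_
    push_cast; ring
  rw [this]
  exact continuous_finsetSum _ fun i _ => continuous_finsetSum _ fun j _ =>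
    (Complex.continuous_re.comp ((continuous_pow i).mul
      (Complex.continuous_conj.comp (continuous_pow j)))).mul continuous_const

lemma unif (hz : ∀ z : ℂ, ‖z‖ = 1 → Null fun n => f n * z ^ n) {ε : ℝ} (hε : 0 < ε) :
    ∀ᶠ K : ℕ in atTop, ∀ z : ℂ, ‖z‖ = 1 → Ex (fun n => ‖WW f K z n‖ ^ 2) ≤ ε * K ^ 2 := by
  have c := cont_WW h1
  have e := fun H z => en_WW (f := f) H (z := z)
  generalize hG : (fun (H : ℕ) (z : ℂ) => Ex fun n => ‖WW f H z n‖ ^ 2) = G
  have hG' : ∀ H z, Ex (fun n => ‖WW f H z n‖ ^ 2) = G H z := fun H z => by rw [← hG]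
  simp only [hG'] at c e ⊢
  have := (isCompact_sphere (0 : ℂ) 1).mem_prod_nhdsSet_of_forall (l := atTop)
    (s := {x : ℕ × ℂ | ‖x.2‖ = 1 → G x.1 x.2 ≤ ε * x.1 ^ 2}) fun z h => by
      have z1 : ‖z‖ = 1 := by simpa using h
      obtain ⟨H, a, H0⟩ := ((hz z z1 (ε / 8) (by positivity)).and (eventually_gt_atTop 0)).exists
      have H1 : (0 : ℝ) < ε * H ^ 2 := by positivity
      rw [e H z z1] at a
      have o : ∀ᶠ w in 𝓝 z, G H w < ε / 4 * H ^ 2 :=
        (c H).continuousAt.eventually_lt continuousAt_const (a.trans_lt (by linarith))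
      refine mem_of_superset (prod_mem_prod (ev_sq H (half_pos hε)) o) fun x hx x1 => ?_
      have := en_ext (g := fun n => f n * x.2 ^ n) (fun n => by simpa [x1] using h1 n) H0
        (by positivity) ((e H _ x1).trans_le (le_of_lt hx.2)) x.1
      rw [e _ _ x1] at this
      linarith [show 2 * (H : ℝ) ^ 2 ≤ ε / 2 * x.1 ^ 2 from hx.1]
  obtain ⟨s, hs, t, ht, h⟩ := mem_prod_iff.1 this
  filter_upwards [hs] with K hK z hz
  exact h (Set.mk_mem_prod hK (subset_of_mem_nhdsSet ht (by simpa using hz))) hz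

lemma avg_chowla (hz : ∀ z : ℂ, ‖z‖ = 1 → Null fun n => f n * z ^ n) {ε : ℝ} (hε : 0 < ε) :
    ∀ᶠ J : ℕ in atTop, ∑ d ∈ range J, Cor f d ^ 2 ≤ ε * J := by
  have bf : Bdd f := ⟨1, h1⟩
  filter_upwards [(tendsto_id.const_mul_atTop' two_pos).eventually (unif h1 hz
    (show 0 < ε / 8 by positivity)), eventually_gt_atTop 0] with J hJ J0
  simp only [id] at hJ
  have hω := Complex.isPrimitiveRoot_exp (4 * J) (by omega)
  have n1 := hω.norm'_eq_one (by omega)
  generalize Complex.exp _ = ω at hω n1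
  have J1 : (0 : ℝ) < J := by exact_mod_cast J0
  set S := ∑ d ∈ range J, Cor f d ^ 2 with hS
  let τ : ℂ → ℂ := fun z => ∑ d ∈ range J, Cor f d * z ^ d
  have p : ∀ (u : ℕ → ℝ) (H : ℕ), H ≤ 4 * J →
      ∑ a ∈ range (4 * J), ‖∑ d ∈ range H, u d * (ω ^ a) ^ d‖ ^ 2 =
        4 * J * ∑ d ∈ range H, u d ^ 2 := fun u H hH => by
    have := orth hω n1 (range H) (range H) (fun d => u d) (fun d => u d) (e := id) (e' := id)
      (fun i hi => (mem_range.1 hi).trans_le hH) fun i hi => (mem_range.1 hi).trans_le hH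
    simp only [id, Complex.mul_conj, Complex.normSq_eq_norm_sq, Complex.conj_ofReal] at this
    rw [sum_congr rfl fun i hi => (sum_ite_eq _ i _).trans (if_pos hi)] at this
    simp only [← sq] at this
    exact_mod_cast this
  have b : ∀ i d, Bdd fun n => Cor f d * (f (n + i) * f (n + i + d)) := fun i d =>
    (Bdd.const _).mul ((bf.comp _).mul (bf.comp _))
  have b2 : ∀ a, Bdd fun n => ‖WW f (2 * J) (ω ^ a) n‖ ^ 2 := fun a => (bdd_WW h1 _ _).norm.pow 2
  have m := Ex_mono (f := fun n => 4 * J * ∑ i ∈ range (2 * J), ∑ d ∈ range J,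
      (if i + d < 2 * J then 1 else 0) * (Cor f d * (f (n + i) * f (n + i + d))))
    (g := fun n => ε / 4 * J * (4 * J * (2 * J)) + ∑ a ∈ range (4 * J),
      ‖τ (ω ^ a)‖ ^ 2 / (ε * J) * ‖WW f (2 * J) (ω ^ a) n‖ ^ 2)
    ((Bdd.const _).mul (Bdd.sum fun i _ => Bdd.sum fun d _ => (Bdd.const _).mul (b i d)))
    ((Bdd.const _).add (Bdd.sum fun a _ => (Bdd.const _).mul (b2 a))) fun n => by
      have o := orth hω n1 (range (2 * J) ×ˢ range J) (range (2 * J))
        (fun x => f (n + x.1) * Cor f x.2) (fun j => f (n + j)) (e := fun x => x.1 + x.2) (e' := id)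
        (fun x hx => by simp only [mem_product, mem_range] at hx; omega)
        fun j hj => by simp only [mem_range, id] at hj ⊢; omega
      have o2 : ∀ z : ℂ, ∑ x ∈ range (2 * J) ×ˢ range J, (f (n + x.1) * Cor f x.2 : ℂ) *
          z ^ (x.1 + x.2) = WW f (2 * J) z n * τ z := fun z => by
        rw [WW, sum_mul_sum, sum_product]
        exact sum_congr rfl fun _ _ => sum_congr rfl fun _ _ => by ring
      simp only [o2, id, sum_ite_eq, mem_range, Complex.conj_ofReal] at o
      rw [sum_product] at o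
      have o3 := p (fun j => f (n + j)) (2 * J) (by omega)
      have o4 : ∑ d ∈ range (2 * J), f (n + d) ^ 2 ≤ 2 * J :=
        (sum_le_card_nsmul _ _ 1 fun d _ => (sq_le_one_iff_abs_le_one _).2 (h1 _)).trans (by simp)
      calc _ = (∑ a ∈ range (4 * J), WW f (2 * J) (ω ^ a) n * τ (ω ^ a) *
            conj (WW f (2 * J) (ω ^ a) n)).re := by
            simp only [WW] at o ⊢
            rw [o, ← Complex.ofReal_re (_ * _)]
            congr 1
            push_cast
            congr 1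
            refine sum_congr rfl fun i _ => sum_congr rfl fun d _ => ?_
            split_ifs
            · rw [add_assoc]; push_cast; ring
            · simp
        _ ≤ ∑ a ∈ range (4 * J), (ε / 4 * J * ‖WW f (2 * J) (ω ^ a) n‖ ^ 2 +
            ‖τ (ω ^ a)‖ ^ 2 / (ε * J) * ‖WW f (2 * J) (ω ^ a) n‖ ^ 2) := by
            refine (Complex.re_le_norm _).trans (norm_sum_le_of_le _ fun a _ => ?_)
            rw [norm_mul, norm_mul, Complex.norm_conj, ← add_mul, mul_right_comm, ← sq, mul_comm]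
            refine mul_le_mul_of_nonneg_right ?_ (sq_nonneg _)
            rw [← sub_le_iff_le_add', le_div_iff₀ (by positivity)]
            nlinarith [sq_nonneg (‖τ (ω ^ a)‖ - ε * J / 2)]
        _ ≤ _ := by
            rw [sum_add_distrib, ← mul_sum]
            simp only [WW]
            rw [o3]
            gcongr
  rw [Ex_mul (Bdd.sum fun i _ => Bdd.sum fun d _ => (Bdd.const _).mul (b i d)),
    Ex_sum fun i _ => Bdd.sum fun d _ => (Bdd.const _).mul (b i d),
    sum_congr rfl fun i _ => Ex_sum fun d _ => (Bdd.const _).mul (b i d),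
    Ex_add (Bdd.const _) (Bdd.sum fun a _ => (Bdd.const _).mul (b2 a)), Ex_const,
    Ex_sum fun a _ => (Bdd.const _).mul (b2 a)] at m
  have q : ∀ i d, Ex (fun n => Cor f d * (f (n + i) * f (n + i + d))) = Cor f d ^ 2 := fun i d => by
    rw [Ex_mul ((bf.comp _).mul (bf.comp _)), Ex_shift (g := fun n => f n * f (n + d))
      (bf.mul (bf.comp _)), sq, Cor]
  simp only [Ex_mul (b _ _), Ex_mul (b2 _), q] at m
  have m1 : J * S ≤ ∑ i ∈ range (2 * J), ∑ d ∈ range J,
      (if i + d < 2 * J then 1 else 0) * Cor f d ^ 2 := by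
    refine le_trans (le_of_eq ?_) (sum_le_sum_of_subset_of_nonneg (range_subset_range.2
      (show J ≤ 2 * J by omega)) fun _ _ _ => by positivity)
    rw [sum_congr rfl (g := fun _ => S) fun i hi => sum_congr rfl fun d hd => by
      rw [if_pos (by simp only [mem_range] at hi hd; omega), one_mul]]
    simp
  have m2 := sum_le_sum (s := range (4 * J)) fun a _ => mul_le_mul_of_nonneg_left
    (hJ (ω ^ a) (by simp [n1])) (show 0 ≤ ‖τ (ω ^ a)‖ ^ 2 / (ε * J) by positivity)
  rw [← sum_mul, ← sum_div, p (Cor f) J (by omega), ← hS] at m2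
  have m3 : 4 * J * S / (ε * J) * (ε / 8 * ((2 * J : ℕ) : ℝ) ^ 2) = 2 * J ^ 2 * S := by
    push_cast; field_simp; ring
  refine le_of_mul_le_mul_left ?_ (show (0 : ℝ) < 2 * J ^ 2 by positivity)
  nlinarith

end

theorem cor_zero {B : Type} [Fintype B] [DecidableEq B] (b : ℕ → B) (val : B → ℝ)
    (hv : ∀ a, |val a| ≤ 1) {f : ℕ → ℝ} (hf : ∀ n, f n = val (b n))
    (hm : ∀ m n, f (m * n) = f m * f n) (hp : ∀ p, p.Prime → f p ^ 2 = 1)
    (hχ : ∀ (q : ℕ) [NeZero q] (χ : DirichletCharacter ℂ q), Null fun n => f n * χ n)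
    {k : ℕ} (hk : 0 < k) : Cor f k = 0 := by
  have h1 : ∀ n, |f n| ≤ 1 := fun n => hf n ▸ hv _
  have bf : Bdd f := ⟨1, h1⟩
  have hz : ∀ z : ℂ, ‖z‖ = 1 → Null fun n => f n * z ^ n := fun z hz => by
    have a : ∀ n, ‖(f n : ℂ)‖ ≤ 1 := fun n => by simpa using h1 n
    have c : ∀ m n, (f (m * n) : ℂ) = f m * f n := fun m n => by rw [hm]; push_cast; rfl
    by_cases h : ∀ j, 0 < j → z ^ j ≠ 1
    · exact null_irr a c hz h
    · push Not at h
      obtain ⟨q, q0, hq⟩ := h
      exact null_root a c hχ q0 hq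
  obtain ⟨C, C0, hC⟩ := energy
  refine abs_nonpos_iff.1 (le_of_forall_pos_le_add fun δ δ0 => ?_)
  wlog δ1 : δ ≤ 1 generalizing δ
  · linarith [this 1 one_pos le_rfl]
  have k0 : (0 : ℝ) < k := by exact_mod_cast hk
  have t : Tendsto (fun P : ℕ => (P : ℝ) / Real.log P) atTop atTop := by
    have := (Real.isLittleO_log_id_atTop.tendsto_div_nhds_zero.comp tendsto_natCast_atTop_atTop)
    refine (tendsto_inv_nhdsGT_zero.comp (tendsto_nhdsWithin_iff.2 ⟨this, ?_⟩)).congr fun P => by simp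
    filter_upwards [log_top.eventually_gt_atTop 0, eventually_gt_atTop 0] with P a c
    exact div_pos a (Nat.cast_pos.2 c)
  obtain ⟨P₀, hP⟩ := eventually_atTop.1 (((hC.and pi_lower).and
    ((tendsto_atTop_mono (fun P => show P ≤ k * P + 1 by nlinarith) tendsto_id).eventually
      (avg_chowla h1 hz (show 0 < δ ^ 4 / (2 ^ 13 * k * C) by positivity)))).and
      ((t.eventually_ge_atTop (16 / δ ^ 2)).and (eventually_ge_atTop 1)))
  obtain ⟨P, p1, p2⟩ := cor_primes b val hv hf (fun p m n pp => by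
    rw [hm, hm]; linear_combination f m * f n * hp p pp) hk (half_pos δ0) (by linarith) P₀
  obtain ⟨⟨⟨a1, a2⟩, a3⟩, a4, a5⟩ := hP P p1
  set N := ((Nat.primesLE P).card : ℝ) with hN
  have bs : Bdd fun n => ∑ p ∈ Nat.primesLE P, f (n + p * k) := Bdd.sum fun _ _ => bf.comp _
  have c1 := Ex_cs bf bs
  have c2 : Ex (fun n => f n ^ 2) ≤ 1 :=
    Ex_le (bf.pow 2) fun n => (sq_le_one_iff_abs_le_one _).2 (h1 _)
  have bb : ∀ i j, Bdd fun n => f (n + i) * f (n + j) := fun i j => (bf.comp _).mul (bf.comp _)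
  simp only [mul_sum] at c1
  rw [Ex_sum fun _ _ => bf.mul (bf.comp _)] at c1
  have c3 := mul_le_mul_of_nonneg_right c2 (Ex_nonneg (bs.pow 2) fun _ => sq_nonneg _)
  have cc : ∀ i j, i ≤ j → Ex (fun n => f (n + i * k) * f (n + j * k)) = Cor f (k * (j - i)) :=
    fun i j h => by
      rw [Cor, ← Ex_shift (g := fun n => f n * f (n + k * (j - i))) (bf.mul (bf.comp _)) (i * k)]
      obtain ⟨d, rfl⟩ := Nat.exists_eq_add_of_le h
      simp only [Nat.add_sub_cancel_left, add_mul, add_assoc, mul_comm k]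
  have c4 : Ex (fun n => (∑ p ∈ Nat.primesLE P, f (n + p * k)) ^ 2) ≤
      N + 2 * ∑ j ∈ Icc 1 P, rr P j * |Cor f (k * j)| := by
    have key : ∑ p ∈ Nat.primesLE P, ∑ q ∈ Nat.primesLE P,
        (if p < q then |Cor f (k * (q - p))| else 0) ≤ ∑ j ∈ Icc 1 P, rr P j * |Cor f (k * j)| := by
      simp only [rr, card_filter, Nat.cast_sum, sum_mul]
      rw [sum_comm (s := Icc 1 P)]
      refine sum_le_sum fun p _ => ?_
      rw [← sum_filter]
      refine sum_le_of_injOn (fun q => q - p) (fun q hq => ?_) (fun q hq q' hq' e => ?_)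
        (fun q hq => ?_) fun _ => by positivity
      · have := mem_filter.1 hq
        have := (Nat.mem_primesLE.1 this.1).1
        exact mem_Icc.2 (by omega)
      · have := (mem_filter.1 (mem_coe.1 hq)).2
        have := (mem_filter.1 (mem_coe.1 hq')).2
        simp only at e; omega
      · have := mem_filter.1 hq
        rw [Nat.add_sub_cancel' this.2.le, if_pos (Nat.mem_primesLE.1 this.1).2]
        simp
    simp only [sq, sum_mul_sum]
    rw [Ex_sum fun _ _ => Bdd.sum fun _ _ => bb _ _, sum_congr rfl fun _ _ => Ex_sum fun _ _ => bb _ _]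
    refine (sum_le_sum fun p _ => sum_le_sum (g := fun q => ((if p = q then 1 else 0) +
      (if p < q then |Cor f (k * (q - p))| else 0) + if q < p then |Cor f (k * (p - q))| else 0 : ℝ))
      fun q _ => ?_).trans ?_
    · rcases lt_trichotomy p q with h | h | h
      · simpa [cc _ _ h.le, h, h.ne, h.not_gt] using le_abs_self _
      · simp only [h, if_true, lt_irrefl, if_false, add_zero]
        exact Ex_le (bb _ _) fun n => by nlinarith [abs_le.1 (h1 (n + q * k))]
      · simp only [mul_comm (f (_ + p * k))]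
        simpa [cc _ _ h.le, h, h.ne', h.not_gt] using le_abs_self _
    · simp only [sum_add_distrib]
      rw [sum_congr rfl fun p hp => (sum_ite_eq _ p _).trans (if_pos hp)]
      have k2 := key
      rw [sum_comm] at k2
      simp only [sum_const, nsmul_eq_mul, mul_one]
      linarith
  have c5 := (sum_mul_sq_le_sq_mul_sq (Icc 1 P) (fun j => (rr P j : ℝ)) fun j => |Cor f (k * j)|)
  have c6 : ∑ j ∈ Icc 1 P, |Cor f (k * j)| ^ 2 ≤ ∑ d ∈ range (k * P + 1), Cor f d ^ 2 :=
    sum_le_of_injOn (fun j => k * j) (fun j hj => mem_range.2 (Nat.lt_succ_of_le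
      (Nat.mul_le_mul_left k (mem_Icc.1 hj).2))) (fun a _ c _ e => Nat.eq_of_mul_eq_mul_left hk e)
      (fun j _ => sq_abs _) fun _ => sq_nonneg _
  have P1 : (1 : ℝ) ≤ P := by exact_mod_cast a5
  have k1 : (1 : ℝ) ≤ k := by exact_mod_cast hk
  set x := (P : ℝ) / Real.log P with hx
  have x0 : 0 < x := lt_of_lt_of_le (by positivity) a4
  have xN : x ≤ 2 * N := by rw [mul_comm, ← div_div, ← hx] at a2; linarith
  have c7 : ∑ j ∈ Icc 1 P, rr P j * |Cor f (k * j)| ≤ δ ^ 2 * x ^ 2 / 64 := by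
    refine (abs_le_of_sq_le_sq' (c5.trans ((mul_le_mul a1 (c6.trans (a3.trans
      (mul_le_mul_of_nonneg_left (show ((k * P + 1 : ℕ) : ℝ) ≤ 2 * k * P by push_cast; nlinarith)
      (by positivity)))) (by positivity) (by positivity)).trans (le_of_eq ?_))) (by positivity)).2
    rw [hx]; field_simp; ring
  rw [div_le_iff₀ (by positivity)] at a4
  have c8 : |∑ p ∈ Nat.primesLE P, Cor f (p * k)| ≤ δ / 2 * N := by
    refine abs_le_of_sq_le_sq (c1.trans (c3.trans ?_)) (by positivity)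
    have := mul_le_mul_of_nonneg_left (pow_le_pow_left₀ x0.le xN 2) (sq_nonneg δ)
    have := mul_le_mul_of_nonneg_left xN (sq_nonneg δ)
    nlinarith
  rw [sum_sub_distrib, sum_const, nsmul_eq_mul, ← hN] at p2
  have N0 : 0 < N := by linarith
  refine le_of_mul_le_mul_left ?_ N0
  rw [← abs_of_pos N0, ← abs_mul, abs_of_pos N0]
  linarith [abs_sub_abs_le_abs_sub (N * Cor f k) (∑ p ∈ Nat.primesLE P, Cor f (p * k))]

end Pool.Agent.MP_f0209c_nt.Ch
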