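import Mathlib

/-! Logarithmic means along an ultrafilter. -/

namespace Pool.Agent.MP_f0209c_nt.Ch
open Filter Topology Finset

/-- bounded sequences -/
@[fun_prop] def Bdd {α : Type} [Norm α] (g : ℕ → α) : Prop := ∃ C : ℝ, ∀ n, ‖g n‖ ≤ C

section
variable {α : Type}

@[fun_prop] lemma Bdd.const [Norm α] (c : α) : Bdd fun _ => c := ⟨‖c‖, fun _ => le_rfl⟩

@[fun_prop] lemma Bdd.add [SeminormedAddGroup α] {f g : ℕ → α} (hf : Bdd f) (hg : Bdd g) :
    Bdd fun n => f n + g n :=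
  let ⟨a, ha⟩ := hf; let ⟨b, hb⟩ := hg; ⟨a + b, fun n => norm_add_le_of_le (ha n) (hb n)⟩

@[fun_prop] lemma Bdd.sub [SeminormedAddGroup α] {f g : ℕ → α} (hf : Bdd f) (hg : Bdd g) :
    Bdd fun n => f n - g n :=
  let ⟨a, ha⟩ := hf; let ⟨b, hb⟩ := hg; ⟨a + b, fun n => norm_sub_le_of_le (ha n) (hb n)⟩

@[fun_prop] lemma Bdd.neg [SeminormedAddGroup α] {f : ℕ → α} (hf : Bdd f) : Bdd fun n => -f n :=
  let ⟨a, ha⟩ := hf; ⟨a, fun n => by rw [norm_neg]; exact ha n⟩

@[fun_prop] lemma Bdd.mul [SeminormedRing α] {f g : ℕ → α} (hf : Bdd f) (hg : Bdd g) :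
    Bdd fun n => f n * g n :=
  let ⟨a, ha⟩ := hf; let ⟨b, hb⟩ := hg; ⟨a * b, fun n => norm_mul_le_of_le (ha n) (hb n)⟩

@[fun_prop] lemma Bdd.pow [SeminormedRing α] {f : ℕ → α} (hf : Bdd f) (k : ℕ) :
    Bdd fun n => f n ^ k := by
  induction k with
  | zero => simpa using Bdd.const (1 : α)
  | succ k ih => simpa [pow_succ] using ih.mul hf

@[fun_prop] lemma Bdd.div_const [NormedField α] {f : ℕ → α} (hf : Bdd f) (c : α) :
    Bdd fun n => f n / c := by
  simpa [div_eq_mul_inv] using hf.mul (Bdd.const c⁻¹)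

@[fun_prop] lemma Bdd.sum [SeminormedAddCommGroup α] {ι : Type} {s : Finset ι} {f : ι → ℕ → α}
    (hf : ∀ i ∈ s, Bdd (f i)) : Bdd fun n => ∑ i ∈ s, f i n := by
  classical
  induction s using Finset.induction_on with
  | empty => simpa using Bdd.const (0 : α)
  | insert a s ha ih =>
    simp only [sum_insert ha]
    exact (hf a (mem_insert_self _ _)).add (ih fun i hi => hf i (mem_insert_of_mem hi))

@[fun_prop] lemma Bdd.norm [SeminormedAddCommGroup α] {f : ℕ → α} (hf : Bdd f) : Bdd fun n => ‖f n‖ :=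
  let ⟨a, ha⟩ := hf; ⟨a, fun n => (abs_of_nonneg (norm_nonneg (f n))).trans_le (ha n)⟩

lemma Bdd.comp [Norm α] {f : ℕ → α} (hf : Bdd f) (u : ℕ → ℕ) : Bdd fun n => f (u n) :=
  let ⟨a, ha⟩ := hf; ⟨a, fun _ => ha _⟩

lemma Bdd.fin [Norm α] {A : Type} [Finite A] (F : A → α) (u : ℕ → A) : Bdd fun n => F (u n) := by
  obtain ⟨C, hC⟩ := (Set.finite_range fun a => ‖F a‖).bddAbove
  exact ⟨C, fun n => hC ⟨_, rfl⟩⟩

@[fun_prop] lemma Bdd.ite [SeminormedAddGroup α] {f g : ℕ → α} (hf : Bdd f) (hg : Bdd g)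
    (p : ℕ → Prop) [DecidablePred p] : Bdd fun n => if p n then f n else g n :=
  let ⟨a, ha⟩ := hf; let ⟨b, hb⟩ := hg
  ⟨max a b, fun n => by
    dsimp only
    split_ifs
    exacts [le_max_of_le_left (ha n), le_max_of_le_right (hb n)]⟩

@[fun_prop] lemma Bdd.abs {f : ℕ → ℝ} (hf : Bdd f) : Bdd fun n => |f n| := hf.norm

@[fun_prop] lemma Bdd.ofReal {f : ℕ → ℝ} (hf : Bdd f) : Bdd fun n => (f n : ℂ) :=
  let ⟨a, ha⟩ := hf; ⟨a, fun n => by rw [Complex.norm_real]; exact ha n⟩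

@[fun_prop] lemma Bdd.re {f : ℕ → ℂ} (hf : Bdd f) : Bdd fun n => (f n).re :=
  let ⟨a, ha⟩ := hf; ⟨a, fun n => (Complex.abs_re_le_norm _).trans (ha n)⟩

@[fun_prop] lemma Bdd.conj {f : ℕ → ℂ} (hf : Bdd f) : Bdd fun n => (starRingEnd ℂ) (f n) :=
  let ⟨a, ha⟩ := hf; ⟨a, fun n => by rw [Complex.norm_conj]; exact ha n⟩

lemma Bdd.nonneg [SeminormedAddGroup α] {f : ℕ → α} (hf : Bdd f) :
    ∃ C : ℝ, 0 ≤ C ∧ ∀ n, ‖f n‖ ≤ C :=
  let ⟨a, ha⟩ := hf; ⟨a, (norm_nonneg _).trans (ha 0), ha⟩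

end

/-- logarithmic sum -/
noncomputable def ls (g : ℕ → ℝ) (X : ℕ) : ℝ := ∑ n ∈ Icc 1 X, g n / n

/-- the filter along which limits are taken -/
noncomputable def UU : Ultrafilter ℕ := hyperfilter ℕ

lemma UU_le : (UU : Filter ℕ) ≤ atTop := by
  rw [← Nat.cofinite_eq_atTop]; exact hyperfilter_le_cofinite

/-- logarithmic mean -/
noncomputable def Ex (g : ℕ → ℝ) : ℝ := limUnder (UU : Filter ℕ) fun X => ls g X / Real.log X

lemma harm_le (X : ℕ) : ∑ n ∈ Icc 1 X, (1 / n : ℝ) ≤ 1 + Real.log X := by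
  have := harmonic_le_one_add_log X
  rw [harmonic_eq_sum_Icc] at this
  simpa using this

lemma le_harm (X : ℕ) : Real.log X ≤ ∑ n ∈ Icc 1 X, (1 / n : ℝ) := by
  have := log_le_harmonic_floor X (Nat.cast_nonneg X)
  rw [Nat.floor_natCast, harmonic_eq_sum_Icc] at this
  simpa using this

lemma log_top : Tendsto (fun X : ℕ => Real.log X) atTop atTop :=
  Real.tendsto_log_atTop.comp tendsto_natCast_atTop_atTop

lemma abs_ls_le {g : ℕ → ℝ} {C : ℝ} (h : ∀ n, ‖g n‖ ≤ C) (X : ℕ) :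
    |ls g X| ≤ C * (1 + Real.log X) := by
  have C0 : 0 ≤ C := (norm_nonneg _).trans (h 0)
  refine (abs_sum_le_sum_abs _ _).trans (le_trans ?_ (mul_le_mul_of_nonneg_left (harm_le X) C0))
  rw [mul_sum]
  refine sum_le_sum fun n _ => ?_
  rw [abs_div, Nat.abs_cast, mul_one_div]
  exact div_le_div_of_nonneg_right (h n) (Nat.cast_nonneg n)

lemma tend {g : ℕ → ℝ} (hg : Bdd g) :
    Tendsto (fun X => ls g X / Real.log X) (UU : Filter ℕ) (𝓝 (Ex g)) := by
  obtain ⟨C, C0, h⟩ := hg.nonneg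
  apply tendsto_nhds_limUnder
  obtain ⟨a, -, ha⟩ := (isCompact_Icc (a := -(2 * C)) (b := 2 * C)).ultrafilter_le_nhds
    (UU.map fun X => ls g X / Real.log X) (by
      rw [le_principal_iff, Ultrafilter.mem_coe, Ultrafilter.mem_map]
      refine UU_le ?_
      filter_upwards [log_top.eventually_ge_atTop 1] with X hX
      have := abs_ls_le h X
      rw [Set.mem_preimage, Set.mem_Icc, ← abs_le, abs_div,
        abs_of_pos (by linarith : 0 < Real.log X), div_le_iff₀ (by linarith)]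
      nlinarith)
  exact ⟨a, ha⟩

lemma small (C : ℝ) : Tendsto (fun X : ℕ => C / Real.log X) (UU : Filter ℕ) (𝓝 0) :=
  (log_top.const_div_atTop C).mono_left UU_le

/-- master comparison lemma -/
lemma Ex_le_of {f g : ℕ → ℝ} (hf : Bdd f) (hg : Bdd g) {a : ℝ} (C : ℝ)
    (h : ∀ᶠ X in atTop, ls f X ≤ a * ls g X + C) : Ex f ≤ a * Ex g := by
  have := ((tend hg).const_mul a).add (small C)
  rw [add_zero] at this
  refine le_of_tendsto_of_tendsto (tend hf) this (UU_le ?_)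
  filter_upwards [h, log_top.eventually_gt_atTop 0] with X h1 h2
  change ls f X / _ ≤ a * (ls g X / _) + C / _
  rw [← mul_div_assoc, ← add_div]
  exact div_le_div_of_nonneg_right h1 h2.le

lemma Ex_eq_of {f g : ℕ → ℝ} (hf : Bdd f) (hg : Bdd g) {a : ℝ} (C : ℝ)
    (h : ∀ᶠ X in atTop, |ls f X - a * ls g X| ≤ C) : Ex f = a * Ex g := by
  have h0 : Tendsto (fun X => ls f X / Real.log X - a * (ls g X / Real.log X)) (UU : Filter ℕ)
      (𝓝 0) := by
    refine squeeze_zero_norm' (UU_le ?_) (small C)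
    filter_upwards [h, log_top.eventually_gt_atTop 0] with X h1 h2
    rw [← mul_div_assoc, ← sub_div, Real.norm_eq_abs, abs_div, abs_of_pos h2]
    exact div_le_div_of_nonneg_right h1 h2.le
  exact sub_eq_zero.1 (tendsto_nhds_unique ((tend hf).sub ((tend hg).const_mul a)) h0)

lemma Ex_add {f g : ℕ → ℝ} (hf : Bdd f) (hg : Bdd g) :
    Ex (fun n => f n + g n) = Ex f + Ex g := by
  refine tendsto_nhds_unique (tend (hf.add hg)) (((tend hf).add (tend hg)).congr fun X => ?_)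
  simp only [ls, add_div, sum_add_distrib]

lemma Ex_mul {g : ℕ → ℝ} (hg : Bdd g) (a : ℝ) : Ex (fun n => a * g n) = a * Ex g :=
  Ex_eq_of (by fun_prop) hg 0 (Eventually.of_forall fun X => by
    simp [ls, mul_sum, mul_div_assoc])

lemma Ex_sub {f g : ℕ → ℝ} (hf : Bdd f) (hg : Bdd g) :
    Ex (fun n => f n - g n) = Ex f - Ex g := by
  have := Ex_add hf (g := fun n => -1 * g n) (by fun_prop)
  rw [Ex_mul hg] at this
  simpa [sub_eq_add_neg] using this

lemma Ex_zero : Ex (fun _ => 0) = 0 := by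
  simpa using Ex_mul (Bdd.const (0 : ℝ)) 0

lemma Ex_sum {ι : Type} {s : Finset ι} {f : ι → ℕ → ℝ} (hf : ∀ i ∈ s, Bdd (f i)) :
    Ex (fun n => ∑ i ∈ s, f i n) = ∑ i ∈ s, Ex (f i) := by
  classical
  induction s using Finset.induction_on with
  | empty => simpa using Ex_zero
  | insert a s ha ih =>
    have h2 := fun i hi => hf i (mem_insert_of_mem hi)
    simp only [sum_insert ha]
    rw [Ex_add (hf a (mem_insert_self _ _)) (Bdd.sum h2), ih h2]

lemma Ex_const (c : ℝ) : Ex (fun _ => c) = c := by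
  have h1 : Ex (fun _ => 1) = 1 := by
    have h0 : Tendsto (fun X => ls (fun _ => 1) X / Real.log X - 1) (UU : Filter ℕ) (𝓝 0) := by
      refine squeeze_zero_norm' (UU_le ?_) (small 1)
      filter_upwards [log_top.eventually_gt_atTop 0] with X h2
      rw [div_sub_one h2.ne', Real.norm_eq_abs, abs_div, abs_of_pos h2]
      refine div_le_div_of_nonneg_right (abs_le.2 ⟨?_, ?_⟩) h2.le
      · linarith [le_harm X, show ls (fun _ => 1) X = ∑ n ∈ Icc 1 X, (1 / n : ℝ) from rfl]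
      · linarith [harm_le X, show ls (fun _ => 1) X = ∑ n ∈ Icc 1 X, (1 / n : ℝ) from rfl]
    exact sub_eq_zero.1 (tendsto_nhds_unique ((tend (Bdd.const _)).sub_const 1) h0)
  simpa [h1] using Ex_mul (Bdd.const (1 : ℝ)) c

/-- monotonicity; finitely many exceptions are allowed -/
lemma Ex_mono' {f g : ℕ → ℝ} (hf : Bdd f) (hg : Bdd g) (h : ∀ᶠ n in atTop, f n ≤ g n) :
    Ex f ≤ Ex g := by
  obtain ⟨N, hN⟩ := eventually_atTop.1 h
  rw [← one_mul (Ex g)]
  refine Ex_le_of hf hg (∑ n ∈ range N, |f n - g n|) (Eventually.of_forall fun X => ?_)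
  rw [one_mul, ← sub_le_iff_le_add', ls, ls, ← sum_sub_distrib]
  calc _ ≤ ∑ n ∈ Icc 1 X, if n ∈ range N then |f n - g n| else 0 := sum_le_sum fun n hn => by
        have n1 : (1 : ℝ) ≤ n := by exact_mod_cast (mem_Icc.1 hn).1
        rw [← sub_div]
        split_ifs with c
        · exact (div_le_div_of_nonneg_right (le_abs_self _) (by linarith)).trans
            (div_le_self (abs_nonneg _) n1)
        · exact div_nonpos_of_nonpos_of_nonneg (sub_nonpos.2 (hN n (by simpa using c)))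
            (by linarith)
    _ ≤ _ := by
        rw [sum_ite_mem]
        exact sum_le_sum_of_subset_of_nonneg inter_subset_right fun _ _ _ => abs_nonneg _

lemma Ex_mono {f g : ℕ → ℝ} (hf : Bdd f) (hg : Bdd g) (h : ∀ n, f n ≤ g n) : Ex f ≤ Ex g :=
  Ex_mono' hf hg (Eventually.of_forall h)

lemma Ex_congr {f g : ℕ → ℝ} (hf : Bdd f) (hg : Bdd g) (h : ∀ᶠ n in atTop, f n = g n) :
    Ex f = Ex g :=
  le_antisymm (Ex_mono' hf hg (h.mono fun _ e => e.le)) (Ex_mono' hg hf (h.mono fun _ e => e.ge))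

lemma Ex_nonneg {f : ℕ → ℝ} (hf : Bdd f) (h : ∀ n, 0 ≤ f n) : 0 ≤ Ex f :=
  Ex_zero ▸ Ex_mono (Bdd.const _) hf h

lemma Ex_le {f : ℕ → ℝ} (hf : Bdd f) {c : ℝ} (h : ∀ n, f n ≤ c) : Ex f ≤ c :=
  Ex_const c ▸ Ex_mono hf (Bdd.const _) h

lemma abs_Ex_le {f g : ℕ → ℝ} (hf : Bdd f) (hg : Bdd g) (h : ∀ᶠ n in atTop, |f n| ≤ g n) :
    |Ex f| ≤ Ex g := by
  refine abs_le.2 ⟨?_, Ex_mono' hf hg (h.mono fun n e => (le_abs_self _).trans e)⟩
  have := Ex_mono' (f := fun n => -1 * g n) (by fun_prop) hf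
    (h.mono fun n e => by linarith [(abs_le.1 e).1])
  rw [Ex_mul hg] at this
  linarith

lemma Ex_succ {g : ℕ → ℝ} (hg : Bdd g) : Ex (fun n => g (n + 1)) = Ex g := by
  obtain ⟨C, C0, h⟩ := hg.nonneg
  rw [← one_mul (Ex g)]
  refine Ex_eq_of (hg.comp _) hg (3 * C) (Eventually.of_forall fun X => ?_)
  have key : ∀ X : ℕ, |ls (fun n => g (n + 1)) X - ls g (X + 1)| ≤ 2 * C - C / (X + 1) := by
    intro X
    induction X with
    | zero => simpa [ls, two_mul] using h 1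
    | succ X ih =>
      have x0 : (0 : ℝ) < X + 1 := by positivity
      rw [ls, ls, sum_Icc_succ_top (by omega), sum_Icc_succ_top (a := 1) (b := X + 1) (by omega)]
      have e : g (X + 1 + 1) / ((X + 1 : ℕ) : ℝ) - g (X + 1 + 1) / ((X + 1 + 1 : ℕ) : ℝ) =
          g (X + 1 + 1) * (1 / (X + 1) - 1 / (X + 1 + 1)) := by push_cast; ring
      have p : (0 : ℝ) ≤ 1 / (X + 1) - 1 / (X + 1 + 1) :=
        sub_nonneg.2 (one_div_le_one_div_of_le x0 (by linarith))
      have b : |g (X + 1 + 1) * (1 / (X + 1) - 1 / (X + 1 + 1))| ≤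
          C * (1 / (X + 1) - 1 / (X + 1 + 1)) := by
        rw [abs_mul, abs_of_nonneg p]; exact mul_le_mul_of_nonneg_right (h _) p
      rw [add_sub_add_comm, e]
      refine (abs_add_le _ _).trans ((add_le_add ih b).trans (le_of_eq ?_))
      push_cast; ring
  have e : ls g (X + 1) = ls g X + g (X + 1) / (X + 1 : ℕ) := sum_Icc_succ_top (by omega) _
  have b : |g (X + 1) / (X + 1 : ℕ)| ≤ C := by
    rw [abs_div, Nat.abs_cast]
    exact (div_le_self (abs_nonneg _) (by simp)).trans (h _)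
  have := key X
  have p : 0 ≤ C / (X + 1) := by positivity
  rw [e, abs_le] at this
  rw [abs_le] at b ⊢
  constructor <;> linarith [this.1, this.2, b.1, b.2]

lemma Ex_shift {g : ℕ → ℝ} (hg : Bdd g) (k : ℕ) : Ex (fun n => g (n + k)) = Ex g := by
  induction k with
  | zero => rfl
  | succ k ih =>
    rw [← ih, ← Ex_succ (hg.comp fun n => n + k)]
    simp only [add_assoc, add_comm 1 k]

lemma Ex_dvd {g : ℕ → ℝ} (hg : Bdd g) {d : ℕ} (hd : 0 < d) :
    Ex (fun n => if d ∣ n then g n else 0) = 1 / d * Ex fun m => g (d * m) := by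
  obtain ⟨C, C0, h⟩ := hg.nonneg
  have d0 : (0 : ℝ) < d := by exact_mod_cast hd
  refine Ex_eq_of (by fun_prop) (hg.comp _) (C * d) (Eventually.of_forall fun X => ?_)
  have e1 : ls (fun n => if d ∣ n then g n else 0) X = 1 / d * ls (fun m => g (d * m)) (X / d) := by
    simp only [ls, ite_div, zero_div, mul_sum]
    rw [← sum_filter]
    symm
    refine sum_nbij (fun m => d * m) (fun m hm => ?_) (fun a _ b _ e => ?_) (fun n hn => ?_)
      fun m _ => by push_cast; ring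
    · obtain ⟨a, b⟩ := mem_Icc.1 hm
      refine mem_filter.2 ⟨mem_Icc.2 ⟨Nat.mul_pos hd a, ?_⟩, Dvd.intro _ rfl⟩
      rw [mul_comm]; exact (Nat.le_div_iff_mul_le hd).1 b
    · exact Nat.eq_of_mul_eq_mul_left hd e
    · obtain ⟨a, m, rfl⟩ := mem_filter.1 (mem_coe.1 hn)
      obtain ⟨a, b⟩ := mem_Icc.1 a
      refine ⟨m, mem_coe.2 (mem_Icc.2 ⟨Nat.pos_of_mul_pos_left a, ?_⟩), rfl⟩
      rw [Nat.le_div_iff_mul_le hd, mul_comm]; exact b
  have e2 : ls (fun m => g (d * m)) X - ls (fun m => g (d * m)) (X / d) =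
      ∑ m ∈ Icc 1 X \ Icc 1 (X / d), g (d * m) / m :=
    (sum_sdiff_eq_sub (Icc_subset_Icc_right (Nat.div_le_self X d))).symm
  rw [e1, ← mul_sub, abs_mul, abs_sub_comm, e2, abs_of_pos (by positivity), one_div,
    inv_mul_le_iff₀ d0]
  have x1 : (X : ℝ) ≤ d * ((X / d : ℕ) + 1) := by
    exact_mod_cast (Nat.lt_mul_div_succ X hd).le
  refine (abs_sum_le_sum_abs _ _).trans ((sum_le_card_nsmul _ _ (C / ((X / d : ℕ) + 1))
    fun m hm => ?_).trans ?_)
  · have : X / d + 1 ≤ m := by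
      have a := mem_sdiff.1 hm
      simp only [mem_Icc] at a
      omega
    rw [abs_div, Nat.abs_cast]
    exact div_le_div₀ C0 (h _) (by positivity) (by exact_mod_cast this)
  · have c : ((Icc 1 X \ Icc 1 (X / d)).card : ℝ) ≤ X := by
      exact_mod_cast (card_le_card sdiff_subset).trans (by simp)
    have d1 : (1 : ℝ) ≤ d := by exact_mod_cast hd
    rw [nsmul_eq_mul, ← mul_div_assoc, div_le_iff₀ (by positivity)]
    have : C * (d * ((X / d : ℕ) + 1)) ≤ d * (C * (d * ((X / d : ℕ) + 1))) :=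
      le_mul_of_one_le_left (by positivity) d1
    nlinarith

lemma Ex_mod {d : ℕ} (hd : 0 < d) (a : ℕ) :
    Ex (fun n => if d ∣ n + a then 1 else 0) = 1 / d := by
  rw [Ex_shift (g := fun n => if d ∣ n then 1 else 0) (by fun_prop),
    Ex_dvd (Bdd.const _) hd, Ex_const, mul_one]

/-- Cauchy-Schwarz -/
lemma Ex_cs {f g : ℕ → ℝ} (hf : Bdd f) (hg : Bdd g) :
    Ex (fun n => f n * g n) ^ 2 ≤ Ex (fun n => f n ^ 2) * Ex fun n => g n ^ 2 := by
  have := discrim_le_zero (a := Ex fun n => f n ^ 2) (b := 2 * Ex fun n => f n * g n)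
    (c := Ex fun n => g n ^ 2) fun x => by
      have h := Ex_nonneg (f := fun n => (x ^ 2 * f n ^ 2 + 2 * x * (f n * g n)) + g n ^ 2)
        (by fun_prop) fun n => by nlinarith [sq_nonneg (x * f n + g n)]
      rw [Ex_add (by fun_prop) (by fun_prop), Ex_add (by fun_prop) (by fun_prop),
        Ex_mul (by fun_prop), Ex_mul (by fun_prop)] at h
      linarith
  rw [discrim] at this
  linarith

lemma Ex_sq {f : ℕ → ℝ} (hf : Bdd f) : Ex f ^ 2 ≤ Ex fun n => f n ^ 2 := by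
  simpa [Ex_const] using Ex_cs hf (Bdd.const (1 : ℝ))

/-- bounding a mean by dyadic sums -/
lemma Ex_le_dyadic {g : ℕ → ℝ} (hg : Bdd g) (h0 : ∀ n, 0 ≤ g n) {ε : ℝ} (hε : 0 ≤ ε)
    (h : ∀ᶠ Y in atTop, ∑ n ∈ Ico Y (2 * Y), g n / n ≤ ε) : Ex g ≤ 2 * ε := by
  obtain ⟨Y, hY⟩ := eventually_atTop.1 (h.and (eventually_ge_atTop 1))
  have key : ∀ i : ℕ, ∑ n ∈ Ico 1 (2 ^ i * Y), g n / n ≤ ∑ n ∈ Ico 1 Y, g n / n + i * ε := by
    intro i
    induction i with
    | zero => simp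
    | succ i ih =>
      have a : Y ≤ 2 ^ i * Y := Nat.le_mul_of_pos_left _ (by positivity)
      rw [← sum_Ico_consecutive _ (hY _ a).2 (show 2 ^ i * Y ≤ 2 ^ (i + 1) * Y by
        rw [pow_succ]; nlinarith), show 2 ^ (i + 1) * Y = 2 * (2 ^ i * Y) by ring]
      push_cast
      linarith [(hY _ a).1]
  have := Ex_le_of hg (Bdd.const (1 : ℝ)) (a := 2 * ε) (∑ n ∈ Ico 1 Y, g n / n + ε) (by
    filter_upwards [eventually_ge_atTop 1] with X hX
    have l1 := Nat.lt_pow_succ_log_self one_lt_two X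
    have l2 : (Nat.log 2 X : ℝ) * Real.log 2 ≤ Real.log X := by
      rw [← Real.log_pow]
      exact Real.log_le_log (by positivity)
        (by exact_mod_cast Nat.pow_log_le_self 2 (by omega : X ≠ 0))
    have l3 : ls g X ≤ ∑ n ∈ Ico 1 (2 ^ (Nat.log 2 X + 1) * Y), g n / n :=
      sum_le_sum_of_subset_of_nonneg (fun n hn => by
        have := mem_Icc.1 hn
        have := Nat.le_mul_of_pos_right (2 ^ (Nat.log 2 X + 1)) (hY Y le_rfl).2
        exact mem_Ico.2 ⟨by omega, by simp only [Nat.succ_eq_add_one] at l1; omega⟩)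
        fun n _ _ => div_nonneg (h0 n) (Nat.cast_nonneg n)
    have l4 := key (Nat.log 2 X + 1)
    have l5 : Real.log X ≤ ls (fun _ => 1) X := le_harm X
    have l6 := Real.log_two_gt_d9
    have l7 : (Nat.log 2 X : ℝ) ≤ 2 * ls (fun _ => 1) X := by
      nlinarith [(Nat.cast_nonneg (Nat.log 2 X) : (0 : ℝ) ≤ _)]
    push_cast at l4
    nlinarith)
  rwa [Ex_const, mul_one] at this

end Pool.Agent.MP_f0209c_nt.Ch
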