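import Pool.Agent.MP_f0209c_nt.Expand
import Pool.Agent.MP_f0209c_nt.Ch.Mean

/-! A resonator built from the Liouville function. -/

namespace Pool.Agent.MP_f0209c_nt.Ch
open Complex Filter Topology Finset ComplexConjugate

/-- the Liouville function -/
def lam (n : ℕ) : ℝ := ArithmeticFunction.liouville n

lemma lam_mul (m n : ℕ) : lam (m * n) = lam m * lam n := by
  simp [lam, ArithmeticFunction.liouville_apply_mul]

lemma lam_cases (n : ℕ) : lam n = 0 ∨ lam n = 1 ∨ lam n = -1 := by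
  rcases eq_or_ne n 0 with rfl | h
  · simp [lam]
  · rw [lam, ArithmeticFunction.liouville_apply h]
    right; exact_mod_cast neg_one_pow_eq_or ℤ _

lemma abs_lam (n : ℕ) : |lam n| ≤ 1 := by rcases lam_cases n with h | h | h <;> simp [h]

lemma lam_prime {p : ℕ} (hp : p.Prime) : lam p = -1 := by
  simp [lam, ArithmeticFunction.liouville_apply hp.ne_zero,
    ArithmeticFunction.cardFactors_apply_prime hp]

lemma lam_sq {n : ℕ} (hn : n ≠ 0) : lam n * lam n = 1 := by
  rw [lam, ArithmeticFunction.liouville_apply hn]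
  rcases neg_one_pow_eq_or ℤ (ArithmeticFunction.cardFactors n) with h | h <;> simp [h]

lemma norm_lam (n : ℕ) : ‖(lam n : ℂ)‖ ≤ 1 := by rw [norm_real]; exact abs_lam n

/-- Dirichlet polynomial -/
noncomputable def RG (r : ℕ → ℂ) (N : ℕ) (s : ℂ) : ℂ := ∑ n ∈ Icc 1 N, r n * exp (-s * Real.log n)

/-- reflected Dirichlet polynomial -/
noncomputable def RH (r : ℕ → ℂ) (N : ℕ) (s : ℂ) : ℂ :=
  ∑ n ∈ Icc 1 N, conj (r n) * exp ((s - 1) * Real.log n)

lemma RG_sym (r : ℕ → ℂ) (N : ℕ) (s : ℂ) : RG r N (1 - conj s) = conj (RH r N s) := by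
  rw [RG, RH, map_sum]
  refine sum_congr rfl fun n _ => ?_
  rw [map_mul, ← exp_conj, conj_conj]
  simp only [map_mul, map_sub, conj_ofReal, map_one]
  ring_nf

lemma RH_sym (r : ℕ → ℂ) (N : ℕ) (s : ℂ) : RH r N (1 - conj s) = conj (RG r N s) := by
  have := RG_sym r N (1 - conj s)
  simp only [map_sub, map_one, conj_conj, sub_sub_cancel] at this
  rw [this, conj_conj]

lemma norm_poly {r : ℕ → ℂ} (hr : ∀ n, ‖r n‖ ≤ 1) (N : ℕ) {w : ℂ} (hw : w.re ≤ 3) :
    ‖∑ n ∈ Icc 1 N, r n * exp (w * Real.log n)‖ ≤ (N : ℝ) ^ 4 := by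
  refine (norm_sum_le_of_le _ (n := fun _ => (N : ℝ) ^ 3) fun n hn => ?_).trans ?_
  · obtain ⟨h1, h2⟩ := mem_Icc.1 hn
    have h1' : (1 : ℝ) ≤ n := by exact_mod_cast h1
    rw [norm_mul, norm_pw _ (by linarith)]
    have e1 : (n : ℝ) ^ w.re ≤ (n : ℝ) ^ (3 : ℕ) := by
      rw [← Real.rpow_natCast]; exact Real.rpow_le_rpow_of_exponent_le h1' (by simpa using hw)
    exact (mul_le_of_le_one_left (by positivity) (hr n)).trans
      (e1.trans (pow_le_pow_left₀ (by linarith) (Nat.cast_le.2 h2) 3))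
  · simp only [sum_const, Nat.card_Icc, add_tsub_cancel_right, nsmul_eq_mul]
    exact le_of_eq (by ring)

/-- truncation -/
def cut (r : ℕ → ℂ) (N n : ℕ) : ℂ := if n ≤ N then r n else 0

/-- coefficients of `ζ(s + ih) R(s) / ζ(s)` -/
noncomputable def bc (r : ℕ → ℂ) (N : ℕ) (h : ℝ) : ℕ → ℂ :=
  LSeries.convolution (LSeries.convolution (tw h) (cut r N)) mu

lemma bc_zero (r : ℕ → ℂ) (N : ℕ) (h : ℝ) : bc r N h 0 = 0 := LSeries.convolution_map_zero _ _

lemma hasSum_bc (r : ℕ → ℂ) (N : ℕ) (h : ℝ) {s : ℂ} (hs : 1 < s.re) :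
    HasSum (fun m => bc r N h m * exp (-s * Real.log m))
      (riemannZeta (s + I * h) * RG r N s / riemannZeta s) := by
  have h1 : LSeriesHasSum (tw h) s (riemannZeta (s + I * h)) := by
    have := LSeriesHasSum_one (s := s + I * h) (by simpa using hs)
    refine (congrArg (fun f => HasSum f _) (funext fun n => ?_)).mpr this
    rcases eq_or_ne n 0 with rfl | hn
    · simp
    · rw [term_eq _ _ hn, term_eq _ _ hn, tw, ← exp_add, Pi.one_apply, one_mul]; ring_nf
  have h2 : LSeriesHasSum (cut r N) s (RG r N s) := by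
    have : RG r N s = ∑ n ∈ Icc 1 N, LSeries.term (cut r N) s n := sum_congr rfl fun n hn => by
      obtain ⟨a, b⟩ := mem_Icc.1 hn
      rw [term_eq _ _ (by omega), cut, if_pos b]
    rw [this]
    refine hasSum_sum_of_ne_finset_zero fun n hn => ?_
    rcases eq_or_ne n 0 with rfl | h0
    · simp
    · rw [term_eq _ _ h0, cut, if_neg (fun h => hn (mem_Icc.2 ⟨by omega, h⟩)), zero_mul]
  have h3 : LSeriesHasSum mu s (riemannZeta s)⁻¹ := by
    have e := LSeries_one_mul_Lseries_moebius hs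
    rw [LSeries_one_eq_riemannZeta hs] at e
    rw [← eq_inv_of_mul_eq_one_right e]
    exact (ArithmeticFunction.LSeriesSummable_moebius_iff.2 hs).LSeriesHasSum
  have h4 := (h1.convolution h2).convolution h3
  rw [div_eq_mul_inv]
  refine (congrArg (fun f => HasSum f _) (funext fun n => ?_)).mpr h4
  rcases eq_or_ne n 0 with rfl | hn
  · simp [bc_zero]
  · rw [term_eq _ _ hn, bc]

lemma norm_bc {r : ℕ → ℂ} (hr : ∀ n, ‖r n‖ ≤ 1) (N : ℕ) (h : ℝ) (m : ℕ) :
    ‖bc r N h m‖ ≤ (m : ℝ) ^ 2 := by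
  rw [sq]
  refine norm_conv_le (by positivity) fun d hd => ?_
  have h1 : ‖LSeries.convolution (tw h) (cut r N) d‖ ≤ d * 1 :=
    norm_conv_le zero_le_one fun e _ => by
      rw [norm_mul, norm_tw, one_mul, cut]
      split_ifs <;> simp [hr]
  rw [norm_mul]
  exact (mul_le_of_le_one_right (norm_nonneg _) (norm_mu _)).trans
    (h1.trans (by rw [mul_one]; exact_mod_cast Nat.divisor_le hd))

/-- squarefree part -/
noncomputable def sf (n : ℕ) : ℕ := (Nat.sq_mul_squarefree n).choose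

/-- root of the square part -/
noncomputable def sr (n : ℕ) : ℕ := (Nat.sq_mul_squarefree n).choose_spec.choose

lemma sr_sf (n : ℕ) : sr n ^ 2 * sf n = n ∧ Squarefree (sf n) :=
  (Nat.sq_mul_squarefree n).choose_spec.choose_spec

lemma sr_ne {n : ℕ} (hn : n ≠ 0) : sr n ≠ 0 := fun e => hn (by rw [← (sr_sf n).1, e]; simp)

lemma dvd_of_sq {c d e e' : ℕ} (hd : d ≠ 0) (he : Squarefree e) (he' : e' ≠ 0)
    (h : c ^ 2 * e' = d ^ 2 * e) : c ∣ d := by
  have hc : c ≠ 0 := fun z => by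
    rw [z] at h; exact mul_ne_zero (pow_ne_zero 2 hd) he.ne_zero (by rw [← h]; simp)
  refine (Nat.factorization_le_iff_dvd hc hd).1 fun p => ?_
  have := congrArg (fun n => n.factorization p) h
  simp only [Nat.factorization_mul (pow_ne_zero 2 hc) he', Nat.factorization_pow,
    Nat.factorization_mul (pow_ne_zero 2 hd) he.ne_zero, Finsupp.add_apply, Finsupp.smul_apply,
    smul_eq_mul] at this
  have := he.natFactorization_le_one p
  omega

lemma conv_sq (F : ℕ → ℂ) {n : ℕ} (hn : n ≠ 0) : LSeries.convolution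
    (fun a => if IsSquare a then 1 else 0) (fun e => mu e * F e) n = lam n * F (sf n) := by
  obtain ⟨e, hs⟩ := sr_sf n
  have d0 := sr_ne hn
  rw [LSeries.convolution_def]
  refine (sum_eq_single_of_mem (sr n ^ 2, sf n) (Nat.mem_divisorsAntidiagonal.2 ⟨e, hn⟩)
    fun p hp ne => ?_).trans ?_
  · by_contra c
    obtain ⟨a, b⟩ := mul_ne_zero_iff.1 c
    obtain ⟨c, hc⟩ : IsSquare p.1 := by by_contra z; simp [z] at a
    have q : Squarefree p.2 := ArithmeticFunction.moebius_ne_zero_iff_squarefree.1 fun z => by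
      simp [mu, z] at b
    have e1 : c ^ 2 * p.2 = sr n ^ 2 * sf n := by
      rw [e, sq, ← hc]; exact (Nat.mem_divisorsAntidiagonal.1 hp).1
    have c0 : c ≠ 0 := fun z => hn (by rw [← e, ← e1, z]; simp)
    have := Nat.dvd_antisymm (dvd_of_sq d0 hs q.ne_zero e1) (dvd_of_sq c0 q hs.ne_zero e1.symm)
    subst this
    exact ne (Prod.ext (hc.trans (sq _).symm) (mul_left_cancel₀ (pow_ne_zero 2 d0) e1))
  · have : lam n = lam (sf n) := by
      rw [← congrArg lam e, lam_mul, sq, lam_mul, lam_sq d0, one_mul]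
    rw [this, lam, ArithmeticFunction.liouville_apply hs.ne_zero, mu,
      ArithmeticFunction.moebius_apply_of_squarefree hs, if_pos (IsSquare.sq _)]
    simp

/-- coefficients of the resonator -/
noncomputable def rz (h : ℝ) (n : ℕ) : ℂ := lam n * tw h (sf n)

lemma norm_rr (h : ℝ) (n : ℕ) : ‖rz h n‖ ≤ 1 := by
  rw [rz, norm_mul, norm_tw, mul_one]; exact norm_lam n

lemma bc_rr (h : ℝ) {N m : ℕ} (h1 : m ≠ 0) (h2 : m ≤ 2 * N) :
    bc (rz h) N h m = lam m - if m ≤ N then 0 else rz h m := by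
  have ap : ∀ (f : ℕ → ℂ) {n : ℕ}, n ≠ 0 → toArithmeticFunction f n = f n := fun f n hn =>
    if_neg hn
  have ex : ∀ {f g u : ℕ → ℂ}, (∀ n, n ≠ 0 → LSeries.convolution f g n = u n) →
      toArithmeticFunction f * toArithmeticFunction g = toArithmeticFunction u := fun hu => by
    ext n
    rcases eq_or_ne n 0 with rfl | hn
    · simp
    · rw [ap _ hn]; exact hu n hn
  have a1 := ex fun n hn => conv_sq (tw h) (n := n) hn
  have a2 := ex fun n hn => conv_sq (fun _ => 1) (n := n) hn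
  have a3 : toArithmeticFunction (tw h) * toArithmeticFunction (fun e => mu e * tw h e) = 1 := by
    refine (ex (u := (1 : ArithmeticFunction ℂ)) fun d hd => ?_).trans
      (ArithmeticFunction.toArithmeticFunction_eq_self _)
    rw [LSeries.convolution_def]
    dsimp only
    rw [Nat.sum_divisorsAntidiagonal' fun x y => tw h x * (mu y * tw h y)]
    have : ∀ e ∈ d.divisors, tw h (d / e) * (mu e * tw h e) = tw h d * mu e := fun e he => by
      obtain ⟨⟨k, rfl⟩, h0⟩ := Nat.mem_divisors.1 he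
      have e0 : e ≠ 0 := left_ne_zero_of_mul h0
      have k0 : k ≠ 0 := right_ne_zero_of_mul h0
      rw [Nat.mul_div_cancel_left _ (Nat.pos_of_ne_zero e0), tw, tw, tw, Nat.cast_mul,
        Real.log_mul (by exact_mod_cast e0) (by exact_mod_cast k0), ofReal_add, mul_add, exp_add]
      ring
    rw [sum_congr rfl this, ← mul_sum, sum_mu, ArithmeticFunction.one_apply]
    split_ifs with c
    · simp [c, tw]
    · simp
  simp only [mul_one] at a2
  set R := toArithmeticFunction fun n => if n ≤ N then 0 else rz h n with hR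
  have a4 : toArithmeticFunction (cut (rz h) N) =
      toArithmeticFunction (fun n => lam n * tw h (sf n)) - R := by
    rw [eq_sub_iff_add_eq]
    ext n
    rcases eq_or_ne n 0 with rfl | hn
    · simp
    · rw [ArithmeticFunction.add_apply, hR, ap _ hn, ap _ hn, ap _ hn, cut]
      split_ifs <;> simp [rz]
  have a5 : toArithmeticFunction (tw h) * toArithmeticFunction (cut (rz h) N) *
      toArithmeticFunction mu + toArithmeticFunction (tw h) * toArithmeticFunction mu * R =
      toArithmeticFunction fun n => (lam n : ℂ) := by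
    rw [a4, ← a1, ← a2]
    linear_combination (toArithmeticFunction (fun a => if IsSquare a then 1 else 0) *
      toArithmeticFunction mu) * a3
  have a6 := congrArg (fun f : ArithmeticFunction ℂ => f m) a5
  simp only [ArithmeticFunction.add_apply, ap _ h1] at a6
  rw [eq_sub_iff_add_eq, ← a6, bc, LSeries.convolution, LSeries.convolution,
    ArithmeticFunction.toArithmeticFunction_eq_self, add_right_inj, ArithmeticFunction.mul_apply,
    sum_eq_single_of_mem (1, m) (by simp [h1]) fun p hp ne => ?_]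
  · simp [hR, ap, h1, tw, mu]
  · obtain ⟨a, -⟩ := Nat.mem_divisorsAntidiagonal.1 hp
    have b : p.2 ≠ 0 := right_ne_zero_of_mul (a ▸ h1)
    have c : p.1 ≠ 0 := left_ne_zero_of_mul (a ▸ h1)
    have d : p.1 ≠ 1 := fun z => ne (Prod.ext z (by rw [← a, z, one_mul]))
    have : 2 * p.2 ≤ p.1 * p.2 := Nat.mul_le_mul_right _ (by omega)
    rw [hR, ap _ b, if_pos (by omega), mul_zero]

/-- logarithm of the square part -/
noncomputable def dl (n : ℕ) : ℝ := 2 * Real.log (sr n)

lemma dl_nonneg (n : ℕ) : 0 ≤ dl n := mul_nonneg zero_le_two (Real.log_natCast_nonneg _)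

lemma conj_rr {h : ℝ} (h0 : 0 ≤ h) {n : ℕ} (hn : n ≠ 0) :
    ‖conj (rz h n) - lam n * exp (I * h * Real.log n)‖ ≤ h * dl n := by
  obtain ⟨e, hs⟩ := sr_sf n
  have e1 : Real.log n = Real.log (sf n) + dl n := by
    rw [← congrArg (fun n : ℕ => Real.log n) e, Nat.cast_mul, Real.log_mul
      (by exact_mod_cast pow_ne_zero 2 (sr_ne hn)) (by exact_mod_cast hs.ne_zero), Nat.cast_pow,
      Real.log_pow, dl]
    push_cast; ring
  have e2 : conj (rz h n) - lam n * exp (I * h * Real.log n) =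
      -(lam n * exp (I * h * Real.log (sf n))) * (exp (I * (h * dl n : ℝ)) - 1) := by
    rw [rz, tw, map_mul, ← exp_conj, e1, ofReal_add, mul_add, exp_add]
    simp only [map_mul, map_neg, conj_ofReal, conj_I, ofReal_mul]
    ring_nf
  rw [e2, norm_mul, norm_neg, norm_mul, norm_eI, mul_one]
  exact (mul_le_of_le_one_left (norm_nonneg _) (norm_lam n)).trans
    (Real.norm_exp_I_mul_ofReal_sub_one_le.trans_eq
      (Real.norm_of_nonneg (mul_nonneg h0 (dl_nonneg n))))

lemma sum_dec {F : ℕ → ℕ → ℝ} (F0 : ∀ d e, 0 ≤ F d e) (N : ℕ) :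
    ∑ n ∈ Icc 1 N, F (sr n) (sf n) ≤ ∑ d ∈ Icc 1 N, ∑ e ∈ Icc 1 (N / d ^ 2), F d e := by
  classical
  rw [sum_sigma', ← sum_image (g := fun n => (⟨sr n, sf n⟩ : Σ _ : ℕ, ℕ))
    (f := fun p => F p.1 p.2) fun m _ n _ e => by
      rw [← (sr_sf m).1, ← (sr_sf n).1]
      simp only [Sigma.mk.injEq, heq_eq_eq] at e
      rw [e.1, e.2]]
  refine sum_le_sum_of_subset_of_nonneg (image_subset_iff.2 fun n hn => ?_) fun _ _ _ => F0 _ _
  obtain ⟨a, b⟩ := mem_Icc.1 hn
  obtain ⟨e, hs⟩ := sr_sf n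
  have d0 := Nat.pos_of_ne_zero (sr_ne (by omega : n ≠ 0))
  have e0 := Nat.pos_of_ne_zero hs.ne_zero
  refine mem_sigma.2 ⟨mem_Icc.2 ⟨d0, ?_⟩, mem_Icc.2 ⟨e0, ?_⟩⟩
  · dsimp only; nlinarith
  · rw [Nat.le_div_iff_mul_le (by positivity), mul_comm, e]; exact b

lemma sum_dl : ∃ C : ℝ, 0 ≤ C ∧ ∀ N : ℕ, ∑ n ∈ Icc 1 N, dl n ≤ C * N ∧
    ∑ n ∈ Icc 1 N, dl n / n ≤ C * (1 + Real.log N) := by
  have nn : ∀ d : ℕ, 0 ≤ (5 + 6 * Real.log d) / (d : ℝ) ^ 2 := fun d => by
    have := Real.log_natCast_nonneg d; positivity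
  have l0 := Real.log_natCast_nonneg
  have key : ∀ (N : ℕ) (y : ℝ), 0 ≤ y → ∑ d ∈ Icc 1 N, 2 * Real.log d / (d : ℝ) ^ 2 * y ≤
      (∑' d : ℕ, (5 + 6 * Real.log d) / (d : ℝ) ^ 2) * y := fun N y y0 => by
    rw [← sum_mul]
    refine mul_le_mul_of_nonneg_right ((sum_le_sum fun d _ => ?_).trans
      (summable_log.sum_le_tsum (Icc 1 N) fun d _ => nn d)) y0
    exact div_le_div_of_nonneg_right (by linarith [l0 d]) (by positivity)
  refine ⟨∑' d : ℕ, (5 + 6 * Real.log d) / (d : ℝ) ^ 2, tsum_nonneg nn, fun N => ⟨?_, ?_⟩⟩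
  · refine (sum_dec (F := fun d _ => 2 * Real.log d) (fun d _ => by have := l0 d; positivity)
      N).trans ((sum_le_sum fun d _ => ?_).trans (key N N N.cast_nonneg))
    rw [sum_const, Nat.card_Icc, add_tsub_cancel_right, nsmul_eq_mul, mul_comm,
      div_mul_eq_mul_div, mul_div_assoc]
    exact mul_le_mul_of_nonneg_left (Nat.cast_div_le.trans_eq (by push_cast; rfl))
      (by have := l0 d; positivity)
  · refine (le_of_eq (sum_congr rfl fun n _ => ?_)).trans
      ((sum_dec (F := fun d e => 2 * Real.log d / (d : ℝ) ^ 2 * (1 / e))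
      (fun d _ => by have := l0 d; positivity) N).trans ((sum_le_sum fun d hd => ?_).trans
      (key N _ (by linarith [l0 N]))))
    · rw [div_mul_div_comm, mul_one, ← Nat.cast_pow, ← Nat.cast_mul, (sr_sf n).1, dl]
    · rw [← mul_sum]
      exact mul_le_mul_of_nonneg_left ((sum_le_sum_of_subset_of_nonneg (Icc_subset_Icc_right
        (Nat.div_le_self _ _)) fun _ _ _ => by positivity).trans (harm_le N))
        (by have := l0 d; positivity)

end Pool.Agent.MP_f0209c_nt.Ch
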