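import Pool.Agent.MP_f0209c_nt.Ch.Mr
import Pool.Agent.MP_f0209c_nt.Ch.Chowla
import Pool.Agent.MP_f0209c_nt.Ch.Res

/-! The exceptional set, cancellation in short intervals and the correlations of the Liouville
function. -/

namespace Pool.Agent.MP_f0209c_nt.Ch
open Complex Filter Topology Finset ComplexConjugate MeasureTheory

lemma stop {s : ℕ} (hs : 2 ≤ s) (L : ℝ) : ∃ j : ℕ, L ≤ (s ^ 4 ^ j : ℕ) ∧
    (s ^ 4 ^ j = s ∨ ((s ^ 4 ^ j : ℕ) : ℝ) ≤ L ^ 4) := by
  have ex : ∃ j : ℕ, L ≤ (s ^ 4 ^ j : ℕ) := by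
    obtain ⟨j, hj⟩ := exists_nat_ge L
    exact ⟨j, hj.trans (Nat.cast_le.2 ((Nat.lt_pow_self (by norm_num : 1 < 4)).trans
      (Nat.lt_pow_self hs)).le)⟩
  refine ⟨Nat.find ex, Nat.find_spec ex, ?_⟩
  rcases e : Nat.find ex with _ | j
  · simp
  · have := Nat.find_min ex (show j < Nat.find ex by omega)
    right
    rw [pow_succ, pow_mul, Nat.cast_pow]
    exact pow_le_pow_left₀ (Nat.cast_nonneg _) (not_le.1 this).le 4

lemma meas_Lr (f : ℕ → ℂ) (α : ℝ) (s : ℕ) : MeasurableSet {t | Lr f α s t} := by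
  simp only [Lr, Set.ofPred_exists, Set.ofPred_and]
  refine MeasurableSet.iUnion fun v => (MeasurableSet.const _).inter
    (isOpen_lt continuous_const ?_).measurableSet
  unfold QQ pp; fun_prop

section
variable {f : ℕ → ℂ} (h1 : ∀ n, ‖f n‖ ≤ 1)
include h1

lemma exc_vol {α : ℝ} (α0 : 0 < α) : ∀ᶠ u : ℝ in atTop, ∀ s : ℕ, 8 ≤ s → 1 / (s : ℝ) ≤ α →
    Real.log u ≤ s → (s : ℝ) ^ 4 ≤ u → volume.real (Set.Icc (-Real.exp u) (Real.exp u) ∩
      {t | Lr f α s t}) * Lg (2 * Real.exp u) ≤ Real.exp (5 * α * u) := by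
  filter_upwards [Real.tendsto_log_atTop.eventually_ge_atTop (16 / α), eventually_ge_atTop 2,
    (isLittleO_pow_exp_pos_mul_atTop 3 (half_pos α0)).bound
      (show 0 < 1 / (864 * Real.exp 4) by positivity)] with u u1 u2 u3 s s8 sα su s4
  have s1 : (8 : ℝ) ≤ s := by exact_mod_cast s8
  have q := Real.quadratic_le_exp_of_nonneg (show 0 ≤ u by linarith)
  have L : Loc (fun n => if n = 1 then 1 else 0) 0 (0 + 1) := ⟨by simp, fun n hn => by
    simp [(ite_ne_right_iff.1 hn).1]⟩
  have S : Sup (fun n => if n = 1 then 1 else 0) {1} := ⟨by simp, fun n hn => by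
    simp [(ite_ne_right_iff.1 hn).1]⟩
  obtain ⟨ψ, p0, p1, p2⟩ := amplify h1 s8 L (fun n => by
    split_ifs with c <;> simp [*]) (T := Real.exp u) (by nlinarith) s4
    (by rw [zero_add]; linarith [Real.exp_pos u]) sα
  have v := Mv.vol (Real.exp_pos u) (measurableSet_Icc.inter (meas_Lr f α s)) Set.inter_subset_left
    (p2.mono (fun t => Set.indicator_le' (fun t ht => by
      simpa [S.dp_eq, ee] using p1 t ht.2) (fun t _ => p0 t) t) le_rfl)
  have a1 : Lg (2 * Real.exp u) ≤ 2 * u := by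
    rw [Lg, abs_of_pos (by positivity), Real.log_le_iff_le_exp (by positivity), two_mul u,
      Real.exp_add]
    have : 5 ≤ Real.exp u := by nlinarith
    nlinarith
  have a2 : (s : ℝ) ^ 5 ≤ u ^ 2 := ((pow_le_pow_right₀ (by linarith) (by norm_num)).trans_eq
    (pow_mul _ 4 2)).trans (pow_le_pow_left₀ (by positivity) s4 2)
  have a3 : 2 * (α - 1 / s) * (u + s ^ 4) + 8 * u / s ^ 2 * Real.log u ≤ 4 * α * u + α / 2 * u := by
    have b := mul_le_mul (sub_le_self α (show 0 ≤ 1 / (s : ℝ) by positivity))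
      (add_le_add_right s4 u) (by positivity) α0.le
    refine add_le_add (by nlinarith) ((mul_le_mul_of_nonneg_left su (by positivity)).trans ?_)
    rw [div_le_iff₀ α0] at u1
    rw [div_mul_eq_mul_div, div_le_iff₀ (by positivity)]
    nlinarith [mul_le_mul_of_nonneg_left (u1.trans (mul_le_mul_of_nonneg_right su α0.le))
      (show 0 ≤ u * s by positivity)]
  rw [Real.norm_of_nonneg (by positivity), Real.norm_of_nonneg (Real.exp_pos _).le,
    one_div_mul_eq_div, le_div_iff₀ (by positivity)] at u3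
  refine (mul_le_mul (v.trans (mul_le_mul_of_nonneg_left (mul_le_mul (mul_le_mul_of_nonneg_left a2
    (by positivity)) (Real.exp_le_exp.2 a3) (Real.exp_pos _).le (by positivity)) (by norm_num))) a1
    (zero_le_one.trans (one_le_Lg _)) (by positivity)).trans ?_
  rw [show 5 * α * u = α / 2 * u + (4 * α * u + α / 2 * u) by ring, Real.exp_add (α / 2 * u)]
  exact le_trans (le_of_eq (by ring)) (mul_le_mul_of_nonneg_right u3 (Real.exp_pos _).le)

variable (hm : ∀ m n, f (m * n) = f m * f n) {δ : ℝ} (hq : QRH δ) (h0 : 0 < δ) (hδ : δ ≤ 1 / 2)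
  (hr : Rep f δ)
include hm hq h0 hδ hr

theorem mr {ε : ℝ} (hε : 0 < ε) : ∃ D : ℝ, 1 ≤ D ∧ ∀ᶠ u : ℝ in atTop,
    Mv (Real.exp u / D) (fun t => ‖dp (wc f u) t‖ ^ 2) ε := by
  classical
  obtain ⟨C, C0, hC⟩ := mertens
  obtain ⟨K, K0, hK⟩ := large hq h0 hδ
  set L := 1 + 15360 / ε with hL
  have L1 : 1 ≤ L := le_add_of_nonneg_right (by positivity)
  set η := Real.exp (-(C + L)) with hη
  have η0 : 0 < η := Real.exp_pos _
  have η1 : η ≤ 1 / 2 := (Real.exp_le_exp.2 (by linarith)).trans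
    (Real.exp_neg_one_lt_d9.le.trans (by norm_num))
  obtain ⟨J, hJ⟩ := exists_nat_gt (6144 / ε)
  have J0 : (0 : ℝ) < J := lt_trans (by positivity) hJ
  set α := δ * η ^ 2 / 20 with hα
  have α0 : 0 < α := by positivity
  have t := Real.tendsto_exp_neg_atTop_nhds_zero.eventually_le_const
    (show 0 < ε / (576 * Real.exp 4) by positivity)
  obtain ⟨s₀, ⟨⟨s1, s2⟩, s3, s4⟩, s5⟩ := ((((iterate h1 hm α0 (by nlinarith)).and
    (eventually_ge_atTop 8)).and ((log_top.eventually_ge_atTop (16000 / ε)).and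
    (tendsto_natCast_atTop_atTop.eventually_ge_atTop (1 / α)))).and
    (tendsto_natCast_atTop_atTop.eventually t)).exists
  have s8 : (8 : ℝ) ≤ s₀ := by exact_mod_cast s2
  have s9 : (s₀ : ℝ) ≤ s₀ ^ 4 := le_self_pow₀ (by linarith) four_ne_zero
  obtain ⟨x₀, hx⟩ := eventually_atTop.1 (halasz h1 hm h0 hr
    (Real.sqrt_pos.2 (show 0 < ε * η / (64 * K * J) by positivity)))
  refine ⟨Real.exp (s₀ ^ 4), Real.one_le_exp (by positivity), ?_⟩
  filter_upwards [exc_vol h1 α0, eventually_ge_atTop (2 * x₀), eventually_ge_atTop (2 / η ^ 2),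
    eventually_ge_atTop ((s₀ : ℝ) ^ 4 + 1), (Real.isLittleO_pow_log_id_atTop (n := 16)).bound one_pos,
    Real.tendsto_exp_neg_atTop_nhds_zero.eventually_le_const (show 0 < ε / 6144 by positivity)]
    with u u1 u2 u3 u4 u5 u6
  rw [div_le_iff₀' (by positivity)] at u3
  have u0 : 0 < u := by linarith
  rw [one_mul, id, Real.norm_of_nonneg u0.le] at u5
  set T := Real.exp u / Real.exp (s₀ ^ 4) with hT
  have T1 : T = Real.exp (u - s₀ ^ 4) := (Real.exp_sub _ _).symm
  have T2 : 2 ≤ T := by rw [T1]; linarith [Real.add_one_le_exp (u - s₀ ^ 4)]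
  have T3 : T ≤ Real.exp u := div_le_self (Real.exp_pos _).le (Real.one_le_exp (by positivity))
  obtain ⟨j, j1, j2⟩ := stop (s := s₀) (by omega) (Real.log u)
  have j3 : s₀ ≤ s₀ ^ 4 ^ j := Nat.le_self_pow (by positivity) _
  have j4 : ((s₀ ^ 4 ^ j : ℕ) : ℝ) ^ 4 ≤ u := by
    rcases j2 with e | e
    · rw [e]; linarith
    · exact (pow_le_pow_left₀ (Nat.cast_nonneg _) e 4).trans (((pow_mul _ 4 4).symm.trans_le
        (le_abs_self _)).trans u5)
  have m1 := s1 u T T2 T1.le j j4
  generalize s₀ ^ 4 ^ j = s at *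
  have j5 : (s₀ : ℝ) ≤ s := Nat.cast_le.2 j3
  have v := u1 s (s2.trans j3) (by
    rw [div_le_iff₀ α0] at s4; rw [div_le_iff₀ (by linarith)]; nlinarith) j1 j4
  set E := Set.Icc (-Real.exp u) (Real.exp u) ∩ {t | Lr f α s t} with hE
  have ab : η ^ 2 * u ≤ η * u := by nlinarith [mul_pos η0 u0]
  have b1 : η * u ≤ u / 2 := by nlinarith
  set l := ∑ p ∈ pr (η ^ 2 * u) (η * u), (1 / p : ℝ) with hl
  have l1 : L ≤ l := by
    have := hC _ _ u3 ab
    rw [Real.log_mul η0.ne' u0.ne', Real.log_mul (by positivity) u0.ne', Real.log_pow, hη,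
      Real.log_exp] at this
    push_cast at this; linarith
  obtain ⟨ψ, p0, p1, p2⟩ := level h1 hm (J := J) (Nat.cast_pos.1 J0) hl (by linarith)
    (by positivity) (by linarith : η * u ≤ u) T2 T3
  have m2 := Mv.sum (s := VV (η ^ 2 * u) (η * u) J) (T := T) (φ := fun v => E.indicator fun t =>
      ‖QQ f (η ^ 2 * u) (η * u) J v t‖ ^ 2)
    (M := fun v => 2 * K / (η ^ 2 * u) * ∑ p ∈ cl (η ^ 2 * u) (η * u) J v, (1 / p : ℝ)) fun v hv => by
      obtain ⟨x1, x2⟩ := mem_VV (Nat.cast_pos.1 J0) (by positivity) hv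
      refine (hK (v / J) (Real.exp u) T _ _ E (by linarith) (fun p hp => mem_cl (Nat.cast_pos.1 J0) hp)
        (norm_div_le h1) (measurableSet_Icc.inter (meas_Lr f α s)) Set.inter_subset_left
        (‹_ ≤ Real.exp (5 * α * u)›.trans (Real.exp_le_exp.2 (by nlinarith)))).mono
        (fun _ => le_rfl) ?_
      rw [mul_div_right_comm]
      refine mul_le_mul_of_nonneg_right ?_ (by positivity)
      rw [div_le_div_iff₀ (by linarith) (by positivity)]; nlinarith
  rw [← mul_sum, sum_cells (Nat.cast_pos.1 J0), ← hl] at m2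
  have m3 := (mom0 h1 (u := u) (T := 2 * T) (by linarith) (by linarith)).tail (by linarith)
    (fun _ => by positivity) (Real.exp_pos u).le
  refine ((m1.add ((m2.mul (show 0 ≤ 2 * (J * (η * u) + 1) / l * (ε * η / (64 * K * J)) by
    positivity)).add p1)).add m3).mono (fun t => ?_) ?_
  · have z1 := p0 t
    have z2 : 0 ≤ ∑ v ∈ VV (η ^ 2 * u) (η * u) J, E.indicator (fun t =>
        ‖QQ f (η ^ 2 * u) (η * u) J v t‖ ^ 2) t :=
      sum_nonneg fun _ _ => Set.indicator_nonneg (fun _ _ => by positivity) t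
    split_ifs with c d d
    · exact le_add_of_nonneg_left (by positivity)
    · have e : t ∈ E := ⟨abs_le.1 (not_lt.1 d), c⟩
      rw [zero_add, add_zero, mul_assoc, mul_sum]
      refine (p2 t).trans (add_le_add_left (mul_le_mul_of_nonneg_left (sum_le_sum fun v hv => ?_)
        (by positivity)) _)
      obtain ⟨x1, x2⟩ := mem_VV (Nat.cast_pos.1 J0) (by positivity) hv
      rw [Set.indicator_of_mem e, mul_comm]
      exact mul_le_mul_of_nonneg_right ((pow_le_pow_left₀ (norm_nonneg _) (hx (u - v / J)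
        (by linarith) t ((not_lt.1 d).trans (Real.exp_le_exp.2 (by linarith)))) 2).trans_eq
        (Real.sq_sqrt (by positivity))) (by positivity)
    · exact le_add_of_nonneg_left (by positivity)
    · rw [add_zero]; exact le_add_of_nonneg_right (by positivity)
  · have c1 : 4000 / Real.log s₀ ≤ ε / 4 := by
      rw [div_le_iff₀ hε] at s3
      rw [div_le_iff₀ (Real.log_pos (by linarith))]; linarith
    have c2 : 0 ≤ 1000 / Real.log s := div_nonneg (by norm_num) (Real.log_natCast_nonneg s)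
    have c3 : 2 * (J * (η * u) + 1) / l * (ε * η / (64 * K * J)) * (2 * K / (η ^ 2 * u) * l) ≤
        ε / 8 := by
      have : 1 ≤ J * (η * u) := one_le_mul_of_one_le_of_one_le
        (Nat.one_le_cast.2 (Nat.cast_pos.1 J0)) (by linarith)
      refine (mul_le_mul_of_nonneg_right (mul_le_mul_of_nonneg_right (div_le_div_of_nonneg_right
        (show _ ≤ 4 * (J * (η * u)) by linarith) (by linarith)) (by positivity))
        (by positivity)).trans (le_of_eq ?_)
      have : l ≠ 0 := by linarith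
      field_simp; norm_num
    have c4 : 1920 / l ≤ ε / 8 := by
      have : 15360 / ε ≤ l := by linarith
      rw [div_le_iff₀ hε] at this
      rw [div_le_iff₀ (by linarith)]; linarith
    have c5 : 1 / (J : ℝ) ≤ ε / 6144 := by
      rw [div_lt_iff₀ hε] at hJ
      rw [div_le_iff₀ J0]; linarith
    have c6 : Real.exp (-(Real.exp u ^ 2 / (2 * T ^ 2))) * (144 * Real.exp 4) ≤ ε / 4 := by
      refine (mul_le_mul_of_nonneg_right ((Real.exp_le_exp.2 (neg_le_neg ?_)).trans s5)
        (by positivity)).trans (le_of_eq (by field_simp; norm_num))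
      rw [hT, show Real.exp u ^ 2 / (2 * (Real.exp u / Real.exp (s₀ ^ 4)) ^ 2) =
        Real.exp (s₀ ^ 4) ^ 2 / 2 by field_simp]
      nlinarith [Real.add_one_le_exp ((s₀ : ℝ) ^ 4)]
    linarith

theorem null_of_rep : Null f := by
  refine Null.of_exists h1 fun ε hε => ?_
  obtain ⟨D, D1, hD⟩ := mr h1 hm hq h0 hδ hr (show 0 < ε ^ 2 / 1024 by positivity)
  obtain ⟨H, hH⟩ := exists_nat_gt (3072 * D / ε)
  have H0 : (0 : ℝ) < H := lt_trans (by positivity) hH
  rw [div_lt_iff₀ hε] at hH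
  refine ⟨H, Nat.cast_pos.1 H0, le_trans (Ex_le_dyadic (Bdd.win2 ⟨1, h1⟩ H) (fun _ => by positivity)
    (ε := ε / 2 * H ^ 2) (by positivity) ?_) (le_of_eq (by ring))⟩
  have t : Tendsto (fun Y : ℕ => (Y : ℝ) - 1) atTop atTop :=
    tendsto_atTop_add_const_right _ _ tendsto_natCast_atTop_atTop
  filter_upwards [(Real.tendsto_log_atTop.comp t).eventually hD, t.eventually_ge_atTop (3 * D),
    t.eventually_ge_atTop (2 * H + 4), t.eventually_ge_atTop (16 * H / ε)] with Y y1 y2 y3 y4
  set X : ℝ := Y - 1 with hX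
  have X0 : 0 < X := by linarith
  simp only [Function.comp] at y1
  set u := Real.log X with hu
  have eu : Real.exp u = X := Real.exp_log X0
  rw [eu] at y1
  have mem : ∀ n ∈ Ico Y (2 * Y), X ≤ (n : ℝ) - 1 ∧ (n : ℝ) ≤ 2 * X + 1 := fun n hn => by
    have a : (Y : ℝ) ≤ n := Nat.cast_le.2 (mem_Ico.1 hn).1
    have b : ((n + 1 : ℕ) : ℝ) ≤ (2 * Y : ℕ) := Nat.cast_le.2 (mem_Ico.1 hn).2
    push_cast at b
    constructor <;> linarith
  have w := windows (loc_wc f u).sup (norm_wc h1 u) (by rw [le_div_iff₀ (by linarith)]; exact y2) y1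
    (l := ε / 64) (by positivity) (Ico Y (2 * Y)) (fun _ => 1) (fun n => Real.log (n - 1))
    (fun n => Real.log (n - 1 + H)) (fun _ _ => zero_le_one)
    (fun n hn => Real.log_le_log (by linarith [mem n hn]) (by linarith)) (M := 2 * H) fun x => by
      rw [← sum_filter, sum_const, nsmul_eq_mul, mul_one]
      have : ((Ico Y (2 * Y)).filter fun n : ℕ => Real.log (n - 1) < x ∧
          x ≤ Real.log (n - 1 + H)) ⊆ Icc (⌊Real.exp x⌋₊ + 1 - H) (⌊Real.exp x⌋₊ + 1) := fun n hn => by
        obtain ⟨a, b, c⟩ := mem_filter.1 hn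
        have := mem n a
        rw [Real.log_lt_iff_lt_exp (by linarith)] at b
        rw [Real.le_log_iff_exp_le (by linarith)] at c
        have b1 : (n : ℝ) < (⌊Real.exp x⌋₊ + 2 : ℕ) := by
          push_cast; linarith [Nat.lt_floor_add_one (Real.exp x)]
        have c1 : ((⌊Real.exp x⌋₊ + 1 : ℕ) : ℝ) ≤ (n + H : ℕ) := by
          push_cast; linarith [Nat.floor_le (Real.exp_pos x).le]
        rw [Nat.cast_lt] at b1
        rw [Nat.cast_le] at c1
        exact mem_Icc.2 ⟨by omega, by omega⟩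
      have a := card_le_card this
      have := Nat.cast_pos.1 H0
      rw [Nat.card_Icc] at a
      exact_mod_cast a.trans (by omega)
  have card : ((Ico Y (2 * Y)).card : ℝ) ≤ 2 * X := by simp [two_mul]; linarith
  simp only [one_mul] at w
  refine (sum_le_sum (g := fun n : ℕ => H * ‖ws (wc f u) (Icc 1 ⌊Real.exp (u + 1)⌋₊)
    (Real.log (n - 1)) (Real.log (n - 1 + H))‖ + H ^ 3 / X ^ 2) fun n hn => ?_).trans ?_
  · obtain ⟨n1, n2⟩ := mem n hn
    have n0 : (0 : ℝ) < n := by linarith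
    have e3 : (n : ℝ) - 1 + H ≤ Real.exp (u + 1) := by
      rw [Real.exp_add, Real.exp_log X0]; nlinarith [Real.exp_one_gt_d9]
    have e : ws (wc f u) (Icc 1 ⌊Real.exp (u + 1)⌋₊) (Real.log (n - 1)) (Real.log (n - 1 + H)) =
        ∑ j ∈ range H, f (n + j) / (n + j : ℕ) := by
      rw [ws, ← sum_filter, range_eq_Ico, sum_Ico_add (fun m => f m / m), zero_add]
      refine sum_congr (ext fun m => ?_) fun m hm => ?_
      · rw [mem_filter, mem_Icc, mem_Ico, Nat.le_floor_iff (Real.exp_pos _).le]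
        refine ⟨fun ⟨⟨a, _⟩, b, c⟩ => ?_, fun ⟨m1, b⟩ => ?_⟩
        · have m0 : (0 : ℝ) < m := Nat.cast_pos.2 a
          rw [Real.log_lt_log_iff (by linarith) m0] at b
          rw [Real.log_le_log_iff m0 (by linarith)] at c
          have b1 : (n : ℝ) < (m + 1 : ℕ) := by push_cast; linarith
          have c1 : (m : ℝ) < (H + n : ℕ) := by push_cast; linarith
          exact ⟨Nat.lt_succ_iff.1 (Nat.cast_lt.1 b1), Nat.cast_lt.1 c1⟩
        · have m2 : (n : ℝ) ≤ m := Nat.cast_le.2 m1
          have b1 : ((m + 1 : ℕ) : ℝ) ≤ (H + n : ℕ) := Nat.cast_le.2 b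
          push_cast at b1
          exact ⟨⟨Nat.cast_pos.1 (n0.trans_le m2), by linarith⟩, Real.log_lt_log (by linarith)
            (by linarith), Real.log_le_log (by linarith) (by linarith)⟩
      · obtain ⟨a, b⟩ := mem_Ico.1 hm
        have a1 : (n : ℝ) ≤ m := Nat.cast_le.2 a
        have b1 : ((m + 1 : ℕ) : ℝ) ≤ (H + n : ℕ) := Nat.cast_le.2 b
        push_cast at b1
        exact if_pos ⟨Real.log_lt_log X0 (by linarith),
          (Real.log_le_iff_le_exp (by linarith)).2 (by linarith)⟩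
    have a1 : ‖win f H n / n - ∑ j ∈ range H, f (n + j) / (n + j : ℕ)‖ ≤ H ^ 2 / X ^ 2 := by
      rw [win, sum_div, ← sum_sub_distrib]
      refine (norm_sum_le_of_le _ (n := fun _ => H / X ^ 2) fun j hj => ?_).trans
        (le_of_eq (by simp; ring))
      have j1 : (j : ℝ) ≤ H := Nat.cast_le.2 (mem_range.1 hj).le
      have : f (n + j) / n - f (n + j) / (n + j : ℕ) = f (n + j) * (j / (n * (n + j)) : ℝ) := by
        have : (n : ℂ) ≠ 0 := by exact_mod_cast n0.ne'
        have : (n + j : ℂ) ≠ 0 := by exact_mod_cast (by positivity : (n + j : ℝ) ≠ 0)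
        push_cast; field_simp; ring
      rw [this, norm_mul, norm_real, Real.norm_of_nonneg (by positivity)]
      refine (mul_le_of_le_one_left (by positivity) (h1 _)).trans (div_le_div₀ H0.le j1
        (by positivity) ?_)
      nlinarith [(Nat.cast_nonneg j : (0 : ℝ) ≤ j)]
    have a2 := norm_le_norm_sub_add (win f H n / n) (∑ j ∈ range H, f (n + j) / (n + j : ℕ))
    rw [norm_div, Complex.norm_natCast] at a2
    rw [e, sq, mul_div_assoc]
    refine (mul_le_mul (norm_win h1 H n) (a2.trans (add_le_add_left a1 _)) (by positivity)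
      H0.le).trans (le_of_eq (by ring))
  · rw [sum_add_distrib, ← mul_sum, sum_const, nsmul_eq_mul]
    have a1 := (sum_le_card_nsmul (Ico Y (2 * Y)) (fun n : ℕ => ε / 64 * (Real.log (n - 1 + H) -
      Real.log (n - 1)) + 24 * Real.exp (-Real.log (n - 1)) + 72 / (X / D))
      ((ε / 64 * H + 96 * D) / X) fun n hn => by
        obtain ⟨n1, n2⟩ := mem n hn
        have b1 : Real.log (n - 1 + H) - Real.log (n - 1) ≤ H / X := by
          rw [← Real.log_div (by linarith) (by linarith), add_div, div_self (by linarith)]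
          refine (Real.log_le_sub_one_of_pos (by have : (0 : ℝ) < n - 1 := by linarith
                                                 positivity)).trans ?_
          rw [add_sub_cancel_left]; gcongr
        have b2 : Real.exp (-Real.log (n - 1)) ≤ D / X := by
          rw [Real.exp_neg, Real.exp_log (by linarith), ← one_div]; gcongr
        have b3 := mul_le_mul_of_nonneg_left b1 (show 0 ≤ ε / 64 by positivity)
        have : (ε / 64 * H + 96 * D) / X = ε / 64 * (H / X) + 24 * (D / X) + 72 / (X / D) := by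
          field_simp; ring
        linarith).trans ((nsmul_eq_mul _ _).trans_le (mul_le_mul_of_nonneg_right card
          (by positivity)))
    rw [show 2 * X * ((ε / 64 * H + 96 * D) / X) = ε / 32 * H + 192 * D by field_simp; ring] at a1
    rw [show 2 * H / (ε / 64) * (ε ^ 2 / 1024) = ε / 8 * H by field_simp; norm_num] at w
    have a2 := (mul_le_mul_of_nonneg_right card (show 0 ≤ (H : ℝ) ^ 3 / X ^ 2 by positivity)).trans
      (show _ ≤ ε / 8 * H ^ 2 by
        rw [div_le_iff₀ hε] at y4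
        rw [← mul_div_assoc, div_le_iff₀ (by positivity)]
        nlinarith [mul_le_mul_of_nonneg_left y4 (show 0 ≤ X * H ^ 2 by positivity)])
    nlinarith [mul_le_mul_of_nonneg_left (w.trans (add_le_add_left a1 _)) H0.le]

end

/-- the logarithmic two-point Chowla conjecture (a theorem of Tao) from a zero-free half-plane -/
theorem chowla {δ : ℝ} (hq : QRH δ) (h0 : 0 < δ) (hδ : δ ≤ 1 / 2) {k : ℕ} (hk : 0 < k) :
    Cor lam k = 0 := by
  refine cor_zero (fun n => SignType.sign (lam n)) (fun a => a) (fun a => by cases a <;> simp)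
    (fun n => by rcases lam_cases n with h | h | h <;> simp [h]) lam_mul
    (fun p hp => by simp [lam_prime hp]) (fun q _ χ => ?_) hk
  obtain ⟨c, C, c0, h⟩ := repulse hq h0 hδ χ
  refine null_of_rep (fun n => ?_) (fun m n => ?_) hq h0 hδ ⟨c, C, c0, fun a b y t a1 a2 a3 a4 a5 =>
    (h a b y t a1 a2 a3 a4 a5).imp_right fun e => e.trans_eq (sum_congr rfl fun p hp => ?_)⟩
  · rw [norm_mul, norm_real]; exact mul_le_one₀ (abs_lam n) (norm_nonneg _) (χ.norm_le_one _)
  · rw [lam_mul]; push_cast; rw [map_mul]; ring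
  · have : ((lam p : ℂ) * χ p * ee t p).re = -(χ p * ee t p).re := by
      rw [lam_prime (mem_pr.1 hp).1, mul_assoc, re_ofReal_mul, neg_one_mul]
    simp only [this, sub_neg_eq_add]

end Pool.Agent.MP_f0209c_nt.Ch
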