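import Pool.Agent.MP_f0209c_nt.Ch.Row
import Pool.Agent.MP_f0209c_nt.Ch.Mr2

/-! Gaps below one half of the mean spacing. -/

namespace Pool.Agent.MP_f0209c_nt.Ch
open Complex Filter Topology Finset ComplexConjugate

lemma phase' {L C w h : ℝ} (L0 : 0 < L) (C0 : 0 ≤ C) (C1 : 2 * C ≤ L) (w1 : 4 * C ≤ w)
    (w2 : 2 * w ≤ L) (hh : h = Real.pi / L * (1 - C / L)) :
    (exp (I * h * L / 2) * EE h (L + w)).im ≤ C - w / 4 := by
  have p0 := Real.pi_gt_three
  have p1 := Real.pi_le_four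
  have u1 : C / L ≤ 1 / 2 := by rw [div_le_iff₀ L0]; linarith
  have u0 : 0 ≤ C / L := by positivity
  have h0 : 0 < h := by rw [hh]; exact mul_pos (by positivity) (by linarith)
  set β := Real.pi * (C / L) with hβ
  have e1 : h * L = Real.pi - β := by rw [hh, hβ]; field_simp
  have b0 : 0 ≤ β := by positivity
  have b1 : β ≤ 2 * C * h := by
    rw [hh, hβ, show 2 * C * (Real.pi / L * (1 - C / L)) = Real.pi * (C / L * (2 * (1 - C / L))) by
      ring]
    gcongr; nlinarith
  have b2 : h * w ≤ Real.pi / 2 := by nlinarith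
  have s1 := Real.mul_le_sin (x := h * w / 2 - β) (by nlinarith) (by linarith)
  have s2 : 1 / 2 ≤ Real.cos (h * w / 2 - β / 2) := by
    refine le_trans ?_ Real.one_sub_sq_div_two_le_cos
    have : (h * w / 2 - β / 2) ^ 2 ≤ 1 := by
      rw [sq_le_one_iff_abs_le_one, abs_le]; constructor <;> nlinarith
    linarith
  have s3 : (w / 4 - C) * h ≤ 2 / Real.pi * (h * w / 2 - β) := by
    rw [div_mul_eq_mul_div, le_div_iff₀ (by linarith)]
    nlinarith [mul_nonneg (show 0 ≤ w / 4 - C by linarith) h0.le]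
  rw [im_main h0, show h * L / 2 + h * (L + w) / 2 = h * w / 2 - β + Real.pi by linarith,
    show h * (L + w) / 2 = h * w / 2 - β / 2 + Real.pi / 2 by linarith, Real.sin_add_pi,
    Real.sin_add_pi_div_two, div_mul_eq_mul_div, div_le_iff₀ h0]
  nlinarith [mul_le_mul_of_nonneg_left s2 (((mul_nonneg (show 0 ≤ w / 4 - C by linarith)
    h0.le).trans s3).trans s1)]

lemma qrh_of {g : ℝ → ℝ} (h : ∀ᶠ T in atTop, 0 ≤ g T ∧ Gap T (g T)) :
    ∃ δ : ℝ, (0 < δ ∧ δ ≤ 1 / 2) ∧ QRH δ := by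
  obtain ⟨T, hT⟩ := eventually_atTop.1 (h.and (eventually_gt_atTop 0))
  have up : ∀ s : ℂ, riemannZeta s = 0 → T ≤ s.im → s.re = 1 / 2 := fun s z a => by
    obtain ⟨⟨b, c⟩, d⟩ := hT _ a
    simpa using congrArg re (c.line d b z le_rfl (by linarith))
  have fin := ((isCompact_Icc (a := (0 : ℝ)) (b := 1)).reProdIm
    (isCompact_Icc (a := -T) (b := T))).inter_riemannZetaZeros_finite
  obtain ⟨δ, d1, d2⟩ := (((eventually_all_finite fin).2 fun s hs => Ioo_mem_nhdsGT (sub_pos.2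
    (not_le.1 fun c => riemannZeta_ne_zero_of_one_le_re c hs.2))).and
    (Ioc_mem_nhdsGT (show (0 : ℝ) < 1 / 2 by norm_num))).exists
  refine ⟨δ, d2, fun s hs z => ?_⟩
  rcases le_total T s.im with a | a
  · linarith [up s z a, d2.2]
  rcases le_total s.im (-T) with b | b
  · have := up (conj s) (by rw [riemannZeta_conj, z, map_zero]) (by simp; linarith)
    rw [conj_re] at this
    linarith [d2.2]
  · linarith [(d1 s ⟨⟨⟨by linarith [d2.2], (not_le.1 fun c =>
      riemannZeta_ne_zero_of_one_le_re c z).le⟩, b, a⟩, z⟩).2]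

lemma sum_ite_le {s t : Finset ℕ} {p : ℕ → Prop} [DecidablePred p] (h : ∀ n ∈ s, p n → n ∈ t)
    {a : ℝ} (a0 : 0 ≤ a) : ∑ n ∈ s, (if p n then a else 0) ≤ t.card * a := by
  rw [← sum_filter, sum_const, nsmul_eq_mul]
  exact mul_le_mul_of_nonneg_right (Nat.cast_le.2 (card_le_card fun n hn =>
    h n (mem_filter.1 hn).1 (mem_filter.1 hn).2)) a0

lemma th_mean (hc : ∀ k, 0 < k → Cor lam k = 0) (K : ℕ) (P : ℝ) :
    Ex (fun n => ∫ u in -P..0, th K n u) = 0 := by
  have f := cont_FT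
  have l : Bdd lam := ⟨1, abs_lam⟩
  have e : ∀ n, ∫ u in -P..0, th K n u = ∑ k ∈ Ioc 0 (K ^ 2),
      ((∫ u in -P..0, -(FT (-(k * Real.exp u))).re) * (lam n * lam (n + k)) +
      (∫ u in -P..0, -(FT (k * Real.exp u)).re) * (lam n * lam (n - k))) := fun n => by
    unfold th
    rw [intervalIntegral.integral_finsetSum fun k _ =>
      Continuous.intervalIntegrable (by fun_prop) _ _]
    refine sum_congr rfl fun k _ => ?_
    rw [intervalIntegral.integral_add (Continuous.intervalIntegrable (by fun_prop) _ _)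
      (Continuous.intervalIntegrable (by fun_prop) _ _), intervalIntegral.integral_const_mul,
      intervalIntegral.integral_const_mul, mul_comm, mul_comm (lam n * _)]
  have a : ∀ k, Bdd fun n => lam n * lam (n + k) := fun k => l.mul (l.comp _)
  have b : ∀ k, Bdd fun n => lam n * lam (n - k) := fun k => l.mul (l.comp _)
  simp only [e]
  rw [Ex_sum fun k _ => ((Bdd.const _).mul (a k)).add ((Bdd.const _).mul (b k))]
  refine sum_eq_zero fun k hk => ?_
  have z := hc k (mem_Ioc.1 hk).1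
  rw [Ex_add ((Bdd.const _).mul (a k)) ((Bdd.const _).mul (b k)), Ex_mul (a k), Ex_mul (b k),
    ← Ex_shift (b k) k]
  simp only [Nat.add_sub_cancel, mul_comm (lam (_ + k))]
  rw [show Ex (fun n => lam n * lam (n + k)) = 0 from z]
  simp

theorem not_gap' {C' : ℝ} (C0 : 0 ≤ C') :
    ¬ ∀ᶠ T : ℝ in atTop, Gap T (Real.pi / Real.log T * (1 - C' / Real.log T)) := fun hG => by
  have p0 := Real.pi_gt_d2
  have p1 := Real.pi_le_four
  obtain ⟨δ, ⟨d1, d2⟩, hq⟩ := qrh_of ((Real.tendsto_log_atTop.eventually_gt_atTop C').mono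
    (fun T hT => mul_nonneg (div_nonneg (by linarith) (by linarith))
      (sub_nonneg.2 (div_le_one_of_le₀ hT.le (by linarith)))) |>.and hG)
  obtain ⟨c, c0, hc⟩ := FT_zero
  obtain ⟨C, C1, hC⟩ := sum_dl
  obtain ⟨K, ⟨K1, K2⟩, K3⟩ := (((eventually_ge_atTop 1).and (log_top.eventually_ge_atTop
    (4 * C'))).and (log_top.eventually_ge_atTop (4 * (4 + C' + (12 * (24 + C) + 643) / c)))).exists
  have k1 : (1 : ℝ) ≤ K := Nat.one_le_cast.2 K1
  have k2 : Real.log K ≤ K := (Real.log_le_sub_one_of_pos (by linarith)).trans (by linarith)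
  have k3 : (K : ℝ) ≤ K ^ 2 := le_self_pow₀ k1 two_ne_zero
  have k4 : (K : ℝ) ^ 2 ≤ (K ^ 2) ^ 2 := le_self_pow₀ (by linarith) two_ne_zero
  have f := cont_FT
  refine no_bias (θ := th K) (fun n => by unfold th; fun_prop) (B := ∑ _k ∈ Ioc 0 (K ^ 2),
    (1 * 1 * 1 + 1 * 1 * 1)) (fun n u => norm_sum_le_of_le (E := ℝ) (Ioc 0 (K ^ 2)) fun k _ => norm_add_le_of_le (norm_mul_le_of_le
      (norm_mul_le_of_le (abs_lam _) (abs_lam _)) ((norm_neg _).trans_le ((abs_re_le_norm _).trans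
      (norm_FT _)))) (norm_mul_le_of_le (norm_mul_le_of_le (abs_lam _) (abs_lam _))
      ((norm_neg _).trans_le ((abs_re_le_norm _).trans (norm_FT _)))))
    (Real.log_natCast_nonneg K) (th_mean (fun k hk => chowla hq d1 d2 hk) K _) ?_
  filter_upwards [Real.tendsto_exp_atTop.eventually (hG.and lemA), eventually_ge_atTop 96,
    eventually_ge_atTop (30 * C'), eventually_ge_atTop (8 * ((K : ℝ) ^ 2) ^ 2),
    eventually_ge_atTop (2 * K ^ 2 * (4 * C * K + K * (32 * (K ^ 2) ^ 2 + 96 + (4 * K + 6 * C')) +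
      3 * K ^ 2) : ℝ)] with L ⟨hg, hA⟩ L1 L2 L3 L4
  have T1 : L ≤ Real.exp L := by linarith [Real.add_one_le_exp L]
  rw [Real.exp_add, Real.exp_log (by linarith), mul_comm]
  have eL := Real.log_exp L
  generalize Real.exp L = T at *
  subst eL
  set L := Real.log T with hL
  set h := Real.pi / L * (1 - C' / L) with hh
  set N := ⌊K * T⌋₊ with hN
  have L0 : 0 < L := by linarith
  have T0 : 0 < T := by linarith
  have u0 : 0 ≤ C' / L := by positivity
  have u1 : C' / L ≤ 1 / 30 := by rw [div_le_iff₀ L0]; linarith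
  have h1 : 3 / L ≤ h := by
    rw [hh, div_mul_eq_mul_div]; exact div_le_div_of_nonneg_right (by nlinarith) L0.le
  have h3 : h ≤ 4 / L := by
    rw [hh, div_mul_eq_mul_div]; exact div_le_div_of_nonneg_right (by nlinarith) L0.le
  have h2 : 24 * h ≤ 1 := by rw [le_div_iff₀ L0] at h3; nlinarith
  have h0 : 0 < h := lt_of_lt_of_le (by positivity) h1
  have N1 : (N : ℝ) ≤ K * T := Nat.floor_le (by positivity)
  have N2 : K * T < N + 1 := Nat.lt_floor_add_one _
  have lK : Real.log (K * T) = Real.log K + L := Real.log_mul (by linarith) T0.ne'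
  obtain ⟨τ, t1, t2⟩ := hA h (rz h) N hg h1 h2 (norm_rr h)
    (N1.trans ((mul_le_mul_of_nonneg_right (by linarith) T0.le).trans_eq (sq T).symm))
  have t3 : |τ| ≤ T / 8 := t1.trans (div_le_div_of_nonneg_left T0.le (by norm_num) (by linarith))
  have i1 : 1 / T ≤ 1 / L := one_div_le_one_div_of_le L0 T1
  have key := t2.trans ((congrArg im (sum_congr rfl fun n _ => mul_sum _ _ _)).trans_le
    ((im_sum _ _).trans_le (sum_le_sum fun n hn => row (by linarith) h0.le h2 t3 K1 (mem_Icc.1 hn).1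
    (mem_Icc.1 hn).2 N1 hc (by linarith) (η := 8 * (K ^ 2) ^ 2 / L) (ε := (4 * K + 6 * C') / L)
    (by
      calc _ ≤ 2 * K ^ 2 / T * (1 + T / L) + 4 * (K ^ 2) ^ 2 / T := by gcongr
        _ = 2 * K ^ 2 * (1 / T) + 2 * K ^ 2 * (1 / L) + 4 * (K ^ 2) ^ 2 * (1 / T) := by field_simp
        _ ≤ 2 * (K ^ 2) ^ 2 * (1 / L) + 2 * (K ^ 2) ^ 2 * (1 / L) + 4 * (K ^ 2) ^ 2 * (1 / L) := by
          gcongr
        _ = _ := by ring)
    (div_le_one_of_le₀ L3 L0.le) (by positivity) fun n3 => by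
      have a1 : L ≤ Real.log n := Real.log_le_log T0 n3
      have a2 := Real.log_le_log (by linarith) ((Nat.cast_le.2 (mem_Icc.1 hn).2).trans N1)
      have e1 : exp (I * h * Real.log n) * exp (I * h * L / 2) + I = -I * (exp (I *
          (h * (Real.log n - L) - 3 / 2 * (Real.pi * (C' / L)) : ℝ)) - 1) := by
        have e2 : (h : ℂ) * L = Real.pi - Real.pi * (C' / L) := by
          exact_mod_cast (show h * L = Real.pi - Real.pi * (C' / L) by rw [hh]; field_simp)
        rw [← exp_add, mul_sub, ← exp_neg_pi_div_two_mul_I, ← exp_add,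
          ← exp_periodic (_ + I * _), exp_neg_pi_div_two_mul_I, mul_one, sub_neg_eq_add]
        congr 2
        push_cast
        linear_combination (3 / 2 * I) * e2
      rw [e1, norm_mul, norm_neg, norm_I, one_mul]
      refine Real.norm_exp_I_mul_ofReal_sub_one_le.trans ((norm_sub_le _ _).trans ?_)
      rw [Real.norm_of_nonneg (mul_nonneg h0.le (sub_nonneg.2 a1)),
        Real.norm_of_nonneg (by positivity), add_div]
      refine add_le_add ((mul_le_mul h3 (show _ ≤ (K : ℝ) by linarith) (by linarith)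
        (by positivity)).trans_eq (by ring)) ?_
      rw [mul_div_assoc 6]; linarith [mul_le_mul_of_nonneg_right p1 u0])))
  simp only [sum_add_distrib, ← mul_sum, ← sum_div, add_div (24 * h), mul_div_assoc h, sum_const,
    Nat.card_Icc, add_tsub_cancel_right, nsmul_eq_mul, ← hL] at key
  have a1 : ∑ n ∈ Icc 1 N, (exp (I * h * L / 2) * exp ((-1 + I * h) * Real.log n)).im ≤
      4 + C' - Real.log K / 4 := by
    have b1 := Real.log_le_log (by positivity) N2.le
    have b2 := Real.log_le_log (by positivity) (show (N : ℝ) + 1 ≤ 2 * (K * T) by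
      linarith [one_lt_mul_of_le_of_lt k1 (by linarith : 1 < T)])
    rw [Real.log_mul two_ne_zero (by positivity)] at b2
    have b3 := phase' L0 C0 (by linarith) (w := Real.log (N + 1) - L) (by linarith)
      (by linarith [Real.log_two_lt_d9]) hh
    have b4 := (im_le_norm _).trans (norm_mul_le_of_le (show ‖exp (I * h * L / 2)‖ ≤ 1 by
      rw [norm_exp]; simp) (harm_est h0 (by linarith) N))
    rw [add_sub_cancel] at b3
    rw [mul_sub, sub_im] at b4
    rw [← im_sum, ← mul_sum]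
    linarith
  have a2 : ∑ n ∈ Icc 1 N, 24 * h / (n : ℝ) + h * ∑ n ∈ Icc 1 N, dl n / n ≤ 12 * (24 + C) := by
    have b1 : 1 + Real.log N ≤ 3 * L := by
      have := Real.log_le_log (lt_of_add_lt_add_right ((zero_add _).trans_lt
        ((one_lt_mul_of_le_of_lt k1 (by linarith : 1 < T)).trans N2))) N1
      linarith
    simp only [div_eq_mul_one_div (24 * h), ← mul_sum]
    calc _ ≤ 24 * (4 / L) * (3 * L) + 4 / L * (C * (3 * L)) := by
          gcongr
          exacts [(harm_le N).trans b1, sum_nonneg fun n _ => div_nonneg (dl_nonneg n) n.cast_nonneg,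
            (hC N).2.trans (by gcongr)]
      _ = _ := by field_simp; ring
  have a3 := sum_ite_le (s := Icc 1 N) (t := Ioc (N - K ^ 2) N) (p := fun n => N < n + K ^ 2)
    (fun n a b => mem_Ioc.2 ⟨by have := mem_Icc.1 a; omega, (mem_Icc.1 a).2⟩) zero_le_three
  have a4 := sum_ite_le (s := Icc 1 N) (t := Icc 1 ⌊T⌋₊) (p := fun n => (n : ℝ) < T)
    (fun n a b => mem_Icc.2 ⟨(mem_Icc.1 a).1, Nat.le_floor b.le⟩) (show 0 ≤ 320 / T by positivity)
  replace a3 := a3.trans (mul_le_mul_of_nonneg_right (show _ ≤ (K : ℝ) ^ 2 by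
    rw [Nat.card_Ioc]; exact_mod_cast (by omega : N - (N - K ^ 2) ≤ K ^ 2)) zero_le_three)
  replace a4 := a4.trans ((mul_le_mul_of_nonneg_right (show _ ≤ T by
    simpa using Nat.floor_le T0.le) (by positivity)).trans_eq (mul_div_cancel₀ _ T0.ne'))
  have a5 : N * 320 / (T * K) ≤ (320 : ℝ) := by
    rw [div_le_iff₀ (by positivity)]; linarith
  have a6 : 2 * K ^ 2 * ((h * ∑ n ∈ Icc 1 N, dl n + (4 * (8 * (N * (K ^ 2) ^ 2) / L) +
      24 * (N * h) + (4 * (N * K) + 6 * (N * C')) / L) +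
      ∑ n ∈ Icc 1 N, if N < n + K ^ 2 then 3 else 0) / T) ≤ 1 := by
    calc _ ≤ 2 * K ^ 2 * ((4 / L * (C * (K * T)) + (4 * (8 * (K * T * (K ^ 2) ^ 2) / L) +
          24 * (K * T * (4 / L)) + (4 * (K * T * K) + 6 * (K * T * C')) / L) +
          K ^ 2 * 3 * (T / L)) / T) := by
          gcongr
          exacts [sum_nonneg fun n _ => dl_nonneg n, (hC N).1.trans (by gcongr),
            a3.trans (le_mul_of_one_le_right (by positivity) ((one_le_div L0).2 T1))]
      _ = _ / L := by field_simp; ring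
      _ ≤ 1 := div_le_one_of_le₀ L4 L0.le
  have a7 := mul_le_mul_of_nonneg_left a1 c0.le
  have a8 := mul_le_mul_of_nonneg_left K3 c0.le
  rw [mul_left_comm, mul_add, mul_div_cancel₀ _ c0.ne'] at a8
  linarith

theorem below_half (ρ : ℕ → ℂ) (hmono : Monotone fun j => (ρ j).im)
    (hmult : ∀ s : ℂ, 0 < s.im → {j | ρ j = s}.encard = analyticOrderAt riemannZeta s) (C : ℝ) :
    ∃ᶠ j in atTop, (ρ (j + 1)).im * Real.log (ρ (j + 1)).im / (2 * Real.pi) -
      (ρ j).im * Real.log (ρ j).im / (2 * Real.pi) ≤ 1 / 2 - C / Real.log (ρ j).im := fun hc => by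
  obtain ⟨j₀, hj⟩ := eventually_atTop.1 hc
  refine not_gap' (C' := 2 * |C| + 2) (by positivity) ?_
  filter_upwards [eventually_gt_atTop (ρ j₀).im, eventually_ge_atTop 1,
    Real.tendsto_log_atTop.eventually_ge_atTop (2 * |C| + 2)] with T T0 T1 L1
  by_contra hG
  set L := Real.log T with hL
  set h := Real.pi / L * (1 - (2 * |C| + 2) / L) with hh
  have p0 := Real.pi_pos
  have L0 : 0 < L := lt_of_lt_of_le (by positivity) L1
  have h0 : 0 ≤ h := mul_nonneg (by positivity) (sub_nonneg.2 (div_le_one_of_le₀ L1 L0.le))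
  have pair : ∃ i j : ℕ, i ≠ j ∧ T ≤ (ρ i).im ∧ (ρ i).im ≤ 2 * T ∧ T ≤ (ρ j).im ∧
      (ρ j).im ≤ 2 * T ∧ |(ρ j).im - (ρ i).im| ≤ h := by
    unfold Gap at hG
    push Not at hG
    obtain ⟨r, r0, r1, r2, hr⟩ := hG
    by_cases hd : deriv riemannZeta r = 0
    · have := order_two (by linarith) r0 hd
      rw [← hmult r (by linarith)] at this
      obtain ⟨i, j, hi, hj, ne⟩ := Set.one_lt_encard_iff.1 (lt_of_lt_of_le (by norm_num) this)
      have hi' : ρ i = r := hi
      have hj' : ρ j = r := hj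
      exact ⟨i, j, ne, hi' ▸ r1, hi' ▸ r2, hj' ▸ r1, hj' ▸ r2, by rw [hi', hj']; simp [h0]⟩
    · obtain ⟨r', s0, s1, s2, ne, hs⟩ := hr hd
      have a := order_pos (by linarith) r0
      have b := order_pos (by linarith) s0
      rw [← hmult _ (by linarith), Set.one_le_encard_iff_nonempty] at a b
      obtain ⟨i, hi⟩ := a
      obtain ⟨j, hj⟩ := b
      have hi' : ρ i = r := hi
      have hj' : ρ j = r' := hj
      exact ⟨i, j, fun e => ne (by rw [← hi', ← hj', e]), hi' ▸ r1, hi' ▸ r2, hj' ▸ s1, hj' ▸ s2,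
        by rw [hi', hj']; exact hs⟩
  have pair2 : ∃ i j : ℕ, i < j ∧ T ≤ (ρ i).im ∧ (ρ j).im ≤ 2 * T ∧ (ρ j).im - (ρ i).im ≤ h := by
    obtain ⟨i, j, ne, a, b, c, d, e⟩ := pair
    rw [abs_le] at e
    rcases lt_or_gt_of_ne ne with o | o
    · exact ⟨i, j, o, a, d, e.2⟩
    · exact ⟨j, i, o, c, b, by linarith [e.1]⟩
  obtain ⟨i, j, o, a, b, c⟩ := pair2
  have m1 : (ρ (i + 1)).im ≤ (ρ j).im := hmono o
  have m2 : (ρ i).im ≤ (ρ (i + 1)).im := hmono (Nat.le_succ i)
  refine hj i (not_lt.1 fun z => (T0.trans_le a).not_ge (hmono z.le)) ?_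
  have l1 : L ≤ Real.log (ρ i).im := Real.log_le_log (by linarith) a
  have c1 : C / Real.log (ρ i).im ≤ |C| / L := div_le_div₀ (abs_nonneg C) (le_abs_self C) L0 l1
  beta_reduce
  rw [← sub_div, div_le_iff₀ (by positivity)]
  refine (xlog (h := h) T1 a m2 (m1.trans b) (by linarith)).trans ?_
  have e1 : h * (L + 2) = Real.pi * ((1 - 2 * (|C| / L) - 2 * (1 / L)) * (1 + 2 * (1 / L))) := by
    rw [hh]; field_simp; ring
  have u1 : 0 ≤ |C| / L := by positivity
  have u2 : 0 ≤ 1 / L := by positivity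
  rw [← hL, e1, mul_comm 2 Real.pi, mul_left_comm _ Real.pi 2]
  refine mul_le_mul_of_nonneg_left ?_ p0.le
  nlinarith [mul_nonneg u1 u2, mul_nonneg u2 u2]

end Pool.Agent.MP_f0209c_nt.Ch
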