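import Pool.Agent.MP_f0209c_nt.Final
import Pool.Agent.MP_f0209c_nt.Ch.Res

/-! The contour integral with a long resonator, averaged over the centre of the weight. -/

namespace Pool.Agent.MP_f0209c_nt.Ch
open Complex Set Metric Filter Topology ComplexConjugate MeasureTheory intervalIntegral

/-- the integrand -/
noncomputable def FG (P : ℂ → ℂ) (h : ℝ) (s : ℂ) : ℂ :=
  completedRiemannZeta (s + I * h) * P s / completedRiemannZeta s

lemma contour' {P : ℂ → ℂ} (hP : Differentiable ℂ P) (sym : ∀ s, P (1 - conj s) = conj (P s))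
    (pos : ∀ t : ℝ, ∃ c : ℝ, 0 ≤ c ∧ P (1 / 2 + t * I) = c) {T h A B M : ℝ} (hG : Gap T h)
    (hT : 0 < T) (h0 : 0 < h) (hA : T ≤ A) (hAB : A ≤ B) (hB : B + h ≤ 2 * T)
    (hA' : ∀ ρ : ℂ, riemannZeta ρ = 0 → T ≤ ρ.im → ρ.im ≤ 2 * T → h / 2 ≤ |ρ.im - A|)
    (hB' : ∀ ρ : ℂ, riemannZeta ρ = 0 → T ≤ ρ.im → ρ.im ≤ 2 * T → h / 2 ≤ |ρ.im - B|)
    (hM : ∀ x ∈ Icc (1 / 2 : ℝ) 4, ‖FG P h (x + A * I)‖ ≤ M ∧ ‖FG P h (x + B * I)‖ ≤ M) :
    -(7 * M) ≤ (∫ t in A..B, FG P h (4 + t * I)).im := by
  have sy : ∀ s : ℂ, 0 < s.im → FG P h (1 - conj s) = conj (FG P h s) := fun s hs => by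
    have e : 1 - conj s + I * h = 1 - conj (s + I * h) := by simp; ring
    rw [FG, FG, e, lam_sym (by simp; linarith), lam_sym hs.ne', sym, map_div₀, map_mul]
  have fin := ((isCompact_uIcc (a := (-3 : ℝ)) (b := 4)).reProdIm
    (isCompact_uIcc (a := A) (b := B))).inter_riemannZetaZeros_finite
  have win : ∀ s : ℂ, s.im ∈ uIcc A B → T ≤ s.im ∧ s.im + h ≤ 2 * T := fun s hs => by
    rw [uIcc_of_le hAB] at hs; exact ⟨by linarith [hs.1], by linarith [hs.2]⟩
  have key := res_sign (a' := -3) (a := 4) (U := {s : ℂ | 0 < s.im})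
    (isOpen_lt continuous_const continuous_im) (fun s hs => hT.trans_le (win s hs.2).1)
    (by norm_num) hAB (N := fun s => completedRiemannZeta (s + I * h) * P s)
    (F := completedRiemannZeta)
    (fun s hs => ((DifferentiableAt.comp (g := completedRiemannZeta) s (diff_lam (by
      have : 0 < s.im := hs
      simp; linarith)) (by fun_prop)).mul (hP s)).differentiableWithinAt)
    (fun s hs => (diff_lam (ne_of_gt hs)).differentiableWithinAt) fin.toFinset
    (fun ρ hρ => by
      obtain ⟨r1, r2⟩ := fin.mem_toFinset.1 hρ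
      obtain ⟨w1, w2⟩ := win ρ r1.2
      have e := congrArg re (hG.line hT h0.le r2 w1 (by linarith))
      have a := hA' ρ r2 w1 (by linarith)
      have b := hB' ρ r2 w1 (by linarith)
      have r3 := r1.2
      rw [uIcc_of_le hAB, mem_preimage] at r3
      rw [abs_of_nonneg (by linarith [r3.1])] at a
      rw [abs_of_nonpos (by linarith [r3.2])] at b
      simp at e
      exact ⟨by linarith, by linarith, by linarith, by linarith⟩)
    (fun ρ hρ => by
      obtain ⟨r1, r2⟩ := fin.mem_toFinset.1 hρ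
      obtain ⟨w1, w2⟩ := win ρ r1.2
      have r2' : riemannZeta ρ = 0 := r2
      have e := hG.line hT h0.le r2 w1 (by linarith)
      obtain ⟨g1, g2⟩ := hG ρ r2 w1 (by linarith)
      have i0 : ρ.im ≠ 0 := by linarith
      refine ⟨(lam_zero_iff i0).2 r2, deriv_lam_ne i0 r2 g1, ?_⟩
      generalize ρ.im = γ at *
      subst e
      obtain ⟨c, c0, ec⟩ := residue_sign (by linarith) h0 r2' g1 fun t ht z => by
        have := g2 _ z (by simp; linarith [ht.1]) (by simp; linarith [ht.2]) fun e => by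
          have := congrArg im e
          simp at this
          linarith [ht.1]
        simp only [add_im, mul_im, ofReal_re, I_im, mul_one, ofReal_im, I_re, mul_zero, add_zero,
          div_ofNat_im, one_im, zero_div, zero_add] at this
        rw [abs_of_pos (by linarith [ht.1])] at this
        linarith [ht.2]
      obtain ⟨d, d0, ed⟩ := pos γ
      refine ⟨c * d, mul_nonneg c0 d0, ?_⟩
      rw [mul_div_right_comm, ec, ed, ofReal_mul, mul_assoc])
    (fun s hs z => fin.mem_toFinset.2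
      ⟨hs, (lam_zero_iff (hT.trans_le (win s hs.2).1).ne').1 z⟩)
  have hor : ∀ y : ℝ, 0 < y → (∀ x ∈ Icc (1 / 2 : ℝ) 4, ‖FG P h (x + y * I)‖ ≤ M) →
      ‖∫ x in (-3 : ℝ)..4, FG P h (x + y * I)‖ ≤ 7 * M := fun y y0 hy => by
    refine (intervalIntegral.norm_integral_le_of_norm_le_const (C := M) fun x hx => ?_).trans
      (le_of_eq (by norm_num [mul_comm]))
    rw [uIoc_of_le (by norm_num)] at hx
    rcases le_total (1 / 2) x with c | c
    · exact hy x ⟨c, hx.2⟩
    · have := sy ((1 - x : ℝ) + y * I) (by simpa using y0)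
      rw [show 1 - conj (((1 - x : ℝ) : ℂ) + y * I) = x + y * I by simp; ring] at this
      rw [this, norm_conj]
      exact hy _ ⟨by linarith, by linarith [hx.1]⟩
  have e1 := hor A (by linarith) fun x hx => (hM x hx).1
  have e2 := hor B (by linarith) fun x hx => (hM x hx).2
  have e3 : (∫ t in A..B, FG P h ((-3 : ℝ) + t * I)) =
      conj (∫ t in A..B, FG P h (4 + t * I)) := by
    rw [← intervalIntegral_conj]
    refine integral_congr fun t ht => ?_
    rw [← sy (4 + t * I) (hT.trans_le (win _ (by simpa using ht)).1)]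
    congr 1
    simp [map_ofNat]; ring
  change (bdry (-3) 4 A B (FG P h)).re ≤ 0 at key
  unfold bdry at key
  rw [e3] at key
  simp only [ofReal_ofNat, sub_re, add_re, mul_re, I_re, I_im, zero_mul, one_mul, conj_im] at key
  have a1 := abs_le.1 ((abs_re_le_norm _).trans e1)
  have a2 := abs_le.1 ((abs_re_le_norm _).trans e2)
  linarith [a1.1, a2.2]

lemma rect_diff {f : ℂ → ℂ} {a a' A B M : ℝ} (hf : DifferentiableOn ℂ f (uIcc a' a ×ℂ uIcc A B))
    (h₂ : ∀ x ∈ uIcc a' a, ‖f (x + A * I)‖ ≤ M) (h₃ : ∀ x ∈ uIcc a' a, ‖f (x + B * I)‖ ≤ M) :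
    ‖(∫ t in A..B, f (a + t * I)) - ∫ t in A..B, f (a' + t * I)‖ ≤ 2 * (M * |a - a'|) := by
  have h := integral_boundary_rect_eq_zero_of_differentiableOn f (a' + A * I) (a + B * I)
    (by simpa using hf)
  simp only [add_re, ofReal_re, mul_re, I_re, mul_zero, ofReal_im, I_im, mul_one, sub_self,
    add_zero, add_im, mul_im, zero_add, smul_eq_mul] at h
  have e2 : ‖∫ x in a'..a, f (x + A * I)‖ ≤ M * |a - a'| :=
    norm_integral_le_of_norm_le_const fun t ht => h₂ t (uIoc_subset_uIcc ht)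
  have e3 : ‖∫ x in a'..a, f (x + B * I)‖ ≤ M * |a - a'| :=
    norm_integral_le_of_norm_le_const fun t ht => h₃ t (uIoc_subset_uIcc ht)
  have e4 : (∫ t in A..B, f (a + t * I)) - ∫ t in A..B, f (a' + t * I) =
      I * ((∫ x in a'..a, f (x + A * I)) - ∫ x in a'..a, f (x + B * I)) := by
    linear_combination (-I) * h + ((∫ t in A..B, f (a + t * I)) -
      ∫ t in A..B, f (a' + t * I)) * I_mul_I
  rw [e4, norm_mul, norm_I, one_mul]
  linarith [norm_sub_le (∫ x in a'..a, f (x + A * I)) (∫ x in a'..a, f (x + B * I))]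

lemma expand' {r : ℕ → ℂ} (hr : ∀ n, ‖r n‖ ≤ 1) {N : ℕ} {h A B ε : ℝ} {Ψ Z κ : ℝ → ℂ} (hε : 0 ≤ ε)
    (hΨ : ContinuousOn Ψ (uIcc A B)) (hZ : ContinuousOn Z (uIcc A B))
    (hsum : ∀ t : ℝ, HasSum (fun m => bc r N h m * exp (-(4 + t * I) * Real.log m)) (Z t))
    (hK : ∀ x : ℝ, ‖(∫ t in A..B, exp (x * (4 + t * I)) * Ψ t) - κ x‖ ≤ Real.exp (4 * x) * ε)
    (h0 : ∀ x : ℝ, x ≤ -(1 / 2) → κ x = 0) :
    ‖(∫ t in A..B, Ψ t * Z t * RH r N (4 + t * I)) - ∑ n ∈ Finset.Icc 1 N, conj (r n) / n *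
      ∑ m ∈ Finset.range (n + N + 1), bc r N h m * κ (Real.log n - Real.log m)‖ ≤
      2 * N ^ 5 * ε := by
  obtain ⟨M, hM⟩ := isCompact_uIcc.exists_bound_of_continuousOn hΨ
  have ce : ∀ x : ℝ, Continuous fun t : ℝ => exp (x * (4 + t * I)) := fun x => by fun_prop
  have ne : ∀ x t : ℝ, ‖exp (x * (4 + t * I))‖ = Real.exp (4 * x) := fun x t => by
    rw [norm_exp]; simp [mul_comm]
  have nb : ∀ n m : ℕ, 1 ≤ n → ‖bc r N h m‖ * Real.exp (4 * (Real.log n - Real.log m)) ≤
      n ^ 4 * (1 / m ^ 2) := fun n m hn => by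
    rcases Nat.eq_zero_or_pos m with rfl | hm
    · simp [bc_zero]
    have n1 : (0 : ℝ) < n := by exact_mod_cast hn
    have m1 : (0 : ℝ) < m := by exact_mod_cast hm
    have e : Real.exp (4 * (Real.log n - Real.log m)) = (n / m) ^ 4 := by
      rw [← Real.log_div n1.ne' m1.ne', ← Nat.cast_ofNat, Real.exp_nat_mul,
        Real.exp_log (by positivity)]
    rw [e]
    refine (mul_le_mul_of_nonneg_right (norm_bc hr N h m) (by positivity)).trans (le_of_eq ?_)
    field_simp
  have pi2 : Real.pi ^ 2 / 6 ≤ 2 := by nlinarith [Real.pi_lt_d2, Real.pi_pos]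
  have one : ∀ n ∈ Finset.Icc 1 N, ‖(∫ t in A..B, exp (Real.log n * (4 + t * I)) * (Ψ t * Z t)) -
      ∑ m ∈ Finset.range (n + N + 1), bc r N h m * κ (Real.log n - Real.log m)‖ ≤
      2 * N ^ 4 * ε := fun n hn => by
    obtain ⟨n1, n2⟩ := Finset.mem_Icc.1 hn
    have hs := hasSum_integral_of_dominated_convergence (μ := volume) (a := A) (b := B)
      (F := fun (m : ℕ) (t : ℝ) =>
        bc r N h m * (exp ((Real.log n - Real.log m : ℝ) * (4 + t * I)) * Ψ t))
      (f := fun t => exp (Real.log n * (4 + t * I)) * (Ψ t * Z t))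
      (fun m _ => n ^ 4 * (1 / m ^ 2) * M)
      (fun m => ((continuousOn_const.mul ((ce _).continuousOn.mul hΨ)).mono
        Set.uIoc_subset_uIcc).aestronglyMeasurable measurableSet_uIoc)
      (fun m => ae_of_all _ fun t ht => by
        rw [norm_mul, norm_mul, ne, ← mul_assoc]
        exact mul_le_mul (nb n m n1) (hM t (Set.uIoc_subset_uIcc ht)) (norm_nonneg _)
          (by positivity))
      (ae_of_all _ fun t _ => ((hasSum_zeta_two.summable.mul_left _).mul_right _))
      intervalIntegrable_const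
      (ae_of_all _ fun t _ => by
        have := (hsum t).mul_left (exp (Real.log n * (4 + t * I)) * Ψ t)
        rw [mul_assoc] at this
        refine (congrArg (fun f => HasSum f _) (funext fun m => ?_)).mpr this
        rw [ofReal_sub, sub_mul, sub_eq_add_neg, exp_add]
        ring_nf)
    have hs2 := hs.sub (hasSum_sum_of_ne_finset_zero (s := Finset.range (n + N + 1))
      (f := fun m => bc r N h m * κ (Real.log n - Real.log m)) fun m hm => by
        have a : ((2 * n : ℕ) : ℝ) ≤ m := Nat.cast_le.2 (by rw [Finset.mem_range] at hm; omega)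
        have n0 : (0 : ℝ) < n := Nat.cast_pos.2 n1
        push_cast at a
        have b := Real.log_le_log (by positivity) a
        rw [Real.log_mul two_ne_zero n0.ne'] at b
        rw [h0 _ (by linarith [Real.log_two_gt_d9]), mul_zero])
    simp only [intervalIntegral.integral_const_mul, ← mul_sub] at hs2
    refine (hs2.norm_le_of_bounded ((hasSum_zeta_two.mul_left ((n : ℝ) ^ 4)).mul_right ε)
      fun m => ?_).trans (mul_le_mul_of_nonneg_right ?_ hε)
    · rw [norm_mul]
      refine (mul_le_mul_of_nonneg_left (hK _) (norm_nonneg _)).trans ?_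
      rw [← mul_assoc]
      exact mul_le_mul_of_nonneg_right (nb n m n1) hε
    · rw [mul_comm]
      exact mul_le_mul pi2 (pow_le_pow_left₀ (by positivity) (Nat.cast_le.2 n2) 4) (by positivity)
        (by norm_num)
  have e1 : (∫ t in A..B, Ψ t * Z t * RH r N (4 + t * I)) = ∑ n ∈ Finset.Icc 1 N,
      conj (r n) / n * ∫ t in A..B, exp (Real.log n * (4 + t * I)) * (Ψ t * Z t) := by
    simp only [← intervalIntegral.integral_const_mul]
    rw [← intervalIntegral.integral_finsetSum (f := fun (n : ℕ) (t : ℝ) =>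
        conj (r n) / n * (exp (Real.log n * (4 + t * I)) * (Ψ t * Z t)))
      fun n _ => (continuousOn_const.mul ((ce _).continuousOn.mul (hΨ.mul hZ))).intervalIntegrable]
    refine integral_congr fun t _ => ?_
    simp only [RH, Finset.mul_sum]
    refine Finset.sum_congr rfl fun n hn => ?_
    have n0 : (0 : ℝ) < n := Nat.cast_pos.2 (Finset.mem_Icc.1 hn).1
    rw [sub_mul, exp_sub, one_mul, ← ofReal_exp, Real.exp_log n0, mul_comm (4 + t * I : ℂ),
      ofReal_natCast]
    ring
  rw [e1, ← Finset.sum_sub_distrib]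
  refine (norm_sum_le_of_le _ (n := fun _ => 2 * N ^ 4 * ε) fun n hn => ?_).trans ?_
  · rw [← mul_sub, norm_mul, norm_div, norm_conj, Complex.norm_natCast]
    exact (mul_le_of_le_one_left (norm_nonneg _) (div_le_one_of_le₀ ((hr n).trans
      (Nat.one_le_cast.2 (Finset.mem_Icc.1 hn).1)) n.cast_nonneg)).trans (one n hn)
  · simp only [Finset.sum_const, Nat.card_Icc, add_tsub_cancel_right, nsmul_eq_mul]
    exact le_of_eq (by ring)

lemma avg {q p g : ℝ → ℝ} (hq : Continuous q) (hp : Continuous p) (hg : Continuous g)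
    (p0 : ∀ y, 0 ≤ p y) (g0 : ∀ τ, 0 ≤ g τ) {a b D T E : ℝ} (hab : a ≤ b) (D0 : 0 ≤ D)
    (h : ∀ y ∈ Icc a b, -E ≤ ∫ τ in -D..D, g τ * q (T * y + τ))
    (hE : (∫ y in a..b, p y) * E < ∫ τ in -D..D, g τ) :
    ∃ τ, |τ| ≤ D ∧ -1 ≤ ∫ y in a..b, p y * q (T * y + τ) := by
  by_contra hc
  push Not at hc
  have e := intervalIntegral_intervalIntegral_swap (a := a) (b := b) (c := -D) (d := D)
    (F := fun y τ => p y * (g τ * q (T * y + τ))) (((show Continuous fun z : ℝ × ℝ =>
      p z.1 * (g z.2 * q (T * z.1 + z.2)) by fun_prop).continuousOn.integrableOn_compact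
      (isCompact_uIcc.prod isCompact_uIcc)).mono_set (prod_mono uIoc_subset_uIcc uIoc_subset_uIcc))
  simp only [intervalIntegral.integral_const_mul] at e
  simp only [mul_left_comm (p _), intervalIntegral.integral_const_mul] at e
  have a1 := integral_mono_on (μ := volume) (f := fun y => p y * -E)
    (g := fun y => p y * ∫ τ in -D..D, g τ * q (T * y + τ)) hab
    (Continuous.intervalIntegrable (by fun_prop) _ _)
    (Continuous.intervalIntegrable (by fun_prop) _ _)
    fun y hy => mul_le_mul_of_nonneg_left (h y hy) (p0 y)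
  have a2 := integral_mono_on (μ := volume) (g := fun τ => g τ * -1)
    (f := fun τ => g τ * ∫ y in a..b, p y * q (T * y + τ)) (show -D ≤ D by linarith)
    (Continuous.intervalIntegrable (by fun_prop) _ _)
    (Continuous.intervalIntegrable (by fun_prop) _ _)
    fun τ hτ => mul_le_mul_of_nonneg_left (hc τ (abs_le.2 hτ)).le (g0 τ)
  rw [intervalIntegral.integral_mul_const] at a1 a2
  linarith

end Pool.Agent.MP_f0209c_nt.Ch
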