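import Pool.Agent.MP_f0209c_nt.Ch.Mean
import Pool.Agent.MP_f0209c_nt.Ch.Sieve

/-! Shannon entropy for the logarithmic mean and the entropy decrement argument. -/

namespace Pool.Agent.MP_f0209c_nt.Ch
open Filter Topology Finset

section
variable {A : Type} [Fintype A] [DecidableEq A] {A' : Type} [Fintype A'] [DecidableEq A']

/-- probability of a value -/
noncomputable def Pr (φ : ℕ → A) (a : A) : ℝ := Ex fun n => if φ n = a then 1 else 0

omit [Fintype A] in
lemma Pr_nonneg (φ : ℕ → A) (a : A) : 0 ≤ Pr φ a :=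
  Ex_nonneg (by fun_prop) fun n => by split_ifs <;> norm_num

lemma Ex_fin (φ : ℕ → A) (F : A → ℝ) : Ex (fun n => F (φ n)) = ∑ a, Pr φ a * F a := by
  have e : (fun n => F (φ n)) = fun n => ∑ a, F a * (if φ n = a then 1 else 0) := by
    funext n; simp
  rw [e, Ex_sum fun a _ => by fun_prop]
  exact sum_congr rfl fun a _ => by rw [Ex_mul (by fun_prop), mul_comm, Pr]

lemma sum_Pr (φ : ℕ → A) : ∑ a, Pr φ a = 1 := by
  simpa [Ex_const] using (Ex_fin φ fun _ => 1).symm

lemma Ex_mono_as (φ : ℕ → A) {F G : A → ℝ} (h : ∀ a, 0 < Pr φ a → F a ≤ G a) :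
    Ex (fun n => F (φ n)) ≤ Ex fun n => G (φ n) := by
  rw [Ex_fin, Ex_fin]
  refine sum_le_sum fun a _ => ?_
  rcases (Pr_nonneg φ a).eq_or_lt with e | e
  · simp [← e]
  · exact mul_le_mul_of_nonneg_left (h a e) e.le

omit [Fintype A] [Fintype A'] in
lemma Pr_le {φ : ℕ → A} {ψ : ℕ → A'} {a : A} {b : A'} (h : ∀ n, φ n = a → ψ n = b) :
    Pr φ a ≤ Pr ψ b :=
  Ex_mono (by fun_prop) (by fun_prop) fun n => by
    by_cases c : φ n = a
    · simp [c, h n c]
    · rw [if_neg c]; split_ifs <;> norm_num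

omit [Fintype A] in
lemma Pr_shift (φ : ℕ → A) (k : ℕ) (a : A) : Pr (fun n => φ (n + k)) a = Pr φ a :=
  Ex_shift (g := fun n => if φ n = a then 1 else 0) (by fun_prop) k

omit [Fintype A'] in
lemma sum_Pr_fst (φ : ℕ → A) (ψ : ℕ → A') (b : A') :
    ∑ a, Pr (fun n => (φ n, ψ n)) (a, b) = Pr ψ b := by
  simp only [Pr]
  rw [← Ex_sum fun a _ => by fun_prop]
  congr 1
  funext n
  by_cases c : ψ n = b <;> simp [c]

/-- entropy -/
noncomputable def Ent (φ : ℕ → A) : ℝ := Ex fun n => -Real.log (Pr φ (φ n))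

lemma gibbs (φ : ℕ → A) (q : A → ℝ) (h0 : ∀ a, 0 ≤ q a) (h1 : ∑ a, q a ≤ 1)
    (h2 : ∀ a, 0 < Pr φ a → 0 < q a) : Ent φ ≤ Ex fun n => -Real.log (q (φ n)) := by
  rw [Ent, Ex_fin φ fun a => -Real.log (Pr φ a), Ex_fin φ fun a => -Real.log (q a), ← sub_nonpos,
    ← sum_sub_distrib]
  refine (sum_le_sum (g := fun a => q a - Pr φ a) fun a _ => ?_).trans ?_
  · rcases (Pr_nonneg φ a).eq_or_lt with e | e
    · simp [← e, h0 a]
    · have := Real.log_le_sub_one_of_pos (div_pos (h2 a e) e)
      rw [Real.log_div (h2 a e).ne' e.ne'] at this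
      have := mul_le_mul_of_nonneg_left this e.le
      rw [mul_sub _ (_ / _), mul_div_cancel₀ _ e.ne'] at this
      linarith
  · rw [sum_sub_distrib, sum_Pr]; linarith

lemma Ent_nonneg (φ : ℕ → A) : 0 ≤ Ent φ :=
  Ex_nonneg (Bdd.fin (fun a => -Real.log (Pr φ a)) φ) fun _ => neg_nonneg.2 (Real.log_nonpos
    (Pr_nonneg _ _) (sum_Pr φ ▸ single_le_sum (fun a _ => Pr_nonneg φ a) (mem_univ _)))

omit [Fintype A] [Fintype A'] in
lemma Ent_congr {φ : ℕ → A} {ψ : ℕ → A'} (h : ∀ m n, φ m = φ n ↔ ψ m = ψ n) : Ent φ = Ent ψ := by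
  simp only [Ent, Pr, h]

lemma Ent_le_pair (φ : ℕ → A) (ψ : ℕ → A') : Ent φ ≤ Ent fun n => (φ n, ψ n) :=
  Ex_mono_as (fun n => (φ n, ψ n)) (F := fun x => -Real.log (Pr φ x.1))
    (G := fun x => -Real.log (Pr (fun n => (φ n, ψ n)) x)) fun _ ha =>
    neg_le_neg (Real.log_le_log ha (Pr_le fun _ e => congrArg Prod.fst e))

/-- the variational inequality -/
lemma variational (φ : ℕ → A) (ψ : ℕ → A') {M B : ℝ} (hM : 0 < M) (G : A × A' → ℝ)
    (hG : ∀ a, ∑ b, Real.exp (G (a, b)) ≤ M * Real.exp B) :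
    Ex (fun n => G (φ n, ψ n)) ≤ Ent φ + Real.log M - Ent (fun n => (φ n, ψ n)) + B := by
  have h1 := gibbs (fun n => (φ n, ψ n))
    (fun x => Pr φ x.1 * Real.exp (G x) / (M * Real.exp B))
    (fun x => by have := Pr_nonneg φ x.1; positivity) (by
      rw [← sum_div, div_le_one (by positivity), Fintype.sum_prod_type]
      simp only [← mul_sum]
      refine (sum_le_sum fun a _ => mul_le_mul_of_nonneg_left (hG a) (Pr_nonneg φ a)).trans ?_
      rw [← sum_mul, sum_Pr, one_mul])
    fun x hx => by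
      have := hx.trans_le (Pr_le (b := x.1) fun _ e => congrArg Prod.fst e)
      positivity
  have h2 := Ex_mono_as (fun n => (φ n, ψ n))
    (F := fun x => -Real.log (Pr φ x.1 * Real.exp (G x) / (M * Real.exp B)))
    (G := fun x => -Real.log (Pr φ x.1) - G x + (Real.log M + B)) fun x hx => by
      have := hx.trans_le (Pr_le (b := x.1) fun _ e => congrArg Prod.fst e)
      rw [Real.log_div (by positivity) (by positivity), Real.log_mul this.ne' (by positivity),
        Real.log_mul hM.ne' (by positivity), Real.log_exp, Real.log_exp]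
      linarith
  have b1 := Bdd.fin (fun a => -Real.log (Pr φ a)) φ
  have b2 := Bdd.fin G fun n => (φ n, ψ n)
  rw [Ex_add (b1.sub b2) (Bdd.const _), Ex_sub b1 b2, Ex_const] at h2
  have := h1.trans h2
  unfold Ent at this ⊢
  linarith

end

section
variable {B : Type} [Fintype B] [DecidableEq B] (b : ℕ → B)

/-- blocks of the sequence -/
def blk (H n : ℕ) : Fin H → B := fun i => b (n + i)

/-- residue classes -/
def res (M : ℕ) [NeZero M] (n : ℕ) : Fin M := ⟨n % M, Nat.mod_lt _ (NeZero.pos M)⟩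

lemma Pr_res (M : ℕ) [NeZero M] (a : Fin M) : Pr (res M) a = 1 / M := by
  rw [← Ex_mod (NeZero.pos M) (M - a), Pr]
  congr 1
  funext n
  refine if_congr ?_ rfl rfl
  have a1 := a.2
  rw [Fin.ext_iff, res, ← Nat.modEq_zero_iff_dvd]
  have e : a + (M - a) ≡ 0 [MOD M] := by
    rw [Nat.add_sub_cancel' a1.le, Nat.modEq_zero_iff_dvd]
  constructor
  · intro h
    have : n ≡ a [MOD M] := by rw [Nat.ModEq, Nat.mod_eq_of_lt a1]; exact h
    exact (this.add_right _).trans e
  · intro h
    have := Nat.ModEq.add_right_cancel' _ (h.trans e.symm)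
    rwa [Nat.ModEq, Nat.mod_eq_of_lt a1] at this

lemma Ent_blk_le (H : ℕ) : Ent (blk b H) ≤ H * Real.log (Fintype.card B) := by
  have c : (0 : ℝ) < Fintype.card B := by exact_mod_cast Fintype.card_pos_iff.2 ⟨b 0⟩
  have := gibbs (blk b H) (fun _ => ((Fintype.card B : ℝ) ^ H)⁻¹) (fun _ => by positivity)
    (by simp [mul_inv_cancel₀ (pow_pos c H).ne']) fun _ _ => by positivity
  simpa [Ex_const] using this

lemma Ent_blk_mul (M : ℕ) [NeZero M] (H r : ℕ) : Ent (blk b (r * H)) ≤
    Real.log M + r * (Ent (fun n => (blk b H n, res M n)) - Real.log M) := by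
  have M0 : (0 : ℝ) < M := by exact_mod_cast NeZero.pos M
  set φ := fun n => (blk b H n, res M n) with hφ
  let XX : ℕ → Fin r → Fin H → B := fun n i => blk b H (n + i * H)
  have e1 : Ent (blk b (r * H)) = Ent XX := Ent_congr fun m n => by
    simp only [XX, blk, funext_iff]
    constructor
    · intro h i j
      have := h ⟨i * H + j, by have := i.2; have := j.2; nlinarith⟩
      simpa [add_assoc] using this
    · intro h j
      have H0 : 0 < H := Nat.pos_of_mul_pos_left (j.2.trans_le' (Nat.zero_le _))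
      have := h ⟨j / H, Nat.div_lt_of_lt_mul (j.2.trans_eq (mul_comm _ _))⟩
        ⟨j % H, Nat.mod_lt _ H0⟩
      simpa [add_assoc, Nat.div_add_mod'] using this
  have sh : ∀ n i : ℕ, res M ((res M n : ℕ) + i) = res M (n + i) := fun n i => by simp [res]
  have pos : ∀ x : (Fin r → Fin H → B) × Fin M, 0 < Pr (fun n => (XX n, res M n)) x →
      ∀ i : Fin r, 0 < Pr φ (x.1 i, res M (x.2 + i * H)) := fun x hx i => by
    rw [← Pr_shift φ (i * H)]
    refine hx.trans_le (Pr_le fun n e => ?_)
    rw [← e, sh]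
  have h1 := gibbs (fun n => (XX n, res M n))
    (fun x => 1 / M * ∏ i : Fin r, (M * Pr φ (x.1 i, res M (x.2 + i * H))))
    (fun x => mul_nonneg (by positivity) (prod_nonneg fun i _ => mul_nonneg M0.le (Pr_nonneg _ _)))
    (by
      rw [Fintype.sum_prod_type_right]
      refine (sum_congr rfl (g := fun _ => (1 / M : ℝ)) fun y _ => ?_).le.trans (by simp [M0.ne'])
      dsimp only
      rw [← mul_sum, ← Fintype.piFinset_univ, ← prod_univ_sum (fun _ => univ)
        fun (i : Fin r) (a : Fin H → B) => M * Pr φ (a, res M (y + i * H))]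
      simp only [← mul_sum, hφ, sum_Pr_fst, Pr_res]
      simp [M0.ne'])
    fun x hx => mul_pos (by positivity) (prod_pos fun i _ => mul_pos M0 (pos x hx i))
  have h2 := Ex_mono_as (fun n => (XX n, res M n))
    (F := fun x => -Real.log (1 / M * ∏ i : Fin r, (M * Pr φ (x.1 i, res M (x.2 + i * H)))))
    (G := fun x => (Real.log M - r * Real.log M) +
      ∑ i : Fin r, -Real.log (Pr φ (x.1 i, res M (x.2 + i * H)))) fun x hx => by
      rw [Real.log_mul (by positivity) (prod_pos fun i _ => mul_pos M0 (pos x hx i)).ne',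
        Real.log_prod fun i _ => (mul_pos M0 (pos x hx i)).ne',
        sum_congr rfl fun i _ => Real.log_mul M0.ne' (pos x hx i).ne']
      simp [sum_add_distrib]
      linarith
  have b1 : ∀ i : Fin r, Bdd fun n => -Real.log (Pr φ (φ (n + i * H))) := fun i =>
    Bdd.fin (fun a => -Real.log (Pr φ a)) _
  simp only [sh] at h2
  rw [Ex_add (Bdd.const _) (Bdd.sum fun i _ => b1 i), Ex_const, Ex_sum fun i _ => b1 i,
    sum_congr rfl fun (i : Fin r) _ => Ex_shift (Bdd.fin (fun a => -Real.log (Pr φ a)) φ) (i * H)]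
    at h2
  simp only [sh] at h1
  have := (Ent_le_pair XX (res M)).trans (h1.trans h2)
  rw [sum_const, card_univ, Fintype.card_fin, nsmul_eq_mul] at this
  rw [e1]
  unfold Ent at this ⊢
  linarith

end

lemma descent {h : ℕ → ℝ} (h0 : ∀ P, 0 ≤ h P) {c A : ℝ} (hc : 0 < c) (hA : 1 ≤ A) {P₀ : ℕ}
    (H : ∀ P, P₀ ≤ P → ∃ r : ℕ, 2 ≤ r ∧ r ≤ A * Real.log P ∧ h (r * P) ≤ h P - c / Real.log P) :
    False := by
  have t := Real.tendsto_log_atTop.comp (Real.tendsto_log_atTop.comp log_top)
  obtain ⟨P₁, hP⟩ := eventually_atTop.1 ((log_top.eventually_ge_atTop (max A 3)).and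
    (eventually_ge_atTop (max P₀ 1)))
  have key : ∀ j : ℕ, ∃ P, P₁ + j ≤ P ∧ h P + c / 2 * Real.log (Real.log (Real.log P)) ≤
      h P₁ + c / 2 * Real.log (Real.log (Real.log P₁)) := fun j => by
    induction j with
    | zero => exact ⟨P₁, le_rfl, le_rfl⟩
    | succ j ih =>
      obtain ⟨P, p1, p2⟩ := ih
      obtain ⟨q1, q2⟩ := hP P (by omega)
      obtain ⟨r, r1, r2, r3⟩ := H P (le_of_max_le_left q2)
      have P1 : 1 ≤ P := le_of_max_le_right q2
      refine ⟨r * P, by nlinarith, le_trans ?_ p2⟩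
      have a3 : 3 ≤ Real.log P := le_of_max_le_right q1
      have aA : A ≤ Real.log P := le_of_max_le_left q1
      have r0 : (0 : ℝ) < r := by positivity
      have e : Real.log (r * P : ℕ) = Real.log r + Real.log P := by
        rw [Nat.cast_mul, Real.log_mul r0.ne' (by positivity)]
      have lr : 0 ≤ Real.log r := Real.log_natCast_nonneg r
      rw [e]
      generalize Real.log P = a at *
      have l1 : 1 ≤ Real.log a := by
        rw [Real.le_log_iff_exp_le (by linarith)]; linarith [Real.exp_one_lt_d9]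
      have l2 : Real.log r ≤ 2 * Real.log a := by
        have := Real.log_le_log r0 (show (r : ℝ) ≤ a ^ 2 by nlinarith)
        rwa [Real.log_pow] at this
      have l3 := Real.log_le_sub_one_of_pos (x := (Real.log r + a) / a) (by positivity)
      rw [Real.log_div (by positivity) (by positivity), add_div, div_self (by positivity)] at l3
      have l4 : Real.log r / a ≤ 2 * Real.log a / a := by gcongr
      have l5 : Real.log a ≤ Real.log (Real.log r + a) := Real.log_le_log (by linarith) (by linarith)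
      have l6 := Real.log_le_sub_one_of_pos (x := Real.log (Real.log r + a) / Real.log a)
        (div_pos (by linarith) (by linarith))
      rw [Real.log_div (by linarith) (by linarith)] at l6
      have l7 : Real.log (Real.log r + a) / Real.log a ≤ 1 + 2 / a := by
        rw [div_le_iff₀ (by linarith)]
        have : (1 + 2 / a) * Real.log a = Real.log a + 2 * Real.log a / a := by ring
        linarith
      have l8 := mul_le_mul_of_nonneg_left (show Real.log (Real.log (Real.log r + a)) ≤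
        Real.log (Real.log a) + 2 / a by linarith) (show 0 ≤ c / 2 by positivity)
      have : c / 2 * (2 / a) = c / a := by ring
      linarith
  obtain ⟨N, hN⟩ := eventually_atTop.1 ((t.const_mul_atTop (show 0 < c / 2 by positivity)
    ).eventually_gt_atTop (h P₁ + c / 2 * Real.log (Real.log (Real.log P₁))))
  obtain ⟨P, p1, p2⟩ := key N
  have := hN P (by omega)
  simp only [Function.comp] at this
  linarith [h0 P]

lemma pi_lower : ∀ᶠ P : ℕ in atTop, P / (2 * Real.log P) ≤ (Nat.primesLE P).card := by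
  have t := (Real.isLittleO_log_id_atTop.bound (show (0 : ℝ) < 1 / 20 by norm_num))
  filter_upwards [(tendsto_natCast_atTop_atTop (R := ℝ)).eventually t, eventually_ge_atTop 20]
    with P h1 h2
  have p : (20 : ℝ) ≤ P := by exact_mod_cast h2
  have l0 : 0 < Real.log P := Real.log_pos (by linarith)
  rw [Real.norm_of_nonneg l0.le, id, Real.norm_of_nonneg (by linarith)] at h1
  rw [Nat.primesLE_card_eq_primeCounting]
  refine le_trans ?_ (Chebyshev.pi_ge P)
  rw [← div_div]
  refine div_le_div_of_nonneg_right ?_ l0.le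
  have a := Real.log_le_log (by linarith) (show (P : ℝ) + 1 ≤ P ^ 2 by nlinarith)
  rw [Real.log_pow] at a
  push_cast at a
  nlinarith [Real.log_two_gt_d9]

instance (P : ℕ) : NeZero (primorial P) := ⟨(primorial_pos P).ne'⟩

lemma sum_dvd_one {l : ℕ} (hl : 0 < l) (a : ℕ) :
    ∑ k ∈ range l, (if l ∣ k + a then 1 else 0 : ℝ) = 1 := by
  induction a with
  | zero =>
    refine (sum_eq_single_of_mem 0 (mem_range.2 hl) fun k hk k0 => if_neg fun h => k0
      (Nat.eq_zero_of_dvd_of_lt h (mem_range.1 hk))).trans (by simp)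
  | succ a ih =>
    have h1 := sum_range_succ (fun k => (if l ∣ k + a then 1 else 0 : ℝ)) l
    rw [sum_range_succ', ih, zero_add] at h1
    simp only [Nat.dvd_add_right (dvd_refl l), add_assoc, add_comm 1 a] at h1
    linarith

lemma card_dvd_le (p y H : ℕ) :
    (((range H).filter fun j => p ∣ y + j).card : ℝ) ≤ H / p + 1 := by
  have := card_le_card_of_injOn (s := (range H).filter fun j => p ∣ y + j) (t := range (H / p + 1))
    (fun j => j / p) (fun j hj => by
      have := mem_range.1 (mem_filter.1 (mem_coe.1 hj)).1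
      exact mem_coe.2 (mem_range.2 (Nat.lt_succ_of_le (Nat.div_le_div_right this.le))))
    fun i hi j hj e => by
      have a := (Nat.modEq_zero_iff_dvd.2 (mem_filter.1 (mem_coe.1 hi)).2).trans
        (Nat.modEq_zero_iff_dvd.2 (mem_filter.1 (mem_coe.1 hj)).2).symm
      have c : i % p = j % p := Nat.ModEq.add_left_cancel' y a
      dsimp only at e
      rw [← Nat.div_add_mod i p, ← Nat.div_add_mod j p, e, c]
  rw [card_range] at this
  have h2 : (((range H).filter fun j => p ∣ y + j).card : ℝ) ≤ (H / p : ℕ) + 1 := by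
    exact_mod_cast this
  linarith [Nat.cast_div_le (α := ℝ) (m := H) (n := p)]

/-- centred local statistic -/
noncomputable def ZZ (H : ℕ) (u : ℕ → ℝ) (p y : ℕ) : ℝ :=
  p / H * ∑ j ∈ range H, (if p ∣ y + j then u j else 0) - 1 / H * ∑ j ∈ range H, u j

lemma hoeffding {H p : ℕ} (hp : 0 < p) (hH : p ≤ H) {u : ℕ → ℝ} (hu : ∀ j, |u j| ≤ 1) {θ : ℝ}
    (hθ : |θ| ≤ 1 / 3) :
    ∑ y ∈ range p, Real.exp (θ * ZZ H u p y) ≤ p * Real.exp (9 * θ ^ 2) := by
  have p0 : (0 : ℝ) < p := by exact_mod_cast hp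
  have pH : (p : ℝ) ≤ H := by exact_mod_cast hH
  have H0 : (0 : ℝ) < H := by linarith
  have b : ∀ y, |ZZ H u p y| ≤ 3 := fun y => by
    have a1 : |∑ j ∈ range H, (if p ∣ y + j then u j else 0)| ≤ H / p + 1 := by
      rw [← sum_filter]
      refine (abs_sum_le_sum_abs _ _).trans ((sum_le_card_nsmul _ _ 1 fun j _ => hu j).trans ?_)
      simpa using card_dvd_le p y H
    have a2 : |∑ j ∈ range H, u j| ≤ H :=
      (abs_sum_le_sum_abs _ _).trans ((sum_le_card_nsmul _ _ 1 fun j _ => hu j).trans (by simp))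
    refine (abs_sub _ _).trans ?_
    rw [abs_mul, abs_mul, abs_of_pos (by positivity : 0 < (p : ℝ) / H),
      abs_of_pos (by positivity : 0 < (1 : ℝ) / H)]
    have a3 := mul_le_mul_of_nonneg_left a1 (by positivity : 0 ≤ (p : ℝ) / H)
    have a4 := mul_le_mul_of_nonneg_left a2 (by positivity : 0 ≤ (1 : ℝ) / H)
    have a5 : (p : ℝ) / H * (H / p + 1) = 1 + p / H := by field_simp
    have a6 : (p : ℝ) / H ≤ 1 := (div_le_one H0).2 pH
    rw [one_div_mul_cancel H0.ne'] at a4
    linarith
  have z : ∑ y ∈ range p, ZZ H u p y = 0 := by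
    simp only [ZZ, sum_sub_distrib, ← mul_sum, sum_const, card_range, nsmul_eq_mul]
    rw [sum_comm, sum_congr rfl (g := u) fun j _ => by
      have := congrArg (· * u j) (sum_dvd_one hp j)
      simpa only [sum_mul, ite_mul, one_mul, zero_mul] using this]
    ring
  refine (sum_le_sum (g := fun y => (1 + 9 * θ ^ 2) + θ * ZZ H u p y) fun y _ => ?_).trans ?_
  · have a1 : |θ * ZZ H u p y| ≤ 1 := by
      rw [abs_mul]; nlinarith [b y, abs_nonneg θ, abs_nonneg (ZZ H u p y)]
    have a2 := (abs_le.1 (Real.abs_exp_sub_one_sub_id_le a1)).2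
    have a3 : ZZ H u p y ^ 2 ≤ 3 ^ 2 := sq_le_sq' (abs_le.1 (b y)).1 (abs_le.1 (b y)).2
    nlinarith [sq_nonneg θ]
  · rw [sum_add_distrib, ← mul_sum, z, sum_const, card_range, nsmul_eq_mul, mul_zero, add_zero]
    exact mul_le_mul_of_nonneg_left (by linarith [Real.add_one_le_exp (9 * θ ^ 2)]) p0.le

/-- correlation -/
noncomputable def Cor (f : ℕ → ℝ) (k : ℕ) : ℝ := Ex fun n => f n * f (n + k)

section
variable {B : Type} [Fintype B] [DecidableEq B] (b : ℕ → B)

lemma decrement {k : ℕ} (hk : 0 < k) {η : ℝ} (hη : 0 < η) (P₀ : ℕ) : ∃ P, P₀ ≤ P ∧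
    Ent (blk b (2 * k * P)) + Real.log (primorial P) -
      Ent (fun n => (blk b (2 * k * P) n, res (primorial P) n)) ≤ η * (Nat.primesLE P).card := by
  by_contra hc
  push Not at hc
  obtain ⟨P₁, hP⟩ := eventually_atTop.1 (pi_lower.and ((log_top.eventually_ge_atTop 1).and
    (eventually_ge_atTop (max P₀ 1))))
  have k0 : (0 : ℝ) < k := by exact_mod_cast hk
  refine descent (h := fun P => Ent (blk b (2 * k * P)) / (2 * k * P))
    (fun P => div_nonneg (Ent_nonneg _) (by positivity)) (c := η / (8 * k)) (A := 8 / η + 3)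
    (by positivity) (by linarith [div_pos (by norm_num : (0 : ℝ) < 8) hη]) (P₀ := P₁)
    fun P hP1 => ?_
  obtain ⟨a1, a2, a3⟩ := hP P hP1
  have P0 : (0 : ℝ) < P := by exact_mod_cast le_of_max_le_right a3
  have r1 := Nat.le_ceil (8 / η * Real.log P)
  have r2 := Nat.ceil_lt_add_one (show 0 ≤ 8 / η * Real.log P by positivity)
  refine ⟨⌈8 / η * Real.log P⌉₊ + 2, by omega, by push_cast; linarith, ?_⟩
  have r3 : 8 / η * Real.log P ≤ ((⌈8 / η * Real.log P⌉₊ + 2 : ℕ) : ℝ) := by push_cast; linarith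
  generalize ⌈8 / η * Real.log P⌉₊ + 2 = r at r3
  have r0 : (0 : ℝ) < r := lt_of_lt_of_le (by positivity) r3
  have h1 := Ent_blk_mul b (primorial P) (2 * k * P) r
  have h2 := hc P (le_of_max_le_left a3)
  have h3 : Real.log (primorial P) ≤ 2 * P := by
    have a := Chebyshev.theta_le_log4_mul_x P0.le
    rw [Chebyshev.theta_eq_log_primorial, Nat.floor_natCast, show (4 : ℝ) = 2 ^ 2 by norm_num,
      Real.log_pow] at a
    push_cast at a
    nlinarith [Real.log_two_lt_d9]
  rw [show 2 * k * (r * P) = r * (2 * k * P) by ring,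
    div_le_iff₀ (by push_cast; positivity)]
  have h4 := mul_le_mul_of_nonneg_left a1 hη.le
  have e : (Ent (blk b (2 * k * P)) / (2 * k * P) - η / (8 * k) / Real.log P) *
      (2 * k * ((r * P : ℕ) : ℝ)) =
      r * (Ent (blk b (2 * k * P)) - η * (P / (2 * Real.log P))) + r * η / (4 * Real.log P) * P := by
    push_cast; field_simp; ring
  have h5 : 2 ≤ r * η / (4 * Real.log P) := by
    rw [le_div_iff₀ (by positivity)]
    rw [div_mul_eq_mul_div, div_le_iff₀ hη] at r3
    linarith
  rw [e]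
  nlinarith

theorem cor_primes (val : B → ℝ) (hv : ∀ a, |val a| ≤ 1) {f : ℕ → ℝ} (hf : ∀ n, f n = val (b n))
    (hm : ∀ p m n, p.Prime → f (p * m) * f (p * n) = f m * f n) {k : ℕ} (hk : 0 < k) {δ : ℝ}
    (h0 : 0 < δ) (h1 : δ ≤ 1) (P₀ : ℕ) : ∃ P, P₀ ≤ P ∧
      |∑ p ∈ Nat.primesLE P, (Cor f k - Cor f (p * k))| ≤ δ * (Nat.primesLE P).card := by
  obtain ⟨P, p1, p2⟩ := decrement b hk (η := δ ^ 2 / 36) (by positivity) (max P₀ 1)
  refine ⟨P, le_of_max_le_left p1, ?_⟩
  have P0 : 0 < P := le_of_max_le_right p1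
  have bf : Bdd f := ⟨1, fun n => hf n ▸ hv _⟩
  have b2 : ∀ i j, Bdd fun n => f (n + i) * f (n + j) := fun i j => (bf.comp _).mul (bf.comp _)
  let xv : (Fin (2 * k * P) → B) → ℕ → ℝ := fun x j => if h : j < 2 * k * P then val (x ⟨j, h⟩) else 0
  have x1 : ∀ x j, |xv x j| ≤ 1 := fun x j => by
    simp only [xv]; split_ifs; exacts [hv _, by simp]
  have le : ∀ p ∈ Nat.primesLE P, p.Prime ∧ p ≤ P := fun p hp => (Nat.mem_primesLE.1 hp).symm
  have key : ∀ θ : ℝ, |θ| ≤ 1 / 3 → θ * ∑ p ∈ Nat.primesLE P, (Cor f k - Cor f (p * k)) ≤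
      (δ ^ 2 / 36 + 9 * θ ^ 2) * (Nat.primesLE P).card := fun θ hθ => by
    have v := variational (blk b (2 * k * P)) (res (primorial P)) (M := primorial P)
      (B := 9 * θ ^ 2 * (Nat.primesLE P).card) (by exact_mod_cast primorial_pos P)
      (fun x => ∑ p ∈ Nat.primesLE P, θ * ZZ (k * P) (fun j => xv x.1 j * xv x.1 (j + p * k)) p x.2)
      fun x => by
        simp only [Real.exp_sum]
        rw [Fin.sum_univ_eq_sum_range (fun y => ∏ p ∈ Nat.primesLE P,
          Real.exp (θ * ZZ (k * P) (fun j => xv x j * xv x (j + p * k)) p y)),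
          primorial_eq_prod_primesLE, sum_prod_primes (fun l y => by
            simp only [ZZ, add_right_comm y l, Nat.dvd_add_self_right]) _ fun l hl => (le l hl).1]
        refine (prod_le_prod (fun _ _ => by positivity) fun p hp => hoeffding (le p hp).1.pos
          ((le p hp).2.trans (Nat.le_mul_of_pos_left _ hk)) (fun j => by
            rw [abs_mul]; exact mul_le_one₀ (x1 _ _) (abs_nonneg _) (x1 _ _)) hθ).trans
          (le_of_eq ?_)
        rw [prod_mul_distrib, prod_const, ← Real.exp_nat_mul, Nat.cast_prod, mul_comm (9 * θ ^ 2)]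
    have H0 : ((k * P : ℕ) : ℝ) ≠ 0 := by positivity
    have e : ∀ p ∈ Nat.primesLE P, ∀ n, ZZ (k * P) (fun j => xv (blk b (2 * k * P) n) j *
        xv (blk b (2 * k * P) n) (j + p * k)) p (res (primorial P) n) =
        p / (k * P : ℕ) * ∑ j ∈ range (k * P), (if p ∣ n + j then f (n + j) * f (n + j + p * k) else 0) -
          1 / (k * P : ℕ) * ∑ j ∈ range (k * P), f (n + j) * f (n + j + p * k) := fun p hp n => by
      have c : ∀ j ∈ range (k * P), xv (blk b (2 * k * P) n) j *
          xv (blk b (2 * k * P) n) (j + p * k) = f (n + j) * f (n + j + p * k) := fun j hj => by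
        have j1 := mem_range.1 hj
        have j2 : p * k ≤ k * P := by rw [mul_comm]; exact Nat.mul_le_mul_left _ (le p hp).2
        have j3 : 2 * k * P = k * P + k * P := by ring
        simp only [xv, blk, hf, dif_pos (show j < 2 * k * P by omega),
          dif_pos (show j + p * k < 2 * k * P by omega), add_assoc]
      have d : ∀ j, p ∣ (res (primorial P) n : ℕ) + j ↔ p ∣ n + j := fun j =>
        (((Nat.mod_modEq n _).of_dvd (dvd_prod_of_mem (fun p => p) hp)).add_right j).dvd_iff
          dvd_rfl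
      rw [ZZ, sum_congr rfl c]
      simp only [d]
      rw [sum_congr rfl fun j hj => by rw [c j hj]]
    have b3 : ∀ p j, Bdd fun n => f (n + j) * f (n + j + p * k) := fun p j =>
      (bf.comp _).mul (bf.comp _)
    have b4 : ∀ p, Bdd fun n => f n * f (n + p) := fun p => bf.mul (bf.comp _)
    have e2 : ∀ p ∈ Nat.primesLE P, Ex (fun n => θ * (p / (k * P : ℕ) * ∑ j ∈ range (k * P),
        (if p ∣ n + j then f (n + j) * f (n + j + p * k) else 0) -
          1 / (k * P : ℕ) * ∑ j ∈ range (k * P), f (n + j) * f (n + j + p * k))) =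
        θ * (Cor f k - Cor f (p * k)) := fun p hp => by
      have p0 : (p : ℝ) ≠ 0 := by exact_mod_cast (le p hp).1.ne_zero
      rw [Ex_mul (by fun_prop), Ex_sub (by fun_prop) (by fun_prop), Ex_mul (by fun_prop),
        Ex_mul (by fun_prop), Ex_sum fun _ _ => by fun_prop, Ex_sum fun _ _ => by fun_prop,
        sum_congr rfl fun j _ => Ex_shift (b4 (p * k)) j,
        sum_congr rfl fun j _ => (Ex_shift (g := fun n => if p ∣ n then f n * f (n + p * k) else 0)
          (by fun_prop) j).trans (Ex_dvd (b4 (p * k)) (le p hp).1.pos)]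
      simp only [← mul_add, hm _ _ _ (le p hp).1, sum_const, card_range, nsmul_eq_mul, Cor]
      field_simp
    dsimp only at v
    rw [show (fun n => ∑ p ∈ Nat.primesLE P, θ * ZZ (k * P) (fun j => xv (blk b (2 * k * P) n) j *
        xv (blk b (2 * k * P) n) (j + p * k)) p (res (primorial P) n)) = _ from
        funext fun n => sum_congr rfl fun p hp => by rw [e p hp n],
      Ex_sum fun _ _ => by fun_prop, sum_congr rfl e2, ← mul_sum] at v
    linarith
  have a1 := key (δ / 18) (by rw [abs_of_pos (by positivity)]; linarith)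
  have a2 := key (-(δ / 18)) (by rw [abs_neg, abs_of_pos (by positivity)]; linarith)
  rw [abs_le]
  constructor <;> refine le_of_mul_le_mul_left ?_ (show 0 < δ / 18 by positivity) <;> nlinarith

end

end Pool.Agent.MP_f0209c_nt.Ch
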