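import Pool.Agent.MP_f0209c_nt.Ch.Win

/-! The Turan-Kubilius inequality, factorisation of Dirichlet polynomials and moments. -/

namespace Pool.Agent.MP_f0209c_nt.Ch
open Complex Filter Topology Finset ComplexConjugate

/-- weighted number of prime factors from `P` -/
def om (P : Finset ℕ) (w : ℕ → ℝ) (n : ℕ) : ℝ := ∑ p ∈ P, if p ∣ n then w p else 0

lemma tk {P : Finset ℕ} (hP : ∀ p ∈ P, p.Prime) {w : ℕ → ℝ} (hw : ∀ p ∈ P, 0 ≤ w p ∧ w p ≤ 1)
    (S : Finset ℕ) (μ : ℕ → ℝ) {M : ℝ} (M0 : 0 ≤ M) (r : ℕ → ℝ)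
    (h1 : ∀ d : ℕ, 0 < d → ∑ n ∈ S, (if d ∣ n then μ n else 0) ≤ M / d)
    (h2 : ∀ p ∈ P, M / p - r p ≤ ∑ n ∈ S, if p ∣ n then μ n else 0) :
    ∑ n ∈ S, μ n * (om P w n - ∑ p ∈ P, w p / p) ^ 2 ≤
      (∑ p ∈ P, w p / p) * M + 2 * (∑ p ∈ P, w p / p) * ∑ p ∈ P, w p * r p := by
  set l := ∑ p ∈ P, w p / p with hl
  have l0 : 0 ≤ l := sum_nonneg fun p hp => div_nonneg (hw p hp).1 (Nat.cast_nonneg p)
  have a0 : ∑ n ∈ S, μ n ≤ M := by simpa using h1 1 one_pos
  have a1 : l * M - ∑ p ∈ P, w p * r p ≤ ∑ n ∈ S, μ n * om P w n := by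
    simp only [om, mul_sum]
    rw [sum_comm, hl, sum_mul, ← sum_sub_distrib]
    refine sum_le_sum fun p hp => le_trans (le_of_eq (by ring))
      ((mul_le_mul_of_nonneg_left (h2 p hp) (hw p hp).1).trans (le_of_eq ?_))
    rw [mul_sum]
    exact sum_congr rfl fun n _ => by split_ifs <;> ring
  have a2 : ∑ n ∈ S, μ n * om P w n ^ 2 ≤ l * M + l ^ 2 * M := by
    simp only [om, sq, sum_mul_sum]
    simp only [mul_sum]
    rw [sum_comm, hl, sum_mul_sum, sum_mul, sum_mul, ← sum_add_distrib]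
    refine sum_le_sum fun p hp => ?_
    rw [sum_comm, sum_mul]
    refine (sum_le_sum (g := fun q => (if p = q then w p / p * M else 0) + w p / p * (w q / q) * M)
      fun q hq => ?_).trans (by rw [sum_add_distrib, sum_ite_eq, if_pos hp])
    have b := mul_le_mul_of_nonneg_left (h1 _ (Nat.lcm_pos (hP p hp).pos (hP q hq).pos))
      (mul_nonneg (hw p hp).1 (hw q hq).1)
    rw [mul_sum] at b
    refine le_trans (le_of_eq (sum_congr rfl fun n _ => ?_)) (b.trans ?_)
    · by_cases c : p ∣ n <;> by_cases d : q ∣ n <;> simp [Nat.lcm_dvd_iff, c, d]; ring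
    · have := (hw p hp).1
      split_ifs with c
      · subst c
        rw [Nat.lcm_self]
        refine le_add_of_le_of_nonneg (le_trans ?_ (le_of_eq (show w p * (M / p) = _ by ring)))
          (by positivity)
        exact mul_le_mul_of_nonneg_right (mul_le_of_le_one_right this (hw p hp).2) (by positivity)
      · rw [((Nat.coprime_primes (hP p hp) (hP q hq)).2 c).lcm_eq_mul]
        exact le_of_eq (by push_cast; ring)
  rw [sum_congr rfl (g := fun n => μ n * om P w n ^ 2 - 2 * l * (μ n * om P w n) + l ^ 2 * μ n)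
    fun n _ => by ring, sum_add_distrib, sum_sub_distrib, ← mul_sum, ← mul_sum]
  nlinarith [mul_le_mul_of_nonneg_left a0 (sq_nonneg l), mul_le_mul_of_nonneg_left a1 l0]

lemma sum_dvd (X : ℕ) {d : ℕ} (hd : 0 < d) (g : ℕ → ℝ) :
    ∑ n ∈ Icc 1 X, (if d ∣ n then g n else 0) = ∑ m ∈ Icc 1 (X / d), g (d * m) := by
  rw [← sum_filter]
  symm
  refine sum_nbij (fun m => d * m) (fun m hm => ?_) (fun a _ b _ e => ?_) (fun n hn => ?_)
    fun m _ => rfl
  · obtain ⟨a, b⟩ := mem_Icc.1 hm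
    refine mem_filter.2 ⟨mem_Icc.2 ⟨Nat.mul_pos hd a, ?_⟩, Dvd.intro _ rfl⟩
    rw [mul_comm]; exact (Nat.le_div_iff_mul_le hd).1 b
  · exact Nat.eq_of_mul_eq_mul_left hd e
  · obtain ⟨a, m, rfl⟩ := mem_filter.1 (mem_coe.1 hn)
    obtain ⟨a, b⟩ := mem_Icc.1 a
    refine ⟨m, mem_coe.2 (mem_Icc.2 ⟨Nat.pos_of_mul_pos_left a, ?_⟩), rfl⟩
    rw [Nat.le_div_iff_mul_le hd, mul_comm]; exact b

lemma tk_count {P : Finset ℕ} (hP : ∀ p ∈ P, p.Prime) (B : ℕ) :
    ∑ n ∈ Icc 1 B, (om P (fun _ => 1) n - ∑ p ∈ P, (1 / p : ℝ)) ^ 2 ≤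
      (∑ p ∈ P, (1 / p : ℝ)) * (B + 2 * P.card) := by
  have := tk hP (w := fun _ => 1) (fun _ _ => ⟨zero_le_one, le_rfl⟩) (Icc 1 B) (fun _ => 1)
    (Nat.cast_nonneg B) (fun _ => 1) (fun d hd => by
      rw [sum_dvd B hd]; simpa using Nat.cast_div_le) fun p hp => by
      have a : (B : ℝ) ≤ p * ((B / p : ℕ) + 1) := by
        exact_mod_cast (Nat.lt_mul_div_succ B (hP p hp).pos).le
      rw [sum_dvd B (hP p hp).pos, sub_le_iff_le_add, div_le_iff₀' (Nat.cast_pos.2 (hP p hp).pos)]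
      simpa using a
  simp only [one_mul, sum_const, nsmul_eq_mul, mul_one] at this
  linarith

lemma tk_log {P : Finset ℕ} (hP : ∀ p ∈ P, p.Prime) {w : ℕ → ℝ} (hw : ∀ p ∈ P, 0 ≤ w p ∧ w p ≤ 1)
    {y : ℝ} (hy : ∀ p ∈ P, Real.log p ≤ y) (X : ℕ) :
    ∑ n ∈ Icc 1 X, 1 / (n : ℝ) * (om P w n - ∑ p ∈ P, w p / p) ^ 2 ≤
      (∑ p ∈ P, w p / p) * (1 + Real.log X) + 2 * (∑ p ∈ P, w p / p) ^ 2 * (1 + y) := by
  have l0 : 0 ≤ ∑ p ∈ P, w p / p :=
    sum_nonneg fun p hp => div_nonneg (hw p hp).1 (Nat.cast_nonneg p)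
  have e : ∀ d : ℕ, 0 < d → ∑ n ∈ Icc 1 X, (if d ∣ n then 1 / (n : ℝ) else 0) =
      (∑ m ∈ Icc 1 (X / d), 1 / (m : ℝ)) / d := fun d hd => by
    rw [sum_dvd X hd, sum_div]
    exact sum_congr rfl fun m _ => by push_cast; ring
  refine (tk hP hw (Icc 1 X) (fun n => 1 / n) (M := 1 + Real.log X)
    (by linarith [Real.log_natCast_nonneg X]) (fun p => (1 + y) / p) (fun d hd => ?_)
    fun p hp => ?_).trans (le_of_eq ?_)
  · rw [e d hd]
    exact div_le_div_of_nonneg_right ((sum_le_sum_of_subset_of_nonneg (Icc_subset_Icc_right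
      (Nat.div_le_self X d)) fun _ _ _ => by positivity).trans (harm_le X)) (Nat.cast_nonneg d)
  · have p0 := (hP p hp).pos
    rw [e p p0, ← sub_div]
    refine div_le_div_of_nonneg_right ?_ (Nat.cast_nonneg p)
    have a := log_add_one_le_harmonic (X / p)
    rw [harmonic_eq_sum_Icc] at a
    push_cast at a
    simp only [one_div]
    have b := hy p hp
    rcases Nat.eq_zero_or_pos X with rfl | hX
    · simpa using (Real.log_natCast_nonneg p).trans b
    have c : (X : ℝ) ≤ p * ((X / p : ℕ) + 1) := by exact_mod_cast (Nat.lt_mul_div_succ X p0).le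
    have d := Real.log_le_log (by exact_mod_cast hX) c
    rw [Real.log_mul (by positivity) (by positivity)] at d
    linarith
  · rw [sum_congr rfl (f := fun p => w p * ((1 + y) / p)) (g := fun p => w p / p * (1 + y))
      fun p _ => by ring, ← sum_mul]
    ring

lemma harm_win {S : Finset ℕ} (hS : 0 ∉ S) {A D : ℝ} (hD : 0 ≤ D)
    (h : ∀ n ∈ S, A ≤ Real.log n ∧ Real.log n ≤ A + D) :
    ∑ n ∈ S, (1 / n : ℝ) ≤ D + min 1 (Real.exp (-A)) := by
  rcases S.eq_empty_or_nonempty with rfl | ne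
  · simp; positivity
  have key : ∀ a : ℕ, 0 < a → ∀ b, a ≤ b →
      ∑ n ∈ Icc a b, (1 / n : ℝ) ≤ 1 / a + Real.log b - Real.log a := fun a ha b hb => by
    induction b, hb using Nat.le_induction with
    | base => simp
    | succ b hb ih =>
      have b0 : (0 : ℝ) < b := by exact_mod_cast ha.trans_le hb
      have := Real.one_sub_inv_le_log_of_pos (x := (b + 1) / b) (by positivity)
      rw [Real.log_div (by positivity) b0.ne', show 1 - (((b : ℝ) + 1) / b)⁻¹ = 1 / (b + 1) by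
        field_simp; ring] at this
      rw [sum_Icc_succ_top (by omega)]
      push_cast
      linarith
  have m1 := S.min'_mem ne
  have a0 : 0 < S.min' ne := Nat.pos_of_ne_zero fun e => hS (e ▸ m1)
  have a1 : (1 : ℝ) ≤ S.min' ne := by exact_mod_cast a0
  refine (sum_le_sum_of_subset_of_nonneg (fun n hn => mem_Icc.2 ⟨S.min'_le n hn, S.le_max' n hn⟩)
    fun _ _ _ => by positivity).trans ((key _ a0 _ (S.min'_le_max' ne)).trans ?_)
  have : (1 / S.min' ne : ℝ) ≤ min 1 (Real.exp (-A)) := le_min ((div_le_one (by linarith)).2 a1) (by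
    rw [Real.exp_neg, one_div]
    exact inv_anti₀ (Real.exp_pos _) ((Real.le_log_iff_exp_le (by linarith)).1 (h _ m1).1))
  linarith [(h _ m1).1, (h _ (S.max'_mem ne)).2]

/-- the coefficients live on integers with logarithm between `A` and `B` -/
def Loc (c : ℕ → ℂ) (A B : ℝ) : Prop :=
  c 0 = 0 ∧ ∀ n, c n ≠ 0 → A ≤ Real.log n ∧ Real.log n ≤ B

lemma Loc.sup {c : ℕ → ℂ} {A B : ℝ} (h : Loc c A B) : Sup c (Icc 1 ⌊Real.exp B⌋₊) :=
  ⟨by simp, fun n hn => by
    have : 0 < n := Nat.pos_of_ne_zero fun e => hn (e ▸ h.1)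
    exact mem_Icc.2 ⟨this, Nat.le_floor
      ((Real.log_le_iff_le_exp (by exact_mod_cast this)).1 (h.2 n hn).2)⟩⟩

lemma Loc.mono {c : ℕ → ℂ} {A B A' B' : ℝ} (h : Loc c A B) (hA : A' ≤ A) (hB : B ≤ B') :
    Loc c A' B' := ⟨h.1, fun n hn => ⟨hA.trans (h.2 n hn).1, (h.2 n hn).2.trans hB⟩⟩

lemma Loc.mvt {c : ℕ → ℂ} {A B T : ℝ} (h : Loc c A B) (hT : 2 ≤ T) :
    Mv T (fun t => ‖dp c t‖ ^ 2)
      (24 * (T * Real.exp (-A) + 1) * ∑ n ∈ Icc 1 ⌊Real.exp B⌋₊, n * ‖c n‖ ^ 2) := by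
  refine (Ch.mvt h.sup hT).mono (fun _ => le_rfl) ?_
  rw [mul_assoc, mul_sum _ _ (_ + 1)]
  refine mul_le_mul_of_nonneg_left (sum_le_sum fun n hn => ?_) (by norm_num)
  by_cases e : c n = 0
  · simp [e]
  have n0 : (0 : ℝ) < n := by exact_mod_cast (mem_Icc.1 hn).1
  have a := (Real.le_log_iff_exp_le n0).1 (h.2 n e).1
  rw [← mul_assoc, add_mul _ 1, one_mul, Real.exp_neg, mul_assoc T]
  refine mul_le_mul_of_nonneg_right (add_le_add_left (le_mul_of_one_le_right (by linarith) ?_) _)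
    (by positivity)
  rw [← div_eq_inv_mul, one_le_div (Real.exp_pos _)]; exact a

/-- polynomial over a set of primes -/
noncomputable def pp (P : Finset ℕ) (a : ℕ → ℂ) (t : ℝ) : ℂ := ∑ p ∈ P, a p * ee t p

/-- coefficients of a product -/
noncomputable def cv (P : Finset ℕ) (a c : ℕ → ℂ) (n : ℕ) : ℂ :=
  ∑ p ∈ P, if p ∣ n then a p * c (n / p) else 0

lemma dp_cv {P S : Finset ℕ} (hP : 0 ∉ P) (a : ℕ → ℂ) {c : ℕ → ℂ} (hc : Sup c S) (t : ℝ) :
    dp (cv P a c) t = pp P a t * dp c t := by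
  have s : Sup (fun n => if n ∈ P then a n else 0) P := ⟨hP, fun n hn => by_contra fun e => by
    simp [e] at hn⟩
  have e : cv P a c = LSeries.convolution (fun n => if n ∈ P then a n else 0) c := by
    funext n
    rw [LSeries.convolution_def]
    dsimp only
    rw [Nat.sum_divisorsAntidiagonal fun x y => (if x ∈ P then a x else 0) * c y]
    simp only [ite_mul, zero_mul, sum_ite_mem, cv]
    rw [inter_comm, ← sum_ite_mem]
    refine sum_congr rfl fun p _ => ?_
    rcases eq_or_ne n 0 with rfl | h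
    · simp [show c 0 = 0 from by_contra fun e => hc.1 (hc.2 0 e)]
    · simp [h]
  rw [e, dp, LSeries_convolution' (s.summ t) (hc.summ t), ← dp, ← dp, s.dp_eq, pp]
  congr 1
  exact sum_congr rfl fun p hp => by rw [if_pos hp]

lemma Loc.cv {c : ℕ → ℂ} {A B x y : ℝ} (h : Loc c A B) {P : Finset ℕ} (hP : 0 ∉ P)
    (hx : ∀ p ∈ P, x ≤ Real.log p ∧ Real.log p ≤ y) (a : ℕ → ℂ) :
    Loc (cv P a c) (A + x) (B + y) := by
  refine ⟨by simp [Ch.cv, h.1], fun n hn => ?_⟩
  obtain ⟨p, hp, e⟩ := exists_ne_zero_of_sum_ne_zero hn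
  have p0 : p ≠ 0 := fun e => hP (e ▸ hp)
  obtain ⟨⟨m, rfl⟩, e⟩ := ite_ne_right_iff.1 e
  rw [Nat.mul_div_cancel_left _ (Nat.pos_of_ne_zero p0)] at e
  have e2 := right_ne_zero_of_mul e
  have m0 : m ≠ 0 := fun e => e2 (e ▸ h.1)
  rw [Nat.cast_mul, Real.log_mul (by exact_mod_cast p0) (by exact_mod_cast m0)]
  constructor <;> linarith [h.2 m e2, hx p hp]

lemma exp_om {P : Finset ℕ} (hP : ∀ p ∈ P, p.Prime) {D : ℝ} (hD : 0 ≤ D) : ∀ (A : ℝ) (N : ℕ),
    ∑ n ∈ Icc 1 N, (if A ≤ Real.log n ∧ Real.log n ≤ A + D then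
      Real.exp (om P (fun _ => 1) n) / n else 0) ≤ (D + 1) * Real.exp (2 * ∑ p ∈ P, (1 / p : ℝ)) := by
  induction P using Finset.induction_on with
  | empty =>
    intro A N
    simp only [om, sum_empty, Real.exp_zero, mul_zero, mul_one]
    rw [← sum_filter]
    refine (harm_win ?_ hD fun n hn => (mem_filter.1 hn).2).trans
      (add_le_add_right (min_le_left _ _) _)
    simp
  | insert p P hp ih =>
    intro A N
    have pp := hP p (mem_insert_self _ _)
    have hP' := fun q hq => hP q (mem_insert_of_mem hq)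
    have p0 : (0 : ℝ) < p := by exact_mod_cast pp.pos
    have a := ih hP' A N
    have b := ih hP' (A - Real.log p) (N / p)
    have c := sum_dvd N pp.pos fun n => if A ≤ Real.log n ∧ Real.log n ≤ A + D then
      Real.exp (om P (fun _ => 1) n) / n else 0
    rw [sum_congr rfl (s₂ := Icc 1 (N / p)) (g := fun m => 1 / p * if A - Real.log p ≤ Real.log m ∧
      Real.log m ≤ A - Real.log p + D then Real.exp (om P (fun _ => 1) m) / m else 0) fun m hm => by
        have m0 : (0 : ℝ) < m := by exact_mod_cast (mem_Icc.1 hm).1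
        have : om P (fun _ => 1) (p * m) = om P (fun _ => 1) m := sum_congr rfl fun q hq =>
          if_congr ((Nat.coprime_primes (hP' q hq) pp).2 fun e => hp (e ▸ hq)).dvd_mul_left rfl rfl
        rw [this, Nat.cast_mul, Real.log_mul p0.ne' m0.ne', mul_ite, mul_zero]
        exact if_congr ⟨fun h => ⟨by linarith [h.1], by linarith [h.2]⟩,
          fun h => ⟨by linarith [h.1], by linarith [h.2]⟩⟩ (by ring) rfl, ← mul_sum] at c
    have d := Real.add_one_le_exp (2 * (1 / p : ℝ))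
    rw [sum_insert hp, mul_add, Real.exp_add, mul_left_comm]
    refine le_trans ?_ (mul_le_mul_of_nonneg_right d (by positivity))
    have e := mul_le_mul_of_nonneg_left b (show 0 ≤ 2 * (1 / p : ℝ) by positivity)
    rw [mul_assoc, ← c, mul_sum] at e
    rw [add_mul, one_mul, add_comm (2 * _ * _)]
    refine le_trans ?_ (add_le_add a e)
    rw [← sum_add_distrib]
    refine sum_le_sum fun n _ => ?_
    rw [om, sum_insert hp, ← om, Real.exp_add]
    have : 0 ≤ Real.exp (om P (fun _ => 1) n) / n := by positivity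
    split_ifs
    · rw [mul_div_assoc]; nlinarith [Real.exp_one_lt_d9]
    all_goals simp

lemma moment {P : Finset ℕ} (hP : ∀ p ∈ P, p.Prime) {a c : ℕ → ℂ} {A x T : ℝ}
    (hx : ∀ p ∈ P, x ≤ Real.log p ∧ Real.log p ≤ x + 1) (ha : ∀ p, ‖a p‖ ≤ 1 / p)
    (hc : Loc c A (A + 1)) (hc' : ∀ n, ‖c n‖ ≤ 1 / n) (k : ℕ) (hT : 2 ≤ T)
    (hT' : T ≤ 2 * Real.exp (A + k * x)) :
    Mv T (fun t => ‖pp P a t ^ k * dp c t‖ ^ 2)
      (72 * Real.exp 4 * ((2 * k).factorial * (k + 2))) := by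
  have P0 : 0 ∉ P := fun h => (hP 0 h).ne_zero rfl
  have o0 : ∀ n, 0 ≤ om P (fun _ => 1) n := fun n => sum_nonneg fun _ _ => by split_ifs <;> simp
  obtain ⟨d, d1, d2, d3⟩ : ∃ d : ℕ → ℂ, Loc d (A + k * x) (A + k * x + (k + 1)) ∧
      (∀ n, ‖d n‖ ≤ om P (fun _ => 1) n ^ k / n) ∧ ∀ t, dp d t = pp P a t ^ k * dp c t := by
    clear hT'
    induction k with
    | zero => exact ⟨c, by simpa using hc, by simpa using hc', by simp⟩
    | succ k ih =>
      obtain ⟨d, d1, d2, d3⟩ := ih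
      refine ⟨cv P a d, (d1.cv P0 hx a).mono (le_of_eq (by push_cast; ring))
        (le_of_eq (by push_cast; ring)), fun n => ?_, fun t => by
          rw [dp_cv P0 a d1.sup, d3]; ring⟩
      rw [pow_succ', mul_div_assoc, om, sum_mul]
      refine norm_sum_le_of_le _ fun p hp => ?_
      split_ifs with h
      · obtain ⟨m, rfl⟩ := h
        rw [Nat.mul_div_cancel_left _ (hP p hp).pos, one_mul]
        refine (norm_mul_le_of_le (ha p) (d2 m)).trans ?_
        rw [Nat.cast_mul, div_mul_div_comm, one_mul]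
        refine div_le_div_of_nonneg_right (pow_le_pow_left₀ (o0 m) (sum_le_sum fun q _ => ?_) k)
          (by positivity)
        by_cases e : q ∣ m
        · simp [e, e.mul_left]
        · rw [if_neg e]; split_ifs <;> simp
      · simp
  refine (d1.mvt hT).mono (fun t => by rw [d3]) ?_
  have b1 : T * Real.exp (-(A + k * x)) + 1 ≤ 3 := by
    rw [Real.exp_neg, ← div_eq_mul_inv, ← le_sub_iff_add_le, div_le_iff₀ (Real.exp_pos _)]
    linarith
  have b2 := (harm_win P0 zero_le_one hx).trans (add_le_add_right (min_le_left _ _) _)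
  have b3 := (exp_om hP (D := k + 1) (by positivity) (A + k * x) ⌊Real.exp (A + k * x + (k + 1))⌋₊
    ).trans (mul_le_mul_of_nonneg_left (Real.exp_le_exp.2 (show _ ≤ 4 by linarith)) (by positivity))
  have b4 := mul_le_mul_of_nonneg_left b3 (Nat.cast_nonneg (2 * k).factorial)
  rw [mul_sum] at b4
  refine (mul_le_mul (mul_le_mul_of_nonneg_left b1 (by norm_num)) ((sum_le_sum fun n hn => ?_).trans
    b4) (by positivity) (by norm_num)).trans (le_of_eq (by ring))
  by_cases e : d n = 0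
  · rw [e]; simp only [norm_zero, ne_eq, OfNat.ofNat_ne_zero, not_false_eq_true, zero_pow, mul_zero]
    split_ifs <;> positivity
  have n0 : (0 : ℝ) < n := by exact_mod_cast (mem_Icc.1 hn).1
  have := Real.pow_div_factorial_le_exp _ (o0 n) (2 * k)
  rw [div_le_iff₀' (by positivity)] at this
  rw [if_pos (d1.2 n e), ← mul_div_assoc]
  refine (mul_le_mul_of_nonneg_left (pow_le_pow_left₀ (norm_nonneg _) (d2 n) 2) n0.le).trans
    (le_trans (le_of_eq ?_) (div_le_div_of_nonneg_right this n0.le))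
  field_simp; ring

/-- coefficients of the polynomial over a window of logarithmic length one -/
noncomputable def wc (f : ℕ → ℂ) (u : ℝ) (n : ℕ) : ℂ :=
  if u < Real.log n ∧ Real.log n ≤ u + 1 then f n / n else 0

lemma loc_wc (f : ℕ → ℂ) (u : ℝ) : Loc (wc f u) u (u + 1) :=
  ⟨by simp [wc], fun n hn => (ite_ne_right_iff.1 hn).1.imp_left le_of_lt⟩

lemma norm_div_le {f : ℕ → ℂ} (h1 : ∀ n, ‖f n‖ ≤ 1) (n : ℕ) : ‖f n / n‖ ≤ 1 / n := by
  rw [norm_div, Complex.norm_natCast]; exact div_le_div_of_nonneg_right (h1 n) (Nat.cast_nonneg n)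

lemma norm_wc {f : ℕ → ℂ} (h1 : ∀ n, ‖f n‖ ≤ 1) (u : ℝ) (n : ℕ) : ‖wc f u n‖ ≤ 1 / n := by
  unfold wc; split_ifs
  exacts [norm_div_le h1 n, by simp]

lemma decomp {f : ℕ → ℂ} (h1 : ∀ n, ‖f n‖ ≤ 1) (hm : ∀ m n, f (m * n) = f m * f n)
    {P : Finset ℕ} (hP : ∀ p ∈ P, p.Prime) {u η l : ℝ} (hl : l = ∑ p ∈ P, (1 / p : ℝ)) (l0 : 0 < l)
    (hu : P.card ≤ Real.exp u) (η0 : 0 ≤ η) (η1 : η ≤ 1) (sh : ℕ → ℝ)
    (hs : ∀ p ∈ P, sh p ≤ Real.log p ∧ Real.log p ≤ sh p + η) :
    ∃ e : ℕ → ℂ, Loc e u (u + 2) ∧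
      ∑ n ∈ Icc 1 ⌊Real.exp (u + 2)⌋₊, n * ‖e n‖ ^ 2 ≤ 20 / l + 4 * (η + Real.exp (-u)) ∧
      ∀ t, dp (wc f u) t =
        (∑ p ∈ P, f p / p * ee t p * dp (wc f (u - sh p)) t) / l + dp e t := by
  let g : ℕ → ℕ → ℂ := fun p => cv {p} (fun p => f p / p) (wc f (u - sh p))
  have P0 : ∀ p ∈ P, 0 ∉ ({p} : Finset ℕ) := fun p hp => by simpa using (hP p hp).ne_zero.symm
  have g1 : ∀ p ∈ P, Loc (g p) u (u + 2) := fun p hp => ((loc_wc f _).cv (P0 p hp)
    (x := sh p) (y := sh p + η) (fun q hq => mem_singleton.1 hq ▸ hs p hp) _).mono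
    (by linarith) (by linarith)
  have w1 := (loc_wc f u).mono le_rfl (show u + 1 ≤ u + 2 by linarith)
  have L : Loc (fun n => wc f u n - (∑ p ∈ P, g p n) / l) u (u + 2) :=
    ⟨by simp only [w1.1, sum_eq_zero fun p hp => (g1 p hp).1]; simp, fun n hn => by_contra fun h =>
      hn (by
        dsimp only
        rw [by_contra fun e => h (w1.2 n e), sum_eq_zero fun p hp => by_contra fun e =>
          h ((g1 p hp).2 n e)]
        simp)⟩
  refine ⟨_, L, ?_, fun t => ?_⟩
  · have E0 := Real.exp_pos u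
    set N := ⌊Real.exp (u + 2)⌋₊ with hN
    have N1 : (N : ℝ) ≤ 8 * Real.exp u := (Nat.floor_le (Real.exp_pos _).le).trans (by
      rw [Real.exp_add, show (2 : ℝ) = 1 + 1 by norm_num, Real.exp_add, mul_comm]
      refine mul_le_mul_of_nonneg_right ?_ E0.le
      nlinarith [Real.exp_one_lt_d9, Real.exp_pos 1])
    have b1 := tk_count hP N
    rw [← hl] at b1
    have b2 : ∀ A, u ≤ A → ∑ n ∈ Icc 1 N, (if A ≤ Real.log n ∧ Real.log n ≤ A + η then
        (1 / n : ℝ) else 0) ≤ η + Real.exp (-u) := fun A hA => by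
      rw [← sum_filter]
      exact (harm_win (by simp) η0 fun n hn => (mem_filter.1 hn).2).trans (add_le_add_right
        ((min_le_right _ _).trans (Real.exp_le_exp.2 (by linarith))) _)
    refine (sum_le_sum (g := fun n => 2 / (l ^ 2 * Real.exp u) * (om P (fun _ => 1) n - l) ^ 2 +
      2 * ((if u ≤ Real.log n ∧ Real.log n ≤ u + η then (1 / n : ℝ) else 0) +
        if u + 1 ≤ Real.log n ∧ Real.log n ≤ u + 1 + η then (1 / n : ℝ) else 0))
      fun n hn => ?_).trans ?_
    swap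
    · rw [sum_add_distrib, ← mul_sum, ← mul_sum, sum_add_distrib]
      have := (mul_le_mul_of_nonneg_left (b1.trans (mul_le_mul_of_nonneg_left
        (show _ ≤ 10 * Real.exp u by linarith) l0.le)) (show 0 ≤ 2 / (l ^ 2 * Real.exp u) by
          positivity)).trans_eq (show _ = 20 / l by field_simp; norm_num)
      linarith [b2 u le_rfl, b2 (u + 1) (by linarith)]
    by_cases e0 : wc f u n - (∑ p ∈ P, g p n) / l = 0
    · rw [e0, norm_zero, zero_pow two_ne_zero, mul_zero]; positivity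
    have n0 : (0 : ℝ) < n := by exact_mod_cast (mem_Icc.1 hn).1
    have n1 := (Real.le_log_iff_exp_le n0).1 (L.2 n e0).1
    set y := Real.log n with hy
    let s : ℝ := ∑ p ∈ P, if p ∣ n then (if u - sh p < y - Real.log p ∧
      y - Real.log p ≤ u - sh p + 1 then 1 else 0) else 0
    have e1 : wc f u n - (∑ p ∈ P, g p n) / l =
        f n / n * ((if u < y ∧ y ≤ u + 1 then 1 else 0) - s / l : ℝ) := by
      have : ∑ p ∈ P, g p n = f n / n * s := by
        simp only [s, ofReal_sum, mul_sum, g, cv, sum_singleton]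
        refine sum_congr rfl fun p hp => ?_
        by_cases c : p ∣ n
        swap
        · simp [c]
        obtain ⟨m, rfl⟩ := c
        have p0 : (p : ℝ) ≠ 0 := by exact_mod_cast (hP p hp).ne_zero
        have m0 : (m : ℝ) ≠ 0 := fun e => by simp [e] at n0
        have : y - Real.log p = Real.log m := by
          rw [hy, Nat.cast_mul, Real.log_mul p0 m0]; ring
        rw [if_pos (Dvd.intro _ rfl), if_pos (Dvd.intro _ rfl), this, wc, hm,
          Nat.mul_div_cancel_left _ (hP p hp).pos]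
        split_ifs <;> push_cast <;> ring
      rw [this, wc]
      split_ifs <;> push_cast <;> ring
    have s0 : 0 ≤ s := sum_nonneg fun _ _ => by split_ifs <;> simp
    have s1 : s ≤ om P (fun _ => 1) n := sum_le_sum fun _ _ => by split_ifs <;> simp
    set o := om P (fun _ => 1) n with ho
    have key : ((if u < y ∧ y ≤ u + 1 then 1 else 0) - s / l) ^ 2 ≤ 2 * (o / l - 1) ^ 2 +
        2 * ((if u ≤ y ∧ y ≤ u + η then 1 else 0) +
          if u + 1 ≤ y ∧ y ≤ u + 1 + η then 1 else 0) := by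
      have a0 : 0 ≤ s / l := by positivity
      have a1 : s / l ≤ o / l := by gcongr
      have gen : ∀ c : Prop, ∀ [Decidable c],
          ((if c then 1 else 0) - s / l) ^ 2 ≤ 2 * (o / l - 1) ^ 2 + 2 := fun c _ => by
        generalize s / l = a at *
        generalize o / l = b at *
        rcases le_total a 2 with h | h <;> split_ifs <;> nlinarith [sq_nonneg (b - 2)]
      by_cases c1 : u ≤ y ∧ y ≤ u + η
      · rw [if_pos c1]; refine (gen _).trans ?_; split_ifs <;> linarith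
      by_cases c2 : u + 1 ≤ y ∧ y ≤ u + 1 + η
      · rw [if_neg c1, if_pos c2]; linarith [gen (u < y ∧ y ≤ u + 1)]
      rw [if_neg c1, if_neg c2]
      have y0 := (L.2 n e0).1
      rw [not_and, not_le] at c1 c2
      have y1 := c1 y0
      by_cases c3 : u + 1 ≤ y
      · have y2 := c2 c3
        rw [if_neg fun h => by linarith [h.2], show s = 0 from sum_eq_zero fun p hp => by
          rw [if_neg fun h : _ ∧ _ => by linarith [h.2, hs p hp], ite_self]]
        simp only [zero_div, sub_zero, ne_eq, OfNat.ofNat_ne_zero, not_false_eq_true, zero_pow]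
        positivity
      · rw [if_pos ⟨by linarith, by linarith⟩, show s = o from sum_congr rfl fun p hp => by
          rw [if_pos (show _ < _ ∧ _ from ⟨by linarith [hs p hp], by linarith [hs p hp]⟩)]]
        nlinarith [sq_nonneg (o / l - 1)]
    rw [e1, norm_mul, mul_pow, norm_real, Real.norm_eq_abs, sq_abs]
    refine (mul_le_mul_of_nonneg_left (mul_le_mul (pow_le_pow_left₀ (norm_nonneg _)
      (norm_div_le h1 n) 2) key (sq_nonneg _) (by positivity)) n0.le).trans ?_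
    rw [← mul_assoc, show n * (1 / n : ℝ) ^ 2 = 1 / n by field_simp, mul_add]
    refine add_le_add ?_ (le_of_eq (by split_ifs <;> ring))
    rw [show 1 / (n : ℝ) * (2 * (o / l - 1) ^ 2) = 2 / (l ^ 2 * n) * (o - l) ^ 2 by field_simp]
    gcongr
  · rw [sum_congr rfl (g := fun p => dp (g p) t) fun p hp => by
      rw [dp_cv (P0 p hp) _ (loc_wc f _).sup, pp, sum_singleton],
      sum_congr rfl fun p hp => (g1 p hp).sup.dp_eq t, w1.sup.dp_eq, L.sup.dp_eq, sum_comm, sum_div,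
      ← sum_add_distrib]
    exact sum_congr rfl fun n _ => by rw [← sum_mul]; ring

end Pool.Agent.MP_f0209c_nt.Ch
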