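import Pool.Agent.MP_f0209c_nt.Ch.Pr
import Pool.Agent.MP_f0209c_nt.Ch.Tk

/-! A qualitative form of the theorem of Halasz. -/

namespace Pool.Agent.MP_f0209c_nt.Ch
open Complex Filter Topology Finset ComplexConjugate

/-- `f` does not pretend to be `n ^ (i t)` -/
def Rep (f : ℕ → ℂ) (δ : ℝ) : Prop := ∃ c C : ℝ, 0 < c ∧ ∀ a b y t : ℝ, 0 < a → a ≤ b →
  b ≤ δ / 2 → 1 ≤ a * y → b * √(Lg t) ≤ 2 →
    ∑ p ∈ pr 0 y, (ep a p - ep b p) ≤ Real.log b - Real.log a + C ∧
    c * (Real.log b - Real.log a) - C ≤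
      ∑ p ∈ pr 0 y, (ep a p - ep b p) * (1 - (f p * ee t p).re)

/-- coefficients of the long polynomial -/
noncomputable def cA (f : ℕ → ℂ) (t x : ℝ) (n : ℕ) : ℂ :=
  if Real.log n ≤ x + 1 then f n * ee t n / n else 0

lemma loc_cA (f : ℕ → ℂ) (t x : ℝ) : Loc (cA f t x) 0 (x + 1) :=
  ⟨by simp [cA], fun n hn => ⟨Real.log_natCast_nonneg n, (ite_ne_right_iff.1 hn).1⟩⟩

lemma log_floor_exp {x : ℝ} (hx : 0 ≤ x) : Real.log ⌊Real.exp x⌋₊ ≤ x :=
  (Real.log_le_iff_le_exp (Nat.cast_pos.2 (Nat.floor_pos.2 (Real.one_le_exp hx)))).2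
    (Nat.floor_le (Real.exp_pos _).le)

lemma dp_sub {c d : ℕ → ℂ} {S : Finset ℕ} (hc : Sup c S) (hd : Sup d S) (l : ℂ) :
    Sup (fun n => l * c n - d n) S ∧ ∀ t, dp (fun n => l * c n - d n) t = l * dp c t - dp d t := by
  have : Sup (fun n => l * c n - d n) S := ⟨hc.1, fun n hn => by_contra fun h => hn (by
    dsimp only
    rw [by_contra fun e => h (hc.2 n e), by_contra fun e => h (hd.2 n e)]; simp)⟩
  refine ⟨this, fun t => ?_⟩
  rw [this.dp_eq, hc.dp_eq, hd.dp_eq, mul_sum, ← sum_sub_distrib]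
  exact sum_congr rfl fun _ _ => by ring

section
variable {f : ℕ → ℂ} (h1 : ∀ n, ‖f n‖ ≤ 1) (hm : ∀ m n, f (m * n) = f m * f n) {δ : ℝ}
include h1

lemma norm_cA (t x : ℝ) (n : ℕ) : ‖cA f t x n‖ ≤ 1 / n := by
  unfold cA; split_ifs
  · exact norm_div_le (f := fun n => f n * ee t n) (fun n => by simpa [norm_ee] using h1 n) n
  · simp

include hm

lemma hal_l2 (h0 : 0 < δ) (hr : Rep f δ) {T ε : ℝ} (hT : 2 ≤ T) (hε : 0 < ε) :
    ∀ᶠ x : ℝ in atTop, ∀ t, |t| ≤ Real.exp (2 * x) →
      Mv T (fun θ => ‖dp (cA f t x) θ‖ ^ 2) (ε * x) := by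
  obtain ⟨c, C, c0, hr⟩ := hr
  set K := 96 * (T + 1) / c ^ 2 with hK
  have K0 : 0 < K := by positivity
  set η := min 1 (ε / (192 * K)) with hη
  have η0 : 0 < η := by positivity
  have η1 : η ≤ 1 := min_le_left _ _
  have η2 : 192 * K * η ≤ ε := by
    rw [← le_div_iff₀' (by positivity)]; exact min_le_right _ _
  have tL : Tendsto (fun x : ℝ => Real.log η + Real.log x / 2) atTop atTop :=
    tendsto_atTop_add_const_left _ _ (Real.tendsto_log_atTop.atTop_div_const two_pos)
  have tE : Tendsto (fun x : ℝ => Real.exp (-(Real.exp (2 * x) ^ 2 / (2 * T ^ 2)))) atTop (𝓝 0) :=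
    Real.tendsto_exp_neg_atTop_nhds_zero.comp (((tendsto_pow_atTop two_ne_zero).comp
      (Real.tendsto_exp_atTop.comp (tendsto_id.const_mul_atTop two_pos))).atTop_div_const
      (by positivity))
  filter_upwards [tL.eventually_ge_atTop (max (max C (2 * C / c)) (64 * K / ε)),
    tE.eventually_le_const (show 0 < ε / (144 * (2 * T + 1)) by positivity),
    eventually_ge_atTop 1, eventually_ge_atTop (1 / η), Real.tendsto_sqrt_atTop.eventually_ge_atTop
      (2 / δ)] with x x1 x2 x3 x4 x5 t ht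
  rw [div_le_iff₀' η0] at x4
  have x0 : 0 < x := by linarith
  have s0 := Real.sqrt_pos.2 x0
  set y := η * x with hy
  have yx : y ≤ x := mul_le_of_le_one_left x0.le η1
  set Λ := Real.log η + Real.log x / 2 with hΛ
  have eΛ : Real.log (1 / √x) - Real.log (1 / y) = Λ := by
    rw [one_div, one_div, Real.log_inv, Real.log_inv, Real.log_sqrt x0.le, hy,
      Real.log_mul η0.ne' x0.ne']; ring
  simp only [max_le_iff] at x1
  have Λ0 : 0 < Λ := lt_of_lt_of_le (by positivity) x1.2
  have ab : 1 / y ≤ 1 / √x := (Real.log_le_log_iff (by positivity) (by positivity)).1 (by linarith)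
  have R := fun τ => hr (1 / y) (1 / √x) y τ (by positivity) ab (by
    rw [div_le_iff₀ s0]; rw [div_le_iff₀ h0] at x5; linarith)
    (by rw [one_div_mul_cancel (by positivity)])
  rw [eΛ] at R
  have R2 : ∀ τ, |τ| ≤ 2 * Real.exp (2 * x) → 1 / √x * √(Lg τ) ≤ 2 := fun τ hτ => by
    rw [one_div_mul_eq_div, div_le_iff₀ s0]
    refine Real.sqrt_le_iff.2 ⟨by positivity, ?_⟩
    rw [mul_pow, Real.sq_sqrt x0.le, Lg, Real.log_le_iff_le_exp (by positivity),
      show 2 ^ 2 * x = 2 * x + 2 * x by ring, Real.exp_add]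
    nlinarith [Real.quadratic_le_exp_of_nonneg (show 0 ≤ 2 * x by linarith)]
  set P := pr 0 y with hP
  have pP : ∀ p ∈ P, p.Prime := fun p hp => (mem_pr.1 hp).1
  have P0 : 0 ∉ P := fun h => (pP 0 h).ne_zero rfl
  let w : ℕ → ℝ := fun p => (ep (1 / y) p - ep (1 / √x) p) * p
  have ew : ∀ p ∈ P, w p / p = ep (1 / y) p - ep (1 / √x) p := fun p hp =>
    mul_div_cancel_right₀ _ (Nat.cast_ne_zero.2 (pP p hp).ne_zero)
  have w0 : ∀ p ∈ P, 0 ≤ w p ∧ w p ≤ 1 := fun p hp => by
    refine ⟨mul_nonneg (sub_nonneg.2 (ep_anti ab p)) (Nat.cast_nonneg p), ?_⟩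
    have a : ep (1 / y) p ≤ ep 0 p := ep_anti (by positivity) p
    rw [show ep 0 p = 1 / p by simp [ep, pP p hp]] at a
    rw [← le_div_iff₀ (Nat.cast_pos.2 (pP p hp).pos)]
    linarith [ep_nonneg (1 / √x) p]
  set l := ∑ p ∈ P, w p / p with hl
  have l0 : 0 ≤ l := sum_nonneg fun p hp => div_nonneg (w0 p hp).1 (Nat.cast_nonneg p)
  have l1 : l ≤ 2 * Λ := by
    rw [hl, sum_congr rfl ew]; linarith [(R 0 (R2 0 (by simp; positivity))).1, x1.1.1]
  let a : ℕ → ℂ := fun p => w p * (f p * ee t p / p)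
  have L1 := loc_cA f t x
  have L2 := L1.cv P0 (x := 0) (y := y) (fun p hp => ⟨(mem_pr.1 hp).2.1.le, (mem_pr.1 hp).2.2⟩) a
  obtain ⟨d1, d2⟩ := dp_sub (L1.mono le_rfl (show x + 1 ≤ x + 1 + y by linarith)).sup L2.sup l
  set d := fun n => l * cA f t x n - cv P a (cA f t x) n with hd
  set N := ⌊Real.exp (x + 1 + y)⌋₊ with hN
  have N1 : Real.log N ≤ x + 1 + y := log_floor_exp (by linarith)
  have b1 : ∑ n ∈ Icc 1 N, (T + n) * ‖d n‖ ^ 2 ≤ (T + 1) * (8 * l * x + 12 * l ^ 2 * y) := by
    have a1 := tk_log pP w0 (fun p hp => (mem_pr.1 hp).2.2) N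
    have a2 := harm_win (S := (Icc 1 N).filter fun n => x + 1 ≤ Real.log n) (by simp) (A := x + 1)
      (D := y) (by linarith) fun n hn => ⟨(mem_filter.1 hn).2, (Real.log_le_log (Nat.cast_pos.2
        (mem_Icc.1 (mem_filter.1 hn).1).1) (Nat.cast_le.2 (mem_Icc.1 (mem_filter.1 hn).1).2)).trans N1⟩
    rw [← hl] at a1
    rw [sum_filter] at a2
    refine (sum_le_sum (g := fun n : ℕ => (T + 1) * (2 * (1 / (n : ℝ) * (om P w n - l) ^ 2) +
      2 * l ^ 2 * if x + 1 ≤ Real.log n then (1 / n : ℝ) else 0)) fun n hn => ?_).trans ?_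
    swap
    · rw [← mul_sum, sum_add_distrib, ← mul_sum, ← mul_sum]
      refine mul_le_mul_of_nonneg_left ?_ (by linarith)
      have := mul_le_mul_of_nonneg_left (a2.trans (add_le_add_right (min_le_left _ _) _))
        (show 0 ≤ 2 * l ^ 2 by positivity)
      nlinarith [mul_le_mul_of_nonneg_left (show 1 + Real.log N ≤ 4 * x by linarith) l0,
        mul_le_mul_of_nonneg_left x4 (sq_nonneg l)]
    have n0 : n ≠ 0 := by have := (mem_Icc.1 hn).1; omega
    have n1 : (1 : ℝ) ≤ n := by exact_mod_cast (mem_Icc.1 hn).1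
    have key : ‖d n‖ ≤ (|om P w n - l| + if x + 1 ≤ Real.log n then l else 0) / n := by
      by_cases c : Real.log n ≤ x + 1
      · have : d n = f n * ee t n / n * (l - om P w n : ℝ) := by
          simp only [hd, cv, om, ofReal_sub, ofReal_sum, mul_sub, mul_sum, cA, if_pos c, mul_comm (l : ℂ)]
          congr 1
          refine sum_congr rfl fun p hp => ?_
          by_cases e : p ∣ n
          swap
          · simp [e]
          obtain ⟨m, rfl⟩ := e
          have m0 : m ≠ 0 := right_ne_zero_of_mul n0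
          rw [if_pos (Dvd.intro _ rfl), if_pos (Dvd.intro _ rfl), Nat.mul_div_cancel_left _
            (pP p hp).pos, if_pos ((Real.log_le_log (Nat.cast_pos.2 (Nat.pos_of_ne_zero m0))
            (Nat.cast_le.2 (Nat.le_mul_of_pos_left _ (pP p hp).pos))).trans c), hm,
            ee_mul t (pP p hp).ne_zero m0]
          simp only [a]; push_cast; ring
        have b := norm_cA h1 t x n
        rw [cA, if_pos c] at b
        rw [this, norm_mul, norm_real, Real.norm_eq_abs, abs_sub_comm, div_eq_inv_mul _ (n : ℝ),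
          ← one_div]
        exact mul_le_mul b (le_add_of_nonneg_right (by positivity)) (abs_nonneg _) (by positivity)
      · have : ‖cv P a (cA f t x) n‖ ≤ om P w n / n := by
          rw [om, sum_div]
          refine norm_sum_le_of_le _ fun p hp => ?_
          split_ifs with e
          swap
          · simp
          obtain ⟨m, rfl⟩ := e
          rw [Nat.mul_div_cancel_left _ (pP p hp).pos]
          refine (norm_mul_le_of_le (norm_mul_le_of_le ((norm_real _).trans_le
            (Real.norm_of_nonneg (w0 p hp).1).le) (norm_div_le (f := fun n => f n * ee t n)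
            (fun n => by simpa [norm_ee] using h1 n) p)) (norm_cA h1 t x m)).trans
            (le_of_eq (by push_cast; ring))
        simp only [hd, cA, if_neg c, mul_zero, zero_sub, norm_neg, if_pos (not_le.1 c).le]
        exact this.trans (div_le_div_of_nonneg_right (by linarith [le_abs_self (om P w n - l)])
          (by linarith))
    refine (mul_le_mul (show T + n ≤ (T + 1) * n by nlinarith) (pow_le_pow_left₀ (norm_nonneg _)
      key 2) (by positivity) (by positivity)).trans ?_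
    rw [mul_assoc, ← sq_abs (om P w n - l)]
    refine mul_le_mul_of_nonneg_left ?_ (by linarith)
    generalize |om P w n - l| = o
    split_ifs
    · rw [show n * ((o + l) / n) ^ 2 = 1 / n * (o + l) ^ 2 by field_simp]
      nlinarith [mul_nonneg (show (0 : ℝ) ≤ 1 / n by positivity) (sq_nonneg (o - l))]
    · rw [show n * ((o + 0) / n) ^ 2 = 1 / n * o ^ 2 by field_simp; ring]
      nlinarith [mul_nonneg (show (0 : ℝ) ≤ 1 / n by positivity) (sq_nonneg o)]
  have b2 : ∑ n ∈ Icc 1 ⌊Real.exp (x + 1)⌋₊, n * ‖cA f t x n‖ ^ 2 ≤ 3 * x := by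
    refine (sum_le_sum fun n hn => ?_).trans ((harm_le _).trans (by
      linarith [log_floor_exp (show 0 ≤ x + 1 by linarith)]))
    have n0 : (0 : ℝ) < n := by exact_mod_cast (mem_Icc.1 hn).1
    exact (mul_le_mul_of_nonneg_left (pow_le_pow_left₀ (norm_nonneg _) (norm_cA h1 t x n) 2)
      n0.le).trans (le_of_eq (by field_simp))
  refine (((mvt d1 hT).mul (show 0 ≤ 4 / (c * Λ) ^ 2 by positivity)).add
    ((L1.mvt (T := 2 * T) (by linarith)).tail (by linarith) (fun _ => by positivity)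
      (Real.exp_pos (2 * x)).le)).mono (fun θ => ?_) ?_
  · split_ifs with e
    · exact le_add_of_nonneg_left (by positivity)
    have r := (R (t + θ) (R2 _ ((abs_add_le _ _).trans (by linarith [not_lt.1 e])))).2
    have r2 : c * Λ / 2 ≤ ‖l - pp P a θ‖ := by
      have := x1.1.2
      rw [div_le_iff₀ c0] at this
      refine le_trans (by linarith) (r.trans (le_trans (le_of_eq ?_) (re_le_norm _)))
      rw [sub_re, ofReal_re, pp, re_sum, hl, ← sum_sub_distrib]
      refine sum_congr rfl fun p hp => ?_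
      rw [← ew p hp, mul_sub, mul_one, ← re_ofReal_mul, ee_add]
      simp only [a]; push_cast; ring_nf
    rw [add_zero, d2, dp_cv P0 a L1.sup, ← sub_mul, norm_mul, mul_pow ‖_‖, ← mul_assoc]
    refine le_mul_of_one_le_left (by positivity) ?_
    rw [div_mul_eq_mul_div, one_le_div (by positivity)]
    nlinarith [pow_le_pow_left₀ (by positivity) r2 2]
  · rw [neg_zero, Real.exp_zero, mul_one]
    have e1 := mul_le_mul x2 (mul_le_mul_of_nonneg_left b2 (show 0 ≤ 24 * (2 * T + 1) by positivity))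
      (by positivity) (by positivity)
    rw [show ε / (144 * (2 * T + 1)) * (24 * (2 * T + 1) * (3 * x)) = ε / 2 * x by
      field_simp; norm_num] at e1
    have e2 : 8 * l * x + 12 * l ^ 2 * y ≤ 16 * Λ * x + 48 * Λ ^ 2 * y := by
      nlinarith [mul_le_mul_of_nonneg_right l1 x0.le, mul_le_mul_of_nonneg_right
        (pow_le_pow_left₀ l0 l1 2) (show 0 ≤ y by linarith)]
    have e3 := mul_le_mul_of_nonneg_left (mul_le_mul_of_nonneg_left (b1.trans
      (mul_le_mul_of_nonneg_left e2 (by linarith))) (show (0 : ℝ) ≤ 24 by norm_num))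
      (show 0 ≤ 4 / (c * Λ) ^ 2 by positivity)
    rw [show 4 / (c * Λ) ^ 2 * (24 * ((T + 1) * (16 * Λ * x + 48 * Λ ^ 2 * y))) =
      (16 * K / Λ + 48 * K * η) * x by rw [hK, hy]; field_simp; ring] at e3
    have e4 : 16 * K / Λ ≤ ε / 4 := by
      have := x1.2
      rw [div_le_iff₀ hε] at this
      rw [div_le_iff₀ Λ0]; linarith
    nlinarith [mul_le_mul_of_nonneg_right (show 16 * K / Λ + 48 * K * η ≤ ε / 2 by linarith) x0.le]

theorem halasz (h0 : 0 < δ) (hr : Rep f δ) {ε : ℝ} (hε : 0 < ε) :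
    ∀ᶠ x : ℝ in atTop, ∀ t, |t| ≤ Real.exp (2 * x) → ‖dp (wc f x) t‖ ≤ ε := by
  obtain ⟨C, C0, hC⟩ := mertens
  set L := 1 + 1280 / ε ^ 2 with hL
  have L1 : 1 ≤ L := le_add_of_nonneg_right (by positivity)
  set β := Real.exp (-(C + L)) / 2 with hβ
  have β0 : 0 < β := by positivity
  have β1 : β ≤ 1 / 2 := by
    rw [hβ]; gcongr; exact Real.exp_le_one_iff.2 (by linarith)
  set T := 3 + 576 / ε with hT
  have T3 : 3 ≤ T := le_add_of_nonneg_right (by positivity)
  have tE := Real.tendsto_exp_neg_atTop_nhds_zero.comp (tendsto_id.atTop_div_const two_pos)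
  filter_upwards [hal_l2 h1 hm h0 hr (show 2 ≤ T by linarith)
    (show 0 < β * ε ^ 2 / 256 by positivity), eventually_ge_atTop (2 / β),
    tE.eventually_le_const (show 0 < ε ^ 2 / 512 by positivity),
    tE.eventually_le_const (show 0 < ε / 384 by positivity)] with x x1 x2 x3 x4 t ht
  simp only [Function.comp, id] at x3 x4
  rw [div_le_iff₀' β0] at x2
  have x0 : 0 < x := by nlinarith
  set P := pr (β * x) (x / 2) with hP
  have pP : ∀ p ∈ P, p.Prime := fun p hp => (mem_pr.1 hp).1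
  set l := ∑ p ∈ P, (1 / p : ℝ) with hl
  have l1 : L ≤ l := by
    have := hC (β * x) (x / 2) x2 (by nlinarith)
    rw [Real.log_mul β0.ne' x0.ne', hβ, Real.log_div x0.ne' two_ne_zero,
      Real.log_div (Real.exp_pos _).ne' two_ne_zero, Real.log_exp] at this
    linarith
  have l0 : 0 < l := by linarith
  obtain ⟨e, e1, e2, e3⟩ := decomp h1 hm pP (u := x) hl l0 ((card_pr _ _).trans
    (Real.exp_le_exp.2 (by linarith))) le_rfl zero_le_one (fun p => Real.log p) fun p _ => by simp
  have a1 : ‖dp e t‖ ≤ 3 * (ε / 8) + (20 / l + 4 * (0 + Real.exp (-x))) / (ε / 8) := by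
    have b := harm_win (S := (Icc 1 ⌊Real.exp (x + 2)⌋₊).filter fun n => e n ≠ 0) (by simp)
      zero_le_two fun n hn => e1.2 n (mem_filter.1 hn).2
    rw [sum_filter] at b
    refine (e1.sup.norm_le t).trans ((sum_le_sum (g := fun n : ℕ => ε / 8 * (if e n ≠ 0 then
      (1 / n : ℝ) else 0) + n * ‖e n‖ ^ 2 / (ε / 8)) fun n hn => ?_).trans ?_)
    · have n0 : (0 : ℝ) < n := by exact_mod_cast (mem_Icc.1 hn).1
      split_ifs with c
      · rw [← sub_le_iff_le_add', le_div_iff₀ (by positivity), ← mul_le_mul_iff_right₀ n0,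
          show n * ((‖e n‖ - ε / 8 * (1 / n)) * (ε / 8)) = n * ‖e n‖ * (ε / 8) - (ε / 8) ^ 2 by
            field_simp]
        nlinarith [sq_nonneg (n * ‖e n‖ - ε / 8), sq_nonneg (n * ‖e n‖), sq_nonneg ε]
      · simp [not_not.1 c]
    · rw [sum_add_distrib, ← mul_sum, ← sum_div]
      refine add_le_add ?_ (by gcongr)
      rw [mul_comm]
      gcongr
      linarith [min_le_left 1 (Real.exp (-x))]
  have a2 := windows (loc_cA f t x).sup (norm_cA h1 t x) T3 (x1 t ht) (l := ε / 8) (by positivity)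
    P (fun p => 1 / p) (fun p => x - Real.log p) (fun p => x - Real.log p + 1)
    (fun _ _ => by positivity) (fun _ _ => by linarith) (M := 4 / (β * x)) fun v => by
      rw [← sum_filter]
      refine (cell_le (x := max (x - v) (β * x)) (lt_max_of_lt_right (by linarith))
        fun p hp => ?_).trans (by gcongr; exact le_max_right _ _)
      obtain ⟨a, b, c⟩ := mem_filter.1 hp
      exact ⟨pP p a, max_le (by linarith) (mem_pr.1 a).2.1.le, by
        linarith [le_max_left (x - v) (β * x)]⟩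
  have a3 : ‖∑ p ∈ P, f p / p * ee t p * dp (wc f (x - Real.log p)) t‖ ≤
      l * (ε / 8 + ε / 16 + ε / 8) + ε / 8 := by
    refine (norm_sum_le_of_le _ fun p hp => ?_).trans (a2.trans (add_le_add ?_ (le_of_eq ?_)))
    · rw [norm_mul, norm_mul, norm_ee, mul_one]
      refine mul_le_mul (norm_div_le h1 p) (le_of_eq (congrArg _ ?_)) (norm_nonneg _) (by positivity)
      have p0 := Real.log_natCast_nonneg p
      rw [((loc_wc f _).mono le_rfl (show _ ≤ x + 1 by linarith)).sup.dp_eq, ws]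
      refine sum_congr rfl fun n _ => ?_
      rw [wc, cA]
      split_ifs with c d
      · ring
      · exact absurd (by linarith [c.2]) d
      all_goals simp
    · rw [hl, sum_mul]
      refine sum_le_sum fun p hp => mul_le_mul_of_nonneg_left ?_ (by positivity)
      have b1 := Real.exp_le_exp.2 (show -(x - Real.log p) ≤ -(x / 2) by linarith [(mem_pr.1 hp).2.2])
      have b2 : 72 / T ≤ ε / 8 := by
        rw [div_le_iff₀ (by linarith), hT, mul_add, show ε / 8 * (576 / ε) = 72 by
          field_simp; norm_num]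
        linarith
      linarith
    · field_simp; norm_num
  rw [e3]
  refine (norm_add_le _ _).trans ?_
  rw [norm_div, norm_real, Real.norm_of_nonneg l0.le]
  have a4 : ‖∑ p ∈ P, f p / p * ee t p * dp (wc f (x - Real.log p)) t‖ / l ≤ 7 * ε / 16 := by
    rw [div_le_iff₀ l0]; nlinarith
  have a5 : (20 / l + 4 * (0 + Real.exp (-x))) / (ε / 8) ≤ 3 * ε / 16 := by
    have b1 : 20 / l ≤ ε ^ 2 / 64 := by
      have : 1280 / ε ^ 2 ≤ l := by linarith
      rw [div_le_iff₀ (by positivity)] at this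
      rw [div_le_iff₀ l0]; linarith
    have b2 := Real.exp_le_exp.2 (show -x ≤ -(x / 2) by linarith)
    rw [div_le_iff₀ (by positivity)]; linarith
  linarith

end

end Pool.Agent.MP_f0209c_nt.Ch
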