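import Pool.Agent.MP_f0209c_nt.Ch.Zf
import Pool.Agent.MP_f0209c_nt.Ch.Tk

/-! A large value estimate for polynomials supported on primes. -/

namespace Pool.Agent.MP_f0209c_nt.Ch
open Complex Filter Topology ComplexConjugate MeasureTheory

lemma shift {f : ℂ → ℂ} {a' a R₀ : ℝ} (ha : a' ≤ a)
    (hf : ∀ z : ℂ, a' ≤ z.re → z.re ≤ a → DifferentiableAt ℂ f z) {g g' : ℝ → ℝ}
    (hg : Integrable g) (hg' : Integrable g') (h1 : ∀ t : ℝ, ‖f (a' + t * I)‖ ≤ g' t)
    (h2 : ∀ x ∈ Set.Icc a' a, ∀ t : ℝ, x = a ∨ R₀ ≤ |t| → ‖f (x + t * I)‖ ≤ g t)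
    (h3 : Tendsto g (cocompact ℝ) (𝓝 0)) :
    Integrable (fun t : ℝ => f (a + t * I)) ∧ ‖∫ t : ℝ, f (a + t * I)‖ ≤ ∫ t, g' t := by
  have i : Integrable fun t : ℝ => f (a + t * I) := hg.mono' (Continuous.aestronglyMeasurable
    (continuous_iff_continuousAt.2 fun t => ContinuousAt.comp (f := fun t : ℝ => (a : ℂ) + t * I)
      (hf _ (by simpa using ha) (by simp)).continuousAt (by fun_prop)))
    (ae_of_all _ fun t => h2 a (Set.right_mem_Icc.2 ha) t (.inl rfl))
  refine ⟨i, ?_⟩
  have t1 := (intervalIntegral_tendsto_integral i tendsto_neg_atTop_atBot tendsto_id).norm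
  have t2 := (((h3.mono_left atTop_le_cocompact).add ((h3.mono_left atBot_le_cocompact).comp
    tendsto_neg_atTop_atBot)).mul_const |a - a'|).const_add (∫ t, g' t)
  rw [add_zero, zero_mul, add_zero] at t2
  refine le_of_tendsto_of_tendsto t1 t2 ?_
  filter_upwards [eventually_ge_atTop R₀, eventually_ge_atTop 0] with R r1 r2
  have h := integral_boundary_rect_eq_zero_of_differentiableOn f (a' + (-R : ℝ) * I) (a + R * I)
    fun z hz => by
      have := hz.1
      simp only [add_re, ofReal_re, mul_re, I_re, mul_zero, ofReal_im, I_im, mul_one, sub_self,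
        add_zero, Set.uIcc_of_le ha] at this
      exact (hf z this.1 this.2).differentiableWithinAt
  simp only [add_re, ofReal_re, mul_re, I_re, mul_zero, ofReal_im, I_im, mul_one, sub_self,
    add_zero, add_im, mul_im, zero_add, smul_eq_mul] at h
  have e : ∀ y : ℝ, |y| = R → ‖∫ x in a'..a, f (x + y * I)‖ ≤ g y * |a - a'| := fun y hy =>
    intervalIntegral.norm_integral_le_of_norm_le_const fun x hx => h2 x
      (Set.uIcc_of_le ha ▸ Set.uIoc_subset_uIcc hx) y (.inr (hy ▸ r1))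
  have e1 : ‖∫ t in -R..R, f (a' + t * I)‖ ≤ ∫ t, g' t := by
    refine (intervalIntegral.norm_integral_le_of_norm_le (by linarith)
      (ae_of_all _ fun t _ => h1 t) hg'.intervalIntegrable).trans ?_
    rw [intervalIntegral.integral_of_le (by linarith)]
    exact setIntegral_le_integral hg' (ae_of_all _ fun t => (norm_nonneg _).trans (h1 t))
  have e4 : I * (∫ t in -R..R, f (a + t * I)) = I * (∫ t in -R..R, f (a' + t * I)) +
      ((∫ x in a'..a, f (x + R * I)) - ∫ x in a'..a, f (x + (-R : ℝ) * I)) := by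
    linear_combination h
  have e5 := congrArg norm e4
  rw [norm_mul, norm_I, one_mul] at e5
  refine e5.trans_le ((norm_add_le_of_le (le_trans (by rw [norm_mul, norm_I, one_mul]) e1)
    (norm_sub_le_of_le (e R (abs_of_nonneg r2)) (e (-R) (by simpa using r2)))).trans (le_of_eq ?_))
  simp only [Function.comp]; ring

/-- the majorant of the primes -/
noncomputable def Wt (y : ℝ) (n : ℕ) : ℝ :=
  ArithmeticFunction.vonMangoldt n * Real.exp (-(Real.log n - y) ^ 2)

lemma Wt_nonneg (y : ℝ) (n : ℕ) : 0 ≤ Wt y n :=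
  mul_nonneg ArithmeticFunction.vonMangoldt_nonneg (Real.exp_pos _).le

lemma tend_gauss {b : ℝ} (hb : 0 < b) (x : ℝ) :
    Tendsto (fun u => Real.exp (-b * (u - x) ^ 2)) (cocompact ℝ) (𝓝 0) := by
  have t : Tendsto (fun u : ℝ => ‖u‖) (cocompact ℝ) atTop := tendsto_norm_cocompact_atTop
  have := Real.tendsto_exp_atBot.comp (((tendsto_pow_atTop two_ne_zero).comp t
    ).const_mul_atTop_of_neg (neg_lt_zero.2 hb))
  refine (this.comp (Homeomorph.subRight x).isClosedEmbedding.tendsto_cocompact).congr fun u => ?_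
  simp

section
variable {δ : ℝ} (h : QRH δ) (h0 : 0 < δ) (h1 : δ ≤ 1 / 2)
include h h0 h1

lemma kernel : ∃ C : ℝ, 0 < C ∧ ∀ y θ : ℝ, 0 ≤ y → ∃ S, HasSum (fun n => Wt y n * ee θ n) S ∧
    ‖S‖ ≤ C * (Real.exp y * Real.exp (-(1 / 4) * θ ^ 2) + Real.exp ((1 - δ / 2) * y) * Lg θ) := by
  obtain ⟨C, C1, hC⟩ := DZ_log h h0 h1
  refine ⟨50 * (C + 2 / δ), by positivity, fun y θ y0 => ?_⟩
  let E : ℂ → ℂ := fun z => exp (z ^ 2 / 4 + z * y)
  have nE : ∀ x t : ℝ, ‖E (x + t * I)‖ = Real.exp ((x ^ 2 - t ^ 2) / 4 + x * y) := fun x t => by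
    rw [norm_exp]; simp [sq]
  let L : ℕ → ℂ := fun n => ArithmeticFunction.vonMangoldt n
  have sL : ∀ t : ℝ, LSeriesSummable L (2 + t * I) := fun t =>
    ArithmeticFunction.LSeriesSummable_vonMangoldt (by simp)
  have g : ∀ n : ℕ, Integrable (fun t : ℝ => E (2 + t * I) * LSeries.term L (2 + (t + θ : ℝ) * I) n)
      ∧ ∫ t : ℝ, E (2 + t * I) * LSeries.term L (2 + (t + θ : ℝ) * I) n =
        √(Real.pi / (1 / 4)) * (Wt y n * ee θ n) := fun n => by
    rcases eq_or_ne n 0 with rfl | n0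
    · simp [Wt]
    obtain ⟨a, b⟩ := gauss (b := 1 / 4) (by norm_num) (I * (1 + y - Real.log n))
      (1 + 2 * (y - Real.log n) - I * θ * Real.log n)
    have e : ∀ t : ℝ, E (2 + t * I) * LSeries.term L (2 + (t + θ : ℝ) * I) n = L n *
        exp (-(1 / 4 : ℝ) * t ^ 2 + I * (1 + y - Real.log n) * t +
          (1 + 2 * (y - Real.log n) - I * θ * Real.log n)) := fun t => by
      rw [LSeries.term_of_ne_zero n0, div_eq_mul_inv, ← cpow_neg, pw_nat _ n0, mul_left_comm,
        ← exp_add]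
      congr 2
      push_cast
      linear_combination (t ^ 2 / 4 : ℂ) * I_mul_I
    simp only [e]
    refine ⟨a.const_mul _, ?_⟩
    rw [integral_const_mul, b, Wt, ee, ofReal_mul, ofReal_exp, mul_assoc _ (exp _), ← exp_add,
      mul_left_comm]
    congr 3
    push_cast
    linear_combination ((1 + y - Complex.log n) ^ 2 : ℂ) * I_mul_I
  have hs := hasSum_integral_of_summable_integral_norm (fun n => (g n).1) (by
    refine (((sL 0).norm.mul_left (∫ t : ℝ, ‖E (2 + t * I)‖))).congr fun n => ?_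
    rw [← integral_mul_const]
    refine integral_congr_ae (ae_of_all _ fun t => ?_)
    simp only [norm_mul, LSeries.norm_term_eq]; simp)
  simp only [(g _).2, tsum_mul_left] at hs
  set A := √(Real.pi / (1 / 4)) with hA
  have A1 : 1 ≤ A := Real.le_sqrt_of_sq_le (by linarith [Real.pi_gt_three])
  have A2 : A ≤ 4 := Real.sqrt_le_iff.2 ⟨by norm_num, by linarith [Real.pi_le_four]⟩
  have A0 : (A : ℂ) ≠ 0 := by exact_mod_cast (by linarith : A ≠ 0)
  refine ⟨_, (hs.div_const A).congr_fun fun n => (mul_div_cancel_left₀ _ A0).symm, ?_⟩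
  rw [norm_div, norm_real, Real.norm_of_nonneg (by linarith)]
  refine (div_le_self (norm_nonneg _) A1).trans ?_
  set z₀ : ℂ := 1 - θ * I with hz
  set K := Real.exp y * Real.exp (-(1 / 4) * θ ^ 2) with hK
  have K0 : 0 < K := by positivity
  let G : ℂ → ℂ := fun z => E z₀ * exp ((z - z₀) ^ 2 / 4)
  have e3 := Real.exp_one_lt_d9.le.trans (show _ ≤ (3 : ℝ) by norm_num)
  have nG : ∀ x t : ℝ, |x - 1| ≤ 1 →
      ‖G (x + t * I)‖ ≤ 3 * K * Real.exp (-(1 / 4) * (t - -θ) ^ 2) := fun x t hx => by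
    have := nE 1 (-θ)
    rw [show ((1 : ℝ) + (-θ : ℝ) * I : ℂ) = z₀ by rw [hz]; push_cast; ring] at this
    rw [norm_mul, this, norm_exp, hK, mul_assoc, ← Real.exp_add, ← Real.exp_add, ← Real.exp_add]
    refine le_trans ?_ (mul_le_mul_of_nonneg_right e3 (Real.exp_pos _).le)
    rw [← Real.exp_add, Real.exp_le_exp]
    have := (sq_le_one_iff_abs_le_one _).2 hx
    simp [hz, sq] at this ⊢
    linarith
  let Φ : ℂ → ℂ := fun z => E z * DZ (z + θ * I) + dslope (fun z => E z - G z) z₀ z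
  have eΦ : ∀ z, z ≠ z₀ → Φ z = E z * (1 / (z - z₀) + DZ (z + θ * I)) - G z / (z - z₀) :=
    fun z hz => by simp only [Φ, dslope_of_ne _ hz, slope_def_field, G]; simp; ring
  have L1 := one_le_Lg θ
  let gg : ℝ → ℝ → ℝ := fun x t => 9 * (C + 2 / δ) * (Real.exp (x * y) * Lg θ) *
    Real.exp (-(1 / 8) * (t - 0) ^ 2) + 6 / δ * K * Real.exp (-(1 / 4) * (t - -θ) ^ 2)
  have bΦ : ∀ x ∈ Set.Icc (1 - δ / 2) 2, ∀ t : ℝ, δ / 2 ≤ ‖x + t * I - z₀‖ →
      ‖Φ (x + t * I)‖ ≤ gg x t := fun x hx t hw => by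
    have w0 : 0 < ‖x + t * I - z₀‖ := lt_of_lt_of_le (by positivity) hw
    have w1 : ‖1 / (x + t * I - z₀)‖ ≤ 2 / δ := by
      rw [norm_div, norm_one, ← one_div_div δ 2]; exact one_div_le_one_div_of_le (by positivity) hw
    have d := hC (x + t * I + θ * I) (by simpa using hx.1) (by simp; linarith [hx.2])
    have d2 := Lg_le θ (t + θ)
    rw [show (x + t * I + θ * I : ℂ).im = t + θ by simp] at d
    rw [add_sub_cancel_right] at d2
    rw [eΦ _ (sub_ne_zero.1 (norm_pos_iff.1 w0)), div_eq_mul_one_div (G _)]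
    refine (norm_sub_le_of_le (norm_mul_le_of_le (nE x t).le (norm_add_le_of_le w1 d))
      (norm_mul_le_of_le (nG x t (abs_le.2 ⟨by linarith [hx.1], by linarith [hx.2]⟩)) w1)).trans
      (add_le_add ?_ (le_of_eq (by ring)))
    have u1 : Real.exp ((x ^ 2 - t ^ 2) / 4 + x * y) ≤ 3 * Real.exp (x * y) *
        Real.exp (-(1 / 8) * (t - 0) ^ 2) * Real.exp (-(t ^ 2 / 8)) := by
      rw [mul_assoc, mul_assoc, ← Real.exp_add, ← Real.exp_add]
      refine le_trans ?_ (mul_le_mul_of_nonneg_right e3 (Real.exp_pos _).le)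
      rw [← Real.exp_add, Real.exp_le_exp]
      nlinarith [hx.1, hx.2]
    have u2 : Real.exp (-(t ^ 2 / 8)) * (2 / δ + C * Lg (t + θ)) ≤ 3 * (C + 2 / δ) * Lg θ := by
      rw [Real.exp_neg, inv_mul_le_iff₀ (Real.exp_pos _)]
      refine le_trans ?_ (mul_le_mul_of_nonneg_right (Real.add_one_le_exp _) (by positivity))
      have v1 : Lg (t + θ) ≤ (t ^ 2 / 8 + 1) * (3 * Lg θ) := by
        nlinarith [sq_nonneg (|t| - 2), sq_abs t, mul_le_mul_of_nonneg_left L1 (sq_nonneg t)]
      have v2 : 1 ≤ (t ^ 2 / 8 + 1) * (3 * Lg θ) := (one_le_Lg _).trans v1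
      have v3 := mul_le_mul_of_nonneg_left v1 (show 0 ≤ C by linarith)
      have v4 := mul_le_mul_of_nonneg_left v2 (show 0 ≤ 2 / δ by positivity)
      linarith
    refine (mul_le_mul_of_nonneg_right u1 (by have := one_le_Lg (t + θ); positivity)).trans ?_
    rw [mul_assoc]
    exact (mul_le_mul_of_nonneg_left u2 (by positivity)).trans (le_of_eq (by ring))
  obtain ⟨r1, r2⟩ := rgauss (b := 1 / 8) (by norm_num) 0
  obtain ⟨r3, r4⟩ := rgauss (b := 1 / 4) (by norm_num) (-θ)
  have ig : ∀ x, Integrable (gg x) := fun x => (r1.const_mul _).add (r3.const_mul _)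
  obtain ⟨i1, b1⟩ := shift (f := Φ) (a' := 1 - δ / 2) (a := 2) (R₀ := |θ| + 1) (by linarith)
    (fun z a b => (DifferentiableAt.mul (by fun_prop) ((h.diff (by simp; linarith)).comp z
      (by fun_prop))).add (((differentiableOn_dslope univ_mem).2 (by fun_prop)).differentiableAt
      univ_mem)) (ig 2) (ig (1 - δ / 2))
    (fun t => bΦ _ ⟨le_rfl, by linarith⟩ t (le_trans (by simp [hz, abs_div, abs_of_pos h0])
      (abs_re_le_norm _)))
    (fun x hx t c => (bΦ x hx t (by
      rcases c with rfl | c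
      · exact le_trans (by simp [hz]; linarith) (re_le_norm _)
      · refine le_trans ?_ (abs_im_le_norm _)
        have := abs_sub_abs_le_abs_sub t (-θ)
        simp [hz] at this ⊢
        linarith)).trans (by simp only [gg]; gcongr; exact hx.2))
    ((((tend_gauss (b := 1 / 8) (by norm_num) 0).const_mul _).add
      ((tend_gauss (b := 1 / 4) (by norm_num) (-θ)).const_mul _)).mono_right (by simp))
  have w : ∀ t : ℝ, 1 ≤ ‖2 + t * I - z₀‖ := fun t => le_trans (by simp [hz]; norm_num) (re_le_norm _)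
  have b2 : ∀ t : ℝ, ‖G (2 + t * I) / (2 + t * I - z₀)‖ ≤
      3 * K * Real.exp (-(1 / 4) * (t - -θ) ^ 2) := fun t => by
    rw [norm_div]
    exact (div_le_self (norm_nonneg _) (w t)).trans (by simpa using nG 2 t (by norm_num))
  have i2 : Integrable fun t : ℝ => G (2 + t * I) / (2 + t * I - z₀) := (r3.const_mul _).mono'
    (Continuous.aestronglyMeasurable (Continuous.div (by fun_prop) (by fun_prop) fun t =>
      norm_pos_iff.1 (by linarith [w t]))) (ae_of_all _ b2)
  have b3 := norm_integral_le_of_norm_le (r3.const_mul _) (ae_of_all _ b2)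
  rw [integral_add (r1.const_mul _) (r3.const_mul _), integral_const_mul, integral_const_mul,
    r2, r4, ← hA] at b1
  rw [integral_const_mul, r4, ← hA] at b3
  simp only [ofReal_ofNat] at i1 b1
  rw [integral_congr_ae (g := fun t : ℝ => Φ (2 + t * I) + G (2 + t * I) / (2 + t * I - z₀))
    (ae_of_all _ fun t => by
      dsimp only
      rw [eΦ _ (sub_ne_zero.1 (norm_pos_iff.1 (by linarith [w t]))), sub_add_cancel, ← LSeries,
        DZ_eq (by simp), hz]
      push_cast; ring_nf), integral_add i1 i2]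
  refine (norm_add_le_of_le b1 b3).trans ?_
  have s : √(Real.pi / (1 / 8)) ≤ 50 / 9 :=
    Real.sqrt_le_iff.2 ⟨by norm_num, by linarith [Real.pi_lt_d2]⟩
  have d : 0 < 2 / δ := by positivity
  have e6 : 6 / δ = 3 * (2 / δ) := by ring
  rw [e6]
  nlinarith [mul_le_mul_of_nonneg_left s (show 0 ≤ 9 * (C + 2 / δ) *
    (Real.exp ((1 - δ / 2) * y) * Lg θ) by positivity), mul_le_mul_of_nonneg_left A2 K0.le,
    mul_le_mul_of_nonneg_left A2 (mul_pos d K0).le, mul_le_mul_of_nonneg_right C1 K0.le,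
    mul_pos d K0]

theorem large : ∃ C : ℝ, 0 < C ∧ ∀ (y R T : ℝ) (P : Finset ℕ) (a : ℕ → ℂ) (E : Set ℝ), 0 < y →
    (∀ p ∈ P, p.Prime ∧ y ≤ Real.log p ∧ Real.log p ≤ y + 1) → (∀ p, ‖a p‖ ≤ 1 / p) →
    MeasurableSet E → E ⊆ Set.Icc (-R) R →
    volume.real E * Lg (2 * R) ≤ Real.exp (δ / 2 * y) →
    Mv T (E.indicator fun t => ‖pp P a t‖ ^ 2) (C * (∑ p ∈ P, (1 / p : ℝ)) / y) := by
  obtain ⟨C, C0, hC⟩ := kernel h h0 h1
  refine ⟨3 * (5 * C + 1), by positivity, fun y R T P a E y0 hP ha hE hR hv => ?_⟩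
  have sW : Summable (Wt y) := by
    obtain ⟨S, s, -⟩ := hC y 0 y0.le
    simpa [ee, summable_ofReal] using s.summable
  obtain ⟨N, N1, N2⟩ := (((tendsto_sum_nat_add (Wt y)).eventually_le_const one_pos).and
    (tendsto_finset_range.eventually_ge_atTop P)).exists
  set D := (C + 1) * (Real.exp ((1 - δ / 2) * y) * Lg (2 * R)) with hD
  let k : ℝ → ℝ := fun θ => C * Real.exp y * Real.exp (-(1 / 4) * θ ^ 2) + D
  have bk : ∀ s ∈ E, ∀ t ∈ E, ‖∑ n ∈ Finset.range N, Wt y n * ee (t - s) n‖ ≤ k (t - s) :=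
    fun s hs t ht => by
      obtain ⟨S, s1, s2⟩ := hC y (t - s) y0.le
      have a1 := s1.summable.sum_add_tsum_nat_add N
      have a2 : ‖∑' i, Wt y (i + N) * ee (t - s) (i + N)‖ ≤ 1 := (tsum_of_norm_bounded
        ((summable_nat_add_iff N).2 sW).hasSum fun i => by
          rw [norm_mul, norm_ee, mul_one, norm_real, Real.norm_of_nonneg (Wt_nonneg _ _)]).trans N1
      have a3 : Lg (t - s) ≤ Lg (2 * R) := Real.log_le_log (by positivity) (add_le_add_right
        (le_trans (abs_le.2 ⟨by linarith [(hR hs).2, (hR ht).1], by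
          linarith [(hR hs).1, (hR ht).2]⟩) (le_abs_self _)) _)
      have a4 := Real.one_le_exp (show 0 ≤ (1 - δ / 2) * y by nlinarith)
      rw [eq_sub_of_add_eq a1, s1.tsum_eq]
      refine (norm_sub_le_of_le s2 a2).trans ?_
      have := mul_le_mul_of_nonneg_left (mul_le_mul_of_nonneg_left a3 (zero_le_one.trans a4)) C0.le
      nlinarith [one_le_mul_of_one_le_of_one_le a4 (one_le_Lg (2 * R))]
  set μ := volume.restrict E with hμ
  have iE : ∀ {F : Type} [NormedAddCommGroup F] (g : ℝ → F), Continuous g → Integrable g μ :=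
    fun g hg => (hg.continuousOn.integrableOn_compact isCompact_Icc).mono_set hR
  have iP : ∀ {F : Type} [NormedAddCommGroup F] (g : ℝ × ℝ → F), Continuous g →
      Integrable g (μ.prod μ) := fun g hg => by
    rw [hμ, Measure.prod_restrict]
    exact (hg.continuousOn.integrableOn_compact (isCompact_Icc.prod isCompact_Icc)).mono_set
      (Set.prod_mono hR hR)
  set Q := pp P a with hQ
  have cQ : Continuous Q := by unfold Q pp; fun_prop
  set J := ∫ t, ‖Q t‖ ^ 2 ∂μ with hJ
  have J0 : 0 ≤ J := integral_nonneg fun _ => by positivity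
  set K := (5 * C + 1) * Real.exp y with hK
  have bK : ∀ x, ∫ u, k (u - x) ∂μ ≤ K := fun x => by
    obtain ⟨r1, r2⟩ := rgauss (b := 1 / 4) (by norm_num) x
    have : IsFiniteMeasure μ := isFiniteMeasure_restrict.2
      (ne_top_of_le_ne_top measure_Icc_lt_top.ne (measure_mono hR))
    rw [integral_add (iE _ (by fun_prop)) (integrable_const _), integral_const_mul, integral_const,
      smul_eq_mul, hμ, measureReal_restrict_apply_univ]
    have a1 := (setIntegral_le_integral (s := E) r1 (ae_of_all _ fun _ => by positivity)).trans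
      (r2.trans_le (Real.sqrt_le_iff.2 ⟨show (0 : ℝ) ≤ 4 by norm_num, by linarith [Real.pi_le_four]⟩))
    have a2 := mul_le_mul_of_nonneg_left hv (show 0 ≤ (C + 1) * Real.exp ((1 - δ / 2) * y) by positivity)
    rw [mul_assoc _ _ (Real.exp _), ← Real.exp_add, show (1 - δ / 2) * y + δ / 2 * y = y by ring] at a2
    nlinarith [mul_le_mul_of_nonneg_left a1 (show 0 ≤ C * Real.exp y by positivity)]
  let φ : ℕ → ℂ := fun n => ∫ t, Q t * ee (-t) n ∂μ
  have b1 : ∑ n ∈ Finset.range N, Wt y n * ‖φ n‖ ^ 2 ≤ K * J := by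
    have e : ((∑ n ∈ Finset.range N, Wt y n * ‖φ n‖ ^ 2 : ℝ) : ℂ) = ∫ z : ℝ × ℝ,
        Q z.1 * conj (Q z.2) * ∑ n ∈ Finset.range N, Wt y n * ee (z.2 - z.1) n ∂μ.prod μ := by
      simp only [Finset.mul_sum]
      rw [integral_finsetSum _ fun n _ => iP _ (by fun_prop), ofReal_sum]
      refine Finset.sum_congr rfl fun n _ => ?_
      rw [ofReal_mul, ← normSq_eq_norm_sq, ← mul_conj, ← integral_conj, ← integral_prod_mul,
        ← integral_const_mul]
      refine integral_congr_ae (ae_of_all _ fun z => ?_)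
      simp only [map_mul, conj_ee, neg_neg, sub_eq_add_neg, ee_add]; ring
    refine (le_abs_self _).trans (((norm_real _).symm.trans (congrArg norm e)).trans_le ?_)
    have i1 := iP (fun z => ‖Q z.1‖ ^ 2 / 2 * k (z.2 - z.1)) (by fun_prop)
    have i2 := iP (fun z => ‖Q z.2‖ ^ 2 / 2 * k (z.1 - z.2)) (by fun_prop)
    refine (norm_integral_le_of_norm_le (i1.add i2) ?_).trans ?_
    · rw [hμ, Measure.prod_restrict]
      filter_upwards [ae_restrict_mem (hE.prod hE)] with z hz
      have := bk _ hz.1 _ hz.2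
      rw [Pi.add_apply, show k (z.1 - z.2) = k (z.2 - z.1) by simp only [k]; ring_nf, ← add_mul,
        norm_mul, norm_mul, norm_conj]
      exact mul_le_mul (by nlinarith [sq_nonneg (‖Q z.1‖ - ‖Q z.2‖)]) this (norm_nonneg _)
        (by positivity)
    · have half : ∫ x, ∫ u, ‖Q x‖ ^ 2 / 2 * k (u - x) ∂μ ∂μ ≤ K / 2 * J := by
        rw [hJ, ← integral_const_mul]
        refine integral_mono i1.integral_prod_left (iE _ (by fun_prop)) fun x => ?_
        dsimp only
        rw [integral_const_mul]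
        exact (mul_le_mul_of_nonneg_left (bK x) (by positivity)).trans (le_of_eq (by ring))
      rw [integral_add' i1 i2, integral_prod _ i1, integral_prod_symm _ i2]
      linarith
  set s := ∑ p ∈ P, (1 / p : ℝ) with hs
  have s0 : 0 ≤ s := Finset.sum_nonneg fun _ _ => by positivity
  have b2 : J ≤ ∑ p ∈ P, ‖a p‖ * ‖φ p‖ := by
    have e : (J : ℂ) = ∑ p ∈ P, conj (a p) * φ p := by
      simp only [φ, ← integral_const_mul]
      rw [← integral_finsetSum _ fun n _ => iE _ (by fun_prop), hJ, ← integral_complex_ofReal]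
      refine integral_congr_ae (ae_of_all _ fun t => ?_)
      dsimp only
      rw [← normSq_eq_norm_sq, ← mul_conj]
      nth_rewrite 2 [hQ]
      simp only [pp, map_sum, map_mul, conj_ee, Finset.mul_sum]
      exact Finset.sum_congr rfl fun _ _ => by ring
    refine (le_abs_self _).trans (((norm_real _).symm.trans (congrArg norm e)).trans_le
      (norm_sum_le_of_le _ fun p _ => by rw [norm_mul, norm_conj]))
  have b3 := Finset.sum_sq_le_sum_mul_sum_of_sq_le_mul P (r := fun p => ‖a p‖ * ‖φ p‖)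
    (f := fun p => 3 / (y * Real.exp y) * (1 / p)) (g := fun p => Wt y p * ‖φ p‖ ^ 2)
    (fun _ _ => by positivity) (fun _ _ => mul_nonneg (Wt_nonneg _ _) (sq_nonneg _)) fun p hp => by
      obtain ⟨p1, p2, p3⟩ := hP p hp
      have p0 : (0 : ℝ) < p := Nat.cast_pos.2 p1.pos
      have u1 := (Real.le_log_iff_exp_le p0).1 p2
      have u2 : y / 3 ≤ Wt y p := by
        rw [Wt, ArithmeticFunction.vonMangoldt_apply_prime p1, div_eq_mul_one_div]
        refine mul_le_mul p2 (le_trans (by norm_num) (Real.exp_neg_one_gt_d9.le.trans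
          (Real.exp_le_exp.2 (by nlinarith)))) (by norm_num) (by linarith)
      rw [mul_pow, ← mul_assoc]
      refine mul_le_mul_of_nonneg_right ((pow_le_pow_left₀ (norm_nonneg _) (ha p) 2).trans
        (le_trans ?_ (mul_le_mul_of_nonneg_left u2 (by positivity)))) (sq_nonneg _)
      rw [show 3 / (y * Real.exp y) * (1 / p) * (y / 3) = 1 / p * (1 / Real.exp y) by field_simp, sq]
      gcongr
  rw [← Finset.mul_sum, ← hs] at b3
  have b4 := (pow_le_pow_left₀ J0 b2 2).trans (b3.trans (mul_le_mul_of_nonneg_left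
    ((Finset.sum_le_sum_of_subset_of_nonneg N2 fun _ _ _ =>
      mul_nonneg (Wt_nonneg _ _) (sq_nonneg _)).trans b1) (by positivity)))
  rw [← mul_assoc, show 3 / (y * Real.exp y) * s * K = 3 * (5 * C + 1) * s / y by
    rw [hK]; field_simp, sq] at b4
  have b5 : J ≤ 3 * (5 * C + 1) * s / y := by
    rcases J0.eq_or_lt with e | e
    · rw [← e]; positivity
    · exact le_of_mul_le_mul_right b4 e
  have e : ∀ t, E.indicator (fun t => ‖Q t‖ ^ 2) t * gw T t =
      E.indicator (fun t => ‖Q t‖ ^ 2 * gw T t) t := fun t => (Set.indicator_mul_left _ _ _).symm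
  have i := iE (fun t => ‖Q t‖ ^ 2 * gw T t) (by unfold gw; fun_prop)
  refine ⟨_, ?_, fun _ => le_rfl, ?_⟩ <;> simp only [e]
  · exact (integrable_indicator_iff hE).2 i
  · rw [integral_indicator hE]
    exact (integral_mono i (iE _ (by fun_prop)) fun t => mul_le_of_le_one_right (by positivity)
      (Real.exp_le_one_iff.2 (neg_nonpos.2 (by positivity)))).trans b5

end

end Pool.Agent.MP_f0209c_nt.Ch
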