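import Pool.Agent.MP_f0209c_nt.Ch.Ker

/-! Size and shape of the averaged kernel; logarithmic averaging. -/

namespace Pool.Agent.MP_f0209c_nt.Ch
open Complex Set Metric Filter Topology ComplexConjugate MeasureTheory intervalIntegral

/-- Fourier transform of the polynomial weight -/
noncomputable def FT (ξ : ℝ) : ℂ := ∫ y in (11 / 8 : ℝ)..(13 / 8), (pw y : ℝ) * exp (I * ξ * y)

lemma cont_FT : Continuous FT := by
  have := cont_pw
  unfold FT; fun_prop

lemma norm_FT (ξ : ℝ) : ‖FT ξ‖ ≤ 1 :=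
  (norm_integral_le_of_norm_le_const (C := 1) fun y hy => by
    rw [norm_mul, norm_eI, mul_one]; exact pw_le hy).trans (by norm_num [abs_of_pos])

lemma FT_zero : ∃ c : ℝ, 0 < c ∧ FT 0 = c := by
  refine ⟨∫ y in (11 / 8 : ℝ)..(13 / 8), pw y, intervalIntegral_pos_of_pos_on
    (cont_pw.intervalIntegrable _ _) (fun y hy => pow_pos ?_ 2 |>.trans_eq (neg_sq _))
    (by norm_num), by simp [FT, intervalIntegral.integral_ofReal]⟩
  nlinarith [hy.1, hy.2]

section
variable {T h τ : ℝ} (T1 : 8 ≤ T) (h0 : 0 ≤ h) (h2 : 24 * h ≤ 1) (t1 : |τ| ≤ T / 8)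
include T1 t1

lemma wnd {y : ℝ} (hy : y ∈ uIcc (11 / 8 : ℝ) (13 / 8)) : T ≤ T * y + τ ∧ T * y + τ ≤ 2 * T := by
  rw [uIcc_of_le (by norm_num)] at hy
  have := abs_le.1 t1
  constructor <;> nlinarith [hy.1, hy.2]

lemma jj_eq {x : ℝ} (c : |x| < 1 / 2) : jj T h τ x = ∫ y in (11 / 8 : ℝ)..(13 / 8), (pw y : ℝ) *
    (exp (x * (1 / 2 + (T * y + τ : ℝ) * I)) * GG h (1 / 2 + (T * y + τ : ℝ) * I)) :=
  integral_congr fun y hy => by
    simp only [Qi, if_pos c]
    rw [max_eq_left (by linarith [(wnd T1 t1 hy).1])]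

include h0 h2

lemma jj_near {x x' η : ℝ} (c : |x| < 1 / 2) (hη : |x| * (1 + |τ|) + 2 * T * |x - x'| ≤ η)
    (η1 : η ≤ 1) : ‖jj T h τ x - exp (I * h * Real.log T / 2) * FT (T * x')‖ ≤ 4 * η + 24 * h := by
  have := cont_pw
  have := cont_Qi h0 x
  have η0 : 0 ≤ η := le_trans (by positivity) hη
  rw [jj, FT, ← intervalIntegral.integral_const_mul, ← integral_sub
    (Continuous.intervalIntegrable (by fun_prop) _ _)
    (Continuous.intervalIntegrable (by fun_prop) _ _)]
  refine (intervalIntegral.norm_integral_le_of_norm_le_const (C := 4 * η + 24 * h) fun y hy => ?_).trans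
    (mul_le_of_le_one_right (by positivity) (by norm_num [abs_of_pos]))
  obtain ⟨w1, w2⟩ := wnd T1 t1 (uIoc_subset_uIcc hy)
  have g1 := gamma_ratio (T := T) (s := 1 / 2 + (T * y + τ : ℝ) * I) (by linarith) h0 h2
    (by simpa using w1) (by simpa using w2) (by simp; linarith)
  simp only [Qi, if_pos c]
  rw [max_eq_left (by linarith)]
  set α := GG h (1 / 2 + (T * y + τ : ℝ) * I) * exp (-(I * h * Real.log T / 2)) with hα
  have e2 : GG h (1 / 2 + (T * y + τ : ℝ) * I) = exp (I * h * Real.log T / 2) * α := by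
    rw [hα, mul_left_comm, ← exp_add]; simp
  have e4 : ‖α‖ ≤ 2 := by
    have := norm_le_norm_sub_add α 1
    rw [norm_one] at this; linarith
  set z : ℂ := (x / 2 : ℝ) + (x * τ + T * y * (x - x') : ℝ) * I with hz
  have z1 : ‖z‖ ≤ η := by
    rw [uIoc_of_le (by norm_num)] at hy
    refine (norm_add_le _ _).trans ?_
    rw [norm_mul, norm_I, mul_one, norm_real, norm_real, Real.norm_eq_abs, Real.norm_eq_abs,
      abs_div, abs_two]
    have a := abs_add_le (x * τ) (T * y * (x - x'))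
    rw [abs_mul, abs_mul, abs_of_nonneg (by nlinarith [hy.1] : 0 ≤ T * y)] at a
    nlinarith [mul_le_mul_of_nonneg_right (show T * y ≤ 2 * T by nlinarith [hy.2])
      (abs_nonneg (x - x')), abs_nonneg x]
  have e1 : exp (x * (1 / 2 + (T * y + τ : ℝ) * I)) = exp (I * (T * x' : ℝ) * y) * exp z := by
    rw [← exp_add, hz]; push_cast; ring_nf
  rw [e1, e2, show ∀ p a b c d : ℂ, p * (a * b * (c * d)) - c * (p * a) =
    p * (a * (c * (d * (b - 1) + (d - 1)))) from fun _ _ _ _ _ => by ring, norm_mul, norm_mul,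
    norm_mul, norm_eI, one_mul, norm_exp]
  simp only [div_ofNat_re, mul_re, I_re, ofReal_re, zero_mul, I_im, ofReal_im, mul_zero, sub_self,
    mul_im, zero_add, zero_div, Real.exp_zero, one_mul]
  refine (mul_le_of_le_one_left (norm_nonneg _) (pw_le hy)).trans ((norm_add_le_of_le
    (norm_mul_le_of_le e4 (norm_exp_sub_one_le (z1.trans η1))) g1).trans (by linarith))

lemma norm_jj (x : ℝ) : ‖jj T h τ x‖ ≤ 1 := by
  by_cases c : |x| < 1 / 2
  · rw [jj_eq T1 t1 c]
    refine (intervalIntegral.norm_integral_le_of_norm_le_const (C := 1 * (2 * 2)) fun y hy => ?_).trans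
      (by norm_num [abs_of_pos])
    obtain ⟨w1, w2⟩ := wnd T1 t1 (uIoc_subset_uIcc hy)
    refine norm_mul_le_of_le (pw_le hy) (norm_mul_le_of_le ?_ (norm_GG_le (T := T) (by linarith) h0
      h2 (by simpa using w1) (by simpa using w2) (by simp; linarith)))
    rw [norm_exp, ← Real.le_log_iff_exp_le two_pos]
    simp
    linarith [Real.log_two_gt_d9, abs_lt.1 c]
  · simp [jj, Qi, -one_div, c]

lemma jj_decay {x : ℝ} (x0 : x ≠ 0) : ‖jj T h τ x‖ ≤ 10 / (T * x) ^ 2 := by
  by_cases c : |x| < 1 / 2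
  swap
  · simp only [jj, Qi, if_neg c, mul_zero, intervalIntegral.integral_zero, norm_zero]; positivity
  set f : ℂ → ℂ := fun s => ((s - (11 / 8 : ℝ) * I) * (s - (13 / 8 : ℝ) * I)) ^ 2 *
    (exp (x * (1 / 2 + T * s + τ * I)) * GG h (1 / 2 + T * s + τ * I)) with hf
  obtain ⟨a, a1, a2⟩ : ∃ a : ℝ, a ^ 2 = 1 / 4 ∧ ∀ σ ∈ uIcc a 0, |σ| ≤ 1 / 2 ∧ x * σ ≤ 0 := by
    rcases le_total 0 x with d | d
    · refine ⟨-(1 / 2), by norm_num, fun σ hσ => ?_⟩
      rw [uIcc_of_le (by norm_num)] at hσ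
      exact ⟨abs_le.2 ⟨hσ.1, by linarith [hσ.2]⟩, mul_nonpos_of_nonneg_of_nonpos d hσ.2⟩
    · refine ⟨1 / 2, by norm_num, fun σ hσ => ?_⟩
      rw [uIcc_of_ge (by norm_num)] at hσ
      exact ⟨abs_le.2 ⟨by linarith [hσ.1], hσ.2⟩, mul_nonpos_of_nonpos_of_nonneg d hσ.1⟩
  have p : ∀ σ ∈ uIcc a 0, ∀ y ∈ uIcc (11 / 8 : ℝ) (13 / 8),
      (σ ^ 2 + (y - 11 / 8) ^ 2) * (σ ^ 2 + (y - 13 / 8) ^ 2) ≤ σ ^ 2 →
      ‖f (σ + y * I)‖ ≤ 8 / (T * x) ^ 2 := fun σ hσ y hy hp => by
    obtain ⟨w1, w2⟩ := wnd T1 t1 hy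
    obtain ⟨s1, s2⟩ := a2 σ hσ
    have s3 := abs_le.1 s1
    have g := norm_GG_le (T := T) (s := 1 / 2 + T * (σ + y * I) + τ * I) (by linarith) h0 h2
      (by simpa using w1) (by simpa using w2) (by simp; rw [abs_le]; constructor <;> nlinarith)
    have n1 : ∀ d : ℝ, ‖σ + y * I - d * I‖ ^ 2 = σ ^ 2 + (y - d) ^ 2 := fun d => by
      rw [Complex.sq_norm, normSq_apply]; simp; ring
    have n2 : ‖exp (x * (1 / 2 + T * (σ + y * I) + τ * I))‖ =
        Real.exp (x / 2) * Real.exp (T * (x * σ)) := by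
      rw [norm_exp, ← Real.exp_add]; simp; ring
    have n3 : Real.exp (x / 2) ≤ 2 := by
      rw [← Real.le_log_iff_exp_le two_pos]; linarith [Real.log_two_gt_d9, abs_lt.1 c]
    have n4 : (T * x) ^ 2 * (σ ^ 2 * Real.exp (T * (x * σ))) ≤ 2 := by
      have q := Real.pow_div_factorial_le_exp (-(T * (x * σ))) (by nlinarith) 2
      rw [Real.exp_neg, ← one_div, le_div_iff₀ (Real.exp_pos _)] at q
      norm_num [Nat.factorial] at q
      linarith
    simp only [hf]
    rw [norm_mul, norm_pow, norm_mul, mul_pow, n1, n1, norm_mul, n2, le_div_iff₀' (by positivity)]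
    calc _ ≤ (T * x) ^ 2 * (σ ^ 2 * (2 * Real.exp (T * (x * σ)) * 2)) := by gcongr
      _ ≤ _ := by linarith
  have key := rect_bound (f := f) (a := 0) (a' := a) (A := 11 / 8) (B := 13 / 8) (by norm_num)
    (fun s hs => (DifferentiableAt.mul (by fun_prop) (DifferentiableAt.mul (by fun_prop)
      (DifferentiableAt.comp (g := GG h) s (diff_GG h0 (by
        have := (wnd T1 t1 hs.2).1
        simp; linarith)) (by fun_prop)))).differentiableWithinAt)
    (fun y hy => p a left_mem_uIcc y (Icc_subset_uIcc hy) (by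
      rw [a1]
      exact (mul_le_mul (show _ ≤ (1 / 2 : ℝ) by nlinarith [hy.1, hy.2])
        (show _ ≤ (1 / 2 : ℝ) by nlinarith [hy.1, hy.2]) (by positivity) (by norm_num)).trans_eq
        (by norm_num)))
    (fun σ hσ => p σ hσ _ left_mem_uIcc (by
      nlinarith [mul_nonneg (sq_nonneg σ) (show 0 ≤ 1 / 2 - σ ^ 2 by nlinarith [abs_le.1 (a2 σ hσ).1])]))
    (fun σ hσ => p σ hσ _ right_mem_uIcc (by
      nlinarith [mul_nonneg (sq_nonneg σ) (show 0 ≤ 1 / 2 - σ ^ 2 by nlinarith [abs_le.1 (a2 σ hσ).1])]))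
  rw [jj_eq T1 t1 c, integral_congr (g := fun y : ℝ => f ((0 : ℝ) + y * I)) fun y _ => by
    have e : (1 / 2 + T * ((0 : ℝ) + y * I) + τ * I : ℂ) = 1 / 2 + (T * y + τ : ℝ) * I := by
      push_cast; ring
    simp only [hf, e, pw]
    congr 1
    push_cast
    linear_combination (-((y - 11 / 8) * (y - 13 / 8)) ^ 2 * (I * I - 1) : ℂ) * I_mul_I]
  refine key.trans ?_
  have := mul_le_mul_of_nonneg_left (a2 a left_mem_uIcc).1 (show 0 ≤ 8 / (T * x) ^ 2 by positivity)
  rw [zero_sub, abs_neg, show 10 / (T * x) ^ 2 = 5 / 4 * (8 / (T * x) ^ 2) by ring]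
  linarith

end

lemma no_bias {θ : ℕ → ℝ → ℝ} (hc : ∀ n, Continuous (θ n)) {B P : ℝ} (hB : ∀ n u, |θ n u| ≤ B)
    (P0 : 0 ≤ P) (h0 : Ex (fun n => ∫ u in -P..0, θ n u) = 0) :
    ¬ ∀ᶠ u in atTop, 1 ≤ ∑ n ∈ Finset.Icc 1 ⌊Real.exp (u + P)⌋₊,
      if u ≤ Real.log n then θ n (u - Real.log n) / n else 0 := fun hu => by
  obtain ⟨u₀, hu⟩ := eventually_atTop.1 hu
  have B0 : 0 ≤ B := (abs_nonneg _).trans (hB 0 0)
  set G : ℕ → ℝ := fun n => ∫ u in -P..0, θ n u with hG
  have G1 : ∀ n, |G n| ≤ B * P := fun n => (intervalIntegral.norm_integral_le_of_norm_le_const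
    (f := θ n) (a := -P) (b := 0) fun u _ => hB n u).trans_eq (by rw [zero_sub, neg_neg, abs_of_nonneg P0])
  set χ : ℕ → ℝ → ℝ := fun n => (Icc (Real.log n - P) (Real.log n)).indicator
    fun u => θ n (u - Real.log n) with hχ
  have c1 : ∀ n, Integrable (χ n) := fun n =>
    (integrable_indicator_iff measurableSet_Icc).2 (Continuous.integrableOn_Icc (by fun_prop))
  have c2 : ∀ (n : ℕ) (s : Set ℝ), Icc (Real.log n - P) (Real.log n) ⊆ s →
      ∫ u in s, χ n u = G n := fun n s hs => by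
    rw [hχ, setIntegral_indicator measurableSet_Icc, inter_eq_right.2 hs,
      integral_Icc_eq_integral_Ioc, ← integral_of_le (by linarith), integral_comp_sub_right (θ n)]
    simp [hG]
  have c3 : ∀ (n : ℕ) (s : Set ℝ), |∫ u in s, χ n u| ≤ B * P := fun n s => by
    rw [hχ, setIntegral_indicator measurableSet_Icc]
    refine (norm_setIntegral_le_of_norm_le_const (f := fun u => θ n (u - Real.log n))
      ((measure_mono inter_subset_right).trans_lt measure_Icc_lt_top) fun u _ => hB _ _).trans (mul_le_mul_of_nonneg_left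
      ((measureReal_mono inter_subset_right measure_Icc_lt_top.ne).trans_eq ?_) B0)
    rw [Real.volume_real_Icc_of_le (by linarith)]; ring
  have key := Ex_le_of (f := fun _ => 1) (g := G) (Bdd.const _) ⟨_, G1⟩ (a := 1)
    (1 + P + u₀ + 2 * (B * P) * (Real.exp (u₀ + P) + Real.exp P)) (by
      filter_upwards [log_top.eventually_ge_atTop (u₀ + P), eventually_gt_atTop 0] with X hX X0
      have X1 : (0 : ℝ) < X := Nat.cast_pos.2 X0
      have a1 := setIntegral_mono_on (μ := volume) (s := Icc u₀ (Real.log X - P)) (f := fun _ => 1)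
        (g := fun u => ∑ n ∈ Finset.Icc 1 X, χ n u / n) (by simp)
        (integrable_finsetSum _ fun n _ => (c1 n).div_const _).integrableOn measurableSet_Icc
        fun u hu' => (hu u hu'.1).trans_eq ((Finset.sum_congr rfl fun n hn => ?_).trans
          (Finset.sum_subset (Finset.Icc_subset_Icc_right (Nat.floor_le_of_le
          ((Real.le_log_iff_exp_le X1).1 (by linarith [hu'.2])))) fun n a b => ?_))
      · rw [integral_finsetSum _ fun n _ => ((c1 n).div_const _).integrableOn, setIntegral_const,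
          Real.volume_real_Icc_of_le (by linarith), smul_eq_mul, mul_one] at a1
        have a2 : ∑ n ∈ Finset.Icc 1 X, ∫ u in Icc u₀ (Real.log X - P), χ n u / n ≤
            ∑ n ∈ Finset.Icc 1 X, (G n / n + 2 * (B * P) * ((if n ≤ ⌊Real.exp (u₀ + P)⌋₊ then 1
              else 0) + Real.exp P / X)) := Finset.sum_le_sum fun n hn => by
          have n1 : (1 : ℝ) ≤ n := Nat.one_le_cast.2 (Finset.mem_Icc.1 hn).1
          have b := abs_le.1 (c3 n (Icc u₀ (Real.log X - P)))
          have b' := abs_le.1 (G1 n)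
          rw [MeasureTheory.integral_div, ← sub_le_iff_le_add', ← sub_div]
          by_cases d : Icc (Real.log n - P) (Real.log n) ⊆ Icc u₀ (Real.log X - P)
          · rw [c2 n _ d, sub_self, zero_div]; positivity
          refine (div_le_div_of_nonneg_right (show _ ≤ 2 * (B * P) by linarith) n.cast_nonneg).trans ?_
          rw [div_eq_mul_one_div]
          refine mul_le_mul_of_nonneg_left ?_ (by positivity)
          split_ifs with e
          · exact le_add_of_le_of_nonneg (div_le_one_of_le₀ n1 n.cast_nonneg) (by positivity)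
          · rw [Nat.le_floor_iff (Real.exp_pos _).le, not_le, ← Real.lt_log_iff_exp_lt (by linarith)]
              at e
            rw [Icc_subset_Icc_iff (by linarith), not_and, not_le] at d
            have := d (by linarith)
            rw [sub_lt_iff_lt_add, Real.log_lt_iff_lt_exp X1, Real.exp_add,
              Real.exp_log (by linarith)] at this
            rw [zero_add, div_le_div_iff₀ (by linarith) X1]
            linarith
        have a3 : ∑ n ∈ Finset.Icc 1 X, (if n ≤ ⌊Real.exp (u₀ + P)⌋₊ then (1 : ℝ) else 0) ≤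
            Real.exp (u₀ + P) := by
          rw [Finset.sum_boole]
          refine le_trans (Nat.cast_le.2 ((Finset.card_le_card (t := Finset.Icc 1 _) fun n hn =>
            Finset.mem_Icc.2 ⟨(Finset.mem_Icc.1 (Finset.mem_filter.1 hn).1).1,
            (Finset.mem_filter.1 hn).2⟩).trans_eq (by simp))) (Nat.floor_le (Real.exp_pos _).le)
        rw [Finset.sum_add_distrib, ← Finset.mul_sum, Finset.sum_add_distrib, Finset.sum_const,
          Nat.card_Icc, add_tsub_cancel_right, nsmul_eq_mul, mul_div_cancel₀ _ X1.ne'] at a2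
        have a4 := mul_le_mul_of_nonneg_left a3 (show 0 ≤ 2 * (B * P) by positivity)
        have a5 := harm_le X
        unfold ls
        linarith
      · obtain ⟨n1, n2⟩ := Finset.mem_Icc.1 hn
        rw [Nat.le_floor_iff (Real.exp_pos _).le,
          ← Real.log_le_iff_le_exp (Nat.cast_pos.2 n1)] at n2
        split_ifs with e
        · rw [hχ]; simp only []; rw [indicator_of_mem (show u ∈ Icc _ _ from ⟨by linarith, e⟩)]
        · rw [hχ]; simp only []; rw [indicator_of_notMem fun z => e z.2, zero_div]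
      · have n1 := (Finset.mem_Icc.1 a).1
        rw [Finset.mem_Icc, not_and, Nat.le_floor_iff (Real.exp_pos _).le,
          ← Real.log_le_iff_le_exp (Nat.cast_pos.2 n1)] at b
        rw [hχ]; simp only []
        rw [indicator_of_notMem fun z => b n1 (by linarith [z.1]), zero_div])
  rw [Ex_const, h0] at key
  linarith

end Pool.Agent.MP_f0209c_nt.Ch
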