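import Pool.Agent.MP_f0209c_nt.Ch.Cont

/-! The kernel of the averaged contour integral. -/

namespace Pool.Agent.MP_f0209c_nt.Ch
open Complex Set Metric Filter Topology ComplexConjugate MeasureTheory intervalIntegral

/-- Gaussian weight with centre at height `v` -/
noncomputable def Wv (v H : ℝ) (s : ℂ) : ℂ := exp ((s - (1 / 2 + v * I)) ^ 2 / H ^ 2)

lemma norm_Wv (v H σ t : ℝ) :
    ‖Wv v H (σ + t * I)‖ = Real.exp (((σ - 1 / 2) ^ 2 - (t - v) ^ 2) / H ^ 2) := by
  rw [Wv, norm_exp, ← ofReal_pow, div_ofReal_re]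
  simp [sq]

lemma Wv_sym (v H : ℝ) (s : ℂ) : Wv v H (1 - conj s) = conj (Wv v H s) := by
  rw [Wv, Wv, ← exp_conj]
  simp only [map_div₀, map_pow, map_sub, map_add, map_mul, conj_ofReal, conj_I, map_one, map_ofNat]
  ring_nf

lemma Wv_line (v H t : ℝ) : Wv v H (1 / 2 + t * I) = (Real.exp (-(t - v) ^ 2 / H ^ 2) : ℝ) := by
  rw [Wv, ofReal_exp]
  congr 1
  push_cast
  linear_combination ((t - v) ^ 2 / H ^ 2 : ℂ) * I_mul_I

/-- the oscillating factor on the critical line -/
noncomputable def Qi (h x t : ℝ) : ℂ :=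
  if |x| < 1 / 2 then exp (x * (1 / 2 + t * I)) * GG h (1 / 2 + (max t 1 : ℝ) * I) else 0

lemma cont_Qi {h : ℝ} (h0 : 0 ≤ h) (x : ℝ) : Continuous (Qi h x) := by
  unfold Qi
  split_ifs
  · refine Continuous.mul (by fun_prop) (continuous_iff_continuousAt.2 fun t => ?_)
    exact ContinuousAt.comp (f := fun t : ℝ => (1 / 2 + (max t 1 : ℝ) * I : ℂ))
      (diff_GG h0 (by simp)).continuousAt (by fun_prop)
  · fun_prop

section
variable {T L h A B v : ℝ} (L1 : 200 ≤ L) (T1 : 10 * L ^ 5 ≤ T) (h0 : 0 ≤ h) (h2 : 24 * h ≤ 1)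
include L1 T1 h0 h2

lemma pt (x v : ℝ) {σ t : ℝ} (s1 : |σ - 4| ≤ L ^ 2) (t1 : T ≤ t) (t2 : t ≤ 2 * T) {E d : ℝ}
    (hE : x * σ ≤ E) (hd : d * T ^ 2 ≤ (t - v) ^ 2) :
    ‖exp (x * (σ + t * I)) * (GG h (σ + t * I) * Wv v (T / L ^ 2) (σ + t * I))‖ ≤
      6 * Real.exp (E - d * L ^ 4) := by
  obtain ⟨T3, T2⟩ := big L1 T1
  have b := abs_le.1 s1
  have l2 : 4 ≤ L ^ 2 := by nlinarith
  have g := norm_GG_le (T := T) (s := σ + t * I) (by linarith) h0 h2 (by simpa using t1)
    (by simpa using t2) (by simp; rw [abs_le]; constructor <;> linarith)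
  have w1 : (σ - 1 / 2) ^ 2 / (T / L ^ 2) ^ 2 ≤ 1 := by
    have : 2 * L ^ 2 ≤ T / L ^ 2 := by
      rw [le_div_iff₀ (by positivity)]
      nlinarith [pow_le_pow_right₀ (by linarith : 1 ≤ L) (by norm_num : 4 ≤ 5)]
    exact div_le_one_of_le₀ (sq_le_sq' (by linarith) (by linarith)) (by positivity)
  have w2 := div_H L1 T1 (x := -(t - v) ^ 2) (c := -d) (by linarith)
  rw [norm_mul, norm_mul, norm_exp, norm_Wv, sub_eq_add_neg (_ ^ 2), add_div]
  simp only [mul_re, ofReal_re, add_re, I_re, mul_zero, ofReal_im, I_im, mul_one, sub_self,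
    add_zero, add_im, mul_im, zero_add, zero_mul, sub_zero]
  calc _ ≤ Real.exp E * (2 * Real.exp (1 + -d * L ^ 4)) := by gcongr
    _ = 2 * Real.exp 1 * Real.exp (E - d * L ^ 4) := by
      rw [Real.exp_add, Real.exp_sub, neg_mul, Real.exp_neg]; ring
    _ ≤ _ := by gcongr; linarith [Real.exp_one_lt_d9]

variable (A1 : T ≤ A) (A2 : A + T / 5 ≤ v) (B1 : v + T / 5 ≤ B) (B2 : B ≤ 2 * T)
include A1 A2 B1 B2

lemma trunc (x : ℝ) {a : ℝ} (a1 : |a - 4| ≤ L ^ 2) (a2 : ∀ σ ∈ uIcc a 4, x * σ ≤ 4 * x + 2) :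
    ‖(∫ t in A..B, exp (x * (4 + t * I)) * (GG h (4 + t * I) * Wv v (T / L ^ 2) (4 + t * I))) -
      ∫ t in (v - T / L)..(v + T / L), exp (x * (a + t * I)) *
        (GG h (a + t * I) * Wv v (T / L ^ 2) (a + t * I))‖ ≤
      Real.exp (4 * x) * (40 * T * Real.exp (-L ^ 2)) := by
  obtain ⟨T3, T2⟩ := big L1 T1
  have L0 : 0 < L := by linarith
  have D1 : T / L ≤ T / 5 := div_le_div_of_nonneg_left (by linarith) (by norm_num) (by linarith)
  have D0 : 0 < T / L := by positivity
  set f : ℂ → ℂ := fun s => exp (x * s) * (GG h s * Wv v (T / L ^ 2) s) with hf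
  have df : ∀ s : ℂ, 0 < s.im → DifferentiableAt ℂ f s := fun s hs => by
    refine DifferentiableAt.mul (by fun_prop) ((diff_GG h0 hs).mul ?_)
    unfold Wv; fun_prop
  have p : ∀ σ ∈ uIcc a 4, ∀ t : ℝ, T ≤ t → t ≤ 2 * T → T / L ≤ |t - v| → ∀ E, x * σ ≤ E →
      ‖f (σ + t * I)‖ ≤ 6 * Real.exp (E - L ^ 2) := fun σ hσ t t1 t2 t3 E hE => by
    refine (pt L1 T1 h0 h2 x v ((abs_sub_right_of_mem_uIcc hσ |>.trans_eq' (abs_sub_comm _ _)).trans
      ((abs_sub_comm _ _).trans_le a1)) t1 t2 hE (d := 1 / L ^ 2) ?_).trans_eq (by field_simp)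
    rw [← sq_abs (t - v), one_div_mul_eq_div, ← div_pow]
    exact pow_le_pow_left₀ D0.le t3 2
  have ii : ∀ c d : ℝ, T ≤ c → T ≤ d → IntervalIntegrable (fun t : ℝ => f (4 + t * I)) volume c d :=
    fun c d c1 d1 => ContinuousOn.intervalIntegrable fun t ht =>
      (ContinuousAt.comp (f := fun t : ℝ => (4 : ℂ) + t * I) (df _ (by
        have := (le_inf c1 d1).trans ht.1
        simp; linarith)).continuousAt (by fun_prop)).continuousWithinAt
  have e1 : ‖∫ t in A..(v - T / L), f (4 + t * I)‖ ≤ 6 * Real.exp (4 * x - L ^ 2) * T :=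
    (norm_integral_le_of_norm_le_const fun t ht => by
      rw [uIoc_of_le (by linarith)] at ht
      exact p 4 right_mem_uIcc t (by linarith [ht.1]) (by linarith [ht.2])
        (le_abs.2 (Or.inr (by linarith [ht.2]))) _ (by linarith)).trans
      (mul_le_mul_of_nonneg_left (abs_le.2 ⟨by linarith, by linarith⟩) (by positivity))
  have e2 : ‖∫ t in (v + T / L)..B, f (4 + t * I)‖ ≤ 6 * Real.exp (4 * x - L ^ 2) * T :=
    (norm_integral_le_of_norm_le_const fun t ht => by
      rw [uIoc_of_le (by linarith)] at ht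
      exact p 4 right_mem_uIcc t (by linarith [ht.1]) (by linarith [ht.2])
        (le_abs.2 (Or.inl (by linarith [ht.1]))) _ (by linarith)).trans
      (mul_le_mul_of_nonneg_left (abs_le.2 ⟨by linarith, by linarith⟩) (by positivity))
  have e3 := rect_diff (f := f) (a := 4) (a' := a) (A := v - T / L) (B := v + T / L)
    (fun s hs => (df s (by
      have := hs.2
      rw [uIcc_of_le (by linarith)] at this
      exact lt_of_lt_of_le (by linarith) this.1)).differentiableWithinAt)
    (fun σ hσ => p σ hσ _ (by linarith) (by linarith) (le_abs.2 (Or.inr (by linarith))) _ (a2 σ hσ))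
    (fun σ hσ => p σ hσ _ (by linarith) (by linarith) (le_abs.2 (Or.inl (by linarith))) _ (a2 σ hσ))
  rw [ofReal_ofNat, abs_sub_comm, add_sub_right_comm, Real.exp_add] at e3
  have e4 : Real.exp 2 * |a - 4| ≤ 9 * (T / 4) := mul_le_mul (by
    rw [← one_add_one_eq_two, Real.exp_add]
    nlinarith [Real.exp_one_lt_d9, Real.exp_pos 1]) (by linarith) (abs_nonneg _) (by norm_num)
  change ‖(∫ t in A..B, f (4 + t * I)) - ∫ t in (v - T / L)..(v + T / L), f (a + t * I)‖ ≤ _
  rw [← integral_add_adjacent_intervals (ii A (v - T / L) A1 (by linarith))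
    (ii _ B (by linarith) (by linarith)), ← integral_add_adjacent_intervals
    (ii (v - T / L) (v + T / L) (by linarith) (by linarith)) (ii _ B (by linarith) (by linarith)),
    add_sub_assoc, add_sub_right_comm]
  refine (norm_add_le_of_le e1 (norm_add_le_of_le e3 e2)).trans ?_
  rw [mul_left_comm (Real.exp (4 * x)), ← Real.exp_add (4 * x), ← sub_eq_add_neg]
  nlinarith [mul_le_mul_of_nonneg_left e4 (Real.exp_pos (4 * x - L ^ 2)).le,
    mul_pos (Real.exp_pos (4 * x - L ^ 2)) (show 0 < T by linarith)]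

lemma ker (x : ℝ) :
    ‖(∫ t in A..B, exp (x * (4 + t * I)) * (GG h (4 + t * I) * Wv v (T / L ^ 2) (4 + t * I))) -
      ∫ τ in -(T / L)..(T / L), (Real.exp (-τ ^ 2 / (T / L ^ 2) ^ 2) : ℝ) * Qi h x (v + τ)‖ ≤
      Real.exp (4 * x) * (52 * T * Real.exp (-(L ^ 2 / 2))) := by
  obtain ⟨T3, T2⟩ := big L1 T1
  have L0 : 0 < L := by linarith
  have D1 : T / L ≤ T / 5 := div_le_div_of_nonneg_left (by linarith) (by norm_num) (by linarith)
  have D0 : 0 < T / L := by positivity
  have l2 : 4 ≤ L ^ 2 := by nlinarith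
  have e0 : Real.exp (-L ^ 2) ≤ Real.exp (-(L ^ 2 / 2)) := Real.exp_le_exp.2 (by linarith)
  by_cases c : |x| < 1 / 2
  · have := trunc L1 T1 h0 h2 A1 A2 B1 B2 x (a := 1 / 2) (by rw [abs_le]; constructor <;> linarith)
      fun σ hσ => by
        rw [uIcc_of_le (by norm_num)] at hσ
        nlinarith [abs_lt.1 c, hσ.1, hσ.2]
    rw [sub_eq_add_neg v, ← integral_comp_add_left (fun t : ℝ => exp (x * ((1 / 2 : ℝ) + t * I)) *
      (GG h ((1 / 2 : ℝ) + t * I) * Wv v (T / L ^ 2) ((1 / 2 : ℝ) + t * I))) v] at this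
    rw [integral_congr (g := fun τ : ℝ => exp (x * ((1 / 2 : ℝ) + (v + τ : ℝ) * I)) *
      (GG h ((1 / 2 : ℝ) + (v + τ : ℝ) * I) * Wv v (T / L ^ 2) ((1 / 2 : ℝ) + (v + τ : ℝ) * I)))
      (a := -(T / L)) fun τ hτ => by
        rw [uIcc_of_le (by linarith)] at hτ
        have e : ((1 / 2 : ℝ) : ℂ) = 1 / 2 := by push_cast; rfl
        simp only [Qi, if_pos c, e]
        rw [max_eq_left (by linarith [hτ.1]), Wv_line, add_sub_cancel_left]
        ring]
    exact this.trans (by gcongr; norm_num)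
  · simp only [Qi, if_neg c, mul_zero, intervalIntegral.integral_zero, sub_zero]
    obtain ⟨a, a1, a2, a3⟩ : ∃ a, |a - 4| ≤ L ^ 2 ∧ (∀ σ ∈ uIcc a 4, x * σ ≤ 4 * x + 2) ∧
        x * a ≤ 4 * x - L ^ 2 / 2 := by
      rcases le_abs.1 (not_lt.1 c) with d | d
      · refine ⟨4 - L ^ 2, by simp, fun σ hσ => ?_, by nlinarith⟩
        rw [uIcc_of_le (by linarith)] at hσ
        nlinarith [hσ.2]
      · refine ⟨4 + L ^ 2, by simp, fun σ hσ => ?_, by nlinarith⟩
        rw [uIcc_of_ge (by linarith)] at hσ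
        nlinarith [hσ.1]
    have e1 := trunc L1 T1 h0 h2 A1 A2 B1 B2 x a1 a2
    have e2 := norm_integral_le_of_norm_le_const (a := v - T / L) (b := v + T / L) fun t ht =>
      have ht := uIoc_of_le (show v - T / L ≤ v + T / L by linarith) ▸ ht
      pt L1 T1 h0 h2 x v a1 (t := t) (by linarith [ht.1]) (by linarith [ht.2]) a3 (d := 0)
        ((zero_mul _).trans_le (sq_nonneg _))
    refine ((norm_le_norm_sub_add _ _).trans (add_le_add e1 e2)).trans ?_
    rw [zero_mul, sub_zero, sub_eq_add_neg (4 * x), Real.exp_add, abs_of_nonneg (by linarith)]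
    have := mul_pos (Real.exp_pos (4 * x)) (Real.exp_pos (-(L ^ 2 / 2)))
    nlinarith [mul_le_mul_of_nonneg_left e0 (show 0 ≤ Real.exp (4 * x) * T by positivity)]

end

/-- polynomial weight -/
noncomputable def pw (y : ℝ) : ℝ := ((y - 11 / 8) * (y - 13 / 8)) ^ 2

lemma cont_pw : Continuous pw := by unfold pw; fun_prop

lemma pw_le {y : ℝ} (hy : y ∈ uIoc (11 / 8 : ℝ) (13 / 8)) : ‖(pw y : ℂ)‖ ≤ 1 := by
  rw [uIoc_of_le (by norm_num)] at hy
  rw [norm_real, pw, norm_pow, Real.norm_eq_abs, sq_le_one_iff₀ (abs_nonneg _), abs_le]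
  constructor <;> nlinarith [hy.1, hy.2]

/-- the averaged kernel -/
noncomputable def jj (T h τ x : ℝ) : ℂ :=
  ∫ y in (11 / 8 : ℝ)..(13 / 8), (pw y : ℝ) * Qi h x (T * y + τ)

lemma lin {h : ℝ} (h0 : 0 ≤ h) (c d : ℕ → ℂ) (N : ℕ) {w φ : ℝ → ℝ} (hw : Continuous w)
    (hφ : Continuous φ) (a b : ℝ) : ∫ u in a..b, w u * (∑ n ∈ Finset.Icc 1 N, c n *
      ∑ m ∈ Finset.range (n + N + 1), d m * Qi h (Real.log n - Real.log m) (φ u)).im =
      (∑ n ∈ Finset.Icc 1 N, c n * ∑ m ∈ Finset.range (n + N + 1),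
        d m * ∫ u in a..b, (w u : ℝ) * Qi h (Real.log n - Real.log m) (φ u)).im := by
  have q := cont_Qi h0
  have k : ∀ {F : ℝ → ℂ}, Continuous F → IntervalIntegrable F volume a b := fun hF =>
    hF.intervalIntegrable _ _
  have e := imCLM.intervalIntegral_comp_comm (f := fun u => (w u : ℝ) * ∑ n ∈ Finset.Icc 1 N, c n *
    ∑ m ∈ Finset.range (n + N + 1), d m * Qi h (Real.log n - Real.log m) (φ u)) (k (by fun_prop))
  simp only [imCLM_apply, im_ofReal_mul] at e
  rw [e]
  simp only [Finset.mul_sum, mul_left_comm (w _ : ℂ)]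
  rw [intervalIntegral.integral_finsetSum fun n _ => k (by fun_prop)]
  refine congrArg _ (Finset.sum_congr rfl fun n _ => ?_)
  rw [intervalIntegral.integral_finsetSum fun n _ => k (by fun_prop)]
  simp only [intervalIntegral.integral_const_mul]

theorem lemA : ∀ᶠ T : ℝ in atTop, ∀ (h : ℝ) (r : ℕ → ℂ) (N : ℕ), Gap T h → 3 / Real.log T ≤ h →
    24 * h ≤ 1 → (∀ n, ‖r n‖ ≤ 1) → (N : ℝ) ≤ T ^ 2 → ∃ τ, |τ| ≤ T / Real.log T ∧
      -1 ≤ (∑ n ∈ Finset.Icc 1 N, conj (r n) / n * ∑ m ∈ Finset.range (n + N + 1),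
        bc r N h m * jj T h τ (Real.log n - Real.log m)).im := by
  filter_upwards [zeta_upper', zeta_horiz, Real.tendsto_log_atTop.eventually_ge_atTop 300,
    (Real.isLittleO_pow_log_id_atTop (n := 5)).bound (show (0 : ℝ) < 1 / 10 by norm_num),
    eventually_ge_atTop 200] with T hU hZ L2 T1 T0 h r N hG h1 h2 hr N1
  set L := Real.log T with hL
  have L1 : 200 ≤ L := by linarith
  have L0 : 0 < L := by linarith
  rw [Real.norm_of_nonneg (by positivity), id, Real.norm_of_nonneg (by linarith)] at T1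
  replace T1 : 10 * L ^ 5 ≤ T := by linarith
  have h0 : 0 < h := lt_of_lt_of_le (by positivity) h1
  have eT : Real.exp L = T := Real.exp_log (by linarith)
  obtain ⟨A, A0, hA⟩ := good_height hG h0 (9 / 8 * T)
  obtain ⟨B, B0, hB⟩ := good_height hG h0 (15 / 8 * T)
  rw [abs_le] at A0 B0
  have hAB : A ≤ B := by linarith
  have l4 : 90000 * L ^ 2 ≤ L ^ 4 := by
    nlinarith [sq_nonneg L, pow_le_pow_left₀ (by norm_num) L2 2]
  have x1 : (N : ℝ) ≤ Real.exp (2 * L) := by rw [two_mul, Real.exp_add, eT, ← sq]; exact N1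
  have x4 : (N : ℝ) ^ 4 ≤ Real.exp (8 * L) :=
    (pow_le_pow_left₀ N.cast_nonneg x1 4).trans_eq (by rw [← Real.exp_nat_mul]; ring_nf)
  set H := T / L ^ 2 with hH
  have H1 : 10 ≤ H := by
    rw [hH, le_div_iff₀ (by positivity)]
    nlinarith [pow_le_pow_right₀ (by linarith : 1 ≤ L) (by norm_num : 2 ≤ 5)]
  have D1 : H ≤ T / L := div_le_div_of_nonneg_left (by linarith) L0 (by nlinarith)
  have q := cont_Qi h0.le
  refine (avg (q := fun t => (∑ n ∈ Finset.Icc 1 N, conj (r n) / n *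
      ∑ m ∈ Finset.range (n + N + 1), bc r N h m * Qi h (Real.log n - Real.log m) t).im)
    (g := fun τ => Real.exp (-τ ^ 2 / H ^ 2)) (by fun_prop) cont_pw (by fun_prop)
    (fun _ => sq_nonneg _) (fun _ => (Real.exp_pos _).le) (a := 11 / 8) (b := 13 / 8) (D := T / L)
    (T := T) (E := 8) (by norm_num) (by positivity) (fun y hy => ?_) ?_).imp fun τ t =>
    ⟨t.1, t.2.trans_eq (lin h0.le _ _ N cont_pw (by fun_prop) _ _)⟩
  · rw [lin h0.le _ _ N (φ := fun τ => T * y + τ) (by fun_prop) (by fun_prop)]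
    have v1 : 11 / 8 * T ≤ T * y := by nlinarith [hy.1]
    have v2 : T * y ≤ 13 / 8 * T := by nlinarith [hy.2]
    generalize T * y = v at *
    set P : ℂ → ℂ := fun s => RG r N s * RH r N s * Wv v H s with hP
    have eF : ∀ s : ℂ, 0 < s.im → FG P h s = GG h s * Wv v H s *
        (riemannZeta (s + I * h) * RG r N s / riemannZeta s) * RH r N s := fun s hs => by
      rw [FG, lam_eq (by simp; linarith), lam_eq hs.ne', GG, hP]
      ring
    have hor : ∀ y : ℝ, T + 4 ≤ y → y + 4 ≤ 2 * T → T / 5 ≤ |y - v| →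
        (∀ ρ : ℂ, riemannZeta ρ = 0 → T ≤ ρ.im → ρ.im ≤ 2 * T → h / 2 ≤ |ρ.im - y|) →
        ∀ x ∈ Icc (1 / 2 : ℝ) 4, ‖FG P h (x + y * I)‖ ≤ 1 := fun y y1 y2 y3 y4 x hx => by
      have w := pt L1 T1 h0.le h2 0 v (σ := x) (t := y) (by
        rw [abs_le]; constructor <;> nlinarith [hx.1, hx.2]) (by linarith) (by linarith) (E := 0)
        (d := 1 / 25) (by simp) (by
          rw [← sq_abs (y - v)]; nlinarith [pow_le_pow_left₀ (by positivity) y3 2])
      rw [ofReal_zero, zero_mul, exp_zero, one_mul] at w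
      have z := hU (x + y * I + I * h) (by simp; linarith [hx.1]) (by simp; linarith [hx.2])
        (by simp; linarith) (by simp; linarith)
      have r1 : ‖RG r N (x + y * I)‖ ≤ _ := (norm_poly hr N (by simp; linarith [hx.1])).trans x4
      have r2 : ‖RH r N (x + y * I)‖ ≤ _ := (norm_poly (fun n => (norm_conj _).trans_le (hr n)) N
        (by simp; linarith [hx.2])).trans x4
      have g : (6 : ℝ) ≤ Real.exp 5 := by linarith [Real.add_one_le_exp 5]
      rw [eF _ (by simp; linarith)]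
      refine (norm_mul_le_of_le (norm_mul_le_of_le (w.trans (mul_le_mul_of_nonneg_right g
        (Real.exp_pos _).le)) ((norm_div _ _).trans_le (div_le_div₀ (by positivity)
        (norm_mul_le_of_le z r1) (Real.exp_pos _) (hZ h y x hG h1 y1 y2 y4 hx)))) r2).trans ?_
      simp only [← Real.exp_add, ← Real.exp_sub]
      rw [Real.exp_le_one_iff]
      nlinarith
    have c1 := contour' (P := P) (by unfold P RG RH Wv; fun_prop)
      (fun s => by simp only [hP, RG_sym, RH_sym, Wv_sym, map_mul]; ring)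
      (fun t => ⟨normSq (RG r N (1 / 2 + t * I)) * Real.exp (-(t - v) ^ 2 / H ^ 2),
        mul_nonneg (normSq_nonneg _) (Real.exp_pos _).le, by
          have e := RH_sym r N (1 / 2 + t * I)
          rw [show 1 - conj (1 / 2 + t * I : ℂ) = 1 / 2 + t * I by simp [map_ofNat]; ring] at e
          simp only [hP]
          rw [e, mul_conj, Wv_line, ofReal_mul]⟩) hG (by linarith) h0 (by linarith) hAB
      (by linarith) hA hB (M := 1) fun x hx =>
        ⟨hor A (by linarith) (by linarith) (le_abs.2 (Or.inr (by linarith))) hA x hx,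
         hor B (by linarith) (by linarith) (le_abs.2 (Or.inl (by linarith))) hB x hx⟩
    have pos : ∀ t ∈ uIcc A B, 0 < (4 + t * I : ℂ).im := fun t ht => by
      rw [uIcc_of_le hAB] at ht; simp; linarith [ht.1]
    have ln : Continuous fun t : ℝ => (4 : ℂ) + t * I := by fun_prop
    have c2 := expand' hr (N := N) (h := h) (A := A) (B := B)
      (Ψ := fun t => GG h (4 + t * I) * Wv v H (4 + t * I))
      (Z := fun t => riemannZeta (4 + t * I + I * h) * RG r N (4 + t * I) / riemannZeta (4 + t * I))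
      (by positivity)
      (fun t ht => by
        refine (ContinuousAt.mul (ContinuousAt.comp (f := fun t : ℝ => (4 : ℂ) + t * I)
          (diff_GG h0.le (pos t ht)).continuousAt ln.continuousAt) ?_).continuousWithinAt
        unfold Wv; fun_prop)
      (fun t ht => by
        have := pos t ht
        refine (ContinuousAt.div (ContinuousAt.mul
          (ContinuousAt.comp (f := fun t : ℝ => (4 : ℂ) + t * I + I * h)
            (diff_zeta (by simp at this ⊢; linarith)).continuousAt (by fun_prop)) ?_)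
          (ContinuousAt.comp (f := fun t : ℝ => (4 : ℂ) + t * I)
            (diff_zeta this.ne').continuousAt ln.continuousAt)
          (riemannZeta_ne_zero_of_one_lt_re (by simp))).continuousWithinAt
        unfold RG; fun_prop)
      (fun t => hasSum_bc r N h (by simp))
      (ker L1 T1 h0.le h2 (v := v) (by linarith) (by linarith) (by linarith) (by linarith))
      fun x hx => by
        simp only [Qi, if_neg (not_lt.2 (le_abs.2 (Or.inr (le_neg.1 hx)))), mul_zero,
          intervalIntegral.integral_zero]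
    rw [← integral_congr (f := fun t : ℝ => FG P h (4 + t * I)) fun t ht => eF _ (pos t ht)] at c2
    have c3 : 2 * (N : ℝ) ^ 5 * (52 * T * Real.exp (-(L ^ 2 / 2))) ≤ 1 := by
      calc _ = 104 * T * N * N ^ 4 * Real.exp (-(L ^ 2 / 2)) := by ring
        _ ≤ Real.exp L * Real.exp L * Real.exp (2 * L) * Real.exp (8 * L) *
            Real.exp (-(L ^ 2 / 2)) := by gcongr <;> linarith
        _ ≤ 1 := by
          simp only [← Real.exp_add]
          rw [Real.exp_le_one_iff]
          nlinarith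
    have c4 := (le_abs_self _).trans ((abs_im_le_norm _).trans (c2.trans c3))
    rw [sub_im] at c4
    linarith
  · have a1 := norm_integral_le_of_norm_le_const (f := pw) (C := 1) fun y hy =>
      (norm_real _).symm.trans_le (pw_le hy)
    have a2 := integral_mono_interval (f := fun τ => Real.exp (-τ ^ 2 / H ^ 2)) (μ := volume)
      (a := 0) (b := H) (c := -(T / L)) (d := T / L) (by linarith) (by linarith) D1
      (ae_of_all _ fun t => (Real.exp_pos _).le) (Continuous.intervalIntegrable (by fun_prop) _ _)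
    have a3 := integral_mono_on (f := fun _ => (1 / 3 : ℝ)) (μ := volume) (a := 0) (b := H)
      (g := fun τ => Real.exp (-τ ^ 2 / H ^ 2)) (by linarith) intervalIntegrable_const
      (Continuous.intervalIntegrable (by fun_prop) _ _) fun t ht =>
        le_trans (by linarith [Real.exp_neg_one_gt_d9]) (Real.exp_le_exp.2 (show -1 ≤ _ by
          rw [le_div_iff₀ (by positivity)]; nlinarith [ht.1, ht.2]))
    simp only [intervalIntegral.integral_const, smul_eq_mul] at a3
    have := (le_abs_self _).trans a1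
    norm_num at this
    linarith

end Pool.Agent.MP_f0209c_nt.Ch
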