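import Pool.Agent.MP_f0209c_nt.Ch.Hal
import Pool.Agent.MP_f0209c_nt.Ch.Hm

/-! The iteration of Matomaki and Radziwill. -/

namespace Pool.Agent.MP_f0209c_nt.Ch
open Complex Filter Topology Finset ComplexConjugate MeasureTheory

/-- primes in a short cell -/
noncomputable def cl (a b : ℝ) (J v : ℕ) : Finset ℕ :=
  (pr a b).filter fun p => ⌊J * Real.log p⌋₊ = v

/-- indices of the cells -/
noncomputable def VV (a b : ℝ) (J : ℕ) : Finset ℕ :=
  (range (⌊J * b⌋₊ + 1)).filter fun v => a - 1 ≤ v / J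

/-- the polynomial of a cell -/
noncomputable def QQ (f : ℕ → ℂ) (a b : ℝ) (J v : ℕ) : ℝ → ℂ := pp (cl a b J v) fun p => f p / p

section
variable {a b : ℝ} {J : ℕ} (hJ : 0 < J)
include hJ

lemma floor_cell (p : ℕ) : (⌊J * Real.log p⌋₊ : ℝ) / J ≤ Real.log p ∧
    Real.log p ≤ (⌊J * Real.log p⌋₊ : ℝ) / J + 1 / J := by
  have J0 : (0 : ℝ) < J := Nat.cast_pos.2 hJ
  rw [← add_div, div_le_iff₀' J0, le_div_iff₀' J0]
  exact ⟨Nat.floor_le (mul_nonneg J0.le (Real.log_natCast_nonneg p)), (Nat.lt_floor_add_one _).le⟩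

lemma mem_cl {v p : ℕ} (h : p ∈ cl a b J v) :
    p.Prime ∧ v / J ≤ Real.log p ∧ Real.log p ≤ v / J + 1 := by
  obtain ⟨h1, rfl⟩ := mem_filter.1 h
  have := (div_le_one (Nat.cast_pos.2 hJ : (0 : ℝ) < J)).2 (Nat.one_le_cast.2 hJ)
  exact ⟨(mem_pr.1 h1).1, (floor_cell hJ p).1, by linarith [(floor_cell hJ p).2]⟩

lemma mem_VV (hb : 0 ≤ b) {v : ℕ} (h : v ∈ VV a b J) : a - 1 ≤ v / J ∧ v / J ≤ b := by
  obtain ⟨h1, h2⟩ := mem_filter.1 h
  exact ⟨h2, (div_le_iff₀' (Nat.cast_pos.2 hJ)).2 ((Nat.le_floor_iff (by positivity)).1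
    (Nat.lt_succ_iff.1 (mem_range.1 h1)))⟩

omit hJ in
lemma card_VV (hb : 0 ≤ b) : (VV a b J).card ≤ J * b + 1 := by
  have : ((VV a b J).card : ℝ) ≤ (⌊J * b⌋₊ + 1 : ℕ) := by
    exact_mod_cast (card_filter_le _ _).trans (card_range _).le
  push_cast at this
  linarith [Nat.floor_le (show 0 ≤ J * b by positivity)]

lemma sum_cells {M : Type} [AddCommMonoid M] (g : ℕ → M) :
    ∑ v ∈ VV a b J, ∑ p ∈ cl a b J v, g p = ∑ p ∈ pr a b, g p :=
  sum_fiberwise_of_maps_to (fun p hp => by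
    have := (div_le_one (Nat.cast_pos.2 hJ : (0 : ℝ) < J)).2 (Nat.one_le_cast.2 hJ)
    exact mem_filter.2 ⟨mem_range.2 (Nat.lt_succ_of_le (Nat.floor_le_floor
      (mul_le_mul_of_nonneg_left (mem_pr.1 hp).2.2 (Nat.cast_nonneg J)))), by
        linarith [(floor_cell hJ p).2, (mem_pr.1 hp).2.1]⟩) g

end

lemma fact_le {k : ℕ} {y z : ℝ} (h1 : 2 * k + 2 ≤ y) (h2 : y ≤ z) :
    ((2 * k).factorial * (k + 2) : ℝ) ≤ Real.exp (y * Real.log z) := by
  have a : (2 * k).factorial * (k + 2) ≤ (2 * k + 2) ^ (2 * k + 2) := by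
    refine le_trans ?_ (Nat.factorial_le_pow _)
    rw [Nat.factorial_succ, Nat.factorial_succ, ← mul_assoc, mul_comm]
    exact Nat.mul_le_mul_right _ (by nlinarith)
  have k0 : (0 : ℝ) ≤ k := Nat.cast_nonneg k
  calc _ ≤ ((2 * k + 2 : ℝ)) ^ (2 * k + 2) := by exact_mod_cast a
    _ ≤ z ^ (2 * k + 2) := by gcongr; linarith
    _ = Real.exp ((2 * k + 2 : ℕ) * Real.log z) := by
      rw [Real.exp_nat_mul, Real.exp_log (by linarith)]
    _ ≤ _ := Real.exp_le_exp.2 (mul_le_mul_of_nonneg_right (by push_cast; exact h1)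
      (Real.log_nonneg (by linarith)))

lemma ceil_div {x y : ℝ} (hx : 0 < x) (hy : 0 ≤ y) :
    y ≤ ⌈y / x⌉₊ * x ∧ ⌈y / x⌉₊ * x ≤ y + x := by
  rw [← div_le_iff₀ hx, ← le_div_iff₀ hx, add_div, div_self hx.ne']
  exact ⟨Nat.le_ceil _, (Nat.ceil_lt_add_one (by positivity)).le⟩

lemma Mv.vol {T M : ℝ} (hT : 0 < T) {E : Set ℝ} (hE : MeasurableSet E) (h1 : E ⊆ Set.Icc (-T) T)
    (h : Mv T (E.indicator 1) M) : volume.real E ≤ 3 * M := by
  have a := h.int_le fun t => Set.indicator_nonneg (fun _ _ => zero_le_one) t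
  have e : ∀ t, E.indicator 1 t * gw T t = E.indicator (gw T) t := fun t => by
    by_cases c : t ∈ E <;> simp [c]
  simp only [e, integral_indicator hE] at a
  have := setIntegral_ge_of_const_le_real (μ := volume) (c := 1 / 3) hE (ne_top_of_le_ne_top measure_Icc_lt_top.ne
    (measure_mono h1)) (f := gw T) (fun t ht => le_trans (by norm_num) (Real.exp_neg_one_gt_d9.le.trans
      (Real.exp_le_exp.2 (neg_le_neg ((div_le_one (by positivity)).2
        (sq_le_sq' (h1 ht).1 (h1 ht).2))))))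
    ((Continuous.continuousOn (by unfold gw; fun_prop)).integrableOn_compact isCompact_Icc
      |>.mono_set h1)
  linarith

/-- some polynomial of level `s` is large -/
def Lr (f : ℕ → ℂ) (α : ℝ) (s : ℕ) (t : ℝ) : Prop := ∃ v ∈ VV (s ^ 2) (s ^ 4) s,
  Real.exp (-((α - 1 / s) * (v / s))) < ‖QQ f (s ^ 2) (s ^ 4) s v t‖

section
variable {f : ℕ → ℂ} (h1 : ∀ n, ‖f n‖ ≤ 1)
include h1

lemma mom (a b : ℝ) {J : ℕ} (hJ : 0 < J) (v k : ℕ) {c : ℕ → ℂ} {A T : ℝ} (hc : Loc c A (A + 1))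
    (hc' : ∀ n, ‖c n‖ ≤ 1 / n) (hT : 2 ≤ T) (hT' : T ≤ 2 * Real.exp (A + k * (v / J))) :
    Mv T (fun t => ‖QQ f a b J v t ^ k * dp c t‖ ^ 2)
      (72 * Real.exp 4 * ((2 * k).factorial * (k + 2))) :=
  moment (fun _ hp => (mem_cl hJ hp).1) (fun _ hp => (mem_cl hJ hp).2) (norm_div_le h1) hc hc' k
    hT hT'

lemma mom0 {u T : ℝ} (hT : 2 ≤ T) (hT' : T ≤ 2 * Real.exp u) :
    Mv T (fun t => ‖dp (wc f u) t‖ ^ 2) (144 * Real.exp 4) :=
  (mom h1 0 0 one_pos 0 0 (loc_wc f u) (norm_wc h1 u) hT (by simpa using hT')).mono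
    (fun t => by simp) (le_of_eq (by simp; ring))

lemma amplify {α : ℝ} {s : ℕ} (s8 : 8 ≤ s) {c : ℕ → ℂ} {A T y : ℝ}
    (hc : Loc c A (A + 1)) (hc' : ∀ n, ‖c n‖ ≤ 1 / n) (hT : 2 ≤ T) (hy : (s : ℝ) ^ 4 ≤ y)
    (hT' : T ≤ 2 * Real.exp (A + y)) (hα : 1 / (s : ℝ) ≤ α) :
    ∃ ψ, (∀ t, 0 ≤ ψ t) ∧ (∀ t, Lr f α s t → ‖dp c t‖ ^ 2 ≤ ψ t) ∧
      Mv T ψ (144 * Real.exp 4 * s ^ 5 *
        Real.exp (2 * (α - 1 / s) * (y + s ^ 4) + 8 * y / s ^ 2 * Real.log y)) := by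
  have s1 : (8 : ℝ) ≤ s := by exact_mod_cast s8
  have s0 : 0 < s := by omega
  have s2 : (s : ℝ) ^ 2 ≤ y := (pow_le_pow_right₀ (by linarith) (by norm_num)).trans hy
  have s3 : (64 : ℝ) ≤ s ^ 2 := by nlinarith
  let k : ℕ → ℕ := fun r => ⌈y / (r / s)⌉₊
  refine ⟨fun t => ∑ r ∈ VV (s ^ 2) (s ^ 4) s, Real.exp ((α - 1 / s) * (r / s)) ^ (2 * k r) *
    ‖QQ f (s ^ 2) (s ^ 4) s r t ^ k r * dp c t‖ ^ 2, fun t => by positivity,
    fun t ⟨r, hr, h⟩ => le_trans ?_ (single_le_sum (fun _ _ => by positivity) hr),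
    (Mv.sum (M := fun _ => 72 * Real.exp 4 * Real.exp (2 * (α - 1 / s) * (y + s ^ 4) +
      8 * y / s ^ 2 * Real.log y)) fun r hr => ?_).mono (fun _ => le_rfl) ?_⟩
  · rw [norm_mul, mul_pow, norm_pow, ← pow_mul, mul_comm (k r), ← mul_assoc, ← mul_pow]
    refine le_mul_of_one_le_left (sq_nonneg _) (one_le_pow₀ ?_)
    rw [Real.exp_neg, inv_lt_iff_one_lt_mul₀' (Real.exp_pos _)] at h
    exact h.le
  · obtain ⟨x1, x2⟩ := mem_VV s0 (by positivity) hr
    obtain ⟨k1, k2⟩ : y ≤ k r * (r / s) ∧ k r * (r / s) ≤ y + r / s :=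
      ceil_div (by linarith) (by linarith)
    refine ((mom h1 _ _ s0 r (k r) hc hc' hT (hT'.trans (by gcongr))).mul (by positivity)).mono
      (fun _ => le_rfl) ?_
    rw [mul_left_comm, Real.exp_add, ← Real.exp_nat_mul]
    refine mul_le_mul_of_nonneg_left (mul_le_mul (Real.exp_le_exp.2 ?_) (fact_le ?_ ?_)
      (by positivity) (Real.exp_pos _).le) (by positivity)
    · push_cast
      nlinarith [mul_le_mul_of_nonneg_left (k2.trans (add_le_add_right x2 y)) (sub_nonneg.2 hα)]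
    · rw [le_div_iff₀ (by positivity)]
      have : ((k r : ℝ) - 1) * (s ^ 2 / 2) ≤ y := by
        rcases le_total (k r : ℝ) 1 with c | c
        · nlinarith
        · nlinarith [mul_le_mul_of_nonneg_left (show (s : ℝ) ^ 2 / 2 ≤ r / s by linarith)
            (sub_nonneg.2 c)]
      linarith
    · rw [div_le_iff₀ (by positivity)]; nlinarith
  · rw [sum_const, nsmul_eq_mul, ← mul_assoc]
    refine mul_le_mul_of_nonneg_right ?_ (Real.exp_pos _).le
    have := card_VV (a := s ^ 2) (b := s ^ 4) (J := s) (by positivity)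
    nlinarith [Real.exp_pos 4, mul_le_mul_of_nonneg_left (show (VV (s ^ 2) (s ^ 4) s).card ≤
      2 * (s : ℝ) ^ 5 by nlinarith [one_le_pow₀ (show (1 : ℝ) ≤ s by linarith) (n := 5)])
      (Real.exp_pos 4).le]

variable (hm : ∀ m n, f (m * n) = f m * f n)
include hm

lemma level {a b u T l : ℝ} {J : ℕ} (hJ : 0 < J) (hl : l = ∑ p ∈ pr a b, (1 / p : ℝ)) (l1 : 1 ≤ l)
    (b0 : 0 ≤ b) (hb : b ≤ u) (hT : 2 ≤ T) (hT' : T ≤ Real.exp u) :
    ∃ ψ, (∀ t, 0 ≤ ψ t) ∧ Mv T ψ (1920 / l + 384 * (1 / J + Real.exp (-u))) ∧ ∀ t,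
      ‖dp (wc f u) t‖ ^ 2 ≤ 2 * (J * b + 1) / l * ∑ v ∈ VV a b J,
        ‖QQ f a b J v t‖ ^ 2 * ‖dp (wc f (u - v / J)) t‖ ^ 2 + ψ t := by
  obtain ⟨e, e1, e2, e3⟩ := decomp h1 hm (fun p hp => (mem_pr.1 hp).1) (u := u) hl (by linarith)
    ((card_pr a b).trans (Real.exp_le_exp.2 hb)) (η := 1 / J) (by positivity)
    ((div_le_one (Nat.cast_pos.2 hJ)).2 (Nat.one_le_cast.2 hJ))
    (fun p => (⌊J * Real.log p⌋₊ : ℝ) / J) fun p _ => floor_cell hJ p
  refine ⟨fun t => 2 * ‖dp e t‖ ^ 2, fun t => by positivity, ((e1.mvt hT).mul zero_le_two).mono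
    (fun _ => le_rfl) ?_, fun t => ?_⟩
  · have : T * Real.exp (-u) + 1 ≤ 2 := by
      rw [Real.exp_neg, ← div_eq_mul_inv]; linarith [(div_le_one (Real.exp_pos u)).2 hT']
    refine (mul_le_mul_of_nonneg_left (mul_le_mul (mul_le_mul_of_nonneg_left this (by norm_num)) e2
      (by positivity) (by norm_num)) zero_le_two).trans (le_of_eq (by ring))
  · rw [e3, ← sum_cells hJ, sum_congr rfl (g := fun v => QQ f a b J v t * dp (wc f (u - v / J)) t)
      fun v _ => by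
        rw [QQ, pp, sum_mul]
        exact sum_congr rfl fun p hp => by rw [(mem_filter.1 hp).2]]
    have a1 := (pow_le_pow_left₀ (norm_nonneg _) (norm_sum_le (VV a b J) fun v =>
      QQ f a b J v t * dp (wc f (u - v / J)) t) 2).trans (sq_sum_le_card_mul_sum_sq.trans
        (mul_le_mul_of_nonneg_right (card_VV b0) (by positivity)))
    simp only [norm_mul, mul_pow] at a1
    set S := ∑ v ∈ VV a b J, QQ f a b J v t * dp (wc f (u - v / J)) t
    have a2 : ‖S / l‖ ^ 2 ≤ ‖S‖ ^ 2 / l := by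
      rw [norm_div, div_pow, norm_real, Real.norm_of_nonneg (by linarith)]
      exact div_le_div_of_nonneg_left (sq_nonneg _) (by linarith) (by nlinarith)
    have a3 := div_le_div_of_nonneg_right a1 (show 0 ≤ l by linarith)
    rw [mul_div_right_comm] at a3
    rw [mul_div_assoc]
    nlinarith [pow_le_pow_left₀ (norm_nonneg _) (norm_add_le (S / l) (dp e t)) 2,
      sq_nonneg (‖S / l‖ - ‖dp e t‖)]

open Classical in
lemma step : ∃ s₁ : ℕ, 8 ≤ s₁ ∧ ∀ (s : ℕ) (α u T : ℝ) (c : ℝ → Prop), s₁ ≤ s →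
    (s : ℝ) ^ 4 ≤ u → 2 ≤ T → T ≤ Real.exp u → (∀ v ∈ VV (s ^ 2) (s ^ 4) s, Mv T
      (fun t => if c t then Real.exp (-((α - 1 / s) * (v / s))) ^ 2 *
        ‖dp (wc f (u - v / s)) t‖ ^ 2 else 0) (1 / (8 * s ^ 11))) →
    Mv T (fun t => if c t ∧ ¬ Lr f α s t then ‖dp (wc f u) t‖ ^ 2 else 0) (3000 / Real.log s) := by
  obtain ⟨C, C0, hC⟩ := mertens
  obtain ⟨s₁, hs⟩ := eventually_atTop.1 (log_top.eventually_ge_atTop (max C 1))
  refine ⟨max s₁ 8, le_max_right _ _, fun s α u T c s1 su hT hT' h => ?_⟩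
  have s8 : (8 : ℝ) ≤ s := by exact_mod_cast le_of_max_le_right s1
  have L := hs s (le_of_max_le_left s1)
  rw [max_le_iff] at L
  have l1 := hC (s ^ 2) (s ^ 4) (by nlinarith) (pow_le_pow_right₀ (by linarith) (by norm_num))
  rw [Real.log_pow, Real.log_pow] at l1
  push_cast at l1
  set l := ∑ p ∈ pr (s ^ 2) (s ^ 4), (1 / p : ℝ) with hl
  obtain ⟨ψ, p0, p1, p2⟩ := level h1 hm (J := s) (by exact_mod_cast (by linarith : (0 : ℝ) < s)) hl
    (by linarith) (by positivity) su hT hT'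
  have s5 : (s : ℝ) * s ^ 4 + 1 ≤ 2 * s ^ 5 := by
    nlinarith [one_le_pow₀ (show (1 : ℝ) ≤ s by linarith) (n := 5)]
  refine (((Mv.sum h).mul (show 0 ≤ 4 * (s : ℝ) ^ 5 by positivity)).add p1).mono (fun t => ?_) ?_
  · split_ifs with d e e
    · refine (p2 t).trans (add_le_add_left (mul_le_mul ((div_le_self (by positivity)
        (by linarith)).trans (by linarith)) (sum_le_sum fun v hv => ?_) (by positivity)
        (by positivity)) _)
      gcongr
      exact not_lt.1 fun g => d.2 ⟨v, hv, g⟩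
    · exact absurd d.1 e
    all_goals have := p0 t; positivity
  · rw [sum_const, nsmul_eq_mul]
    have a0 : Real.log s ≤ s := by linarith [Real.log_le_sub_one_of_pos (show (0 : ℝ) < s by linarith)]
    have a1 : 1 / (s : ℝ) ≤ 1 / Real.log s := one_div_le_one_div_of_le (by linarith) a0
    have a2 : Real.exp (-u) ≤ 1 / s := by
      rw [Real.exp_neg, one_div]
      exact inv_anti₀ (by linarith) (by
        linarith [Real.add_one_le_exp u, le_self_pow₀ (show (1 : ℝ) ≤ s by linarith) four_ne_zero])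
    have a3 : 1920 / l ≤ 1920 * (1 / Real.log s) := by
      rw [mul_one_div]; exact div_le_div_of_nonneg_left (by norm_num) (by linarith) (by linarith)
    have a4 := (mul_le_mul_of_nonneg_left (mul_le_mul_of_nonneg_right ((card_VV (a := s ^ 2)
      (by positivity)).trans s5) (show 0 ≤ 1 / (8 * (s : ℝ) ^ 11) by positivity))
      (show 0 ≤ 4 * (s : ℝ) ^ 5 by positivity)).trans_eq (show _ = 1 / (s : ℝ) by field_simp; ring)
    rw [div_eq_mul_one_div 3000]
    linarith [one_div_pos.2 (show (0 : ℝ) < s by linarith)]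

open Classical in
lemma iterate {α : ℝ} (α0 : 0 < α) (α1 : α ≤ 1) : ∀ᶠ s₀ : ℕ in atTop, ∀ u T : ℝ, 2 ≤ T →
    T ≤ Real.exp (u - s₀ ^ 4) → ∀ j : ℕ, ((s₀ ^ 4 ^ j : ℕ) : ℝ) ^ 4 ≤ u →
      Mv T (fun t => if ¬ Lr f α (s₀ ^ 4 ^ j) t then ‖dp (wc f u) t‖ ^ 2 else 0)
        (4000 / Real.log s₀ - 1000 / Real.log (s₀ ^ 4 ^ j : ℕ)) := by
  obtain ⟨s₁, s8, hs⟩ := step h1 hm
  have t := ((Real.tendsto_pow_mul_exp_neg_atTop_nhds_zero 49).comp
    tendsto_natCast_atTop_atTop).eventually_le_const (show 0 < 1 / (1152 * Real.exp 4) by positivity)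
  have t2 := tendsto_natCast_atTop_atTop.eventually
    (Real.isLittleO_log_id_atTop.bound (show (0 : ℝ) < 1 / 512 by norm_num))
  obtain ⟨s₂, h2⟩ := eventually_atTop.1 (((t.and t2).and (eventually_ge_atTop s₁)).and
    (tendsto_natCast_atTop_atTop.eventually_ge_atTop (4 / α)))
  have h3 : ∀ s : ℕ, s₂ ≤ s → ∀ x : ℝ, x ≤ -s →
      144 * Real.exp 4 * s ^ 5 * Real.exp x ≤ 1 / (8 * (s ^ 4) ^ 11) := fun s hs x hx => by
    have s1 : (8 : ℝ) ≤ s := by exact_mod_cast s8.trans (h2 s hs).1.2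
    have := (h2 s hs).1.1.1
    simp only [Function.comp] at this
    rw [le_div_iff₀ (by positivity)] at this ⊢
    refine le_trans (le_trans ?_ (mul_le_mul_of_nonneg_right (mul_le_mul_of_nonneg_left
      (Real.exp_le_exp.2 hx) (by positivity)) (by positivity))) this
    exact le_of_eq (by ring)
  filter_upwards [eventually_ge_atTop s₂] with s₀ h0 u T hT hT' j
  have T2 : T ≤ Real.exp u := hT'.trans (Real.exp_le_exp.2 (sub_le_self _ (by positivity)))
  induction j with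
  | zero =>
    simp only [pow_zero, pow_one]
    intro hu
    obtain ⟨⟨-, a2⟩, a3⟩ := h2 s₀ h0
    have s1 : (8 : ℝ) ≤ s₀ := by exact_mod_cast s8.trans a2
    refine (hs s₀ α u T (fun _ => True) a2 hu hT T2 fun v hv => ?_).mono (fun t => by simp)
      (le_of_eq (by ring))
    obtain ⟨x1, x2⟩ := mem_VV (by omega) (by positivity) hv
    refine ((mom0 h1 (u := u - v / s₀) hT (hT'.trans (le_trans (by gcongr)
      (le_mul_of_one_le_left (Real.exp_pos _).le one_le_two)))).mul (sq_nonneg _)).mono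
      (fun t => (if_pos trivial).le) ?_
    rw [← Real.exp_nat_mul, mul_comm]
    have b : 3 / (s₀ : ℝ) ≤ α - 1 / s₀ := by
      rw [le_sub_iff_add_le, ← add_div, div_le_iff₀ (by linarith)]
      rw [div_le_iff₀ α0] at a3; linarith
    refine le_trans ?_ ((h3 s₀ h0 (((2 : ℕ) : ℝ) * -((α - 1 / s₀) * (v / s₀))) ?_).trans ?_)
    · exact mul_le_mul_of_nonneg_right (le_mul_of_one_le_right (by positivity)
        (one_le_pow₀ (by linarith))) (Real.exp_pos _).le
    · have := mul_le_mul b (show (s₀ : ℝ) ^ 2 / 2 ≤ v / s₀ by nlinarith) (by positivity)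
        (le_trans (by positivity) b)
      rw [show 3 / (s₀ : ℝ) * (s₀ ^ 2 / 2) = 3 / 2 * s₀ by field_simp] at this
      push_cast; linarith
    · gcongr
      exact le_self_pow₀ (by linarith) four_ne_zero
  | succ j ih =>
    rw [pow_succ 4 j, pow_mul]
    have h4 : s₂ ≤ s₀ ^ 4 ^ j := h0.trans (Nat.le_self_pow (by positivity) _)
    generalize s₀ ^ 4 ^ j = s at *
    intro hu
    obtain ⟨⟨⟨-, a1⟩, a2⟩, a3⟩ := h2 s h4
    have s1 : (8 : ℝ) ≤ s := by exact_mod_cast s8.trans a2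
    have s4 : (s : ℝ) ≤ s ^ 4 := le_self_pow₀ (by linarith) four_ne_zero
    have L0 := Real.log_pos (show (1 : ℝ) < s by linarith)
    rw [Real.norm_of_nonneg L0.le, id, Real.norm_of_nonneg (by linarith)] at a1
    refine ((ih (le_trans (by push_cast; gcongr) hu)).add (hs (s ^ 4) α u T (Lr f α s)
      (a2.trans (Nat.le_self_pow four_ne_zero _)) hu hT T2 fun v hv => ?_)).mono (fun t => ?_)
      (le_of_eq (by push_cast; rw [Real.log_pow]; push_cast; ring))
    swap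
    · by_cases c : Lr f α s t <;> by_cases d : Lr f α (s ^ 4) t <;> simp [c, d]
    obtain ⟨x1, x2⟩ := mem_VV (pow_pos (by omega) 4) (by positivity) hv
    push_cast at x1 x2 ⊢
    set y : ℝ := v / s ^ 4 with hy
    have y1 : (s : ℝ) ^ 4 * s ^ 4 / 2 ≤ y := by nlinarith
    have y2 : (s : ℝ) ^ 4 ≤ y := by nlinarith
    have y0 : 0 < y := by linarith
    have b0 : 1 / (s : ℝ) ≤ α := by
      rw [div_le_iff₀ α0] at a3; rw [div_le_iff₀ (by linarith)]; linarith
    obtain ⟨ψ, p0, p1, p2⟩ := amplify h1 (s8.trans a2) (loc_wc f (u - y)) (norm_wc h1 _) hT y2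
      (by rw [sub_add_cancel]; linarith [Real.exp_pos u]) b0
    refine (p2.mul (sq_nonneg (Real.exp (-((α - 1 / s ^ 4) * y))))).mono (fun t => ?_) ?_
    · split_ifs with c
      · exact mul_le_mul_of_nonneg_left (p1 t c) (sq_nonneg _)
      · exact mul_nonneg (sq_nonneg _) (p0 t)
    rw [mul_left_comm, ← Real.exp_nat_mul, ← Real.exp_add]
    refine h3 s h4 _ ?_
    have b1 : Real.log y ≤ s / 32 := by
      have := Real.log_le_log y0 x2
      rw [← pow_mul, Real.log_pow] at this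
      push_cast at this; linarith
    have b2 : 8 * y / s ^ 2 * Real.log y ≤ y / s / 4 :=
      (mul_le_mul_of_nonneg_left b1 (by positivity)).trans (le_of_eq (by field_simp; ring))
    have b3 : 1 / (s : ℝ) ^ 4 * y ≤ y / s / 8 := by
      have : (s : ℝ) * 8 ≤ s ^ 4 := by
        nlinarith [mul_le_mul_of_nonneg_left (show (8 : ℝ) ≤ s ^ 3 from s1.trans
          (le_self_pow₀ (by linarith) three_ne_zero)) (show (0 : ℝ) ≤ s by linarith)]
      calc _ = y / s ^ 4 := by ring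
        _ ≤ y / (s * 8) := by gcongr
        _ = _ := by ring
    have b4 : 8 * (s : ℝ) ^ 4 ≤ y / s := by
      rw [le_div_iff₀ (by linarith)]
      nlinarith [mul_le_mul_of_nonneg_left (show 16 * (s : ℝ) ≤ s ^ 4 by
        nlinarith [pow_le_pow_left₀ (by norm_num) s1 3]) (show (0 : ℝ) ≤ s ^ 4 by positivity)]
    have b5 : (α - 1 / s) * s ^ 4 ≤ s ^ 4 :=
      mul_le_of_le_one_left (by positivity) (by linarith [one_div_pos.2 (show (0 : ℝ) < s by linarith)])
    have b6 : 1 / (s : ℝ) * y = y / s := by ring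
    push_cast
    nlinarith

end

end Pool.Agent.MP_f0209c_nt.Ch
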