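import Pool.Agent.MP_f0209c_nt.Zeta
import Pool.Agent.MP_f0209c_nt.Ch.Mean

/-! Mean values of Dirichlet polynomials against a Gaussian weight. -/

namespace Pool.Agent.MP_f0209c_nt.Ch
open Complex Filter Topology Finset ComplexConjugate MeasureTheory

lemma gauss {b : ℝ} (hb : 0 < b) (c d : ℂ) :
    Integrable (fun x : ℝ => exp (-b * x ^ 2 + c * x + d)) ∧
      ∫ x : ℝ, exp (-b * x ^ 2 + c * x + d) = √(Real.pi / b) * exp (d + c ^ 2 / (4 * b)) := by
  refine ⟨integrable_cexp_quadratic (by simpa using hb) c d, ?_⟩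
  rw [integral_cexp_quadratic (by simpa using hb), Real.sqrt_eq_rpow,
    ofReal_cpow (by positivity)]
  push_cast
  rw [neg_neg, mul_neg, div_neg, sub_neg_eq_add]

/-- the oscillating factor -/
noncomputable def ee (t : ℝ) (n : ℕ) : ℂ := exp (-(I * t) * Real.log n)

lemma norm_ee (t : ℝ) (n : ℕ) : ‖ee t n‖ = 1 := by rw [ee, norm_exp]; simp [-natCast_log]

lemma ee_mul (t : ℝ) {m n : ℕ} (hm : m ≠ 0) (hn : n ≠ 0) : ee t (m * n) = ee t m * ee t n := by
  rw [ee, ee, ee, ← exp_add, Nat.cast_mul,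
    Real.log_mul (by exact_mod_cast hm) (by exact_mod_cast hn)]
  push_cast; ring_nf

lemma ee_add (t t' : ℝ) (n : ℕ) : ee (t + t') n = ee t n * ee t' n := by
  rw [ee, ee, ee, ← exp_add]; push_cast; ring_nf

lemma conj_ee (t : ℝ) (n : ℕ) : conj (ee t n) = ee (-t) n := by
  rw [ee, ee, ← exp_conj]; simp [-natCast_log]

@[fun_prop] lemma cont_ee (n : ℕ) : Continuous fun t => ee t n := by unfold ee; fun_prop

/-- Dirichlet polynomial -/
noncomputable def dp (c : ℕ → ℂ) (t : ℝ) : ℂ := LSeries c (I * t)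

/-- the coefficients are supported on `S` -/
def Sup (c : ℕ → ℂ) (S : Finset ℕ) : Prop := 0 ∉ S ∧ ∀ n, c n ≠ 0 → n ∈ S

lemma Sup.has {c : ℕ → ℂ} {S : Finset ℕ} (h : Sup c S) (t : ℝ) :
    LSeriesHasSum c (I * t) (∑ n ∈ S, c n * ee t n) := by
  rw [sum_congr rfl (g := LSeries.term c (I * t)) fun n hn => by
    have : n ≠ 0 := fun e => h.1 (e ▸ hn)
    rw [LSeries.term_of_ne_zero this, ee, ← pw_nat _ this, cpow_neg, div_eq_mul_inv]]
  refine hasSum_sum_of_ne_finset_zero fun n hn => ?_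
  rw [LSeries.term_def₀ (by_contra fun e => h.1 (h.2 0 e)), by_contra fun e => hn (h.2 n e),
    zero_mul]

lemma Sup.dp_eq {c : ℕ → ℂ} {S : Finset ℕ} (h : Sup c S) (t : ℝ) :
    dp c t = ∑ n ∈ S, c n * ee t n := (h.has t).LSeries_eq

lemma Sup.summ {c : ℕ → ℂ} {S : Finset ℕ} (h : Sup c S) (t : ℝ) : LSeriesSummable c (I * t) :=
  (h.has t).LSeriesSummable

lemma Sup.cont {c : ℕ → ℂ} {S : Finset ℕ} (h : Sup c S) : Continuous (dp c) := by
  rw [funext h.dp_eq]; fun_prop

lemma Sup.norm_le {c : ℕ → ℂ} {S : Finset ℕ} (h : Sup c S) (t : ℝ) :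
    ‖dp c t‖ ≤ ∑ n ∈ S, ‖c n‖ := by
  rw [h.dp_eq]
  exact norm_sum_le_of_le _ fun n _ => by rw [norm_mul, norm_ee, mul_one]

/-- Gaussian weight -/
noncomputable def gw (T t : ℝ) : ℝ := Real.exp (-(t ^ 2 / T ^ 2))

lemma gw_pos (T t : ℝ) : 0 < gw T t := Real.exp_pos _

/-- bound for the upper integral against the Gaussian weight -/
def Mv (T : ℝ) (φ : ℝ → ℝ) (M : ℝ) : Prop :=
  ∃ ψ : ℝ → ℝ, Integrable (fun t => ψ t * gw T t) ∧ (∀ t, φ t ≤ ψ t) ∧ ∫ t, ψ t * gw T t ≤ M

section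
variable {T M M' : ℝ} {φ φ' : ℝ → ℝ}

lemma Mv.mono (h : Mv T φ M) (h1 : ∀ t, φ' t ≤ φ t) (h2 : M ≤ M') : Mv T φ' M' :=
  let ⟨ψ, a, b, c⟩ := h; ⟨ψ, a, fun t => (h1 t).trans (b t), c.trans h2⟩

lemma Mv.add (h : Mv T φ M) (h' : Mv T φ' M') : Mv T (fun t => φ t + φ' t) (M + M') := by
  obtain ⟨ψ, a, b, c⟩ := h
  obtain ⟨ψ', a', b', c'⟩ := h'
  refine ⟨fun t => ψ t + ψ' t, ?_, fun t => add_le_add (b t) (b' t), ?_⟩ <;> simp only [add_mul]
  · exact a.add a'
  · rw [integral_add a a']; linarith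

lemma Mv.mul (h : Mv T φ M) {c : ℝ} (hc : 0 ≤ c) : Mv T (fun t => c * φ t) (c * M) := by
  obtain ⟨ψ, a, b, d⟩ := h
  refine ⟨fun t => c * ψ t, ?_, fun t => mul_le_mul_of_nonneg_left (b t) hc, ?_⟩ <;>
    simp only [mul_assoc]
  · exact a.const_mul c
  · rw [integral_const_mul]; exact mul_le_mul_of_nonneg_left d hc

lemma Mv.sum {ι : Type} {s : Finset ι} {φ : ι → ℝ → ℝ} {M : ι → ℝ}
    (h : ∀ i ∈ s, Mv T (φ i) (M i)) : Mv T (fun t => ∑ i ∈ s, φ i t) (∑ i ∈ s, M i) := by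
  classical
  induction s using Finset.induction_on with
  | empty => exact ⟨fun _ => 0, by simp, by simp, by simp⟩
  | insert a s ha ih =>
    simp only [sum_insert ha]
    exact (h a (mem_insert_self _ _)).add (ih fun i hi => h i (mem_insert_of_mem hi))

lemma Mv.tail (hT : 0 < T) (h : Mv (2 * T) φ M) (h0 : ∀ t, 0 ≤ φ t) {R : ℝ} (hR : 0 ≤ R) :
    Mv T (fun t => if R < |t| then φ t else 0) (Real.exp (-(R ^ 2 / (2 * T ^ 2))) * M) := by
  obtain ⟨ψ, a, b, c⟩ := h
  have e : ∀ t, Real.exp (-(R ^ 2 / (2 * T ^ 2))) * (ψ t * gw (2 * T) t) / gw T t * gw T t =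
      Real.exp (-(R ^ 2 / (2 * T ^ 2))) * (ψ t * gw (2 * T) t) := fun t =>
    div_mul_cancel₀ _ (gw_pos _ _).ne'
  refine ⟨fun t => Real.exp (-(R ^ 2 / (2 * T ^ 2))) * (ψ t * gw (2 * T) t) / gw T t, ?_,
    fun t => ?_, ?_⟩
  · simp only [e]; exact a.const_mul _
  · have p := (h0 t).trans (b t)
    have g1 := gw_pos T t
    have g2 := gw_pos (2 * T) t
    dsimp only
    split_ifs with hc
    · rw [le_div_iff₀ g1, mul_left_comm, gw, gw, ← Real.exp_add]
      refine mul_le_mul (b t) (Real.exp_le_exp.2 ?_) g1.le p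
      have := pow_le_pow_left₀ hR hc.le 2
      rw [sq_abs] at this
      have e1 : R ^ 2 / (2 * T ^ 2) ≤ t ^ 2 / (2 * T ^ 2) := by gcongr
      have e2 : t ^ 2 / (2 * T ^ 2) = 1 / 2 * (t ^ 2 / T ^ 2) := by field_simp
      have e3 : t ^ 2 / (2 * T) ^ 2 = 1 / 4 * (t ^ 2 / T ^ 2) := by field_simp; norm_num
      have : 0 ≤ t ^ 2 / T ^ 2 := by positivity
      linarith
    · positivity
  · simp only [e]; rw [integral_const_mul]; gcongr

lemma Mv.int_le (h : Mv T φ M) (h0 : ∀ t, 0 ≤ φ t) : ∫ t, φ t * gw T t ≤ M := by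
  obtain ⟨ψ, a, b, c⟩ := h
  exact (integral_mono_of_nonneg (ae_of_all _ fun t => mul_nonneg (h0 t) (gw_pos _ _).le) a
    (ae_of_all _ fun t => mul_le_mul_of_nonneg_right (b t) (gw_pos _ _).le)).trans c

end

lemma quad (S : Finset ℕ) (c : ℕ → ℂ) {k : ℕ → ℝ → ℂ} {K : ℕ → ℕ → ℝ}
    (hk : ∀ m n, Integrable (fun t => k m t * conj (k n t)) ∧
      ∫ t, k m t * conj (k n t) = K m n) :
    Integrable (fun t => ‖∑ m ∈ S, c m * k m t‖ ^ 2) ∧ ∫ t, ‖∑ m ∈ S, c m * k m t‖ ^ 2 =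
      ∑ m ∈ S, ∑ n ∈ S, (c m * conj (c n)).re * K m n := by
  have e : ∀ t, ‖∑ m ∈ S, c m * k m t‖ ^ 2 =
      reCLM (∑ m ∈ S, ∑ n ∈ S, c m * conj (c n) * (k m t * conj (k n t))) := fun t => by
    rw [← normSq_eq_norm_sq, ← ofReal_re (normSq _), ← mul_conj, map_sum, sum_mul_sum]
    exact congrArg re (sum_congr rfl fun _ _ => sum_congr rfl fun _ _ => by rw [map_mul]; ring)
  have i1 : ∀ m, Integrable fun t => ∑ n ∈ S, c m * conj (c n) * (k m t * conj (k n t)) :=
    fun m => integrable_finsetSum _ fun n _ => (hk m n).1.const_mul _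
  have i2 := integrable_finsetSum S fun m _ => i1 m
  simp only [e]
  refine ⟨reCLM.integrable_comp i2, ?_⟩
  rw [reCLM.integral_comp_comm i2, integral_finsetSum _ fun m _ => i1 m, map_sum]
  refine sum_congr rfl fun m _ => ?_
  rw [integral_finsetSum _ fun n _ => (hk m n).1.const_mul _, map_sum]
  refine sum_congr rfl fun n _ => ?_
  rw [integral_const_mul, (hk m n).2, reCLM_apply, re_mul_ofReal]

/-- the quadratic form behind both sides of Parseval's identity -/
noncomputable def QF (S : Finset ℕ) (c : ℕ → ℂ) (T : ℝ) : ℝ := ∑ m ∈ S, ∑ n ∈ S,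
  (c m * conj (c n)).re * Real.exp (-(T ^ 2 * (Real.log m - Real.log n) ^ 2 / 4))

lemma int_dp {c : ℕ → ℂ} {S : Finset ℕ} (h : Sup c S) {T : ℝ} (hT : 0 < T) :
    Integrable (fun t => ‖dp c t‖ ^ 2 * gw T t) ∧
      ∫ t, ‖dp c t‖ ^ 2 * gw T t = √Real.pi * T * QF S c T := by
  have := quad S c (k := fun m t => ee t m * Real.exp (-(t ^ 2 / T ^ 2) / 2))
    (K := fun m n => √Real.pi * T * Real.exp (-(T ^ 2 * (Real.log m - Real.log n) ^ 2 / 4)))
    fun m n => by
      have g := gauss (b := 1 / T ^ 2) (by positivity) (-I * (Real.log m - Real.log n : ℝ)) 0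
      have e : ∀ t : ℝ, ee t m * Real.exp (-(t ^ 2 / T ^ 2) / 2) *
          conj (ee t n * Real.exp (-(t ^ 2 / T ^ 2) / 2)) =
          exp (-(1 / T ^ 2 : ℝ) * t ^ 2 + -I * (Real.log m - Real.log n : ℝ) * t + 0) := fun t => by
        rw [map_mul, conj_ofReal, conj_ee, ee, ee, ofReal_exp, ← exp_add, ← exp_add, ← exp_add]
        push_cast; ring_nf
      simp only [e]
      refine ⟨g.1, g.2.trans ?_⟩
      rw [div_div_eq_mul_div, div_one, Real.sqrt_mul Real.pi_pos.le, Real.sqrt_sq hT.le,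
        ofReal_mul _ (Real.exp _), ofReal_exp]
      congr 2
      have : (T : ℂ) ≠ 0 := by exact_mod_cast hT.ne'
      push_cast
      rw [mul_pow, neg_sq, I_sq]
      field_simp; ring
  have e : ∀ t, ‖∑ m ∈ S, c m * (ee t m * Real.exp (-(t ^ 2 / T ^ 2) / 2))‖ ^ 2 =
      ‖dp c t‖ ^ 2 * gw T t := fun t => by
    simp only [← mul_assoc, ← sum_mul]
    rw [h.dp_eq, norm_mul, mul_pow, norm_real, Real.norm_eq_abs, sq_abs, ← Real.exp_nat_mul, gw]
    congr 2
    push_cast; ring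
  simp only [e] at this
  refine ⟨this.1, this.2.trans ?_⟩
  simp only [QF, mul_sum]
  exact sum_congr rfl fun _ _ => sum_congr rfl fun _ _ => by ring

lemma ker_sum {T : ℝ} (hT : 2 ≤ T) (a : ℝ) {S : Finset ℕ} (hS : 0 ∉ S) :
    ∑ n ∈ S, Real.exp (-(T * |Real.log n - a|)) ≤ 2 + 4 * Real.exp a / T := by
  have l : ∀ n : ℝ, 0 < n → 1 / (n + 1) ≤ Real.log (n + 1) - Real.log n := fun n hn => by
    rw [← Real.log_div (by positivity) hn.ne']
    refine le_trans (le_of_eq ?_) (Real.one_sub_inv_le_log_of_pos (by positivity))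
    field_simp; ring
  have k : ∀ n : ℝ, 0 < n → Real.exp (Real.log n - a) = n / Real.exp a := fun n hn => by
    rw [Real.exp_sub, Real.exp_log hn]
  have A0 := Real.exp_pos a
  have L : ∀ N : ℕ, ∑ n ∈ Ico 1 (N + 1), Real.exp (T * (Real.log n - a)) ≤
      2 * Real.exp a / T * Real.exp ((T + 1) * (Real.log (N + 1) - a)) := fun N => by
    induction N with
    | zero => simp; positivity
    | succ N ih =>
      rw [sum_Ico_succ_top (by omega)]
      push_cast
      set x : ℝ := N + 1 with hx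
      have x1 : 1 ≤ x := by rw [hx]; linarith [(N.cast_nonneg : (0 : ℝ) ≤ N)]
      have e1 : Real.exp ((T + 1) * (Real.log x - a)) =
          Real.exp (T * (Real.log x - a)) * (x / Real.exp a) := by
        rw [← k x (by linarith), ← Real.exp_add]; ring_nf
      have e2 : Real.exp ((T + 1) * (Real.log (x + 1) - a)) = Real.exp ((T + 1) * (Real.log x - a)) *
          Real.exp ((T + 1) * (Real.log (x + 1) - Real.log x)) := by
        rw [← Real.exp_add]; ring_nf
      have e3 : T / (2 * x) + 1 ≤ Real.exp ((T + 1) * (Real.log (x + 1) - Real.log x)) := by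
        refine le_trans (add_le_add_left ?_ 1) (Real.add_one_le_exp _)
        refine le_trans ?_ (mul_le_mul_of_nonneg_left (l x (by linarith)) (by linarith))
        rw [mul_one_div, div_le_div_iff₀ (by linarith) (by linarith)]
        nlinarith
      rw [e2]
      refine (add_le_add_left ih _).trans (le_trans (le_of_eq ?_) (mul_le_mul_of_nonneg_left
        (mul_le_mul_of_nonneg_left e3 (Real.exp_pos _).le) (by positivity)))
      rw [e1]; field_simp; ring
  have R : ∀ M : ℕ, 0 < M → ∀ N : ℕ, ∑ n ∈ Ico (M + 1) (M + 1 + N),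
      Real.exp (-(T * (Real.log n - a))) ≤ 2 * Real.exp a / T *
        (Real.exp (-((T - 1) * (Real.log M - a))) -
          Real.exp (-((T - 1) * (Real.log (M + N) - a)))) := fun M hM N => by
    induction N with
    | zero => simp
    | succ N ih =>
      rw [← add_assoc, sum_Ico_succ_top (by omega)]
      push_cast
      rw [add_right_comm (M : ℝ) 1, ← add_assoc]
      set x : ℝ := M + N with hx
      have x1 : 0 < x := by rw [hx]; positivity
      have e1 : Real.exp (-((T - 1) * (Real.log (x + 1) - a))) =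
          Real.exp (-(T * (Real.log (x + 1) - a))) * ((x + 1) / Real.exp a) := by
        rw [← k (x + 1) (by linarith), ← Real.exp_add]; ring_nf
      have e2 : Real.exp (-((T - 1) * (Real.log x - a))) =
          Real.exp (-((T - 1) * (Real.log (x + 1) - a))) *
          Real.exp ((T - 1) * (Real.log (x + 1) - Real.log x)) := by
        rw [← Real.exp_add]; ring_nf
      have e3 : T / (2 * (x + 1)) + 1 ≤ Real.exp ((T - 1) * (Real.log (x + 1) - Real.log x)) := by
        refine le_trans (add_le_add_left ?_ 1) (Real.add_one_le_exp _)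
        refine le_trans ?_ (mul_le_mul_of_nonneg_left (l x x1) (by linarith))
        rw [mul_one_div, div_le_div_iff₀ (by linarith) (by linarith)]
        nlinarith
      have e4 := mul_le_mul_of_nonneg_left (mul_le_mul_of_nonneg_left e3
        (Real.exp_pos (-((T - 1) * (Real.log (x + 1) - a)))).le)
        (show 0 ≤ 2 * Real.exp a / T by positivity)
      have e5 : 2 * Real.exp a / T * (Real.exp (-((T - 1) * (Real.log (x + 1) - a))) *
          (T / (2 * (x + 1)))) = Real.exp (-(T * (Real.log (x + 1) - a))) := by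
        rw [e1]; field_simp
      rw [← e2, mul_add, mul_add, e5] at e4
      linarith
  set N₀ := ⌊Real.exp a⌋₊ with hN
  have n1 : (N₀ : ℝ) ≤ Real.exp a := Nat.floor_le A0.le
  have n2 : Real.exp a < N₀ + 1 := Nat.lt_floor_add_one _
  obtain ⟨N, hN'⟩ := S.bddAbove
  have one : ∀ n : ℕ, Real.exp (-(T * |Real.log n - a|)) ≤ 1 := fun n =>
    Real.exp_le_one_iff.2 (neg_nonpos.2 (by positivity))
  have sub : S ⊆ Ico 1 N₀ ∪ (Ico N₀ (N₀ + 2) ∪ Ico (N₀ + 1 + 1) (N₀ + 1 + 1 + N)) := fun n hn => by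
    have := hN' hn
    have : n ≠ 0 := fun e => hS (e ▸ hn)
    simp only [mem_union, mem_Ico]
    omega
  have uni : ∀ (s t : Finset ℕ) (g : ℕ → ℝ), (∀ n, 0 ≤ g n) →
      ∑ n ∈ s ∪ t, g n ≤ ∑ n ∈ s, g n + ∑ n ∈ t, g n := fun s t g h => by
    rw [← sum_union_inter]; exact le_add_of_nonneg_right (sum_nonneg fun _ _ => h _)
  refine (sum_le_sum_of_subset_of_nonneg sub fun _ _ _ => (Real.exp_pos _).le).trans
    ((uni _ _ _ fun _ => (Real.exp_pos _).le).trans ((add_le_add le_rfl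
      (uni _ _ _ fun _ => (Real.exp_pos _).le)).trans ?_))
  have b1 : ∑ n ∈ Ico 1 N₀, Real.exp (-(T * |Real.log n - a|)) ≤ 2 * Real.exp a / T := by
    rcases Nat.eq_zero_or_pos N₀ with h | h
    · simp [h]; positivity
    obtain ⟨M, hM⟩ : ∃ M, N₀ = M + 1 := ⟨N₀ - 1, by omega⟩
    have m : Real.log (M + 1) ≤ a := by
      rw [Real.log_le_iff_le_exp (by positivity)]; rw [hM] at n1; exact_mod_cast n1
    rw [hM]
    refine (sum_le_sum fun n _ => Real.exp_le_exp.2 ?_).trans ((L M).trans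
      (mul_le_of_le_one_right (by positivity) (Real.exp_le_one_iff.2 (by nlinarith))))
    nlinarith [neg_abs_le (Real.log n - a)]
  have b2 : ∑ n ∈ Ico N₀ (N₀ + 2), Real.exp (-(T * |Real.log n - a|)) ≤ 2 :=
    (sum_le_card_nsmul _ _ 1 fun n _ => one n).trans (by simp)
  have b3 : ∑ n ∈ Ico (N₀ + 1 + 1) (N₀ + 1 + 1 + N), Real.exp (-(T * |Real.log n - a|)) ≤
      2 * Real.exp a / T := by
    have m : a ≤ Real.log (N₀ + 1 : ℕ) := by
      rw [Real.le_log_iff_exp_le (by positivity)]; push_cast; exact n2.le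
    refine (sum_le_sum fun n _ => Real.exp_le_exp.2 ?_).trans ((R (N₀ + 1) (by omega) N).trans
      (mul_le_of_le_one_right (by positivity) ((sub_le_self _ (Real.exp_pos _).le).trans
        (Real.exp_le_one_iff.2 (by nlinarith)))))
    nlinarith [le_abs_self (Real.log n - a)]
  have : 4 * Real.exp a / T = 2 * Real.exp a / T + 2 * Real.exp a / T := by ring
  linarith

lemma exp_sq_le (x : ℝ) : Real.exp (-(x ^ 2 / 4)) ≤ 3 * Real.exp (-|x|) := by
  have : -(x ^ 2 / 4) ≤ 1 + -|x| := by nlinarith [sq_abs x, sq_nonneg (|x| - 2)]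
  refine (Real.exp_le_exp.2 this).trans ?_
  rw [Real.exp_add]
  exact mul_le_mul_of_nonneg_right (by linarith [Real.exp_one_lt_d9]) (Real.exp_pos _).le

/-- the mean value theorem -/
theorem mvt {c : ℕ → ℂ} {S : Finset ℕ} (h : Sup c S) {T : ℝ} (hT : 2 ≤ T) :
    Mv T (fun t => ‖dp c t‖ ^ 2) (24 * ∑ n ∈ S, (T + n) * ‖c n‖ ^ 2) := by
  obtain ⟨a, b⟩ := int_dp h (show 0 < T by linarith)
  refine ⟨_, a, fun _ => le_rfl, b.trans_le ?_⟩
  let k : ℕ → ℕ → ℝ := fun m n => Real.exp (-(T ^ 2 * (Real.log m - Real.log n) ^ 2 / 4))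
  have k1 : ∀ m ∈ S, ∑ n ∈ S, k n m ≤ 3 * (2 + 4 * m / T) := fun m hm => by
    have := ker_sum hT (Real.log m) h.1
    rw [Real.exp_log (Nat.cast_pos.2 (Nat.pos_of_ne_zero fun e => h.1 (e ▸ hm)))] at this
    refine le_trans ?_ (mul_le_mul_of_nonneg_left this (by norm_num))
    rw [mul_sum]
    refine sum_le_sum fun n _ => ?_
    have := exp_sq_le (T * (Real.log n - Real.log m))
    rwa [abs_mul, abs_of_nonneg (by linarith : 0 ≤ T), mul_pow] at this
  have k2 : ∀ m n, k m n = k n m := fun m n => by simp only [k]; ring_nf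
  have q : QF S c T ≤ ∑ m ∈ S, ‖c m‖ ^ 2 * (3 * (2 + 4 * m / T)) := by
    have : QF S c T ≤ ∑ m ∈ S, ∑ n ∈ S, (‖c m‖ ^ 2 / 2 * k n m + ‖c n‖ ^ 2 / 2 * k m n) :=
      sum_le_sum fun m _ => sum_le_sum fun n _ => by
        rw [k2 n m, ← add_mul]
        refine mul_le_mul_of_nonneg_right ((re_le_norm _).trans ?_) (Real.exp_pos _).le
        rw [norm_mul, norm_conj]
        nlinarith [sq_nonneg (‖c m‖ - ‖c n‖)]
    simp only [sum_add_distrib] at this
    rw [sum_comm (f := fun m n => ‖c n‖ ^ 2 / 2 * k m n), ← sum_add_distrib] at this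
    refine this.trans (sum_le_sum fun m hm => ?_)
    rw [← mul_sum, ← add_mul, add_halves]
    exact mul_le_mul_of_nonneg_left (k1 m hm) (by positivity)
  have p : √Real.pi ≤ 2 := Real.sqrt_le_iff.2 ⟨by norm_num, by linarith [Real.pi_le_four]⟩
  refine (mul_le_mul_of_nonneg_left q (by positivity)).trans ((mul_le_mul_of_nonneg_right
    (mul_le_mul_of_nonneg_right p (by linarith)) (by positivity)).trans ?_)
  rw [mul_sum, mul_sum]
  refine sum_le_sum fun m _ => ?_
  have e : 2 * T * (‖c m‖ ^ 2 * (3 * (2 + 4 * m / T))) = (12 * T + 24 * m) * ‖c m‖ ^ 2 := by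
    field_simp; ring
  rw [e, ← mul_assoc]
  exact mul_le_mul_of_nonneg_right (by linarith) (by positivity)

end Pool.Agent.MP_f0209c_nt.Ch
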