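import Pool.Agent.MP_f0209c_nt.Ch.Entropy

/-! Sequences whose short sums are small on average. -/

namespace Pool.Agent.MP_f0209c_nt.Ch
open Filter Topology Finset ComplexConjugate

/-- short sum -/
def win (g : ℕ → ℂ) (H n : ℕ) : ℂ := ∑ j ∈ range H, g (n + j)

/-- mean square of short sums -/
noncomputable def en (g : ℕ → ℂ) (H : ℕ) : ℝ := Ex fun n => ‖win g H n‖ ^ 2

/-- short sums have cancellation on average -/
def Null (g : ℕ → ℂ) : Prop := ∀ ε : ℝ, 0 < ε → ∀ᶠ H : ℕ in atTop, en g H ≤ ε * H ^ 2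

lemma Bdd.win {g : ℕ → ℂ} (hg : Bdd g) (H : ℕ) : Bdd (win g H) := Bdd.sum fun _ _ => hg.comp _

lemma Bdd.win2 {g : ℕ → ℂ} (hg : Bdd g) (H : ℕ) : Bdd fun n => ‖Ch.win g H n‖ ^ 2 :=
  (hg.win H).norm.pow 2

lemma norm_win {g : ℕ → ℂ} (hg : ∀ n, ‖g n‖ ≤ 1) (H n : ℕ) : ‖win g H n‖ ≤ H :=
  (norm_sum_le_of_le _ fun _ _ => hg _).trans (by simp)

lemma en_ext {g : ℕ → ℂ} (hg : ∀ n, ‖g n‖ ≤ 1) {H : ℕ} (hH : 0 < H) {ε : ℝ} (hε : 0 ≤ ε)
    (h : en g H ≤ ε * H ^ 2) (K : ℕ) : en g K ≤ 2 * ε * K ^ 2 + 2 * H ^ 2 := by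
  have b : Bdd g := ⟨1, hg⟩
  have e : ∀ q n, win g (q * H) n = ∑ i ∈ range q, win g H (n + i * H) := fun q n => by
    induction q with
    | zero => simp [win]
    | succ q ih =>
      rw [sum_range_succ, ← ih, add_mul, one_mul, win, sum_range_add]
      simp only [win, add_assoc]
  have b1 : ∀ i, Bdd fun n => ‖win g H (n + i * H)‖ ^ 2 := fun i => (b.win2 H).comp _
  have h1 := Ex_mono (b.win2 K) (g := fun n => 2 * (K / H : ℕ) *
      ∑ i ∈ range (K / H), ‖win g H (n + i * H)‖ ^ 2 + 2 * H ^ 2) (by fun_prop) fun n => by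
    have e2 : win g K n = win g (K / H * H) n + win g (K % H) (n + K / H * H) := by
      conv_lhs => rw [← Nat.div_add_mod' K H]
      simp only [win, sum_range_add, add_assoc]
    have a1 : ‖win g (K % H) (n + K / H * H)‖ ≤ H :=
      (norm_win hg _ _).trans (by exact_mod_cast (Nat.mod_lt _ hH).le)
    have a2 := pow_le_pow_left₀ (norm_nonneg _) ((e (K / H) n).symm ▸ norm_sum_le _ _ :
      ‖win g (K / H * H) n‖ ≤ ∑ i ∈ range (K / H), ‖win g H (n + i * H)‖) 2
    have a3 := sq_sum_le_card_mul_sum_sq (s := range (K / H)) (f := fun i => ‖win g H (n + i * H)‖)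
    rw [card_range] at a3
    have a4 := pow_le_pow_left₀ (norm_nonneg _)
      ((norm_add_le (win g (K / H * H) n) _).trans (add_le_add le_rfl a1)) 2
    rw [e2]
    nlinarith [sq_nonneg (‖win g (K / H * H) n‖ - H)]
  rw [Ex_add (by fun_prop) (Bdd.const _), Ex_const, Ex_mul (by fun_prop), Ex_sum fun i _ => b1 i,
    sum_congr rfl fun i _ => Ex_shift (b.win2 H) (i * H), sum_const, card_range, nsmul_eq_mul] at h1
  have a : ((K / H : ℕ) : ℝ) * H ≤ K := by exact_mod_cast Nat.div_mul_le_self K H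
  have a2 := mul_le_mul_of_nonneg_left (pow_le_pow_left₀ (by positivity) a 2) hε
  have a3 := mul_le_mul_of_nonneg_left h (sq_nonneg ((K / H : ℕ) : ℝ))
  unfold en at a3 ⊢
  nlinarith

lemma ev_sq (H : ℕ) {ε : ℝ} (hε : 0 < ε) : ∀ᶠ K : ℕ in atTop, 2 * (H : ℝ) ^ 2 ≤ ε * K ^ 2 :=
  (((tendsto_pow_atTop two_ne_zero).comp tendsto_natCast_atTop_atTop).const_mul_atTop
    hε).eventually_ge_atTop _

lemma Null.of_exists {g : ℕ → ℂ} (hg : ∀ n, ‖g n‖ ≤ 1)
    (h : ∀ ε : ℝ, 0 < ε → ∃ H : ℕ, 0 < H ∧ en g H ≤ ε * H ^ 2) : Null g := fun ε hε => by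
  obtain ⟨H, h1, h2⟩ := h (ε / 4) (by positivity)
  filter_upwards [ev_sq H (half_pos hε)] with K hK
  linarith [en_ext hg h1 (by positivity) h2 K]

lemma Null.add {f g : ℕ → ℂ} (bf : Bdd f) (bg : Bdd g) (hf : Null f) (hg : Null g) :
    Null fun n => f n + g n := fun ε hε => by
  filter_upwards [hf (ε / 4) (by positivity), hg (ε / 4) (by positivity)] with H h1 h2
  have := Ex_mono ((bf.add bg).win2 H) (g := fun n => 2 * ‖win f H n‖ ^ 2 + 2 * ‖win g H n‖ ^ 2)
    (((Bdd.const _).mul (bf.win2 H)).add ((Bdd.const _).mul (bg.win2 H))) fun n => by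
      have a := pow_le_pow_left₀ (norm_nonneg _) (norm_add_le (win f H n) (win g H n)) 2
      rw [win, sum_add_distrib]
      change ‖win f H n + win g H n‖ ^ 2 ≤ _
      nlinarith [sq_nonneg (‖win f H n‖ - ‖win g H n‖)]
  rw [Ex_add ((Bdd.const _).mul (bf.win2 H)) ((Bdd.const _).mul (bg.win2 H)), Ex_mul (bf.win2 H),
    Ex_mul (bg.win2 H)] at this
  unfold en at *
  linarith

lemma Null.mul {g : ℕ → ℂ} (bg : Bdd g) (hg : Null g) (c : ℂ) : Null fun n => c * g n :=
  fun ε hε => by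
    filter_upwards [hg (ε / (‖c‖ ^ 2 + 1)) (by positivity)] with H h1
    have e : en (fun n => c * g n) H = ‖c‖ ^ 2 * en g H := by
      rw [en, en, ← Ex_mul (bg.win2 H)]
      simp only [win, ← mul_sum, norm_mul, mul_pow]
    rw [e]
    refine (mul_le_mul_of_nonneg_left h1 (by positivity)).trans ?_
    rw [← mul_assoc]
    refine mul_le_mul_of_nonneg_right ?_ (by positivity)
    rw [← mul_div_assoc, div_le_iff₀ (by positivity)]
    nlinarith

lemma Null.sum {ι : Type} {s : Finset ι} {g : ι → ℕ → ℂ} (b : ∀ i ∈ s, Bdd (g i))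
    (h : ∀ i ∈ s, Null (g i)) : Null fun n => ∑ i ∈ s, g i n := by
  classical
  induction s using Finset.induction_on with
  | empty => exact fun ε hε => Eventually.of_forall fun H => by simp [en, win, Ex_zero]; positivity
  | insert a s ha ih =>
    simp only [sum_insert ha]
    have b2 := fun i hi => b i (mem_insert_of_mem hi)
    exact Null.add (b a (mem_insert_self _ _)) (Bdd.sum b2) (h a (mem_insert_self _ _))
      (ih b2 fun i hi => h i (mem_insert_of_mem hi))

lemma one_multiple {M : Type} [AddCommMonoid M] {d : ℕ} (hd : 0 < d) (g : ℕ → M) (n : ℕ) :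
    ∑ j ∈ range d, (if d ∣ n + j then g ((n + j) / d) else 0) = g ((n + (d - 1)) / d) := by
  have a := Nat.div_add_mod (n + (d - 1)) d
  have b := Nat.mod_lt (n + (d - 1)) hd
  have e : n + (d - 1 - (n + (d - 1)) % d) = d * ((n + (d - 1)) / d) := by omega
  rw [sum_eq_single_of_mem (d - 1 - (n + (d - 1)) % d) (mem_range.2 (by omega)) fun j hj ne =>
    if_neg fun h => ne ?_, e, if_pos (Dvd.intro _ rfl), Nat.mul_div_cancel_left _ hd]
  have c := (Nat.modEq_zero_iff_dvd.2 h).trans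
    (Nat.modEq_zero_iff_dvd.2 (e ▸ Dvd.intro _ rfl : d ∣ n + (d - 1 - (n + (d - 1)) % d))).symm
  exact Nat.ModEq.eq_of_lt_of_lt (Nat.ModEq.add_left_cancel' n c) (mem_range.1 hj) (by omega)

lemma Null.dilate {g : ℕ → ℂ} (hg : ∀ n, ‖g n‖ ≤ 1) (h : Null g) {d : ℕ} (hd : 0 < d) :
    Null fun n => if d ∣ n then g (n / d) else 0 := by
  refine Null.of_exists (fun n => by split_ifs; exacts [hg _, by simp]) fun ε hε => ?_
  obtain ⟨H, h1, h2⟩ := ((h ε hε).and (eventually_gt_atTop 0)).exists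
  refine ⟨d * H, by positivity, ?_⟩
  have e : ∀ H n, win (fun n => if d ∣ n then g (n / d) else 0) (d * H) n =
      win g H ((n + (d - 1)) / d) := fun H n => by
    induction H with
    | zero => simp [win]
    | succ H ih =>
      unfold win at ih ⊢
      rw [mul_add, mul_one, sum_range_add, sum_range_succ, ih]
      simp only [← add_assoc]
      rw [one_multiple hd g, add_right_comm, Nat.add_mul_div_left _ _ hd]
  have b := Bdd.win2 ⟨1, hg⟩ H
  have d0 : (1 : ℝ) ≤ d := by exact_mod_cast hd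
  simp only [en, e, ← one_multiple hd fun n => ‖win g H n‖ ^ 2]
  have b2 : Bdd fun n => ‖win g H (n / d)‖ ^ 2 := b.comp _
  rw [Ex_sum fun j _ => ((b2.ite (Bdd.const 0) _).comp fun n => n + j),
    sum_congr rfl fun j _ => (Ex_shift (b2.ite (Bdd.const 0) fun n => d ∣ n) j).trans
      (Ex_dvd b2 hd)]
  simp only [Nat.mul_div_cancel_left _ hd, sum_const, card_range, nsmul_eq_mul]
  rw [← mul_assoc, mul_one_div_cancel (by positivity), one_mul]
  refine h1.trans (mul_le_mul_of_nonneg_left (pow_le_pow_left₀ (by positivity) ?_ 2) hε.le)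
  exact_mod_cast Nat.le_mul_of_pos_left H hd

section
variable {f : ℕ → ℂ} (h1 : ∀ n, ‖f n‖ ≤ 1) (hm : ∀ m n, f (m * n) = f m * f n)
include h1 hm

lemma null_root (hχ : ∀ (q : ℕ) [NeZero q] (χ : DirichletCharacter ℂ q), Null fun n => f n * χ n)
    {z : ℂ} {q : ℕ} (hq : 0 < q) (hz : z ^ q = 1) : Null fun n => f n * z ^ n := by
  have bf : Bdd f := ⟨1, h1⟩
  have cop : ∀ q a : ℕ, 0 < q → a.Coprime q → Null fun n => if a ≡ n [MOD q] then f n else 0 := by
    intro q a hq hc
    have : NeZero q := ⟨hq.ne'⟩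
    have e : (fun n => if a ≡ n [MOD q] then f n else 0) = fun n : ℕ => ∑ χ : DirichletCharacter ℂ q,
        ((q.totient : ℂ)⁻¹ * χ (a : ZMod q)⁻¹) * (f n * χ n) := funext fun n => by
      have t : (q.totient : ℂ) ≠ 0 := by exact_mod_cast (Nat.totient_pos.2 hq).ne'
      have := DirichletCharacter.sum_char_inv_mul_char_eq ℂ ((ZMod.isUnit_iff_coprime a q).2 hc)
        (n : ZMod q)
      rw [sum_congr rfl (g := fun χ : DirichletCharacter ℂ q => ((q.totient : ℂ)⁻¹ * f n) *
        (χ (a : ZMod q)⁻¹ * χ n)) fun χ _ => by ring, ← mul_sum, this]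
      simp only [ZMod.natCast_eq_natCast_iff]
      split_ifs
      · field_simp
      · simp
    have bχ : ∀ χ : DirichletCharacter ℂ q, Bdd fun n : ℕ => f n * χ n := fun χ =>
      bf.mul (Bdd.fin χ _)
    rw [e]
    exact Null.sum (fun χ _ => (Bdd.const _).mul (bχ χ)) fun χ _ => Null.mul (bχ χ) (hχ q χ) _
  have cls : ∀ a : ℕ, Null fun n => if a ≡ n [MOD q] then f n else 0 := fun a => by
    have d0 : 0 < a.gcd q := Nat.gcd_pos_of_pos_right _ hq
    obtain ⟨a', q', hc, ea, eq⟩ := Nat.exists_coprime a q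
    generalize a.gcd q = d at *
    have := Null.mul (by
      exact ((bf.comp _).ite (Bdd.const 0) fun n => a' ≡ n / d [MOD q']).ite (Bdd.const 0) _)
      ((cop q' a' (Nat.pos_of_mul_pos_right (eq ▸ hq)) hc).dilate
        (fun n => by split_ifs; exacts [h1 _, by simp]) d0) (f d)
    refine (congrArg Null (funext fun n => ?_)).mpr this
    subst ea eq
    by_cases c : d ∣ n
    · obtain ⟨m, rfl⟩ := c
      rw [if_pos (Dvd.intro _ rfl), Nat.mul_div_cancel_left _ d0, mul_comm a', mul_comm q',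
        mul_ite, mul_zero, hm]
      exact if_congr (Nat.ModEq.mul_left_cancel_iff' d0.ne') rfl rfl
    · rw [if_neg c, mul_zero, if_neg fun h => c ((h.dvd_iff (Dvd.intro_left _ rfl)).1
        (Dvd.intro_left _ rfl))]
  have e : (fun n => f n * z ^ n) = fun n => ∑ a ∈ range q,
      z ^ a * if a ≡ n [MOD q] then f n else 0 := funext fun n => by
    rw [sum_eq_single_of_mem (n % q) (mem_range.2 (Nat.mod_lt _ hq)) fun a ha ne => by
      rw [if_neg fun h : a ≡ n [MOD q] => ne ((Nat.mod_eq_of_lt (mem_range.1 ha)).symm.trans h),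
        mul_zero],
      if_pos (Nat.mod_modEq n q), ← pow_eq_pow_mod n hz, mul_comm]
  rw [e]
  exact Null.sum (fun a _ => by fun_prop) fun a _ => Null.mul (by fun_prop) (cls a) _

end

lemma tk_mean {P : Finset ℕ} (hP : ∀ p ∈ P, p.Prime) :
    Ex (fun n => (∑ p ∈ P, ((if p ∣ n then 1 else 0) - 1 / p : ℝ)) ^ 2) ≤ ∑ p ∈ P, (1 / p : ℝ) := by
  simp only [sq, sum_mul_sum]
  rw [Ex_sum fun _ _ => by fun_prop]
  refine sum_le_sum fun p hp => ?_
  have m : ∀ d, 0 < d → Ex (fun n => if d ∣ n then 1 else 0) = 1 / d := fun d hd => Ex_mod hd 0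
  have e : ∀ p ∈ P, ∀ q ∈ P, Ex (fun n => ((if p ∣ n then 1 else 0) - 1 / p : ℝ) *
      ((if q ∣ n then 1 else 0) - 1 / q)) = 1 / (p.lcm q : ℕ) - 1 / p * (1 / q) := by
    intro p hp q hq
    have a := (hP p hp).pos
    have b := (hP q hq).pos
    have : (fun n => ((if p ∣ n then 1 else 0) - 1 / p : ℝ) * ((if q ∣ n then 1 else 0) - 1 / q)) =
        fun n => ((if p.lcm q ∣ n then 1 else 0) - 1 / q * (if p ∣ n then 1 else 0) -
          1 / p * (if q ∣ n then 1 else 0) + 1 / p * (1 / q) : ℝ) := funext fun n => by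
      by_cases c : p ∣ n <;> by_cases d : q ∣ n <;> simp [Nat.lcm_dvd_iff, c, d] <;> ring
    rw [this, Ex_add (by fun_prop) (by fun_prop), Ex_sub (by fun_prop) (by fun_prop),
      Ex_sub (by fun_prop) (by fun_prop), Ex_mul (by fun_prop), Ex_mul (by fun_prop), Ex_const,
      m _ a, m _ b, m _ (Nat.lcm_pos a b)]
    ring
  rw [Ex_sum fun _ _ => by fun_prop, sum_congr rfl (e p hp), sum_eq_single_of_mem p hp
    fun q hq ne => by
      rw [((Nat.coprime_primes (hP p hp) (hP q hq)).2 ne.symm).lcm_eq_mul]; push_cast; ring,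
    Nat.lcm_self]
  exact sub_le_self _ (by positivity)

lemma osc_mean {w : ℂ} (hw : ‖w‖ = 1) (h1 : w ≠ 1) {G : ℕ → ℂ} (hG : Bdd G) {D : ℝ}
    (h : ∀ᶠ m in atTop, ‖G (m + 1) - G m‖ ≤ D) :
    Ex (fun m => (w ^ m * G m).re) ≤ D / ‖1 - w‖ := by
  have bw : ∀ k, Bdd fun m => w ^ (m + k) := fun k => ⟨1, fun m => by simp [hw]⟩
  have b0 : Bdd fun m => w ^ m := bw 0
  have b1 := bw 1
  have bG : Bdd fun m => G (m + 1) := hG.comp _
  have w0 : 1 - w ≠ 0 := sub_ne_zero.2 h1.symm
  have e : (fun m => (w ^ m * G m).re) = fun m => ((w ^ m * G m / (1 - w)).re -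
      (w ^ (m + 1) * G (m + 1) / (1 - w)).re) + (w ^ (m + 1) * (G (m + 1) - G m) / (1 - w)).re := by
    funext m
    rw [← Complex.sub_re, ← Complex.add_re]
    congr 1
    field_simp; ring
  have c0 := ((b0.mul hG).div_const (1 - w)).re
  have c1 := ((b1.mul bG).div_const (1 - w)).re
  have c2 := ((b1.mul (bG.sub hG)).div_const (1 - w)).re
  rw [e, Ex_add (c0.sub c1) c2, Ex_sub c0 c1, Ex_succ c0, sub_self, zero_add,
    ← Ex_const (D / ‖1 - w‖)]
  refine Ex_mono' c2 (Bdd.const _) (h.mono fun m hm => (Complex.re_le_norm _).trans ?_)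
  rw [norm_div, norm_mul, norm_pow, hw, one_pow, one_mul]
  exact div_le_div_of_nonneg_right hm (norm_nonneg _)

lemma exists_primes (L : ℝ) : ∃ P : Finset ℕ, (∀ p ∈ P, p.Prime) ∧ L ≤ ∑ p ∈ P, (1 / p : ℝ) := by
  have := (not_summable_iff_tendsto_nat_atTop_of_nonneg fun n => Set.indicator_nonneg
    (fun _ _ => by positivity) n).1 not_summable_one_div_on_primes
  obtain ⟨N, hN⟩ := (this.eventually_ge_atTop L).exists
  refine ⟨(range N).filter Nat.Prime, fun p hp => (mem_filter.1 hp).2, hN.trans (le_of_eq ?_)⟩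
  rw [sum_filter]
  exact sum_congr rfl fun n _ => by simp [Set.indicator_apply]

/-- the orthogonality criterion of Daboussi and Katai in short intervals -/
lemma null_irr {f : ℕ → ℂ} (h1 : ∀ n, ‖f n‖ ≤ 1) (hm : ∀ m n, f (m * n) = f m * f n) {z : ℂ}
    (hz : ‖z‖ = 1) (hi : ∀ j, 0 < j → z ^ j ≠ 1) : Null fun n => f n * z ^ n := fun ε hε => by
  obtain ⟨P, hP, hl⟩ := exists_primes (6 / ε ^ 2)
  set l := ∑ p ∈ P, (1 / p : ℝ) with hl'
  have l0 : 0 < l := lt_of_lt_of_le (by positivity) hl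
  set b := fun n => f n * z ^ n with hb
  have b1 : ∀ n, ‖b n‖ ≤ 1 := fun n => by simp [hb, hz, h1]
  have bb : Bdd b := ⟨1, b1⟩
  have bf : Bdd f := ⟨1, h1⟩
  set K := ∑ p ∈ P, ∑ q ∈ P, 2 * (p + q) / ‖1 - z ^ p * conj (z ^ q)‖ with hK
  filter_upwards [(tendsto_natCast_atTop_atTop.const_mul_atTop l0).eventually_ge_atTop K] with H hH
  let Θ : ℕ → ℂ := fun y => ∑ j ∈ range H, conj (win b H (y - j))
  have t1 : ∀ y, ‖Θ y‖ ≤ H ^ 2 := fun y => (norm_sum_le_of_le _ (n := fun _ => (H : ℝ))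
    fun j _ => by rw [Complex.norm_conj]; exact norm_win b1 _ _).trans (by simp [sq])
  have bt : Bdd Θ := ⟨_, t1⟩
  have t2 : ∀ y, H ≤ y → ∀ p : ℕ, ‖Θ (y + p) - Θ y‖ ≤ 2 * p * H := fun y hy p => by
    induction p with
    | zero => simp
    | succ p ih =>
      have a := sum_range_succ (fun j => conj (win b H (y + p + 1 - j))) H
      rw [sum_range_succ'] at a
      simp only [Nat.add_sub_add_right, Nat.sub_zero] at a
      have e : Θ (y + (p + 1)) - Θ y = Θ (y + p) - Θ y +
          (conj (win b H (y + p + 1)) - conj (win b H (y + p + 1 - H))) := by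
        simp only [Θ, ← add_assoc]; linear_combination -a
      rw [e]
      refine (norm_add_le_of_le ih (norm_sub_le_of_le ((Complex.norm_conj _).trans_le
        (norm_win b1 _ _)) ((Complex.norm_conj _).trans_le (norm_win b1 _ _)))).trans (le_of_eq ?_)
      push_cast; ring
  have e1 : en b H = Ex fun y => (b y * Θ y).re := by
    have c : ∀ j, Bdd fun y => (b y * conj (win b H (y - j))).re := fun j =>
      (bb.mul ((bb.win H).comp _).conj).re
    simp only [Θ, mul_sum, Complex.re_sum]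
    rw [Ex_sum fun j _ => c j, sum_congr rfl fun j _ => (Ex_shift (c j) j).symm,
      ← Ex_sum fun j _ => (c j).comp _, en]
    simp only [Nat.add_sub_cancel, ← Complex.re_sum, ← sum_mul]
    congr 1
    funext n
    rw [← win, Complex.mul_conj, Complex.ofReal_re, Complex.normSq_eq_norm_sq]
  let V : ℕ → ℕ → ℂ := fun p m => f p / p * (z ^ (p * m) * Θ (p * m))
  have bz : Bdd fun n => z ^ n := ⟨1, fun n => by simp [hz]⟩
  have bV : ∀ p, Bdd (V p) := fun p => (Bdd.const _).mul ((bz.mul bt).comp _)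
  have bR : Bdd fun y => (b y * Θ y).re := (bb.mul bt).re
  have bS : Bdd fun m => (f m * ∑ p ∈ P, V p m).re := (bf.mul (Bdd.sum fun p _ => bV p)).re
  have bW : ∀ p q, Bdd fun m => (V p m * conj (V q m)).re := fun p q => ((bV p).mul (bV q).conj).re
  have e2 : l * en b H = Ex (fun m => (f m * ∑ p ∈ P, V p m).re) - Ex fun y =>
      (∑ p ∈ P, ((if p ∣ y then 1 else 0) - 1 / p : ℝ)) * (b y * Θ y).re := by
    simp only [sum_sub_distrib, sub_mul, sum_mul, ite_mul, one_mul, zero_mul, mul_sum,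
      Complex.re_sum]
    rw [Ex_sub (by fun_prop) (by fun_prop), Ex_sum fun _ _ => by fun_prop,
      Ex_sum fun _ _ => by fun_prop, Ex_sum fun _ _ => by fun_prop,
      sum_congr rfl fun p hp => Ex_dvd bR (hP p hp).pos, 
      sum_congr rfl fun (p : ℕ) _ => Ex_mul bR (1 / p),
      ← sum_mul, e1, ← sub_add, ← sum_sub_distrib, sum_eq_zero fun p hp => ?_, zero_add]
    rw [← Ex_mul (bR.comp _), sub_eq_zero]
    congr 1
    funext m
    rw [← Complex.re_ofReal_mul]
    simp only [V, hb, hm]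
    congr 1
    push_cast; ring
  have a1 := (Ex_cs (f := fun y => ∑ p ∈ P, ((if p ∣ y then 1 else 0) - 1 / p : ℝ)) (by fun_prop)
    bR).trans (mul_le_mul (tk_mean hP) (Ex_le (c := (H ^ 2) ^ 2) (bR.pow 2) fun y => by
      rw [← sq_abs]
      refine pow_le_pow_left₀ (abs_nonneg _) ((Complex.abs_re_le_norm _).trans ?_) 2
      simpa using norm_mul_le_of_le (b1 y) (t1 y))
      (Ex_nonneg (bR.pow 2) fun _ => sq_nonneg _) l0.le)
  have n1 : ∀ p ∈ P, ‖f p / p‖ ≤ 1 / p := fun p _ => by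
    rw [norm_div, Complex.norm_natCast]; exact div_le_div_of_nonneg_right (h1 p) (Nat.cast_nonneg p)
  have n2 : ∀ p ∈ P, (1 / p : ℝ) ≤ 1 := fun p hp =>
    (div_le_one (by exact_mod_cast (hP p hp).pos)).2 (by exact_mod_cast (hP p hp).one_le)
  have a2 : Ex (fun m => (f m * ∑ p ∈ P, V p m).re) ^ 2 ≤ l * (H ^ 2) ^ 2 + K * H ^ 3 := by
    refine (Ex_sq bS).trans ((Ex_mono (bS.pow 2)
      (Bdd.sum (s := P) fun p _ => Bdd.sum (s := P) fun q _ => bW p q) fun m => ?_).trans ?_)
    · simp only [← Complex.re_sum, ← mul_sum, ← sum_mul, ← map_sum]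
      rw [Complex.mul_conj, Complex.ofReal_re, Complex.normSq_eq_norm_sq, ← sq_abs]
      refine pow_le_pow_left₀ (abs_nonneg _) ((Complex.abs_re_le_norm _).trans ?_) 2
      simpa using norm_mul_le_of_le (h1 m) le_rfl
    · rw [Ex_sum fun p _ => Bdd.sum fun q _ => bW p q, hl', hK, sum_mul, sum_mul, ← sum_add_distrib]
      refine sum_le_sum fun p hp => ?_
      rw [Ex_sum fun q _ => bW p q, sum_mul]
      refine (sum_le_sum (g := fun q => (if p = q then 1 / p * (H ^ 2) ^ 2 else 0 : ℝ) +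
        2 * (p + q) / ‖1 - z ^ p * conj (z ^ q)‖ * H ^ 3) fun q hq => ?_).trans (by
          rw [sum_add_distrib, sum_ite_eq, if_pos hp])
      split_ifs with c
      · subst c
        refine le_add_of_le_of_nonneg (Ex_le (bW p p) fun m => ?_) (by positivity)
        have : ‖V p m‖ ≤ 1 / p * H ^ 2 :=
          norm_mul_le_of_le (n1 p hp) (by simpa [hz] using t1 (p * m))
        have a := pow_le_pow_left₀ (norm_nonneg _) this 2
        rw [Complex.mul_conj, Complex.ofReal_re, Complex.normSq_eq_norm_sq]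
        refine a.trans ?_
        rw [mul_pow]
        refine mul_le_mul_of_nonneg_right ?_ (by positivity)
        nlinarith [n2 p hp, (by positivity : (0 : ℝ) ≤ 1 / p)]
      · have zc : ∀ k, z ^ k * conj (z ^ k) = 1 := fun k => by
          rw [Complex.mul_conj, Complex.normSq_eq_norm_sq]; simp [hz]
        have z0 : ∀ k, z ^ k ≠ 0 := fun k e => by simpa [e] using zc k
        have := osc_mean (w := z ^ p * conj (z ^ q)) (by simp [hz]) (fun e => by
            have e2 : z ^ p = z ^ q := by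
              have := congrArg (· * z ^ q) e
              simpa only [mul_assoc, mul_comm (conj (z ^ q)), zc, mul_one, one_mul] using this
            rcases lt_or_gt_of_ne c with o | o
            · refine hi (q - p) (by omega) (mul_left_cancel₀ (z0 p) ?_)
              rw [← pow_add, mul_one, e2]; congr 1; omega
            · refine hi (p - q) (by omega) (mul_left_cancel₀ (z0 q) ?_)
              rw [← pow_add, mul_one, ← e2]; congr 1; omega)
          (G := fun m => f p / p * conj (f q / q) * (Θ (p * m) * conj (Θ (q * m))))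
          ((Bdd.const _).mul ((bt.comp _).mul (bt.comp _).conj)) (D := 2 * (p + q) * H ^ 3) (by
            filter_upwards [eventually_ge_atTop H] with m hm
            have u1 := t2 (p * m) (hm.trans (Nat.le_mul_of_pos_left _ (hP p hp).pos)) p
            have u2 := t2 (q * m) (hm.trans (Nat.le_mul_of_pos_left _ (hP q hq).pos)) q
            rw [← Complex.norm_conj, map_sub] at u2
            have u3 := t1 (q * m + q)
            rw [← Complex.norm_conj] at u3
            have u4 := norm_mul_le_of_le ((n1 p hp).trans (n2 p hp))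
              ((Complex.norm_conj _).trans_le ((n1 q hq).trans (n2 q hq)))
            rw [← mul_sub, Nat.mul_succ, Nat.mul_succ, show Θ (p * m + p) * conj (Θ (q * m + q)) -
              Θ (p * m) * conj (Θ (q * m)) = (Θ (p * m + p) - Θ (p * m)) * conj (Θ (q * m + q)) +
              Θ (p * m) * (conj (Θ (q * m + q)) - conj (Θ (q * m))) by ring]
            refine (norm_mul_le_of_le u4 (norm_add_le_of_le (norm_mul_le_of_le u1 u3)
              (norm_mul_le_of_le (t1 _) u2))).trans (le_of_eq (by ring)))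
        rw [zero_add, div_mul_eq_mul_div]
        refine le_trans (le_of_eq ?_) this
        congr 1
        funext m
        simp only [V, map_mul, pow_mul, mul_pow, map_pow]
        ring_nf
  have a3 : K * H ^ 3 ≤ l * (H ^ 2) ^ 2 :=
    (mul_le_mul_of_nonneg_right hH (by positivity)).trans (le_of_eq (by ring))
  rw [div_le_iff₀ (by positivity)] at hl
  rw [← hl'] at a1
  refine le_of_mul_le_mul_left (abs_le_of_sq_le_sq' ?_ (by positivity)).2 l0
  have a4 := mul_le_mul_of_nonneg_left hl (by positivity : 0 ≤ l * (H ^ 2) ^ 2)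
  rw [e2]
  nlinarith [sq_nonneg (Ex (fun m => (f m * ∑ p ∈ P, V p m).re) + Ex fun y =>
      (∑ p ∈ P, ((if p ∣ y then 1 else 0) - 1 / p : ℝ)) * (b y * Θ y).re)]

end Pool.Agent.MP_f0209c_nt.Ch
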