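import Pool.Agent.MP_f0209c_nt.Ch.Zf
import Pool.Agent.MP_f0209c_nt.Ch.Mvt

/-! Sums over primes. -/

namespace Pool.Agent.MP_f0209c_nt.Ch
open Complex Filter Topology Finset ComplexConjugate DirichletCharacter

/-- `p ^ (-1 - σ)` on primes -/
noncomputable def ep (σ : ℝ) (n : ℕ) : ℝ :=
  if n.Prime then Real.exp (-(σ * Real.log n)) / n else 0

lemma ep_nonneg (σ : ℝ) (n : ℕ) : 0 ≤ ep σ n := by unfold ep; split_ifs <;> positivity

lemma ep_anti {a b : ℝ} (h : a ≤ b) (n : ℕ) : ep b n ≤ ep a n := by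
  have := Real.log_natCast_nonneg n
  unfold ep; split_ifs
  · gcongr
  · exact le_rfl

lemma prime_log {q : ℕ} [NeZero q] (χ : DirichletCharacter ℂ q) {σ : ℝ} (hσ : 0 < σ) (t : ℝ) :
    ∃ S, HasSum (fun n => ep σ n * (χ n * ee t n).re) S ∧
      |S - Real.log ‖LFunction χ (1 + σ + t * I)‖| ≤ 2 := by
  set s : ℂ := 1 + σ + t * I with hs
  have s1 : 1 < s.re := by simp [hs, hσ]
  let x : Nat.Primes → ℂ := fun p => χ p * (p : ℂ) ^ (-s)
  have n1 : ∀ p : Nat.Primes, ‖x p‖ ≤ 1 / (p : ℕ) := fun p => by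
    have p1 : (1 : ℝ) ≤ (p : ℕ) := by exact_mod_cast p.2.one_le
    refine (norm_mul_le_of_le (χ.norm_le_one _) (norm_natCast_cpow_of_pos p.2.pos _).le).trans ?_
    rw [one_mul, one_div, ← Real.rpow_neg_one]
    exact Real.rpow_le_rpow_of_exponent_le p1 (by simp [hs, hσ.le])
  have n2 : ∀ p : Nat.Primes, ‖-log (1 - x p) - x p‖ ≤ 1 / ((p : ℕ) : ℝ) ^ 2 := fun p => by
    have p2 : (2 : ℝ) ≤ (p : ℕ) := by exact_mod_cast p.2.two_le
    have a := (n1 p).trans (one_div_le_one_div_of_le two_pos p2)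
    have b := norm_log_one_add_sub_self_le (z := -x p) (by rw [norm_neg]; linarith)
    rw [norm_neg, ← sub_eq_add_neg, ← norm_neg, neg_sub, sub_eq_neg_add, ← sub_eq_add_neg] at b
    have c : (1 - ‖x p‖)⁻¹ ≤ 2 := by rw [inv_le_comm₀ (by linarith) two_pos]; linarith
    have d := pow_le_pow_left₀ (norm_nonneg _) (n1 p) 2
    rw [div_pow, one_pow] at d
    nlinarith [sq_nonneg ‖x p‖]
  have z2 := hasSum_zeta_two.summable.subtype {p | p.Prime}
  have sx : Summable x := ((summable_dirichletSummand χ s1).subtype {p | p.Prime}).of_norm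
  have sy : Summable fun p => -log (1 - x p) - x p := z2.of_norm_bounded n2
  have e := LSeries_eulerProduct_exp_log χ s1
  rw [← LFunction_eq_LSeries χ s1, ← tsum_congr fun p => sub_add_cancel (-log (1 - x p)) (x p),
    sy.tsum_add sx] at e
  refine ⟨(∑' p, x p).re, ?_, ?_⟩
  · refine (hasSum_subtype_iff_of_support_subset (s := {p | p.Prime}) fun n hn =>
      by_contra fun h : ¬ n.Prime => hn (by simp [ep, h])).1 ?_
    refine (congrArg (fun f => HasSum f _) (funext fun p => ?_)).mpr (hasSum_re sx.hasSum)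
    have p0 : (p : ℕ).Prime := p.2
    change ep σ p * _ = (χ _ * ((p : ℕ) : ℂ) ^ (-s)).re
    rw [← re_ofReal_mul, ep, if_pos p0, pw_nat _ p0.ne_zero, ee, ← Real.exp_log
      (Nat.cast_pos.2 p0.pos : (0 : ℝ) < (p : ℕ)), Real.log_exp, ← Real.exp_sub, ofReal_exp,
      mul_left_comm, ← exp_add, hs]
    push_cast; ring_nf
  · rw [← e, norm_exp, Real.log_exp, add_re, sub_add_cancel_right, abs_neg]
    refine (abs_re_le_norm _).trans ((tsum_of_norm_bounded z2.hasSum n2).trans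
      ((hasSum_zeta_two.summable.tsum_subtype_le _ _ fun _ => by positivity).trans ?_))
    rw [hasSum_zeta_two.tsum_eq]
    nlinarith [Real.pi_lt_d2, Real.pi_pos]

lemma zeta_log {σ : ℝ} (hσ : 0 < σ) (t : ℝ) : ∃ S, HasSum (fun n => ep σ n * (ee t n).re) S ∧
    |S - Real.log ‖riemannZeta (1 + σ + t * I)‖| ≤ 2 := by
  simpa [MulChar.one_apply (isUnit_of_subsingleton _)] using
    prime_log (1 : DirichletCharacter ℂ 1) hσ t

lemma compact_log {g : ℂ → ℂ} (hg : Differentiable ℂ g) (h : ∀ s : ℂ, 1 ≤ s.re → g s ≠ 0) :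
    ∃ C, ∀ σ t : ℝ, 0 ≤ σ → σ ≤ 1 → |t| ≤ 1 → |Real.log ‖g (1 + σ + t * I)‖| ≤ C := by
  obtain ⟨C, hC⟩ := ((isCompact_Icc (a := (1 : ℝ)) (b := 2)).reProdIm
    (isCompact_Icc (a := (-1 : ℝ)) (b := 1))).exists_bound_of_continuousOn
    (hg.continuous.norm.continuousOn.log fun s hs => norm_ne_zero_iff.2 (h s hs.1.1))
  exact ⟨C, fun σ t a b c => hC _ ⟨⟨by simpa using a, by simp; linarith⟩, by simpa using abs_le.1 c⟩⟩

lemma triv_ne (q : ℕ) [NeZero q] (s : ℂ) (hs : 1 ≤ s.re) : LFunctionTrivChar₁ q s ≠ 0 := by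
  rcases eq_or_ne s 1 with rfl | e
  · exact LFunctionTrivChar₁_apply_one_ne_zero q
  · rw [LFunctionTrivChar₁, Function.update_of_ne e]
    exact mul_ne_zero (sub_ne_zero.2 e) (LFunction_ne_zero_of_one_le_re _ (.inr e) hs)

lemma triv_log (q : ℕ) [NeZero q] {σ : ℝ} (hσ : 0 < σ) (t : ℝ) :
    Real.log ‖LFunctionTrivChar₁ q (1 + σ + t * I)‖ = Real.log ‖(σ + t * I : ℂ)‖ +
      Real.log ‖LFunction (1 : DirichletCharacter ℂ q) (1 + σ + t * I)‖ := by
  have e : (1 + σ + t * I : ℂ) ≠ 1 := fun e => by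
    have := congrArg re e
    simp at this; linarith
  rw [LFunctionTrivChar₁, Function.update_of_ne e, norm_mul, Real.log_mul
    (norm_ne_zero_iff.2 (sub_ne_zero.2 e)) (norm_ne_zero_iff.2
      (LFunction_ne_zero_of_one_le_re _ (.inr e) (by simp [hσ.le])))]
  congr 3
  ring

lemma L_ratio {q : ℕ} [NeZero q] (χ : DirichletCharacter ℂ q) : ∃ C, ∀ a b t : ℝ, 0 < a → a ≤ b →
    b ≤ 1 → |t| ≤ 1 → Real.log ‖LFunction χ (1 + b + t * I)‖ ≤
      Real.log ‖LFunction χ (1 + a + t * I)‖ + C := by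
  rcases eq_or_ne χ 1 with rfl | e
  · obtain ⟨C, hC⟩ := compact_log (differentiable_LFunctionTrivChar₁ q) (triv_ne q)
    refine ⟨2 * C, fun a b t a0 ab b1 t1 => ?_⟩
    have h1 := abs_le.1 (hC a t a0.le (by linarith) t1)
    have h2 := abs_le.1 (hC b t (by linarith) b1 t1)
    rw [triv_log q a0] at h1
    rw [triv_log q (by linarith)] at h2
    have : Real.log ‖(a + t * I : ℂ)‖ ≤ Real.log ‖(b + t * I : ℂ)‖ := by
      refine Real.log_le_log (norm_pos_iff.2 fun e => ?_) ?_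
      · have := congrArg re e
        simp at this; linarith
      · rw [norm_add_mul_I, norm_add_mul_I]; gcongr
    linarith
  · obtain ⟨C, hC⟩ := compact_log (differentiable_LFunction e) fun s hs =>
      LFunction_ne_zero_of_one_le_re χ (.inl e) hs
    refine ⟨2 * C, fun a b t a0 ab b1 t1 => ?_⟩
    linarith [abs_le.1 (hC a t a0.le (by linarith) t1), abs_le.1 (hC b t (by linarith) b1 t1)]

lemma ep_sum : ∃ C, 0 ≤ C ∧ ∀ σ : ℝ, 0 < σ → σ ≤ 1 → ∃ S, HasSum (ep σ) S ∧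
    -Real.log σ - C ≤ S ∧ S ≤ -Real.log σ + C := by
  obtain ⟨C, hC⟩ := compact_log (differentiable_LFunctionTrivChar₁ 1) (triv_ne 1)
  refine ⟨|C| + 2, by positivity, fun σ a b => ?_⟩
  obtain ⟨S, h1, h2⟩ := zeta_log a 0
  have h3 := abs_le.1 (hC σ 0 a.le b (by simp))
  rw [triv_log 1 a, LFunction_modOne_eq] at h3
  simp only [ee, ofReal_zero, mul_zero, neg_zero, zero_mul, exp_zero, one_re, mul_one, add_zero,
    norm_real, Real.norm_of_nonneg a.le] at h1 h2 h3
  exact ⟨S, h1, by linarith [abs_le.1 h2, le_abs_self C], by linarith [abs_le.1 h2, le_abs_self C]⟩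

/-- primes with logarithm in `(a, b]` -/
noncomputable def pr (a b : ℝ) : Finset ℕ :=
  (Icc 1 ⌊Real.exp b⌋₊).filter fun p => p.Prime ∧ a < Real.log p

lemma mem_pr {a b : ℝ} {p : ℕ} : p ∈ pr a b ↔ p.Prime ∧ a < Real.log p ∧ Real.log p ≤ b := by
  rw [pr, mem_filter, mem_Icc, Nat.le_floor_iff (Real.exp_pos _).le]
  refine ⟨fun h => ⟨h.2.1, h.2.2, ?_⟩, fun h => ⟨⟨h.1.pos, ?_⟩, h.1, h.2.1⟩⟩
  · exact (Real.log_le_iff_le_exp (Nat.cast_pos.2 h.2.1.pos)).2 h.1.2
  · exact (Real.log_le_iff_le_exp (Nat.cast_pos.2 h.1.pos)).1 h.2.2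

lemma card_pr (a b : ℝ) : (pr a b).card ≤ Real.exp b :=
  le_trans (by exact_mod_cast (card_filter_le _ _).trans (by simp))
    (Nat.floor_le (Real.exp_pos b).le)

lemma ep_tail {a : ℝ} {n : ℕ} (h : 1 ≤ a * Real.log n) : ep a n ≤ 2 * (ep (a / 2) n - ep a n) := by
  unfold ep; split_ifs
  · rw [← sub_div, ← mul_div_assoc, show -(a / 2 * Real.log n) = -(a * Real.log n) +
      a * Real.log n / 2 by ring, Real.exp_add]
    gcongr
    nlinarith [Real.add_one_le_exp (a * Real.log n / 2), Real.exp_pos (-(a * Real.log n))]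
  · simp

lemma hasSum_fin (P : Finset ℕ) (g : ℕ → ℝ) :
    HasSum (fun n => if n ∈ P then g n else 0) (∑ n ∈ P, g n) := by
  rw [sum_congr rfl (g := fun n => if n ∈ P then g n else 0) fun n hn => (if_pos hn).symm]
  exact hasSum_sum_of_ne_finset_zero fun n hn => if_neg hn

lemma mertens : ∃ C, 0 ≤ C ∧ ∀ a b : ℝ, 2 ≤ a → a ≤ b →
    Real.log b - Real.log a - C ≤ ∑ p ∈ pr a b, (1 / p : ℝ) := by
  obtain ⟨C, C0, hC⟩ := ep_sum
  refine ⟨12 * C + 5, by positivity, fun a b a2 ab => ?_⟩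
  have a0 : 0 < a := by linarith
  have b0 : 0 < b := by linarith
  obtain ⟨S1, s1, t1⟩ := hC (1 / b) (by positivity) ((div_le_one b0).2 (by linarith))
  obtain ⟨S2, s2, t2⟩ := hC (1 / a) (by positivity) ((div_le_one a0).2 (by linarith))
  obtain ⟨S3, s3, t3⟩ := hC (1 / b / 2) (by positivity) (by
    rw [div_div]; exact (div_le_one (by positivity)).2 (by linarith))
  obtain ⟨S4, s4, t4⟩ := hC (2 / a) (by positivity) ((div_le_one a0).2 a2)
  have := hasSum_le (fun n => ?_) (((s1.sub s2).sub ((s3.sub s1).mul_left 2)).sub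
    ((s2.sub s4).mul_left 3)) (hasSum_fin (pr a b) fun p => 1 / p)
  · rw [Real.log_div (by positivity) two_ne_zero] at t3
    rw [Real.log_div two_ne_zero a0.ne'] at t4
    rw [one_div, Real.log_inv] at t1 t2 t3
    linarith [Real.log_two_lt_d9]
  have u1 := ep_anti (show 1 / b / 2 ≤ 1 / b from half_le_self (by positivity)) n
  have u2 := ep_anti (show 1 / a ≤ 2 / a by gcongr; norm_num) n
  have u3 := ep_nonneg (1 / a) n
  have u4 : ep (1 / b) n ≤ ep 0 n := ep_anti (by positivity) n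
  by_cases np : n.Prime
  swap
  · simp [ep, np, mem_pr]
  have u5 : ep 0 n = 1 / n := by simp [ep, np]
  split_ifs with c
  · linarith
  · rw [mem_pr, not_and, not_and_or, not_lt, not_le] at c
    rcases c np with c | c
    · have : ep 0 n - ep (1 / a) n ≤ 3 * (ep (1 / a) n - ep (2 / a) n) := by
        simp only [ep, if_pos np, ← sub_div, ← mul_div_assoc]
        rw [show -(2 / a * Real.log n) = -(1 / a * Real.log n) + -(1 / a * Real.log n) by ring,
          Real.exp_add, zero_mul, neg_zero, Real.exp_zero]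
        have l0 := Real.log_natCast_nonneg n
        have v1 : Real.exp (-(1 / a * Real.log n)) ≤ 1 :=
          Real.exp_le_one_iff.2 (neg_nonpos.2 (by positivity))
        have v2 := Real.exp_neg_one_gt_d9.le.trans (Real.exp_le_exp.2
          (show -1 ≤ -(1 / a * Real.log n) by rw [neg_le_neg_iff, one_div_mul_eq_div, div_le_one a0]; exact c))
        gcongr
        nlinarith
      linarith
    · linarith [ep_tail (a := 1 / b) (n := n) (by rw [one_div_mul_eq_div, one_le_div b0]; exact c.le)]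

lemma cell_le {P : Finset ℕ} {x : ℝ} (hx : 0 < x)
    (h : ∀ p ∈ P, p.Prime ∧ x ≤ Real.log p ∧ Real.log p ≤ x + 1) : ∑ p ∈ P, (1 / p : ℝ) ≤ 4 / x := by
  have a := Chebyshev.theta_le_log4_mul_x (Real.exp_pos (x + 1)).le
  have b : ∑ p ∈ P, Real.log p ≤ Chebyshev.theta (Real.exp (x + 1)) :=
    sum_le_sum_of_subset_of_nonneg (fun p hp => mem_filter.2 ⟨mem_Ioc.2 ⟨(h p hp).1.pos,
      Nat.le_floor ((Real.log_le_iff_le_exp (Nat.cast_pos.2 (h p hp).1.pos)).1 (h p hp).2.2)⟩,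
      (h p hp).1⟩) fun p _ _ => Real.log_natCast_nonneg p
  have E := Real.exp_pos x
  refine (sum_le_sum (g := fun p : ℕ => Real.log p / (x * Real.exp x)) fun p hp => ?_).trans ?_
  · have p0 : (0 : ℝ) < p := Nat.cast_pos.2 (h p hp).1.pos
    have := (Real.le_log_iff_exp_le p0).1 (h p hp).2.1
    rw [div_le_div_iff₀ p0 (by positivity), one_mul]
    exact mul_le_mul (h p hp).2.1 this E.le (by linarith [(h p hp).2.1])
  · rw [← sum_div, div_le_div_iff₀ (by positivity) hx, mul_comm x, ← mul_assoc]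
    refine mul_le_mul_of_nonneg_right (b.trans (a.trans ?_)) hx.le
    rw [Real.exp_add, show (4 : ℝ) = 2 ^ 2 by norm_num, Real.log_pow, mul_comm (Real.exp x),
      ← mul_assoc]
    refine mul_le_mul_of_nonneg_right ?_ E.le
    push_cast
    nlinarith [Real.exp_one_lt_d9, Real.log_two_lt_d9, Real.exp_pos 1]

lemma power_trick {z : ℂ} (hz : ‖z‖ = 1) (r : ℕ) : 1 - (z ^ r).re ≤ r ^ 2 * (1 - z.re) := by
  have e : ∀ w : ℂ, ‖w‖ = 1 → ‖1 - w‖ ^ 2 = 2 * (1 - w.re) := fun w hw => by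
    have := normSq_eq_norm_sq w
    rw [hw, normSq_apply] at this
    rw [← normSq_eq_norm_sq, normSq_apply]
    simp; linarith
  have a : ‖1 - z ^ r‖ ≤ r * ‖1 - z‖ := by
    rw [← mul_neg_geom_sum, norm_mul, mul_comm]
    refine mul_le_mul_of_nonneg_right ((norm_sum_le_of_le _ (n := fun _ => 1) fun i _ => ?_).trans
      (by simp)) (norm_nonneg _)
    simp [hz]
  have b := pow_le_pow_left₀ (norm_nonneg _) a 2
  rw [mul_pow, e _ hz, e _ (by simp [hz])] at b
  linarith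

/-- the twisted Liouville function does not pretend to be `n ^ (i t)` -/
theorem repulse {δ : ℝ} (h : QRH δ) (h0 : 0 < δ) (h1 : δ ≤ 1 / 2) {q : ℕ} [NeZero q]
    (χ : DirichletCharacter ℂ q) : ∃ c C : ℝ, 0 < c ∧ ∀ a b y t : ℝ, 0 < a → a ≤ b → b ≤ δ / 2 →
      1 ≤ a * y → b * √(Lg t) ≤ 2 →
      ∑ p ∈ pr 0 y, (ep a p - ep b p) ≤ Real.log b - Real.log a + C ∧
      c * (Real.log b - Real.log a) - C ≤
        ∑ p ∈ pr 0 y, (ep a p - ep b p) * (1 + (χ p * ee t p).re) := by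
  obtain ⟨C, C0, hC⟩ := ep_sum
  obtain ⟨C1, hC1⟩ := L_ratio χ
  obtain ⟨C2, C3, hC2⟩ := zeta_ratio h h0 h1
  set r := 2 * q.totient with hr
  have r2 : 2 ≤ r := by have := Nat.totient_pos.2 (NeZero.pos q); omega
  have r3 : (2 : ℝ) ≤ r := by exact_mod_cast r2
  refine ⟨1 / r ^ 2, 10 * C + 9 + |C1| + C2 * (2 * r), by positivity,
    fun a b y t a0 ab b1 ay bt => ?_⟩
  obtain ⟨S1, s1, t1⟩ := hC a a0 (by linarith)
  obtain ⟨S2, s2, t2⟩ := hC b (by linarith) (by linarith)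
  obtain ⟨S3, s3, t3⟩ := hC (a / 2) (by positivity) (by linarith)
  rw [Real.log_div a0.ne' two_ne_zero] at t3
  have w0 : ∀ n, 0 ≤ ep a n - ep b n := fun n => sub_nonneg.2 (ep_anti ab n)
  have k0 := abs_nonneg C1
  have k1 : 0 ≤ C2 * (2 * r) := by positivity
  have lab := Real.log_le_log a0 ab
  refine ⟨(sum_le_hasSum _ (fun n _ => w0 n) (s1.sub s2)).trans (by linarith), ?_⟩
  obtain ⟨U1, u1, v1⟩ := prime_log χ a0 t
  obtain ⟨U2, u2, v2⟩ := prime_log χ (a0.trans_le ab) t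
  have nx : ∀ n : ℕ, |(χ n * ee t n).re| ≤ 1 := fun n => (abs_re_le_norm _).trans (by
    rw [norm_mul, norm_ee, mul_one]; exact χ.norm_le_one _)
  have a1 := hasSum_le (fun n => ?_) (((s1.sub s2).add (u1.sub u2)).sub ((s3.sub s1).mul_left 4))
    (hasSum_fin (pr 0 y) fun p => (ep a p - ep b p) * (1 + (χ p * ee t p).re))
  swap
  · have u := ep_anti (show a / 2 ≤ a by linarith) n
    split_ifs with c
    · linarith
    by_cases np : n.Prime
    · have := ep_tail (a := a) (n := n) (ay.trans (mul_le_mul_of_nonneg_left (not_lt.1 fun e =>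
        c (mem_pr.2 ⟨np, np.log_pos, e.le⟩)) a0.le))
      nlinarith [w0 n, abs_le.1 (nx n), ep_nonneg b n]
    · simp [ep, np]
  refine le_trans ?_ a1
  have l2 := Real.log_two_lt_d9
  have c1 : 1 / (r : ℝ) ^ 2 ≤ 1 := (div_le_one (by positivity)).2 (by nlinarith)
  have c2 := mul_le_of_le_one_left (sub_nonneg.2 lab) c1
  rcases le_total |t| 1 with c | c
  · linarith [hC1 a b t a0 ab (by linarith) c, abs_le.1 v1, abs_le.1 v2, le_abs_self C1]
  obtain ⟨Z1, z1, y1⟩ := zeta_log a0 (r * t)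
  obtain ⟨Z2, z2, y2⟩ := zeta_log (a0.trans_le ab) (r * t)
  have a2 := hC2 a b (r * t) a0.le ab b1 (by rw [abs_mul, Nat.abs_cast]; nlinarith)
  have a3 : √(Lg (r * t)) ≤ r * √(Lg t) := by
    have L1 := one_le_Lg t
    refine Real.sqrt_le_iff.2 ⟨by positivity, ?_⟩
    rw [mul_pow, Real.sq_sqrt (by linarith)]
    refine (Real.log_le_log (by positivity) (show 3 + |r * t| ≤ r * (3 + |t|) by
      rw [abs_mul, Nat.abs_cast]; linarith)).trans ?_
    rw [Real.log_mul (by positivity) (by positivity), ← Lg]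
    nlinarith [Real.log_le_sub_one_of_pos (show (0 : ℝ) < r by linarith),
      mul_le_mul_of_nonneg_left L1 (show (0 : ℝ) ≤ r ^ 2 - 1 by nlinarith)]
  have a4 : C2 * (b * √(Lg (r * t))) ≤ C2 * (2 * r) := mul_le_mul_of_nonneg_left
    ((mul_le_mul_of_nonneg_left a3 (by linarith)).trans (by nlinarith)) C3
  have a5 := hasSum_le (fun n => ?_) (((s1.sub s2).sub (z1.sub z2)).mul_left (1 / (r : ℝ) ^ 2))
    ((s1.sub s2).add (u1.sub u2))
  · have K : Real.log b - Real.log a - (2 * C + 5 + C2 * (2 * r)) ≤ S1 - S2 - (Z1 - Z2) := by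
      linarith [abs_le.1 y1, abs_le.1 y2]
    have := mul_le_mul_of_nonneg_left K (show 0 ≤ 1 / (r : ℝ) ^ 2 by positivity)
    have := mul_le_of_le_one_left (show 0 ≤ 2 * C + 5 + C2 * (2 * r) by positivity) c1
    linarith
  have key : 1 - (ee (r * t) n).re ≤ r ^ 2 * (1 + (χ n * ee t n).re) := by
    by_cases u : IsUnit (n : ZMod q)
    · have e1 : χ n ^ q.totient = 1 := by
        obtain ⟨u, e⟩ := u
        rw [← e, ← map_pow, ← Units.val_pow_eq_pow_val, ZMod.pow_totient, Units.val_one, map_one]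
      have := power_trick (z := -(χ n * ee t n)) (by
        rw [norm_neg, norm_mul, norm_ee, mul_one]; exact χ.unit_norm_eq_one u.unit) r
      rw [neg_re, sub_neg_eq_add, Even.neg_pow ⟨q.totient, by omega⟩, mul_pow, hr, mul_comm 2,
        pow_mul, e1, one_pow, one_mul, mul_comm _ 2, ← hr, ee, ← exp_nat_mul] at this
      refine le_trans (le_of_eq ?_) this
      rw [ee]; push_cast; ring_nf
    · have := abs_le.1 ((abs_re_le_norm _).trans_eq (norm_ee (r * t) n))
      rw [χ.map_nonunit u]; simp; nlinarith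
  have := mul_le_mul_of_nonneg_left key (w0 n)
  rw [one_div_mul_eq_div, div_le_iff₀ (by positivity)]
  linarith

end Pool.Agent.MP_f0209c_nt.Ch
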