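import Pool.Agent.MP_f0209c_nt.Ch.Jest

/-! Diagonal, nearly diagonal and distant terms of the bilinear form. -/

namespace Pool.Agent.MP_f0209c_nt.Ch
open Complex Filter Topology Finset ComplexConjugate

lemma split_sum {G : ℕ → ℂ} (G0 : G 0 = 0) {n N : ℕ} (hn : n ≤ N) :
    ∑ m ∈ range (n + N + 1), G m = G n + ∑ k ∈ Ioc 0 N, (G (n + k) + G (n - k)) := by
  have a : ∀ N, ∑ i ∈ range (N + 1), G (n + i) = G n + ∑ k ∈ Ioc 0 N, G (n + k) := fun N => by
    induction N with
    | zero => simp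
    | succ N ih => rw [sum_range_succ, ih, sum_Ioc_succ_top (Nat.zero_le _), add_assoc]
  have b : ∑ k ∈ Ioc 0 N, G (n - k) = ∑ m ∈ range n, G m := by
    rw [← sum_subset (Ioc_subset_Ioc_right hn) fun k h1 h2 => by
      rw [Nat.sub_eq_zero_of_le (by simp at h1 h2; omega), G0]]
    refine sum_nbij' (fun k => n - k) (fun k => n - k) ?_ ?_ ?_ ?_ fun _ _ => rfl <;>
      simp <;> omega
  rw [add_assoc, sum_range_add, a, sum_add_distrib, b]
  ring

lemma log_diff {n m : ℝ} (hn : 0 < n) (hm : 0 < m) :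
    (n - m) / n ≤ Real.log n - Real.log m ∧ Real.log n - Real.log m ≤ (n - m) / m := by
  have a := Real.log_le_sub_one_of_pos (div_pos hn hm)
  have b := Real.log_le_sub_one_of_pos (div_pos hm hn)
  rw [Real.log_div hn.ne' hm.ne'] at a
  rw [Real.log_div hm.ne' hn.ne'] at b
  rw [sub_div, sub_div, div_self hn.ne', div_self hm.ne']
  constructor <;> linarith

/-- a term of the bilinear form -/
noncomputable def tt (T h τ : ℝ) (N n m : ℕ) : ℂ :=
  conj (rz h n) / n * (bc (rz h) N h m * jj T h τ (Real.log n - Real.log m))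

/-- the nearly diagonal main term -/
noncomputable def th (K n : ℕ) (u : ℝ) : ℝ := ∑ k ∈ Ioc 0 (K ^ 2),
  (lam n * lam (n + k) * -(FT (-(k * Real.exp u))).re +
    lam n * lam (n - k) * -(FT (k * Real.exp u)).re)

section
variable {T h τ : ℝ} (T1 : 8 ≤ T) (h0 : 0 ≤ h) (h2 : 24 * h ≤ 1) (t1 : |τ| ≤ T / 8) {N n : ℕ}
  (n1 : 1 ≤ n) (n2 : n ≤ N)

lemma norm_tt {m : ℕ} (m1 : m ≤ 2 * N) :
    ‖tt T h τ N n m‖ ≤ 2 * ‖jj T h τ (Real.log n - Real.log m)‖ / n := by
  have b : ‖bc (rz h) N h m‖ ≤ 2 := by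
    rcases eq_or_ne m 0 with rfl | m0
    · simp [bc_zero]
    rw [bc_rr h m0 m1]
    refine (norm_sub_le_of_le (norm_lam m) (show _ ≤ (1 : ℝ) from ?_)).trans (by norm_num)
    split_ifs <;> simp [norm_rr]
  rw [tt, div_mul_eq_mul_div, norm_div, Complex.norm_natCast, norm_mul, norm_conj]
  exact div_le_div_of_nonneg_right ((mul_le_of_le_one_left (norm_nonneg _) (norm_rr h n)).trans
    (norm_mul_le_of_le b le_rfl)) n.cast_nonneg

include T1 h0 h2 t1 n1

lemma tt_far {m : ℕ} (m1 : m ≤ 2 * N) {k : ℝ} (k0 : 0 < k) (hk : m ≠ 0 → |(n : ℝ) - m| = k) :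
    ‖tt T h τ N n m‖ ≤ 80 * n / T ^ 2 * (k ^ 2)⁻¹ := by
  rcases eq_or_ne m 0 with rfl | m0
  · rw [tt, bc_zero, zero_mul, mul_zero, norm_zero]; positivity
  have n0 : (0 : ℝ) < n := Nat.cast_pos.2 n1
  have m2 : (0 : ℝ) < m := Nat.cast_pos.2 (Nat.pos_of_ne_zero m0)
  refine (norm_tt m1).trans ?_
  by_cases c : |Real.log n - Real.log m| < 1 / 2
  swap
  · simp only [jj, Qi, if_neg c, mul_zero, intervalIntegral.integral_zero, norm_zero, zero_div]
    positivity
  have a : (m : ℝ) ≤ 2 * n := by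
    rw [← Real.log_le_log_iff m2 (by positivity), Real.log_mul two_ne_zero n0.ne']
    linarith [abs_lt.1 c, Real.log_two_gt_d9]
  have b : k / (2 * n) ≤ |Real.log n - Real.log m| := by
    rcases abs_eq k0.le |>.1 (hk m0) with e | e
    · refine le_abs.2 (Or.inl (le_trans ?_ (log_diff n0 m2).1))
      rw [e]; gcongr; linarith
    · refine le_abs.2 (Or.inr (le_trans ?_ ((log_diff m2 n0).1.trans_eq (neg_sub _ _).symm)))
      rw [show (m : ℝ) - n = k by linarith]; gcongr
  have b0 : 0 < k / (2 * n) := by positivity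
  have d := jj_decay T1 h0 h2 t1 (abs_pos.1 (b0.trans_le b))
  rw [mul_pow, ← sq_abs (_ - _)] at d
  calc _ ≤ 2 * (10 / (T ^ 2 * (k / (2 * n)) ^ 2)) / n := by
        gcongr; exact d.trans (by gcongr)
    _ = _ := by field_simp; norm_num

include n2

lemma tt_diag {c : ℝ} (hc : FT 0 = c) : ‖tt T h τ N n n - c * (exp (I * h * Real.log T / 2) *
    exp ((-1 + I * h) * Real.log n))‖ ≤ (24 * h + h * dl n) / n := by
  have n0 : n ≠ 0 := by omega
  have a := jj_near T1 h0 h2 t1 (x := 0) (x' := 0) (η := 0) (by simp) (by simp) zero_le_one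
  have l : (lam n : ℂ) * lam n = 1 := by rw [← ofReal_mul, lam_sq n0, ofReal_one]
  rw [mul_zero, hc, mul_zero, zero_add] at a
  rw [tt, bc_rr h n0 (by omega), if_pos n2, sub_zero, sub_self, pw_eq h (Nat.cast_pos.2 n1),
    ofReal_natCast, show ∀ r j e u : ℂ, r / n * (lam n * j) - c * (e * (u / n)) =
      (u * (j - e * c) + (r - lam n * u) * (lam n * j)) / n from fun r j e u => by
        linear_combination (u * j / n) * l, norm_div, Complex.norm_natCast]
  refine div_le_div_of_nonneg_right (norm_add_le_of_le ?_ ?_) n.cast_nonneg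
  · rwa [norm_mul, norm_eI, one_mul]
  · exact (norm_mul_le_of_le (conj_rr h0 n0) (norm_mul_le_of_le (norm_lam n)
      (norm_jj T1 h0 h2 t1 0))).trans_eq (by ring)

variable {R η ε : ℝ} (n3 : T ≤ n) (R1 : 8 * R ≤ T) (η0 : 2 * R / T * (1 + |τ|) + 4 * R ^ 2 / T ≤ η)
  (η1 : η ≤ 1) (hε : ‖exp (I * h * Real.log n) * exp (I * h * Real.log T / 2) + I‖ ≤ ε)
include n3 R1 η0 η1 hε

omit n2 in
lemma tt_near {m : ℕ} (m1 : m ≤ 2 * N) (hm : |(n : ℝ) - m| ≤ R) :
    ‖tt T h τ N n m - lam n * lam m / n * (-I * FT (T * ((n - m) / n)))‖ ≤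
      (h * dl n + (4 * η + 24 * h + ε) + if N < m then 3 else 0) / T := by
  have n0 : (0 : ℝ) < n := Nat.cast_pos.2 n1
  have R0 : 0 ≤ R := (abs_nonneg _).trans hm
  have b := abs_le.1 hm
  have m2 : T / 2 ≤ m := by linarith
  have m3 : (0 : ℝ) < m := by linarith
  have d0 := mul_nonneg h0 (dl_nonneg n)
  have ε0 : 0 ≤ ε := (norm_nonneg _).trans hε
  have η2 : 0 ≤ η := le_trans (by positivity) η0
  refine le_trans ?_ (div_le_div_of_nonneg_left (by positivity) (by linarith) n3)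
  split_ifs with c
  · refine (norm_sub_le_of_le ((norm_tt m1).trans (div_le_div_of_nonneg_right
      (mul_le_mul_of_nonneg_left (norm_jj T1 h0 h2 t1 _) zero_le_two) n0.le))
      (show _ ≤ 1 * 1 * 1 / (n : ℝ) from ?_)).trans ?_
    · rw [div_mul_eq_mul_div, norm_div, Complex.norm_natCast]
      exact div_le_div_of_nonneg_right (norm_mul_le_of_le (norm_mul_le_of_le (norm_lam n)
        (norm_lam m)) (by simpa using norm_FT _)) n0.le
    · rw [← add_div]; exact div_le_div_of_nonneg_right (by linarith) n0.le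
  obtain ⟨x1, x2⟩ := log_diff n0 m3
  have q1 : ∀ y : ℝ, T / 2 ≤ y → |(n - m) / y| ≤ 2 * R / T := fun y hy => by
    rw [abs_div, abs_of_pos (by linarith : 0 < y), show 2 * R / T = R / (T / 2) by field_simp]
    gcongr
  have x3 : |Real.log n - Real.log m| ≤ 2 * R / T :=
    abs_le.2 ⟨(abs_le.1 (q1 n (by linarith))).1.trans x1, x2.trans (abs_le.1 (q1 m m2)).2⟩
  have x4 : |Real.log n - Real.log m - (n - m) / n| ≤ R ^ 2 / (T * (T / 2)) := by
    rw [abs_of_nonneg (by linarith)]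
    refine (sub_le_sub_right x2 _).trans ((show _ = (n - m) ^ 2 / (n * m : ℝ) by
      field_simp).trans_le ?_)
    exact div_le_div₀ (sq_nonneg _) (sq_le_sq' b.1 b.2) (by positivity) (by gcongr)
  have a := jj_near T1 h0 h2 t1 (x' := (n - m) / n) (x3.trans_lt (by
    rw [div_lt_iff₀ (by linarith)]; linarith)) (le_trans (add_le_add
      (mul_le_mul_of_nonneg_right x3 (by positivity)) ((mul_le_mul_of_nonneg_left x4
      (by linarith)).trans_eq (by field_simp; ring))) η0) η1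
  rw [tt, bc_rr h (Nat.cast_pos.1 m3).ne' m1, if_pos (not_lt.1 c), sub_zero,
    show ∀ r j F : ℂ, r / n * (lam m * j) - lam n * lam m / n * (-I * F) = lam m *
      ((r - lam n * exp (I * h * Real.log n)) * j + lam n * (exp (I * h * Real.log n) *
      (j - exp (I * h * Real.log T / 2) * F) + (exp (I * h * Real.log n) *
      exp (I * h * Real.log T / 2) + I) * F)) / n from fun r j F => by ring, norm_div,
    Complex.norm_natCast, add_zero]
  refine div_le_div_of_nonneg_right ((norm_mul_le_of_le (norm_lam m) (norm_add_le_of_le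
    (norm_mul_le_of_le (conj_rr h0 (by omega)) (norm_jj T1 h0 h2 t1 _)) (norm_mul_le_of_le
    (norm_lam n) (norm_add_le_of_le (show _ ≤ 4 * η + 24 * h by rwa [norm_mul, norm_eI, one_mul])
    (norm_mul_le_of_le hε (norm_FT _)))))).trans_eq (by ring)) n0.le

end

lemma row {T h τ : ℝ} (T1 : 8 ≤ T) (h0 : 0 ≤ h) (h2 : 24 * h ≤ 1) (t1 : |τ| ≤ T / 8) {K N n : ℕ}
    (K1 : 1 ≤ K) (n1 : 1 ≤ n) (n2 : n ≤ N) (N1 : (N : ℝ) ≤ K * T) {η ε c : ℝ} (hc : FT 0 = c)
    (R1 : 8 * (K : ℝ) ^ 2 ≤ T) (η0 : 2 * K ^ 2 / T * (1 + |τ|) + 4 * (K ^ 2) ^ 2 / T ≤ η)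
    (η1 : η ≤ 1) (ε0 : 0 ≤ ε)
    (hε : T ≤ n → ‖exp (I * h * Real.log n) * exp (I * h * Real.log T / 2) + I‖ ≤ ε) :
    (∑ m ∈ range (n + N + 1), tt T h τ N n m).im ≤ c * (exp (I * h * Real.log T / 2) *
      exp ((-1 + I * h) * Real.log n)).im + (24 * h + h * dl n) / n +
      (if Real.log T ≤ Real.log n then th K n (Real.log T - Real.log n) / n else 0) +
      (2 * K ^ 2 * ((h * dl n + (4 * η + 24 * h + ε) + if N < n + K ^ 2 then 3 else 0) / T) +
        320 / (T * K) + if (n : ℝ) < T then 320 / T else 0) := by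
  have n0 : (0 : ℝ) < n := Nat.cast_pos.2 n1
  have T0 : 0 < T := by linarith
  have K0 : (0 : ℝ) < K := Nat.cast_pos.2 K1
  have d0 := mul_nonneg h0 (dl_nonneg n)
  have η2 : 0 ≤ η := le_trans (by positivity) η0
  have far : ∀ a, (∑ k ∈ Ioc a N, (tt T h τ N n (n + k) + tt T h τ N n (n - k))).im ≤
      320 * n / T ^ 2 / (a + 1) := fun a => by
    refine (im_le_norm _).trans ((norm_sum_le_of_le _ (n := fun k : ℕ =>
      160 * n / T ^ 2 * ((k : ℝ) ^ 2)⁻¹) fun k hk => ?_).trans ?_)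
    · obtain ⟨k1, k2⟩ := mem_Ioc.1 hk
      have k0 : (0 : ℝ) < k := Nat.cast_pos.2 (by omega)
      refine (norm_add_le_of_le (tt_far T1 h0 h2 t1 n1 (by omega) k0 fun _ => by simp)
        (tt_far T1 h0 h2 t1 n1 (by omega) k0 fun e => ?_)).trans_eq (by ring)
      rw [Nat.cast_sub (by omega)]; simp
    · rw [← mul_sum, ← Ioo_add_one_right_eq_Ioc]
      exact (mul_le_mul_of_nonneg_left (sum_Ioo_inv_sq_le _ _) (by positivity)).trans_eq (by ring)
  have dg := (im_le_norm _).trans (tt_diag T1 h0 h2 t1 n1 n2 hc)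
  rw [sub_im, im_ofReal_mul] at dg
  rw [split_sum (by rw [tt, bc_zero, zero_mul, mul_zero]) n2, add_im, add_assoc _ (ite _ _ _)]
  refine add_le_add (by linarith) ?_
  simp only [Real.log_le_log_iff T0 n0]
  by_cases n3 : T ≤ n
  · have k1 : K ^ 2 < n := by
      have : ((K ^ 2 : ℕ) : ℝ) < n := by push_cast; nlinarith
      exact_mod_cast this
    rw [if_pos n3, if_neg (not_lt.2 n3), add_zero, ← sum_Ioc_consecutive _ (Nat.zero_le (K ^ 2))
      (by omega), add_im, ← add_assoc]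
    refine add_le_add ?_ ((far _).trans ?_)
    · rw [th, sum_div, im_sum, ← sub_le_iff_le_add', ← sum_sub_distrib]
      refine (sum_le_card_nsmul _ _ (2 * ((h * dl n + (4 * η + 24 * h + ε) +
        if N < n + K ^ 2 then 3 else 0) / T)) fun k hk => ?_).trans_eq (by simp; ring)
      obtain ⟨k2, k3⟩ := mem_Ioc.1 hk
      have k4 : (k : ℝ) ≤ K ^ 2 := by exact_mod_cast k3
      have one : ∀ m : ℕ, m ≤ n + K ^ 2 → |(n : ℝ) - m| ≤ K ^ 2 → (tt T h τ N n m).im -
          lam n * lam m * -(FT (T * ((n - m) / n))).re / n ≤ (h * dl n + (4 * η + 24 * h + ε) +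
          if N < n + K ^ 2 then 3 else 0) / T := fun m m1 m2 => by
        refine le_trans (le_of_eq ?_) (((im_le_norm _).trans (tt_near (N := N) T1 h0 h2 t1 n1 n3 R1 η0 η1
          (hε n3) (by omega) m2)).trans ?_)
        · rw [sub_im, ← ofReal_mul, ← ofReal_natCast, ← ofReal_div, im_ofReal_mul]
          simp; ring
        · gcongr
          split_ifs <;> first | omega | norm_num
      have a := one (n + k) (by omega) (by simpa using k4)
      have b := one (n - k) (by omega) (by rw [Nat.cast_sub (by omega)]; simpa using k4)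
      rw [Nat.cast_sub (by omega), sub_sub_cancel] at b
      rw [Nat.cast_add, sub_add_cancel_left] at a
      rw [Real.exp_sub, Real.exp_log T0, Real.exp_log n0, add_im, add_div,
        show -(k * (T / n)) = T * (-k / n) by ring, show k * (T / n) = T * (k / n) by ring]
      linarith
    · have : (n : ℝ) ≤ K * T := (Nat.cast_le.2 n2).trans N1
      calc _ ≤ 320 * (K * T) / T ^ 2 / K ^ 2 := by gcongr; push_cast; linarith
        _ = _ := by field_simp
  · rw [if_neg n3, if_pos (not_le.1 n3), zero_add]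
    refine (far 0).trans (le_add_of_nonneg_of_le (by positivity) ?_)
    calc _ ≤ 320 * T / T ^ 2 / 1 := by gcongr; exacts [(not_le.1 n3).le, by simp]
      _ = _ := by field_simp

end Pool.Agent.MP_f0209c_nt.Ch
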