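import Pool.Agent.MP_f0209c_nt.Ch.Mvt

/-! From mean values of Dirichlet polynomials to sums over short windows. -/

namespace Pool.Agent.MP_f0209c_nt.Ch
open Complex Filter Topology Finset ComplexConjugate MeasureTheory

/-- sum of the coefficients over a logarithmic window -/
noncomputable def ws (c : ℕ → ℂ) (S : Finset ℕ) (α β : ℝ) : ℂ :=
  ∑ n ∈ S, if α < Real.log n ∧ Real.log n ≤ β then c n else 0

lemma rgauss {b : ℝ} (hb : 0 < b) (x : ℝ) : Integrable (fun u => Real.exp (-b * (u - x) ^ 2)) ∧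
    ∫ u, Real.exp (-b * (u - x) ^ 2) = √(Real.pi / b) :=
  ⟨(integrable_exp_neg_mul_sq hb).comp_sub_right x,
    (integral_sub_right_eq_self (fun u => Real.exp (-b * u ^ 2)) x).trans (integral_gaussian b)⟩

lemma window_one {T : ℝ} (hT : 0 < T) (α β x : ℝ) :
    |(if α < x ∧ x ≤ β then 1 else 0) - (∫ u in Set.Ioc α β, Real.exp (-(T ^ 2 / 2) * (u - x) ^ 2)) /
      √(Real.pi / (T ^ 2 / 2))| ≤ 6 * (Real.exp (-(T * |x - α|)) + Real.exp (-(T * |x - β|))) := by
  obtain ⟨i1, e1⟩ := rgauss (b := T ^ 2 / 2) (by positivity) x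
  obtain ⟨i2, e2⟩ := rgauss (b := T ^ 2 / 4) (by positivity) x
  have p := Real.pi_pos
  set A := √(Real.pi / (T ^ 2 / 2)) with hA
  have A0 : 0 < A := by positivity
  have A1 : √(Real.pi / (T ^ 2 / 4)) ≤ 2 * A := Real.sqrt_le_iff.2 ⟨by positivity, by
    rw [mul_pow, hA, Real.sq_sqrt (by positivity), ← mul_div_assoc,
      div_le_div_iff₀ (by positivity) (by positivity)]
    nlinarith [mul_pos p (pow_pos hT 2)]⟩
  have key : ∀ E : Set ℝ, MeasurableSet E → (∀ u ∈ E, |x - α| ≤ |u - x| ∨ |x - β| ≤ |u - x|) →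
      |(∫ u in E, Real.exp (-(T ^ 2 / 2) * (u - x) ^ 2)) / A| ≤
        6 * (Real.exp (-(T * |x - α|)) + Real.exp (-(T * |x - β|))) := fun E hE h => by
    set r := Real.exp (-(T * |x - α|)) + Real.exp (-(T * |x - β|)) with hr
    have a : ∫ u in E, Real.exp (-(T ^ 2 / 2) * (u - x) ^ 2) ≤
        ∫ u in E, 3 * r * Real.exp (-(T ^ 2 / 4) * (u - x) ^ 2) :=
      setIntegral_mono_on i1.integrableOn (i2.const_mul _).integrableOn hE fun u hu => by
        have a1 := exp_sq_le (T * (u - x))
        rw [abs_mul, abs_of_pos hT] at a1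
        have a2 : Real.exp (-(T * |u - x|)) ≤ r := by
          rcases h u hu with c | c
          · exact le_add_of_le_of_nonneg (Real.exp_le_exp.2 (by nlinarith)) (Real.exp_pos _).le
          · exact le_add_of_nonneg_of_le (Real.exp_pos _).le (Real.exp_le_exp.2 (by nlinarith))
        rw [show -(T ^ 2 / 2) * (u - x) ^ 2 = -((T * (u - x)) ^ 2 / 4) + -(T ^ 2 / 4) * (u - x) ^ 2
          by ring, Real.exp_add]
        exact mul_le_mul_of_nonneg_right (by linarith) (Real.exp_pos _).le
    have b := (setIntegral_le_integral (s := E) (i2.const_mul (3 * r))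
      (ae_of_all _ fun u => by positivity)).trans_eq (integral_const_mul _ _)
    rw [e2] at b
    rw [abs_of_nonneg (div_nonneg (setIntegral_nonneg hE fun _ _ => (Real.exp_pos _).le) A0.le),
      div_le_iff₀ A0]
    have := mul_le_mul_of_nonneg_left A1 (show 0 ≤ 3 * r by positivity)
    linarith
  split_ifs with c
  · have := key (Set.Ioc α β)ᶜ measurableSet_Ioc.compl fun u hu => by
      rw [Set.mem_compl_iff, Set.mem_Ioc, not_and_or, not_lt, not_le] at hu
      rcases hu with h | h
      · left; rw [abs_of_pos (by linarith), abs_of_neg (by linarith)]; linarith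
      · right; rw [abs_of_nonpos (by linarith), abs_of_pos (by linarith)]; linarith
    rwa [← div_self A0.ne', ← sub_div, ← sub_eq_of_eq_add' (integral_add_compl measurableSet_Ioc
      i1).symm, e1] at *
  · rw [zero_sub, abs_neg]
    refine key _ measurableSet_Ioc fun u hu => ?_
    rw [not_and_or, not_lt, not_le] at c
    rcases c with h | h
    · left; rw [abs_of_nonpos (by linarith), abs_of_pos (by linarith [hu.1])]; linarith [hu.1]
    · right; rw [abs_of_pos (by linarith), abs_of_neg (by linarith [hu.2])]; linarith [hu.2]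

lemma ker_sum' {T : ℝ} (hT : 3 ≤ T) (a : ℝ) {S : Finset ℕ} (hS : 0 ∉ S) :
    ∑ n ∈ S, 1 / (n : ℝ) * Real.exp (-(T * |Real.log n - a|)) ≤ 2 * Real.exp (-a) + 6 / T := by
  have := mul_le_mul_of_nonneg_left (ker_sum (T := T - 1) (by linarith) a hS) (Real.exp_pos (-a)).le
  rw [mul_sum] at this
  refine (sum_le_sum fun n hn => ?_).trans (this.trans ?_)
  · rw [one_div, ← Real.exp_log (Nat.cast_pos.2 (Nat.pos_of_ne_zero fun e => hS (e ▸ hn))),
      Real.log_exp, ← Real.exp_neg, ← Real.exp_add, ← Real.exp_add, Real.exp_le_exp]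
    linarith [neg_abs_le (Real.log n - a)]
  · have e : Real.exp (-a) * (4 * Real.exp a / (T - 1)) = 4 / (T - 1) := by
      rw [Real.exp_neg]; field_simp
    have : 4 / (T - 1) ≤ 6 / T := by rw [div_le_div_iff₀ (by linarith) (by linarith)]; linarith
    rw [mul_add, e]; linarith

theorem windows {c : ℕ → ℂ} {S : Finset ℕ} (h : Sup c S) (hc : ∀ n, ‖c n‖ ≤ 1 / n) {T J M l : ℝ}
    (hT : 3 ≤ T) (hJ : Mv T (fun t => ‖dp c t‖ ^ 2) J) (hl : 0 < l) {ι : Type} (s : Finset ι)
    (w α β : ι → ℝ) (hw : ∀ i ∈ s, 0 ≤ w i) (hab : ∀ i ∈ s, α i ≤ β i)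
    (hM : ∀ x, ∑ i ∈ s, (if α i < x ∧ x ≤ β i then w i else 0) ≤ M) :
    ∑ i ∈ s, w i * ‖ws c S (α i) (β i)‖ ≤
      ∑ i ∈ s, w i * (l * (β i - α i) + 24 * Real.exp (-α i) + 72 / T) + M / l * J := by
  have T0 : 0 < T := by linarith
  have p := Real.pi_gt_three
  let G : ℕ → ℝ → ℝ := fun m u => Real.exp (-(T ^ 2 / 2) * (u - Real.log m) ^ 2)
  have iG : ∀ m, Integrable (G m) := fun m => (rgauss (by positivity) _).1
  obtain ⟨i1, e1⟩ := quad S c (k := fun m u => G m u) (K := fun m n => √Real.pi / T *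
      Real.exp (-(T ^ 2 * (Real.log m - Real.log n) ^ 2 / 4))) fun m n => by
    obtain ⟨a, b⟩ := rgauss (b := T ^ 2) (by positivity) ((Real.log m + Real.log n) / 2)
    have e : ∀ u : ℝ, (G m u : ℂ) * conj (G n u : ℂ) = (Real.exp (-T ^ 2 * (u - (Real.log m +
        Real.log n) / 2) ^ 2) * Real.exp (-(T ^ 2 * (Real.log m - Real.log n) ^ 2 / 4)) : ℝ) :=
      fun u => by
        rw [conj_ofReal, ← ofReal_mul, ← Real.exp_add, ← Real.exp_add]; congr 2; ring
    simp only [e]
    refine ⟨(a.mul_const _).ofReal, ?_⟩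
    rw [integral_complex_ofReal, integral_mul_const, b, Real.sqrt_div Real.pi_pos.le,
      Real.sqrt_sq T0.le]
  set B : ℝ → ℂ := fun u => ∑ m ∈ S, c m * G m u with hB
  have iB : Integrable B := integrable_finsetSum _ fun m _ => (iG m).ofReal.const_mul _
  have e2 : T ^ 2 * ∫ u, ‖B u‖ ^ 2 ≤ J := by
    refine le_trans (le_of_eq ?_) (hJ.int_le fun _ => by positivity)
    rw [(int_dp h T0).2, e1, QF]
    simp only [mul_sum]
    exact sum_congr rfl fun _ _ => sum_congr rfl fun _ _ => by field_simp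
  set A := √(Real.pi / (T ^ 2 / 2)) with hA
  have A1 : 1 / T ≤ A := Real.le_sqrt_of_sq_le (by
    rw [div_pow, div_le_div_iff₀ (by positivity) (by positivity)]; nlinarith [pow_pos T0 2])
  have A0 : 0 < A := lt_of_lt_of_le (by positivity) A1
  have one : ∀ a b : ℝ, a ≤ b → ‖ws c S a b‖ ≤ l * (b - a) + 24 * Real.exp (-a) + 72 / T +
      T ^ 2 / l * ∫ u in Set.Ioc a b, ‖B u‖ ^ 2 := fun a b hab => by
    have a1 : ‖ws c S a b - (∫ u in Set.Ioc a b, B u) / A‖ ≤ 24 * Real.exp (-a) + 72 / T := by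
      rw [hB, integral_finsetSum (f := fun m u => c m * G m u) _ fun m _ =>
        ((iG m).ofReal.const_mul _).integrableOn, ws, sum_div, ← sum_sub_distrib]
      refine le_trans (norm_sum_le_of_le _ (n := fun m : ℕ => 1 / (m : ℝ) * (6 * (Real.exp
        (-(T * |Real.log m - a|)) + Real.exp (-(T * |Real.log m - b|))))) fun m _ => ?_) ?_
      · refine le_trans (le_of_eq ?_) (norm_mul_le_of_le (hc m) ((norm_real _).trans_le
          (window_one T0 a b (Real.log m))))
        rw [integral_const_mul, integral_complex_ofReal]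
        congr 1
        split_ifs <;> push_cast <;> ring
      · simp only [mul_left_comm _ (6 : ℝ), mul_add, sum_add_distrib, ← mul_sum]
        have := Real.exp_le_exp.2 (neg_le_neg hab)
        have e : 72 / T = 12 * (6 / T) := by ring
        linarith [ker_sum' hT a h.1, ker_sum' hT b h.1]
    have a2 : ‖(∫ u in Set.Ioc a b, B u) / A‖ ≤
        ∫ u in Set.Ioc a b, (l + T ^ 2 / l * ‖B u‖ ^ 2) := by
      rw [← integral_div]
      refine norm_integral_le_of_norm_le ((integrable_const _).add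
        (i1.const_mul _).integrableOn) (ae_of_all _ fun u => ?_)
      rw [norm_div, norm_real, Real.norm_of_nonneg A0.le]
      refine (div_le_div_of_nonneg_left (norm_nonneg _) (by positivity) A1).trans ?_
      rw [div_div_eq_mul_div, div_one, div_mul_eq_mul_div, ← sub_le_iff_le_add', le_div_iff₀ hl]
      nlinarith [sq_nonneg (‖B u‖ * T - l), sq_nonneg l, sq_nonneg (‖B u‖ * T)]
    rw [integral_add (integrable_const _) (i1.const_mul _).integrableOn, integral_const_mul,
      setIntegral_const, Real.volume_real_Ioc_of_le hab, smul_eq_mul] at a2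
    linarith [norm_le_norm_sub_add (ws c S a b) ((∫ u in Set.Ioc a b, B u) / A)]
  refine (sum_le_sum fun i hi => mul_le_mul_of_nonneg_left (one _ _ (hab i hi)) (hw i hi)).trans ?_
  simp only [mul_add (w _) (_ + 72 / T), sum_add_distrib]
  refine add_le_add_right ?_ _
  have i2 : ∀ i, Integrable ((Set.Ioc (α i) (β i)).indicator fun u => w i * ‖B u‖ ^ 2) := fun i =>
    (i1.const_mul _).indicator measurableSet_Ioc
  have M0 : 0 ≤ M := le_trans (sum_nonneg fun i hi => by split_ifs; exacts [hw i hi, le_rfl]) (hM 0)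
  calc _ = T ^ 2 / l * ∫ u, ∑ i ∈ s, (Set.Ioc (α i) (β i)).indicator (fun u => w i * ‖B u‖ ^ 2) u := by
        rw [integral_finsetSum _ fun i _ => i2 i, mul_sum]
        refine sum_congr rfl fun i _ => ?_
        rw [integral_indicator measurableSet_Ioc, integral_const_mul]; ring
    _ ≤ T ^ 2 / l * ∫ u, M * ‖B u‖ ^ 2 := by
        refine mul_le_mul_of_nonneg_left (integral_mono (integrable_finsetSum _ fun i _ => i2 i)
          (i1.const_mul _) fun u => ?_) (by positivity)
        refine le_trans (le_of_eq ?_) (mul_le_mul_of_nonneg_right (hM u) (sq_nonneg _))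
        simp only [sum_mul, Set.indicator_apply, Set.mem_Ioc, ite_mul, zero_mul]
    _ ≤ _ := by
        rw [integral_const_mul]
        refine le_trans (le_of_eq (by ring)) (mul_le_mul_of_nonneg_left e2 (by positivity))

end Pool.Agent.MP_f0209c_nt.Ch
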