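import Pool.Agent.MP_f0209c_nt.Zeta
import Pool.Agent.MP_f0209c_nt.Cplx

/-! The logarithmic derivative of the zeta function in a zero-free half-plane. -/

namespace Pool.Agent.MP_f0209c_nt.Ch
open Complex Set Metric Filter Topology ComplexConjugate DirichletCharacter

/-- a zero-free half-plane -/
def QRH (δ : ℝ) : Prop := ∀ s : ℂ, 1 - δ < s.re → riemannZeta s ≠ 0

/-- the zeta function with its pole removed -/
noncomputable def gz : ℂ → ℂ := LFunctionTrivChar₁ 1

lemma gz_eq {s : ℂ} (hs : s ≠ 1) : gz s = (s - 1) * riemannZeta s := by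
  rw [gz, LFunctionTrivChar₁, Function.update_of_ne hs, LFunctionTrivChar, LFunction_modOne_eq]

lemma diff_gz : Differentiable ℂ gz := differentiable_LFunctionTrivChar₁ 1

lemma QRH.ne {δ : ℝ} (h : QRH δ) {s : ℂ} (hs : 1 - δ < s.re) : gz s ≠ 0 := by
  rcases eq_or_ne s 1 with rfl | e
  · exact LFunctionTrivChar₁_apply_one_ne_zero 1
  · rw [gz_eq e]; exact mul_ne_zero (sub_ne_zero.2 e) (h s hs)

/-- the regular part of the logarithmic derivative -/
noncomputable def DZ (s : ℂ) : ℂ := -deriv gz s / gz s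

lemma DZ_eq {s : ℂ} (hs : 1 < s.re) :
    LSeries (fun n => ArithmeticFunction.vonMangoldt n) s = 1 / (s - 1) + DZ s := by
  have e : s ≠ 1 := fun e => by simp [e] at hs
  have := sub_ne_zero.2 e
  have := riemannZeta_ne_zero_of_one_lt_re hs
  rw [ArithmeticFunction.LSeries_vonMangoldt_eq_deriv_riemannZeta_div hs, DZ, gz_eq e, gz,
    deriv_LFunctionTrivChar₁_apply_of_ne_one 1 e, LFunctionTrivChar, LFunction_modOne_eq]
  field_simp; ring

lemma QRH.diff {δ : ℝ} (h : QRH δ) {s : ℂ} (hs : 1 - δ < s.re) : DifferentiableAt ℂ DZ s :=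
  (diff_gz.deriv s).neg.div (diff_gz s) (h.ne hs)

lemma gz_upper : ∃ C : ℝ, 1 ≤ C ∧ ∀ s : ℂ, 1 / 10 < s.re → s.re ≤ 8 →
    ‖gz s‖ ≤ C * (9 + |s.im|) ^ 2 := by
  obtain ⟨C, C1, hC⟩ := zeta_upper
  obtain ⟨K, hK⟩ := ((isCompact_Icc (a := (0 : ℝ)) (b := 8)).reProdIm
    (isCompact_Icc (a := (-1 : ℝ)) (b := 1))).exists_bound_of_continuousOn
    diff_gz.continuous.continuousOn
  refine ⟨max C K, le_max_of_le_left C1, fun s h1 h2 => ?_⟩
  have a := abs_nonneg s.im
  by_cases c : |s.im| ≤ 1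
  · refine (hK s ⟨⟨by linarith, h2⟩, abs_le.1 c⟩).trans ((le_max_right C K).trans
      (le_mul_of_one_le_right (by positivity) (by nlinarith)))
  have n := norm_le_abs_re_add_abs_im s
  rw [abs_of_nonneg (by linarith : 0 ≤ s.re)] at n
  have z : ‖riemannZeta s‖ ≤ C * ‖s‖ := by
    rcases le_total 0 s.im with d | d
    · exact hC s h1 (by rw [abs_of_nonneg d] at c; linarith)
    · have := hC (conj s) (by simpa using h1) (by rw [abs_of_nonpos d] at c; simp; linarith)
      rwa [riemannZeta_conj, norm_conj, norm_conj] at this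
  rw [gz_eq fun e => c (by simp [e]), norm_mul, mul_comm, sq, ← mul_assoc]
  refine mul_le_mul (z.trans (mul_le_mul (le_max_left _ _) (by linarith) (norm_nonneg _)
    (by positivity))) ((norm_sub_le _ _).trans (by rw [norm_one]; linarith)) (norm_nonneg _)
    (by positivity)

/-- logarithm of the height -/
noncomputable def Lg (t : ℝ) : ℝ := Real.log (3 + |t|)

lemma one_le_Lg (t : ℝ) : 1 ≤ Lg t := by
  rw [Lg, Real.le_log_iff_exp_le (by positivity)]
  linarith [Real.exp_one_lt_d9, abs_nonneg t]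

lemma Lg_le (t y : ℝ) : Lg y ≤ Lg t + |y - t| := by
  rw [Lg, Lg, Real.log_le_iff_le_exp (by positivity), Real.exp_add, Real.exp_log (by positivity)]
  have := abs_sub_abs_le_abs_sub y t
  nlinarith [Real.add_one_le_exp |y - t|, abs_nonneg t, abs_nonneg (y - t)]

section
variable {δ : ℝ} (h : QRH δ) (h0 : 0 < δ) (h1 : δ ≤ 1 / 2)
include h h0 h1

lemma DZ_log : ∃ C : ℝ, 1 ≤ C ∧ ∀ s : ℂ, 1 - δ / 2 ≤ s.re → s.re ≤ 4 → ‖DZ s‖ ≤ C * Lg s.im := by
  obtain ⟨C, C1, hC⟩ := gz_upper
  obtain ⟨m, m0, hm⟩ := zeta_lower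
  refine ⟨1 + 128 / δ ^ 2 * (|Real.log (C / m)| + 6), le_add_of_nonneg_right (by positivity),
    fun s s1 s2 => ?_⟩
  set c : ℂ := 4 + s.im * I with hc
  have box : ∀ z ∈ ball c (3 + δ), |z.re - 4| < 3 + δ ∧ |z.im - s.im| < 3 + δ := fun z hz => by
    have := mem_ball_iff_norm.1 hz
    exact ⟨lt_of_le_of_lt (by simpa [hc] using abs_re_le_norm (z - c)) this,
      lt_of_le_of_lt (by simpa [hc] using abs_im_le_norm (z - c)) this⟩
  obtain ⟨l, hl, l0, el⟩ := exists_log (c := c) (r := 3 + δ) (by linarith) diff_gz.differentiableOn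
    fun z hz => h.ne (by linarith [(abs_lt.1 (box z hz).1).1])
  have L1 := one_le_Lg s.im
  set M := (|Real.log (C / m)| + 6) * Lg s.im with hM
  have M0 : 0 < M := by positivity
  have gc : m ≤ ‖gz c‖ := by
    rw [gz_eq fun e => by have := congrArg re e; simp [hc] at this, norm_mul]
    refine (hm c (by simp [hc])).trans (le_mul_of_one_le_left (norm_nonneg _)
      (le_trans ?_ (abs_re_le_norm _)))
    simp [hc]; norm_num
  have hre : ∀ z ∈ ball c (3 + δ), (l z).re ≤ M := fun z hz => by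
    have a := abs_lt.1 (box z hz).1
    have b := hC z (by linarith) (by linarith)
    have t0 := abs_nonneg s.im
    have d : 9 + |z.im| ≤ (3 + |s.im|) ^ 3 := by
      have := abs_sub_abs_le_abs_sub z.im s.im
      nlinarith [(box z hz).2, pow_nonneg t0 2, pow_nonneg t0 3]
    rw [el z hz, norm_mul, norm_exp] at b
    have e : Real.exp (l z).re ≤ C / m * ((3 + |s.im|) ^ 3) ^ 2 := by
      rw [div_mul_eq_mul_div, le_div_iff₀' m0]
      exact (mul_le_mul_of_nonneg_right gc (Real.exp_pos _).le).trans (b.trans (by gcongr))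
    rw [← Real.le_log_iff_exp_le (by positivity), Real.log_mul (by positivity) (by positivity),
      ← pow_mul, Real.log_pow, ← Lg] at e
    have := le_mul_of_one_le_right (abs_nonneg (Real.log (C / m))) L1
    push_cast at e
    linarith [le_abs_self (Real.log (C / m))]
  have hmap : ∀ z ∈ ball (0 : ℂ) (3 + δ), c + z ∈ ball c (3 + δ) := fun z hz => by simpa using hz
  have sc : ‖s - c‖ ≤ 3 + δ / 2 := by
    rw [show s - c = ((s.re - 4 : ℝ) : ℂ) from Complex.ext (by simp [hc]) (by simp [hc]), norm_real,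
      Real.norm_eq_abs, abs_le]
    constructor <;> linarith
  have sub : ∀ z ∈ closedBall s (δ / 4), ‖z - c‖ ≤ 3 + 3 * δ / 4 := fun z hz => by
    linarith [norm_sub_le_norm_sub_add_norm_sub z s c, mem_closedBall_iff_norm.1 hz]
  have d := norm_deriv_le_of_forall_mem_sphere_norm_le (f := l) (c := s) (R := δ / 4)
    (C := 32 * M / δ) (by positivity) ((hl.mono (closure_ball_subset_closedBall.trans fun z hz =>
      mem_ball_iff_norm.2 (by linarith [sub z hz]))).diffContOnCl) fun z hz => by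
      have a := sub z (sphere_subset_closedBall hz)
      have b := borelCaratheodory_zero (f := fun z => l (c + z)) (R := 3 + δ) (z := z - c) M0
        (hl.comp (by fun_prop) hmap) (fun z hz => hre _ (hmap z hz)) (by linarith)
        (by rw [mem_ball_zero_iff]; linarith) (by simpa using l0)
      simp only [add_sub_cancel] at b
      refine b.trans ?_
      rw [div_le_div_iff₀ (by linarith) h0]
      nlinarith [mul_pos M0 h0, mul_le_mul_of_nonneg_left a (mul_pos M0 h0).le,
        mul_le_mul_of_nonneg_left a M0.le]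
  have hs : ball c (3 + δ) ∈ 𝓝 s := isOpen_ball.mem_nhds (mem_ball_iff_norm.2 (by linarith))
  have e : deriv gz s = gz s * deriv l s := by
    rw [(eventuallyEq_of_mem hs el).deriv_eq, ((hl.differentiableAt hs).hasDerivAt.cexp.const_mul
      (gz c)).deriv, el s (mem_of_mem_nhds hs), mul_assoc]
  rw [DZ, e, neg_div, norm_neg, mul_div_cancel_left₀ _ (h.ne (by linarith))]
  refine d.trans (le_trans (le_of_eq ?_) (mul_le_mul_of_nonneg_right
    (le_add_of_nonneg_left zero_le_one) (by linarith)))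
  rw [hM]; field_simp; norm_num

lemma DZ_sqrt : ∃ C : ℝ, 0 ≤ C ∧ ∀ s : ℂ, 1 ≤ s.re → s.re ≤ 1 + δ / 2 →
    ‖DZ s‖ ≤ C * √(Lg s.im) := by
  obtain ⟨C, C1, hC⟩ := DZ_log h h0 h1
  have hs := ArithmeticFunction.LSeriesSummable_vonMangoldt (s := (1 + δ / 2 : ℝ)) (by simpa using h0)
  set K := ∑' n, ‖LSeries.term (fun n => ArithmeticFunction.vonMangoldt n) (1 + δ / 2 : ℝ) n‖
  have K0 : 0 ≤ K := tsum_nonneg fun _ => norm_nonneg _
  set b := 3 * (K + 2 / δ) + 1 with hb
  have b1 : 1 ≤ b := le_add_of_nonneg_left (by positivity)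
  refine ⟨√(6 * C) * b, by positivity, fun s s1 s2 => ?_⟩
  have L1 := one_le_Lg s.im
  let F : ℂ → ℂ := fun z => DZ z * exp ((z - (1 + s.im * I)) ^ 2)
  have nF : ∀ z, ‖F z‖ = ‖DZ z‖ * Real.exp ((z.re - 1) ^ 2 - (z.im - s.im) ^ 2) := fun z => by
    rw [norm_mul, norm_exp]; simp [sq]
  have e3 : ∀ z : ℂ, |z.re - 1| ≤ δ / 2 → Real.exp ((z.re - 1) ^ 2 - (z.im - s.im) ^ 2) ≤
      3 * Real.exp (-(z.im - s.im) ^ 2) := fun z hz => by
    rw [sub_eq_add_neg, Real.exp_add]
    refine mul_le_mul_of_nonneg_right ((Real.exp_le_exp.2 (show _ ≤ 1 from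
      (sq_le_one_iff_abs_le_one _).2 (by linarith))).trans ?_) (Real.exp_pos _).le
    linarith [Real.exp_one_lt_d9]
  have up : ∀ z : ℂ, 1 - δ / 2 ≤ z.re → z.re ≤ 1 + δ / 2 → ‖F z‖ ≤ 6 * C * Lg s.im := fun z a b => by
    rw [nF]
    refine (mul_le_mul ((hC z a (by linarith)).trans (mul_le_mul_of_nonneg_left (Lg_le s.im z.im)
      (by linarith))) (e3 z (abs_le.2 ⟨by linarith, by linarith⟩)) (Real.exp_pos _).le
      (by positivity)).trans ?_
    set x := |z.im - s.im|
    have x0 : 0 ≤ x := abs_nonneg _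
    rw [← sq_abs, Real.exp_neg, ← div_eq_mul_inv, ← mul_div_assoc, div_le_iff₀ (Real.exp_pos _)]
    have := mul_le_mul_of_nonneg_left (Real.add_one_le_exp (x ^ 2))
      (show 0 ≤ 6 * C * Lg s.im by positivity)
    have : C * (Lg s.im + x) * 3 ≤ 6 * C * Lg s.im * (x ^ 2 + 1) := by
      have : Lg s.im + x ≤ 2 * Lg s.im * (x ^ 2 + 1) := by nlinarith [sq_nonneg (x - 1)]
      nlinarith
    linarith
  have := HadamardThreeLines.norm_le_interp_of_mem_verticalClosedStrip' (f := F) (z := s)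
    (l := 1 - δ / 2) (u := 1 + δ / 2) (a := 6 * C * Lg s.im) (b := b) (by linarith)
    ⟨by linarith, s2⟩ (DifferentiableOn.diffContOnCl fun z hz => by
      rw [HadamardThreeLines.verticalStrip, closure_preimage_re, closure_Ioo (by linarith)]
        at hz
      exact ((h.diff (by linarith [hz.1])).mul (by fun_prop)).differentiableWithinAt)
    ⟨_, forall_mem_image.2 fun z hz => up z hz.1 hz.2⟩
    (fun z hz => up z (le_of_eq hz.symm) (by rw [show z.re = _ from hz]; linarith)) fun z hz => by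
      have z1 : z.re = 1 + δ / 2 := hz
      have a : ‖LSeries (fun n => ArithmeticFunction.vonMangoldt n) z‖ ≤ K :=
        tsum_of_norm_bounded hs.norm.hasSum fun n =>
          LSeries.norm_term_le_of_re_le_re _ (by simp [z1]) n
      have a2 : ‖1 / (z - 1)‖ ≤ 2 / δ := by
        rw [norm_div, norm_one, ← one_div_div δ 2]
        exact one_div_le_one_div_of_le (by positivity)
          (le_trans (by rw [sub_re, z1]; simp) (re_le_norm _))
      rw [nF, eq_sub_of_add_eq' (DZ_eq (by linarith)).symm]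
      refine (mul_le_mul (norm_sub_le_of_le a a2) ((e3 z (by rw [z1]; simp [abs_of_pos h0, abs_div])
        ).trans (mul_le_of_le_one_right (by norm_num) (Real.exp_le_one_iff.2
          (neg_nonpos.2 (sq_nonneg _))))) (Real.exp_pos _).le (by positivity)).trans (by linarith)
  rw [nF, sub_self, zero_pow two_ne_zero, sub_zero] at this
  refine (le_mul_of_one_le_right (norm_nonneg _) (Real.one_le_exp (sq_nonneg _))).trans
    (this.trans ?_)
  rw [mul_right_comm _ b, ← Real.sqrt_mul (by positivity), Real.sqrt_eq_rpow]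
  have t1 : 1 / 2 ≤ (s.re - (1 - δ / 2)) / (1 + δ / 2 - (1 - δ / 2)) := by
    rw [le_div_iff₀ (by linarith)]; linarith
  have t2 : (s.re - (1 - δ / 2)) / (1 + δ / 2 - (1 - δ / 2)) ≤ 1 := by
    rw [div_le_one (by linarith)]; linarith
  exact mul_le_mul (Real.rpow_le_rpow_of_exponent_le (by nlinarith) (by linarith))
    ((Real.rpow_le_rpow_of_exponent_le b1 t2).trans_eq (Real.rpow_one _)) (by positivity)
    (by positivity)

lemma zeta_ratio : ∃ C : ℝ, 0 ≤ C ∧ ∀ a b t : ℝ, 0 ≤ a → a ≤ b → b ≤ δ / 2 → 1 ≤ |t| →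
    Real.log ‖riemannZeta (1 + a + t * I)‖ ≤
      Real.log ‖riemannZeta (1 + b + t * I)‖ + 1 + C * (b * √(Lg t)) := by
  obtain ⟨C, C0, hC⟩ := DZ_sqrt h h0 h1
  refine ⟨C, C0, fun a b t a0 ab b1 t1 => ?_⟩
  have d : ∀ x : ℝ, HasDerivAt (fun x : ℝ => gz (1 + b - x + t * I))
      (deriv gz (1 + b - x + t * I) * -1) x := fun x =>
    ((diff_gz _).hasDerivAt.comp (x : ℂ) (((hasDerivAt_id (x : ℂ)).const_sub _).add_const _)
      ).comp_ofReal
  have := norm_le_gronwallBound_of_norm_deriv_right_le (a := 0) (b := b - a) (ε := 0)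
    (K := C * √(Lg t)) (fun x _ => (d x).continuousAt.continuousWithinAt)
    (fun x _ => (d x).hasDerivWithinAt) le_rfl (fun x hx => by
      have e := hC (1 + b - x + t * I) (by simp; linarith [hx.2]) (by simp; linarith [hx.1])
      rw [DZ, norm_div, norm_neg, div_le_iff₀ (norm_pos_iff.2 (h.ne (by simp; linarith [hx.2])))]
        at e
      simpa using e) (b - a) (right_mem_Icc.2 (by linarith))
  have ne : ∀ x : ℝ, (1 + x + t * I : ℂ) ≠ 1 := fun x e => by
    have := congrArg im e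
    simp at this; simp [this] at t1; linarith
  have z0 : ∀ x : ℝ, 0 ≤ x → 0 < ‖riemannZeta (1 + x + t * I)‖ := fun x hx =>
    norm_pos_iff.2 (h _ (by simp; linarith))
  rw [gronwallBound_ε0, show (1 + b - (b - a : ℝ) + t * I : ℂ) = 1 + a + t * I by push_cast; ring,
    ofReal_zero, sub_zero, sub_zero, gz_eq (ne a), gz_eq (ne b), norm_mul, norm_mul] at this
  have n1 : |t| ≤ ‖(1 + a + t * I - 1 : ℂ)‖ := by simpa using abs_im_le_norm (1 + a + t * I - 1 : ℂ)
  have n2 : ‖(1 + b + t * I - 1 : ℂ)‖ ≤ 2 * |t| := (norm_le_abs_re_add_abs_im _).trans (by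
    simp [abs_of_nonneg (a0.trans ab)]; linarith)
  rw [← Real.log_exp 1, ← Real.log_exp (C * _), ← Real.log_mul (z0 b (a0.trans ab)).ne'
    (Real.exp_pos _).ne', ← Real.log_mul (mul_pos (z0 b (a0.trans ab)) (Real.exp_pos _)).ne'
    (Real.exp_pos _).ne']
  refine Real.log_le_log (z0 a a0) (le_of_mul_le_mul_left ((mul_le_mul_of_nonneg_right n1
    (norm_nonneg _)).trans (this.trans ?_)) (show 0 < |t| by linarith))
  rw [← mul_assoc]
  refine mul_le_mul ?_ (Real.exp_le_exp.2 ?_) (Real.exp_pos _).le (by positivity)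
  · have := mul_le_mul_of_nonneg_right n2 (z0 b (a0.trans ab)).le
    have := mul_le_mul_of_nonneg_left (Real.add_one_le_exp 1)
      (show 0 ≤ |t| * ‖riemannZeta (1 + b + t * I)‖ by positivity)
    linarith
  · rw [mul_comm b, ← mul_assoc]
    exact mul_le_mul_of_nonneg_left (by linarith) (by positivity)

end

end Pool.Agent.MP_f0209c_nt.Ch
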